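import Pool.Agent.Lib.MP_4a77c6_an.Iface

open Set Metric MeasureTheory Filter Topology
open scoped ENNReal NNReal

namespace MP4a77c6

/-- tent function of half width `a` -/
noncomputable def A1tent (a s : ℝ) : ℝ := max 0 (a - |s|)

theorem A1tent_nonneg (a s : ℝ) : 0 ≤ A1tent a s := le_max_left _ _

theorem A1tent_lip (a : ℝ) : LipschitzWith 1 (A1tent a) := by
  refine LipschitzWith.of_dist_le_mul (fun x y => ?_)
  simp only [Real.dist_eq, NNReal.coe_one, one_mul, A1tent]
  refine (abs_max_sub_max_le_max _ _ _ _).trans ?_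
  simp only [sub_self, abs_zero]
  refine max_le (abs_nonneg _) ?_
  have : a - |x| - (a - |y|) = |y| - |x| := by ring
  rw [this, abs_sub_comm x y]
  exact abs_abs_sub_abs_le_abs_sub y x

theorem A1tent_cont (a : ℝ) : Continuous (A1tent a) := (A1tent_lip a).continuous

theorem A1tent_zero {a s : ℝ} (h : a ≤ |s|) : A1tent a s = 0 := by
  unfold A1tent; exact max_eq_left (by linarith)

theorem A1tent_le {a : ℝ} (ha : 0 ≤ a) (s : ℝ) : A1tent a s ≤ a := by
  unfold A1tent; exact max_le ha (by linarith [abs_nonneg s])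

theorem A1tent_pos {a : ℝ} (ha : 0 < a) : 0 < A1tent a 0 := by
  unfold A1tent; simp [ha]

theorem A1tent_compact (a : ℝ) : HasCompactSupport (A1tent a) := by
  refine HasCompactSupport.intro (isCompact_Icc (a := -a) (b := a)) (fun x hx => ?_)
  refine A1tent_zero ?_
  by_contra h
  push Not at h
  exact hx ⟨by linarith [neg_abs_le x], by linarith [le_abs_self x]⟩

theorem A1tent_integral_pos {a : ℝ} (ha : 0 < a) : 0 < ∫ u, A1tent a u := by
  refine (A1tent_cont a).integral_pos_of_hasCompactSupport_nonneg_nonzero (A1tent_compact a)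
    (A1tent_nonneg a) (x := 0) (A1tent_pos ha).ne'

/-- autocorrelation of the tent -/
noncomputable def A1psi (a v : ℝ) : ℝ := ∫ u, A1tent a u * A1tent a (u + v)

theorem A1psi_nonneg (a v : ℝ) : 0 ≤ A1psi a v :=
  integral_nonneg (fun _ => mul_nonneg (A1tent_nonneg _ _) (A1tent_nonneg _ _))

theorem A1psi_cont {a : ℝ} (ha : 0 ≤ a) : Continuous (A1psi a) := by
  unfold A1psi
  refine continuous_of_dominated (bound := fun u => A1tent a u * a) ?_ ?_ ?_ ?_
  · intro v
    exact ((A1tent_cont a).mul ((A1tent_cont a).comp (continuous_id.add continuous_const))).aestronglyMeasurable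
  · intro v
    refine Eventually.of_forall (fun u => ?_)
    rw [Real.norm_eq_abs, abs_of_nonneg (mul_nonneg (A1tent_nonneg _ _) (A1tent_nonneg _ _))]
    exact mul_le_mul_of_nonneg_left (A1tent_le ha _) (A1tent_nonneg _ _)
  · exact ((A1tent_cont a).integrable_of_hasCompactSupport (A1tent_compact a)).mul_const a
  · refine Eventually.of_forall (fun u => ?_)
    exact continuous_const.mul ((A1tent_cont a).comp (continuous_const.add continuous_id))

theorem A1psi_zero {a v : ℝ} (h : 2 * a ≤ |v|) : A1psi a v = 0 := by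
  unfold A1psi
  have : (fun u => A1tent a u * A1tent a (u + v)) = fun _ => 0 := by
    funext u
    by_cases hu : a ≤ |u|
    · rw [A1tent_zero hu, zero_mul]
    · push Not at hu
      rw [A1tent_zero (s := u + v), mul_zero]
      have h2 : |v| ≤ |u + v| + |u| := by
        have := abs_sub (u + v) u
        simpa using this
      linarith
  rw [this]; simp

theorem A1psi_pos {a : ℝ} (ha : 0 < a) : 0 < A1psi a 0 := by
  unfold A1psi
  simp only [add_zero]
  refine ((A1tent_cont a).mul (A1tent_cont a)).integral_pos_of_hasCompactSupport_nonneg_nonzero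
    ((A1tent_compact a).mul_right) (fun u => mul_nonneg (A1tent_nonneg _ _) (A1tent_nonneg _ _))
    (x := 0) ?_
  have := A1tent_pos ha
  simpa using this.ne'

theorem A1psi_compact (a : ℝ) : HasCompactSupport (A1psi a) := by
  refine HasCompactSupport.intro (isCompact_Icc (a := -(2 * a)) (b := 2 * a)) (fun x hx => ?_)
  refine A1psi_zero ?_
  by_contra h
  push Not at h
  exact hx ⟨by linarith [neg_abs_le x], by linarith [le_abs_self x]⟩

theorem A1_transform_diff {μ : Measure ℝ} {h : ℝ → ℝ} (hm : AEStronglyMeasurable h μ)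
    {I : Set ℝ} (hI : IsOpen I) (hint : ∀ r ∈ I, Integrable (fun t => h t * Real.exp (r * t)) μ) :
    DifferentiableOn ℂ (fun z : ℂ => ∫ t, (h t : ℂ) * Complex.exp (z * t) ∂μ) {z | z.re ∈ I} := by
  intro z₀ hz₀
  obtain ⟨δ, hδ, hball⟩ := Metric.isOpen_iff.1 hI _ hz₀
  set t := δ / 3 with ht_def
  have ht : 0 < t := by positivity
  have hr1 : z₀.re + 2 * t ∈ I := hball (by
    rw [Metric.mem_ball, Real.dist_eq]
    have : z₀.re + 2 * t - z₀.re = 2 * t := by ring
    rw [this, abs_of_pos (by positivity)]; rw [ht_def]; linarith)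
  have hr2 : z₀.re - 2 * t ∈ I := hball (by
    rw [Metric.mem_ball, Real.dist_eq]
    have : z₀.re - 2 * t - z₀.re = -(2 * t) := by ring
    rw [this, abs_neg, abs_of_pos (by positivity)]; rw [ht_def]; linarith)
  have hmc : AEStronglyMeasurable (fun x => (h x : ℂ)) μ :=
    Complex.continuous_ofReal.comp_aestronglyMeasurable hm
  have hexp : ∀ z : ℂ, AEStronglyMeasurable (fun x : ℝ => Complex.exp (z * x)) μ := fun z => by
    apply Continuous.aestronglyMeasurable; fun_prop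
  have key := hasDerivAt_integral_of_dominated_loc_of_deriv_le (μ := μ) (𝕜 := ℂ)
    (F := fun (z : ℂ) (x : ℝ) => (h x : ℂ) * Complex.exp (z * x))
    (F' := fun (z : ℂ) (x : ℝ) => (h x : ℂ) * (Complex.exp (z * x) * x))
    (x₀ := z₀) (s := ball z₀ t)
    (bound := fun x => (1 / t) * (|h x * Real.exp ((z₀.re + 2 * t) * x)| +
      |h x * Real.exp ((z₀.re - 2 * t) * x)|))
    (Metric.ball_mem_nhds _ ht) ?_ ?_ ?_ ?_ ?_ ?_
  · exact key.2.differentiableAt.differentiableWithinAt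
  · exact Eventually.of_forall (fun z => hmc.mul (hexp z))
  · refine ((hint _ hz₀).norm).mono' (hmc.mul (hexp z₀)) (Eventually.of_forall fun x => ?_)
    rw [norm_mul, norm_mul, Complex.norm_real, Complex.norm_exp]
    simp [Complex.mul_re]
  · refine hmc.mul ((hexp z₀).mul ?_)
    exact Complex.continuous_ofReal.aestronglyMeasurable
  · refine Eventually.of_forall (fun x z hz => ?_)
    have h1 : ‖(h x : ℂ) * (Complex.exp (z * x) * x)‖ = |h x| * (Real.exp (z.re * x) * |x|) := by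
      rw [norm_mul, norm_mul, Complex.norm_exp, Complex.norm_real, Complex.norm_real]
      simp [Complex.mul_re]
    rw [h1, abs_mul, abs_mul, Real.abs_exp, Real.abs_exp]
    have h2 : |z.re - z₀.re| ≤ t := by
      have := Complex.abs_re_le_norm (z - z₀)
      rw [Complex.sub_re] at this
      exact this.trans (by rw [← dist_eq_norm]; exact (Metric.mem_ball.1 hz).le)
    have h3 : z.re * x ≤ z₀.re * x + t * |x| := by
      have : (z.re - z₀.re) * x ≤ t * |x| := by
        calc (z.re - z₀.re) * x ≤ |(z.re - z₀.re) * x| := le_abs_self _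
          _ = |z.re - z₀.re| * |x| := abs_mul _ _
          _ ≤ t * |x| := mul_le_mul_of_nonneg_right h2 (abs_nonneg _)
      linarith
    have h4 : |x| ≤ (1 / t) * Real.exp (t * |x|) := by
      have := Real.add_one_le_exp (t * |x|)
      rw [div_mul_eq_mul_div, one_mul, le_div_iff₀ ht]
      linarith
    have h5 : Real.exp (z.re * x) * |x| ≤
        (1 / t) * Real.exp (z₀.re * x + 2 * t * |x|) := by
      calc Real.exp (z.re * x) * |x| ≤
          Real.exp (z₀.re * x + t * |x|) * ((1 / t) * Real.exp (t * |x|)) :=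
            mul_le_mul (Real.exp_le_exp.2 h3) h4 (abs_nonneg _) (Real.exp_pos _).le
        _ = (1 / t) * (Real.exp (z₀.re * x + t * |x|) * Real.exp (t * |x|)) := by ring
        _ = _ := by rw [← Real.exp_add]; ring_nf
    have h6 : Real.exp (z₀.re * x + 2 * t * |x|) ≤ Real.exp ((z₀.re + 2 * t) * x) +
        Real.exp ((z₀.re - 2 * t) * x) := by
      rcases abs_cases x with ⟨hx, _⟩ | ⟨hx, _⟩
      · rw [hx]
        have : z₀.re * x + 2 * t * x = (z₀.re + 2 * t) * x := by ring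
        rw [this]; linarith [Real.exp_pos ((z₀.re - 2 * t) * x)]
      · rw [hx]
        have : z₀.re * x + 2 * t * -x = (z₀.re - 2 * t) * x := by ring
        rw [this]; linarith [Real.exp_pos ((z₀.re + 2 * t) * x)]
    calc |h x| * (Real.exp (z.re * x) * |x|)
        ≤ |h x| * ((1 / t) * (Real.exp ((z₀.re + 2 * t) * x) + Real.exp ((z₀.re - 2 * t) * x))) := by
          refine mul_le_mul_of_nonneg_left (h5.trans ?_) (abs_nonneg _)
          exact mul_le_mul_of_nonneg_left h6 (by positivity)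
      _ = _ := by ring
  · exact (((hint _ hr1).abs).add ((hint _ hr2).abs)).const_mul _
  · refine Eventually.of_forall (fun x z _ => ?_)
    have h0 : HasDerivAt (fun z : ℂ => z * (x : ℂ)) (x : ℂ) z := by
      simpa using (hasDerivAt_id z).mul_const (x : ℂ)
    exact (h0.cexp).const_mul _

/-- Laplace transform of the kernel -/
noncomputable def A1psihat (a : ℝ) (z : ℂ) : ℂ :=
  ∫ v, (A1psi a v : ℂ) * Complex.exp (z * v)

theorem A1psi_exp_integrable {a : ℝ} (ha : 0 ≤ a) (r : ℝ) :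
    Integrable (fun v => A1psi a v * Real.exp (r * v)) := by
  refine Continuous.integrable_of_hasCompactSupport ?_ ((A1psi_compact a).mul_right)
  exact (A1psi_cont ha).mul (by fun_prop)

theorem A1psihat_diff {a : ℝ} (ha : 0 ≤ a) : Differentiable ℂ (A1psihat a) := by
  have := A1_transform_diff (μ := volume) (h := A1psi a) (A1psi_cont ha).aestronglyMeasurable
    (I := univ) isOpen_univ (fun r _ => A1psi_exp_integrable ha r)
  intro z
  exact (this z (mem_univ _)).differentiableAt (by simp)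

theorem A1psihat_real (a x : ℝ) :
    A1psihat a x = ((∫ v, A1psi a v * Real.exp (x * v) : ℝ) : ℂ) := by
  unfold A1psihat
  rw [← integral_complex_ofReal]
  congr 1
  funext v
  push_cast
  rfl

theorem A1psihat_ne {a : ℝ} (ha : 0 < a) {z : ℂ} (hz : |z.im| * (2 * a) < Real.pi / 2) :
    A1psihat a z ≠ 0 := by
  have hint : Integrable (fun v : ℝ => (A1psi a v : ℂ) * Complex.exp (z * v)) := by
    refine Continuous.integrable_of_hasCompactSupport ?_ ?_
    · exact (Complex.continuous_ofReal.comp (A1psi_cont ha.le)).mul (by fun_prop)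
    · refine HasCompactSupport.mul_right ?_
      exact (A1psi_compact a).comp_left (g := fun x : ℝ => (x : ℂ)) Complex.ofReal_zero
  have hre : ∫ v : ℝ, A1psi a v * (Real.exp (z.re * v) * Real.cos (z.im * v)) =
      (A1psihat a z).re := by
    unfold A1psihat
    have h1 := integral_re hint
    simp only [RCLike.re_to_complex] at h1
    rw [← h1]
    congr 1
    funext v
    simp [Complex.exp_re, Complex.mul_re, Complex.mul_im]
  have hpos : 0 < ∫ v : ℝ, A1psi a v * (Real.exp (z.re * v) * Real.cos (z.im * v)) := by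
    refine Continuous.integral_pos_of_hasCompactSupport_nonneg_nonzero (x := 0) ?_ ?_ ?_ ?_
    · exact (A1psi_cont ha.le).mul (by fun_prop)
    · exact (A1psi_compact a).mul_right
    · intro v
      by_cases hv : 2 * a ≤ |v|
      · simp [A1psi_zero hv]
      · push Not at hv
        refine mul_nonneg (A1psi_nonneg _ _) (mul_nonneg (Real.exp_pos _).le ?_)
        have : |z.im * v| < Real.pi / 2 := by
          rw [abs_mul]
          exact lt_of_le_of_lt (mul_le_mul_of_nonneg_left hv.le (abs_nonneg _)) hz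
        rw [abs_lt] at this
        exact (Real.cos_pos_of_mem_Ioo ⟨this.1, this.2⟩).le
    · have := A1psi_pos ha
      simpa using this.ne'
  intro h0
  rw [hre, h0] at hpos
  simp at hpos

/-- the smoothed renewal function -/
noncomputable def A1N {S : Type*} (g ℓ : S → ℝ) (a T : ℝ) : ℝ := ∑' s, g s * A1psi a (ℓ s - T)

theorem A1N_summable {S : Type*} {g ℓ : S → ℝ} {a : ℝ} (hfin : ∀ R, {s | ℓ s ≤ R}.Finite) (T : ℝ) :
    Summable fun s => g s * A1psi a (ℓ s - T) := by
  refine summable_of_finite_support ((hfin (T + 2 * a)).subset (fun s hs => ?_))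
  by_contra h
  simp only [Set.mem_setOf_eq, not_le] at h
  refine hs ?_
  simp only
  rw [A1psi_zero, mul_zero]
  rw [abs_of_nonneg (by
    rcases le_or_gt 0 a with h0 | h0
    · linarith
    · exfalso
      refine hs ?_
      simp only
      rw [A1psi_zero, mul_zero]
      have := abs_nonneg (ℓ s - T)
      linarith)]
  linarith

theorem A1N_ofReal {S : Type*} {g ℓ : S → ℝ} {a : ℝ} (hg : ∀ s, 0 ≤ g s)
    (hfin : ∀ R, {s | ℓ s ≤ R}.Finite) (T : ℝ) :
    ENNReal.ofReal (A1N g ℓ a T) = ∑' s, ENNReal.ofReal (g s * A1psi a (ℓ s - T)) :=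
  ENNReal.ofReal_tsum_of_nonneg (fun s => mul_nonneg (hg s) (A1psi_nonneg _ _))
    (A1N_summable hfin T)

theorem A1N_nonneg {S : Type*} {g ℓ : S → ℝ} {a : ℝ} (hg : ∀ s, 0 ≤ g s) (T : ℝ) :
    0 ≤ A1N g ℓ a T := tsum_nonneg (fun s => mul_nonneg (hg s) (A1psi_nonneg _ _))

theorem A1N_meas {S : Type*} [Countable S] {g ℓ : S → ℝ} {a : ℝ} (ha : 0 ≤ a)
    (hg : ∀ s, 0 ≤ g s) (hfin : ∀ R, {s | ℓ s ≤ R}.Finite) : Measurable (A1N g ℓ a) := by
  have : A1N g ℓ a = fun T => (∑' s, ENNReal.ofReal (g s * A1psi a (ℓ s - T))).toReal := by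
    funext T
    rw [← A1N_ofReal hg hfin, ENNReal.toReal_ofReal (A1N_nonneg hg T)]
  rw [this]
  refine (Measurable.ennreal_tsum (fun s => ?_)).ennreal_toReal
  have := (A1psi_cont ha).measurable
  fun_prop

theorem A1_tonelli {S : Type*} [Countable S] {g ℓ : S → ℝ} {a : ℝ} (ha : 0 < a)
    (hg : ∀ s, 0 ≤ g s) (hfin : ∀ R, {s | ℓ s ≤ R}.Finite) (hℓ : ∀ s, 2 * a ≤ ℓ s) (x : ℝ) :
    ∫⁻ T in Ioi (0 : ℝ), ENNReal.ofReal (Real.exp (-x * T) * A1N g ℓ a T) =
      (∑' s, ENNReal.ofReal (g s * Real.exp (-x * ℓ s))) *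
        ENNReal.ofReal (∫ v, A1psi a v * Real.exp (x * v)) := by
  have hψ := (A1psi_cont ha.le).measurable
  have h1 : ∀ T : ℝ, ENNReal.ofReal (Real.exp (-x * T) * A1N g ℓ a T) =
      ∑' s, ENNReal.ofReal (Real.exp (-x * T)) * ENNReal.ofReal (g s * A1psi a (ℓ s - T)) := by
    intro T
    rw [ENNReal.ofReal_mul (Real.exp_pos _).le, A1N_ofReal hg hfin, ENNReal.tsum_mul_left]
  simp_rw [h1]
  rw [lintegral_tsum (fun s => by fun_prop)]
  rw [← ENNReal.tsum_mul_right]
  refine tsum_congr (fun s => ?_)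
  rw [setLIntegral_eq_of_support_subset]
  · have h2 : ∀ T : ℝ, ENNReal.ofReal (Real.exp (-x * T)) *
        ENNReal.ofReal (g s * A1psi a (ℓ s - T)) =
        (fun v => ENNReal.ofReal (g s * Real.exp (-x * ℓ s)) *
          ENNReal.ofReal (A1psi a v * Real.exp (x * v))) (ℓ s - T) := by
      intro T
      simp only
      rw [← ENNReal.ofReal_mul (Real.exp_pos _).le,
        ← ENNReal.ofReal_mul (mul_nonneg (hg s) (Real.exp_pos _).le)]
      congr 1
      have : Real.exp (-x * T) = Real.exp (-x * ℓ s) * Real.exp (x * (ℓ s - T)) := by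
        rw [← Real.exp_add]; congr 1; ring
      rw [this]; ring
    simp_rw [h2]
    rw [lintegral_sub_left_eq_self
      (fun v => ENNReal.ofReal (g s * Real.exp (-x * ℓ s)) *
          ENNReal.ofReal (A1psi a v * Real.exp (x * v)))]
    rw [lintegral_const_mul _ (by fun_prop)]
    rw [ofReal_integral_eq_lintegral_ofReal (A1psi_exp_integrable ha.le x)
      (Eventually.of_forall fun v => mul_nonneg (A1psi_nonneg _ _) (Real.exp_pos _).le)]
  · intro T hT
    by_contra h
    simp only [mem_Ioi, not_lt] at h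
    refine hT ?_
    simp only
    rw [A1psi_zero, mul_zero, ENNReal.ofReal_zero, mul_zero]
    rw [abs_of_nonneg (by linarith [hℓ s])]
    linarith [hℓ s]

theorem A1psihat_real_pos {a : ℝ} (ha : 0 < a) (x : ℝ) :
    0 < ∫ v, A1psi a v * Real.exp (x * v) := by
  refine Continuous.integral_pos_of_hasCompactSupport_nonneg_nonzero (x := 0) ?_ ?_ ?_ ?_
  · exact (A1psi_cont ha.le).mul (by fun_prop)
  · exact (A1psi_compact a).mul_right
  · exact fun v => mul_nonneg (A1psi_nonneg _ _) (Real.exp_pos _).le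
  · have := A1psi_pos ha
    simpa using this.ne'

theorem A1_real {S : Type*} [Countable S] {g ℓ : S → ℝ} {a : ℝ} (ha : 0 < a)
    (hg : ∀ s, 0 ≤ g s) (hfin : ∀ R, {s | ℓ s ≤ R}.Finite) (hℓ : ∀ s, 2 * a ≤ ℓ s)
    {c C κ : ℝ} (hκ : 0 < κ) (hN : ∀ T ≥ 0, |A1N g ℓ a T - c| ≤ C * Real.exp (-κ * T))
    {x : ℝ} (hx : 0 < x) :
    Summable (fun s => g s * Real.exp (-x * ℓ s)) ∧
      (∑' s, g s * Real.exp (-x * ℓ s)) * (∫ v, A1psi a v * Real.exp (x * v)) =
        (∫ T in Ioi (0 : ℝ), Real.exp (-x * T) * (A1N g ℓ a T - c)) + c / x := by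
  have hmeas := A1N_meas (a := a) ha.le hg hfin
  have hI1 : IntegrableOn (fun T => Real.exp (-x * T) * (A1N g ℓ a T - c)) (Ioi 0) := by
    have hb : IntegrableOn (fun T : ℝ => C * Real.exp (-(x + κ) * T)) (Ioi 0) :=
      (integrableOn_exp_mul_Ioi (by linarith) 0).const_mul C
    refine Integrable.mono' hb (by
      exact ((by fun_prop : Measurable fun T : ℝ => Real.exp (-x * T)).mul
        (hmeas.sub_const c)).aestronglyMeasurable) ?_
    refine (ae_restrict_iff' measurableSet_Ioi).2 (Eventually.of_forall fun T hT => ?_)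
    rw [Real.norm_eq_abs, abs_mul, Real.abs_exp]
    have h1 := hN T (le_of_lt hT)
    calc Real.exp (-x * T) * |A1N g ℓ a T - c| ≤ Real.exp (-x * T) * (C * Real.exp (-κ * T)) :=
          mul_le_mul_of_nonneg_left h1 (Real.exp_pos _).le
      _ = C * (Real.exp (-x * T) * Real.exp (-κ * T)) := by ring
      _ = _ := by rw [← Real.exp_add]; ring_nf
  have hI2 : IntegrableOn (fun T => Real.exp (-x * T) * c) (Ioi 0) :=
    (integrableOn_exp_mul_Ioi (by linarith) 0).mul_const c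
  have hI3 : IntegrableOn (fun T => Real.exp (-x * T) * A1N g ℓ a T) (Ioi 0) := by
    have := hI1.add hI2
    refine this.congr (Eventually.of_forall fun T => ?_)
    simp only [Pi.add_apply]
    ring
  have hval : ∫ T in Ioi (0 : ℝ), Real.exp (-x * T) * A1N g ℓ a T =
      (∫ T in Ioi (0 : ℝ), Real.exp (-x * T) * (A1N g ℓ a T - c)) + c / x := by
    have h1 : ∫ T in Ioi (0 : ℝ), Real.exp (-x * T) * c = c / x := by
      rw [integral_mul_const, integral_exp_mul_Ioi (by linarith)]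
      simp; ring
    rw [← h1, ← integral_add hI1 hI2]
    congr 1
    funext T
    ring
  have hton := A1_tonelli ha hg hfin hℓ x
  rw [← ofReal_integral_eq_lintegral_ofReal hI3 (Eventually.of_forall fun T =>
    mul_nonneg (Real.exp_pos _).le (A1N_nonneg hg T))] at hton
  have hp := A1psihat_real_pos ha x
  have hfinite : (∑' s, ENNReal.ofReal (g s * Real.exp (-x * ℓ s))) ≠ ⊤ := by
    intro htop
    rw [htop, ENNReal.top_mul (by simpa using hp)] at hton
    exact ENNReal.ofReal_ne_top hton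
  have hsum : Summable (fun s => g s * Real.exp (-x * ℓ s)) := by
    have := ENNReal.summable_toReal hfinite
    refine this.congr (fun s => ?_)
    rw [ENNReal.toReal_ofReal (mul_nonneg (hg s) (Real.exp_pos _).le)]
  refine ⟨hsum, ?_⟩
  rw [← hval]
  rw [← ENNReal.ofReal_tsum_of_nonneg (fun s => mul_nonneg (hg s) (Real.exp_pos _).le) hsum,
    ← ENNReal.ofReal_mul (tsum_nonneg fun s => mul_nonneg (hg s) (Real.exp_pos _).le)] at hton
  have h3 := congrArg ENNReal.toReal hton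
  rw [ENNReal.toReal_ofReal, ENNReal.toReal_ofReal] at h3
  · exact h3.symm
  · exact mul_nonneg (tsum_nonneg fun s => mul_nonneg (hg s) (Real.exp_pos _).le) hp.le
  · exact integral_nonneg (fun T => mul_nonneg (Real.exp_pos _).le (A1N_nonneg hg T))

/-- Laplace transform of the remainder -/
noncomputable def A1E {S : Type*} (g ℓ : S → ℝ) (a c : ℝ) (z : ℂ) : ℂ :=
  ∫ T in Ioi (0 : ℝ), ((A1N g ℓ a T - c : ℝ) : ℂ) * Complex.exp (-z * T)

theorem A1E_diff {S : Type*} [Countable S] {g ℓ : S → ℝ} {a : ℝ} (ha : 0 < a)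
    (hg : ∀ s, 0 ≤ g s) (hfin : ∀ R, {s | ℓ s ≤ R}.Finite)
    {c C κ : ℝ} (hN : ∀ T ≥ 0, |A1N g ℓ a T - c| ≤ C * Real.exp (-κ * T)) :
    DifferentiableOn ℂ (A1E g ℓ a c) {z | -κ < z.re} := by
  have hmeas := A1N_meas (a := a) ha.le hg hfin
  have h1 := A1_transform_diff (μ := volume.restrict (Ioi (0 : ℝ)))
    (h := fun T => A1N g ℓ a T - c) (hmeas.sub_const c).aestronglyMeasurable
    (I := Iio κ) isOpen_Iio (fun r hr => by
      have hb : IntegrableOn (fun T : ℝ => C * Real.exp ((r - κ) * T)) (Ioi 0) :=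
        (integrableOn_exp_mul_Ioi (by
          have := mem_Iio.1 hr
          linarith) 0).const_mul C
      refine Integrable.mono' hb (((hmeas.sub_const c).mul
        (by fun_prop : Measurable fun T : ℝ => Real.exp (r * T))).aestronglyMeasurable) ?_
      refine (ae_restrict_iff' measurableSet_Ioi).2 (Eventually.of_forall fun T hT => ?_)
      rw [Real.norm_eq_abs, abs_mul, Real.abs_exp]
      have h1 := hN T (le_of_lt hT)
      calc |A1N g ℓ a T - c| * Real.exp (r * T) ≤ (C * Real.exp (-κ * T)) * Real.exp (r * T) :=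
            mul_le_mul_of_nonneg_right h1 (Real.exp_pos _).le
        _ = C * (Real.exp (-κ * T) * Real.exp (r * T)) := by ring
        _ = _ := by rw [← Real.exp_add]; ring_nf)
  have h2 : DifferentiableOn ℂ (fun z : ℂ => -z) {z | -κ < z.re} := by fun_prop
  have h3 := h1.comp h2 (fun z hz => by
    simp only [Set.mem_setOf_eq, Complex.neg_re, mem_Iio] at hz ⊢
    linarith)
  exact h3

theorem A1E_real {S : Type*} (g ℓ : S → ℝ) (a c x : ℝ) :
    A1E g ℓ a c x =
      ((∫ T in Ioi (0 : ℝ), Real.exp (-x * T) * (A1N g ℓ a T - c) : ℝ) : ℂ) := by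
  unfold A1E
  rw [← integral_complex_ofReal]
  congr 1
  funext T
  push_cast
  ring

/-- the Laplace transform of the waiting distribution -/
noncomputable def A1F {S : Type*} (f ℓ : S → ℝ) (z : ℂ) : ℂ :=
  ∑' s, (f s : ℂ) * Complex.exp (-z * ℓ s)

theorem A1F_diff {S : Type*} {f ℓ : S → ℝ} (hf : ∀ s, 0 ≤ f s) (hℓ : ∀ s, 0 ≤ ℓ s) {r : ℝ}
    (hr : Summable fun s => f s * Real.exp (r * ℓ s)) :
    DifferentiableOn ℂ (A1F f ℓ) {z | -r < z.re} := by
  refine Complex.differentiableOn_tsum_of_summable_norm hr (fun s => by fun_prop)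
    (isOpen_lt continuous_const Complex.continuous_re) (fun s z hz => ?_)
  rw [norm_mul, Complex.norm_exp, Complex.norm_real, Real.norm_eq_abs, abs_of_nonneg (hf s)]
  refine mul_le_mul_of_nonneg_left (Real.exp_le_exp.2 ?_) (hf s)
  simp only [Complex.mul_re, Complex.neg_re, Complex.ofReal_re, Complex.neg_im, Complex.ofReal_im,
    mul_zero, sub_zero]
  simp only [Set.mem_setOf_eq] at hz
  exact mul_le_mul_of_nonneg_right (by linarith) (hℓ s)

theorem A1F_real {S : Type*} (f ℓ : S → ℝ) (x : ℝ) :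
    A1F f ℓ x = ((∑' s, f s * Real.exp (-x * ℓ s) : ℝ) : ℂ) := by
  unfold A1F
  rw [Complex.ofReal_tsum]
  push_cast
  rfl

theorem A1_renewal {S : Type*} {g f ℓ : S → ℝ} (hf0 : ∀ s, 0 ≤ f s) (hfg : ∀ s, f s ≤ g s)
    (hren : ∀ φ : ℝ → ℝ≥0∞, ∑' s, ENNReal.ofReal (g s) * φ (ℓ s) =
      ∑' s, ENNReal.ofReal (f s) * φ (ℓ s) +
        ∑' p : S × S, ENNReal.ofReal (f p.1) * ENNReal.ofReal (g p.2) * φ (ℓ p.1 + ℓ p.2))
    {x : ℝ} (hsum : Summable (fun s => g s * Real.exp (-x * ℓ s))) :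
    (∑' s, g s * Real.exp (-x * ℓ s)) = (∑' s, f s * Real.exp (-x * ℓ s)) +
      (∑' s, f s * Real.exp (-x * ℓ s)) * (∑' s, g s * Real.exp (-x * ℓ s)) := by
  have hg0 : ∀ s, 0 ≤ g s := fun s => (hf0 s).trans (hfg s)
  have hsumf : Summable (fun s => f s * Real.exp (-x * ℓ s)) :=
    Summable.of_nonneg_of_le (fun s => mul_nonneg (hf0 s) (Real.exp_pos _).le)
      (fun s => mul_le_mul_of_nonneg_right (hfg s) (Real.exp_pos _).le) hsum
  have h := hren (fun t => ENNReal.ofReal (Real.exp (-x * t)))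
  have e1 : ∀ s, ENNReal.ofReal (g s) * ENNReal.ofReal (Real.exp (-x * ℓ s)) =
      ENNReal.ofReal (g s * Real.exp (-x * ℓ s)) := fun s => by rw [ENNReal.ofReal_mul (hg0 s)]
  have e2 : ∀ s, ENNReal.ofReal (f s) * ENNReal.ofReal (Real.exp (-x * ℓ s)) =
      ENNReal.ofReal (f s * Real.exp (-x * ℓ s)) := fun s => by rw [ENNReal.ofReal_mul (hf0 s)]
  have e3 : ∀ p : S × S, ENNReal.ofReal (f p.1) * ENNReal.ofReal (g p.2) *
      ENNReal.ofReal (Real.exp (-x * (ℓ p.1 + ℓ p.2))) =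
      ENNReal.ofReal (f p.1 * Real.exp (-x * ℓ p.1)) *
        ENNReal.ofReal (g p.2 * Real.exp (-x * ℓ p.2)) := fun p => by
    rw [← ENNReal.ofReal_mul (hf0 _), ← ENNReal.ofReal_mul (mul_nonneg (hf0 _) (hg0 _)),
      ← ENNReal.ofReal_mul (mul_nonneg (hf0 _) (Real.exp_pos _).le)]
    congr 1
    rw [mul_add, Real.exp_add]; ring
  simp only [e1, e2, e3] at h
  rw [ENNReal.tsum_prod (f := fun a b => ENNReal.ofReal (f a * Real.exp (-x * ℓ a)) *
        ENNReal.ofReal (g b * Real.exp (-x * ℓ b)))] at h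
  simp only [ENNReal.tsum_mul_left, ENNReal.tsum_mul_right] at h
  have hG : 0 ≤ ∑' s, g s * Real.exp (-x * ℓ s) :=
    tsum_nonneg fun s => mul_nonneg (hg0 s) (Real.exp_pos (-x * ℓ s)).le
  have hF : 0 ≤ ∑' s, f s * Real.exp (-x * ℓ s) :=
    tsum_nonneg fun s => mul_nonneg (hf0 s) (Real.exp_pos (-x * ℓ s)).le
  rw [← ENNReal.ofReal_tsum_of_nonneg (fun s => mul_nonneg (hg0 s) (Real.exp_pos _).le) hsum,
    ← ENNReal.ofReal_tsum_of_nonneg (fun s => mul_nonneg (hf0 s) (Real.exp_pos _).le) hsumf,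
    ← ENNReal.ofReal_mul hF, ← ENNReal.ofReal_add hF (mul_nonneg hF hG)] at h
  have h3 := congrArg ENNReal.toReal h
  rwa [ENNReal.toReal_ofReal hG, ENNReal.toReal_ofReal (add_nonneg hF (mul_nonneg hF hG))] at h3

theorem A1_ident {f₁ f₂ : ℂ → ℂ} {r : ℝ} (hr : 0 ≤ r)
    (h1 : DifferentiableOn ℂ f₁ {z | -r < z.re}) (h2 : DifferentiableOn ℂ f₂ {z | -r < z.re})
    (heq : ∀ x : ℝ, 0 < x → f₁ x = f₂ x) : ∀ z : ℂ, -r < z.re → f₁ z = f₂ z := by
  have hopen : IsOpen {z : ℂ | -r < z.re} := isOpen_lt continuous_const Complex.continuous_re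
  have hconn : IsPreconnected {z : ℂ | -r < z.re} := (convex_halfSpace_re_gt (-r)).isPreconnected
  have htend : Tendsto (fun n : ℕ => ((1 + 1 / ((n : ℝ) + 1) : ℝ) : ℂ)) atTop (𝓝[≠] 1) := by
    refine tendsto_nhdsWithin_iff.2 ⟨?_, Eventually.of_forall fun n => ?_⟩
    · have : Tendsto (fun n : ℕ => (1 + 1 / ((n : ℝ) + 1) : ℝ)) atTop (𝓝 1) := by
        simpa using tendsto_one_div_add_atTop_nhds_zero_nat.const_add (1 : ℝ)
      have h3 := (Complex.continuous_ofReal.tendsto 1).comp this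
      rw [Complex.ofReal_one] at h3
      exact h3
    · simp only [mem_compl_iff, mem_singleton_iff]
      intro h
      have : (1 + 1 / ((n : ℝ) + 1) : ℝ) = 1 := by exact_mod_cast h
      have h2 : (0 : ℝ) < 1 / ((n : ℝ) + 1) := by positivity
      linarith
  have := (h1.analyticOnNhd hopen).eqOn_of_preconnected_of_frequently_eq
    (h2.analyticOnNhd hopen) hconn (z₀ := 1) (by
      simp only [Set.mem_setOf_eq, Complex.one_re]
      linarith) (htend.frequently (Frequently.of_forall fun n => heq _ (by positivity)))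
  exact fun z hz => this hz

theorem A1_rexp_hasSum (x : ℝ) : HasSum (fun n : ℕ => x ^ n / (n.factorial : ℝ)) (Real.exp x) := by
  have := NormedSpace.expSeries_div_hasSum_exp (x : ℝ)
  rwa [← Real.exp_eq_exp_ℝ] at this

theorem A1_cexp_hasSum (x : ℂ) :
    HasSum (fun n : ℕ => x ^ n / (n.factorial : ℂ)) (Complex.exp x) := by
  have := NormedSpace.expSeries_div_hasSum_exp (x : ℂ)
  rwa [← Complex.exp_eq_exp_ℂ] at this

/-- the double series -/
theorem A1_double {S : Type*} {b ℓ : S → ℝ} (hb : ∀ s, 0 ≤ b s) (hℓ : ∀ s, 0 ≤ ℓ s) {r : ℝ}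
    (hr : 0 ≤ r) (hs : Summable fun s => b s * Real.exp (r * ℓ s)) :
    Summable fun p : S × ℕ => b p.1 * ((r * ℓ p.1) ^ p.2 / (p.2.factorial : ℝ)) := by
  rw [summable_prod_of_nonneg]
  · refine ⟨fun s => ?_, ?_⟩
    · exact (A1_rexp_hasSum (r * ℓ s)).summable.mul_left (b s)
    · refine hs.congr (fun s => ?_)
      exact ((A1_rexp_hasSum (r * ℓ s)).mul_left (b s)).tsum_eq.symm
  · intro p
    exact mul_nonneg (hb _) (div_nonneg (pow_nonneg (mul_nonneg hr (hℓ _)) _) (by positivity))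

theorem A1_landau {S : Type*} {f ℓ : S → ℝ} (hf : ∀ s, 0 ≤ f s) (hℓ : ∀ s, 0 ≤ ℓ s)
    (hsum : ∀ x : ℝ, 0 < x → Summable fun s => f s * Real.exp (-x * ℓ s))
    {H : ℂ → ℂ} {d : ℝ} (hd : 0 < d) (hH : DifferentiableOn ℂ H (ball 0 d))
    (hFH : ∀ z ∈ ball (0 : ℂ) d, 0 < z.re → A1F f ℓ z = H z) :
    ∃ x₁ > 0, Summable fun s => f s * Real.exp (x₁ * ℓ s) := by
  set x₀ : ℝ := d / 4 with hx₀
  have hx₀p : 0 < x₀ := by positivity
  set b : S → ℝ := fun s => f s * Real.exp (-x₀ * ℓ s) with hb_def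
  have hb : ∀ s, 0 ≤ b s := fun s => mul_nonneg (hf s) (Real.exp_pos _).le
  set M : ℕ → ℝ := fun n => ∑' s, b s * (ℓ s ^ n / (n.factorial : ℝ)) with hM
  have hbr : ∀ r : ℝ, r < x₀ → Summable fun s => b s * Real.exp (r * ℓ s) := by
    intro r hr
    refine (hsum (x₀ - r) (by linarith)).congr (fun s => ?_)
    simp only [hb_def]
    rw [mul_assoc, ← Real.exp_add]
    congr 2; ring
  have hbn : ∀ n : ℕ, Summable fun s => b s * (ℓ s ^ n / (n.factorial : ℝ)) := by
    intro n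
    have hr : 0 < x₀ / 2 := by positivity
    have h1 := ((A1_double hb hℓ hr.le (hbr _ (by linarith))).prod_symm.prod_factor n)
    have h2 := h1.mul_left (((x₀ / 2) ^ n)⁻¹)
    refine h2.congr (fun s => ?_)
    simp only [Prod.fst_swap, Prod.snd_swap]
    rw [mul_pow]
    have : (x₀ / 2) ^ n ≠ 0 := by positivity
    field_simp
  -- claim A
  have hA : ∀ w : ℂ, ‖w‖ < x₀ →
      HasSum (fun n => w ^ n * (((-1) ^ n * M n : ℝ) : ℂ)) (A1F f ℓ (x₀ + w)) := by
    intro w hw
    have hdouble := A1_double hb hℓ (norm_nonneg w) (hbr _ hw)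
    have hsumc : Summable fun p : S × ℕ =>
        (b p.1 : ℂ) * ((-w * ℓ p.1) ^ p.2 / (p.2.factorial : ℂ)) := by
      refine Summable.of_norm (hdouble.congr (fun p => ?_))
      rw [norm_mul, norm_div, norm_pow, norm_mul, norm_neg, Complex.norm_real, Complex.norm_real,
        Real.norm_eq_abs, Real.norm_eq_abs, abs_of_nonneg (hb _), abs_of_nonneg (hℓ _)]
      simp
    have h1 : HasSum (fun s => (b s : ℂ) * Complex.exp (-w * ℓ s))
        (∑' p : S × ℕ, (b p.1 : ℂ) * ((-w * ℓ p.1) ^ p.2 / (p.2.factorial : ℂ))) :=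
      hsumc.hasSum.prod_fiberwise (fun s => (A1_cexp_hasSum (-w * ℓ s)).mul_left (b s : ℂ))
    have h2 : HasSum (fun n => w ^ n * (((-1) ^ n * M n : ℝ) : ℂ))
        (∑' p : S × ℕ, (b p.1 : ℂ) * ((-w * ℓ p.1) ^ p.2 / (p.2.factorial : ℂ))) := by
      have h3 := (Equiv.prodComm ℕ S).hasSum_iff.2 hsumc.hasSum
      refine h3.prod_fiberwise (fun n => ?_)
      have h4 := (hbn n).hasSum
      have h5 := (Complex.hasSum_ofReal.2 h4).mul_left ((-w) ^ n)
      convert! h5 using 1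
      · funext s
        simp only [Function.comp_apply, Equiv.prodComm_apply, Prod.swap_prod_mk]
        push_cast
        rw [mul_pow]
        ring
      · simp only [hM]
        push_cast
        rw [neg_pow]
        ring
    have h6 : A1F f ℓ (x₀ + w) = ∑' p : S × ℕ,
        (b p.1 : ℂ) * ((-w * ℓ p.1) ^ p.2 / (p.2.factorial : ℂ)) := by
      rw [← h1.tsum_eq]
      unfold A1F
      refine tsum_congr (fun s => ?_)
      simp only [hb_def]
      push_cast
      rw [mul_assoc, ← Complex.exp_add]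
      congr 2; ring
    rw [h6]
    exact h2
  -- power series on the large disc
  have hp : HasFPowerSeriesAt H
      (FormalMultilinearSeries.ofScalars ℂ (fun n => (((-1) ^ n * M n : ℝ) : ℂ))) (x₀ : ℂ) := by
    rw [hasFPowerSeriesAt_iff]
    filter_upwards [Metric.ball_mem_nhds (0 : ℂ) hx₀p] with w hw
    rw [mem_ball_zero_iff] at hw
    have h1 := hA w hw
    rw [hFH] at h1
    · refine h1.congr_fun (fun n => ?_)
      rw [FormalMultilinearSeries.coeff_ofScalars, smul_eq_mul]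
    · rw [mem_ball_zero_iff]
      calc ‖(x₀ : ℂ) + w‖ ≤ ‖(x₀ : ℂ)‖ + ‖w‖ := norm_add_le _ _
        _ < x₀ + x₀ := by
            rw [Complex.norm_real, Real.norm_eq_abs, abs_of_pos hx₀p]; linarith
        _ < d := by rw [hx₀]; linarith
    · have := (abs_le.1 (Complex.abs_re_le_norm w)).1
      simp only [Complex.add_re, Complex.ofReal_re]
      linarith
  have hR : (0 : ℝ) < 7 * d / 16 := by positivity
  set R : ℝ≥0 := ⟨7 * d / 16, hR.le⟩ with hRdef
  have hball : HasFPowerSeriesOnBall H (cauchyPowerSeries H x₀ R) x₀ R := by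
    refine DifferentiableOn.hasFPowerSeriesOnBall (hH.mono (fun z hz => ?_)) ?_
    · rw [mem_closedBall, dist_eq_norm] at hz
      rw [mem_ball_zero_iff]
      have hz' : ‖z - x₀‖ ≤ 7 * d / 16 := hz
      calc ‖z‖ = ‖(z - x₀) + x₀‖ := by ring_nf
        _ ≤ ‖z - x₀‖ + ‖(x₀ : ℂ)‖ := norm_add_le _ _
        _ ≤ 7 * d / 16 + d / 4 := by
            rw [Complex.norm_real, Real.norm_eq_abs, abs_of_pos hx₀p]; linarith
        _ < d := by linarith
    · exact hR
  have heq := hp.eq_formalMultilinearSeries hball.hasFPowerSeriesAt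
  set ρ : ℝ := 3 * d / 8 with hρ
  have hρp : 0 < ρ := by positivity
  have hsumρ : Summable fun n : ℕ => M n * ρ ^ n := by
    have h1 := (hball.hasSum (y := ((-ρ : ℝ) : ℂ)) ?_).summable
    · rw [← heq] at h1
      refine (Complex.summable_ofReal.1 (h1.congr (fun n => ?_)))
      rw [FormalMultilinearSeries.ofScalars_apply_eq]
      push_cast
      rw [smul_eq_mul, neg_pow (ρ : ℂ)]
      have : ((-1 : ℂ) ^ n) * ((-1 : ℂ) ^ n) = 1 := by
        rw [← mul_pow]; simp
      linear_combination ((M n : ℂ) * ρ ^ n) * this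
    · rw [Metric.mem_eball, edist_zero_right, enorm_eq_nnnorm, ENNReal.coe_lt_coe,
        ← NNReal.coe_lt_coe, coe_nnnorm, Complex.norm_real, Real.norm_eq_abs, abs_neg,
        abs_of_pos hρp]
      change ρ < 7 * d / 16
      rw [hρ]; linarith
  have hdouble : Summable fun p : ℕ × S => b p.2 * ((ρ * ℓ p.2) ^ p.1 / (p.1.factorial : ℝ)) := by
    rw [summable_prod_of_nonneg]
    · refine ⟨fun n => ?_, ?_⟩
      · refine ((hbn n).mul_left (ρ ^ n)).congr (fun s => ?_)
        simp only [mul_pow]; ring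
      · refine hsumρ.congr (fun n => ?_)
        simp only [hM]
        rw [← tsum_mul_right]
        refine tsum_congr (fun s => ?_)
        rw [mul_pow]; ring
    · intro p
      exact mul_nonneg (hb _) (div_nonneg (pow_nonneg (mul_nonneg hρp.le (hℓ _)) _) (by positivity))
  refine ⟨d / 8, by positivity, ?_⟩
  refine (hdouble.prod_symm.prod).congr (fun s => ?_)
  simp only [Prod.swap_prod_mk]
  rw [((A1_rexp_hasSum (ρ * ℓ s)).mul_left (b s)).tsum_eq]
  simp only [hb_def]
  rw [mul_assoc, ← Real.exp_add]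
  congr 2
  rw [hx₀, hρ]; ring

theorem A1_almost_periodic {S : Type*} [Countable S] {b ℓ : S → ℝ} (hb : ∀ s, 0 ≤ b s)
    (hs : Summable b) (R : ℝ) {η : ℝ} (hη : 0 < η) :
    ∃ τ > R, ∑' s, b s * ‖Complex.exp (-(τ * Complex.I) * ℓ s) - 1‖ < η := by
  set R' : ℝ := |R| + 1 with hR'
  have hR'p : 0 < R' := by positivity
  set u : ℕ → (S → Circle) := fun n s => Circle.exp (-(n * R' * ℓ s)) with hu
  obtain ⟨U, φ, hφ, hlim⟩ := CompactSpace.tendsto_subseq u
  have hnorm : ∀ n s, ‖((u (φ (n + 1)) s : Circle) : ℂ) - (u (φ n) s : Circle)‖ =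
      ‖Complex.exp (-(((((φ (n + 1) : ℝ) - φ n) * R' : ℝ) : ℂ) * Complex.I) * ℓ s) - 1‖ := by
    intro n s
    have h1 : ((u (φ (n + 1)) s : Circle) : ℂ) - (u (φ n) s : Circle) =
        ((u (φ n) s : Circle) : ℂ) *
        (Complex.exp (-(((((φ (n + 1) : ℝ) - φ n) * R' : ℝ) : ℂ) * Complex.I) * ℓ s) - 1) := by
      simp only [hu, Circle.coe_exp]
      rw [mul_sub, ← Complex.exp_add, mul_one]
      congr 2
      push_cast
      ring
    rw [h1, norm_mul, Circle.norm_coe, one_mul]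
  have hconv : Tendsto (fun n => ∑' s, b s * ‖((u (φ (n + 1)) s : Circle) : ℂ) -
      (u (φ n) s : Circle)‖) atTop (𝓝 (∑' s : S, (0 : ℝ))) := by
    refine tendsto_tsum_of_dominated_convergence (bound := fun s => b s * 2) (hs.mul_right 2) ?_ ?_
    · intro s
      have h1 : Tendsto (fun n => ((u (φ n) s : Circle) : ℂ)) atTop (𝓝 (U s : ℂ)) := by
        have h2 := (tendsto_pi_nhds.1 hlim) s
        have hc : Continuous (fun z : Circle => (z : ℂ)) := by fun_prop
        exact (hc.tendsto _).comp h2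
      have h3 := (h1.comp (tendsto_add_atTop_nat 1)).sub h1
      have h4 := (h3.norm.const_mul (b s))
      simpa using h4
    · refine Eventually.of_forall (fun n s => ?_)
      rw [Real.norm_eq_abs, abs_mul, abs_of_nonneg (hb s), abs_norm]
      refine mul_le_mul_of_nonneg_left ?_ (hb s)
      refine (norm_sub_le _ _).trans ?_
      simp only [Circle.norm_coe]
      norm_num
  rw [tsum_zero] at hconv
  obtain ⟨n, hn⟩ := ((hconv.eventually (gt_mem_nhds hη)).exists)
  refine ⟨((φ (n + 1) : ℝ) - φ n) * R', ?_, ?_⟩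
  · have h1 : (φ n : ℝ) + 1 ≤ φ (n + 1) := by
      exact_mod_cast hφ (Nat.lt_succ_self n)
    have h2 : R < R' := by rw [hR']; linarith [le_abs_self R]
    nlinarith
  · simp only [hnorm] at hn
    exact hn

theorem A1psi_le {a : ℝ} (ha : 0 ≤ a) (v : ℝ) : A1psi a v ≤ (∫ u, A1tent a u) * a := by
  unfold A1psi
  rw [← integral_mul_const]
  have hint := (A1tent_cont a).integrable_of_hasCompactSupport (μ := volume) (A1tent_compact a)
  refine integral_mono_of_nonneg (Eventually.of_forall fun u =>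
    mul_nonneg (A1tent_nonneg _ _) (A1tent_nonneg _ _)) (hint.mul_const a)
    (Eventually.of_forall fun u => ?_)
  exact mul_le_mul_of_nonneg_left (A1tent_le ha _) (A1tent_nonneg _ _)

theorem A1_bound {S : Type*} {g ℓ : S → ℝ} {e κ T₀ A a : ℝ} (ha : 0 < a) (hae : a ≤ e)
    (hA : 0 < A) (hκ : 0 < κ)
    (hg : ∀ s, 0 ≤ g s) (hfin : ∀ R, {s | ℓ s ≤ R}.Finite)
    (hmix : ∀ k₁ k₂ : ℝ → ℝ, (∃ K, LipschitzWith K k₁) → (∃ K, LipschitzWith K k₂) →
      (∀ s, 0 ≤ k₁ s) → (∀ s, 0 ≤ k₂ s) → (∀ s, e < |s| → k₁ s = 0) → (∀ s, e < |s| → k₂ s = 0) →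
      ∃ C, ∀ T ≥ T₀, |∑' s, g s * (∫ u, k₂ u * k₁ (u + ℓ s - T)) -
        A * (∫ u, k₁ u) * (∫ u, k₂ u)| ≤ C * Real.exp (-κ * T)) :
    ∃ c C : ℝ, 0 < c ∧ ∀ T ≥ 0, |A1N g ℓ a T - c| ≤ C * Real.exp (-κ * T) := by
  obtain ⟨C₀, hC₀⟩ := hmix (A1tent a) (A1tent a) ⟨1, A1tent_lip a⟩ ⟨1, A1tent_lip a⟩
    (A1tent_nonneg a) (A1tent_nonneg a) (fun s hs => A1tent_zero (hae.trans hs.le))
    (fun s hs => A1tent_zero (hae.trans hs.le))
  set J : ℝ := ∫ u, A1tent a u with hJ
  have hJp : 0 < J := A1tent_integral_pos ha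
  set F : Finset S := (hfin (T₀ + 2 * a)).toFinset with hF
  set B : ℝ := ∑ s ∈ F, g s * (J * a) + A * J * J with hB
  have hBp : 0 ≤ B := add_nonneg
    (Finset.sum_nonneg fun s _ => mul_nonneg (hg s) (mul_nonneg hJp.le ha.le)) (by positivity)
  refine ⟨A * J * J, |C₀| + B * Real.exp (κ * T₀), by positivity, fun T hT => ?_⟩
  by_cases hT0 : T₀ ≤ T
  · have h1 := hC₀ T hT0
    simp only [add_sub_assoc] at h1
    refine h1.trans (mul_le_mul_of_nonneg_right ?_ (Real.exp_pos _).le)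
    have : 0 ≤ B * Real.exp (κ * T₀) := mul_nonneg hBp (Real.exp_pos _).le
    linarith [le_abs_self C₀]
  · push Not at hT0
    have hN1 : A1N g ℓ a T ≤ ∑ s ∈ F, g s * (J * a) := by
      unfold A1N
      rw [tsum_eq_sum (s := F)]
      · exact Finset.sum_le_sum fun s _ => mul_le_mul_of_nonneg_left (A1psi_le ha.le _) (hg s)
      · intro s hs
        have h2 : T₀ + 2 * a < ℓ s := by
          by_contra h
          exact hs (by rw [hF, Set.Finite.mem_toFinset]; exact not_lt.1 h)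
        rw [A1psi_zero, mul_zero]
        rw [abs_of_nonneg (by linarith)]
        linarith
    have hN0 := A1N_nonneg (a := a) hg T (ℓ := ℓ)
    have h3 : |A1N g ℓ a T - A * J * J| ≤ B := by
      have h4 : 0 ≤ A * J * J := by positivity
      have h5 : 0 ≤ ∑ s ∈ F, g s * (J * a) := hN0.trans hN1
      rw [abs_le]
      constructor <;> rw [hB] <;> linarith
    have h6 : 1 ≤ Real.exp (κ * T₀) * Real.exp (-κ * T) := by
      rw [← Real.exp_add]
      refine Real.one_le_exp ?_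
      have : 0 ≤ κ * (T₀ - T) := mul_nonneg hκ.le (by linarith)
      linarith
    calc |A1N g ℓ a T - A * J * J| ≤ B * 1 := by linarith
      _ ≤ B * (Real.exp (κ * T₀) * Real.exp (-κ * T)) := mul_le_mul_of_nonneg_left h6 hBp
      _ = (B * Real.exp (κ * T₀)) * Real.exp (-κ * T) := by ring
      _ ≤ (|C₀| + B * Real.exp (κ * T₀)) * Real.exp (-κ * T) :=
          mul_le_mul_of_nonneg_right (by linarith [abs_nonneg C₀]) (Real.exp_pos _).le

theorem A1_rel {S : Type*} [Countable S] {g f ℓ : S → ℝ} {κ a c C : ℝ} (ha : 0 < a)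
    (hκ : 0 < κ) (hc : 0 < c)
    (hf0 : ∀ s, 0 ≤ f s) (hfg : ∀ s, f s ≤ g s)
    (hℓ : ∀ s, 2 * a ≤ ℓ s) (hfin : ∀ R, {s | ℓ s ≤ R}.Finite)
    (hren : ∀ φ : ℝ → ℝ≥0∞, ∑' s, ENNReal.ofReal (g s) * φ (ℓ s) =
      ∑' s, ENNReal.ofReal (f s) * φ (ℓ s) +
        ∑' p : S × S, ENNReal.ofReal (f p.1) * ENNReal.ofReal (g p.2) * φ (ℓ p.1 + ℓ p.2))
    (hN : ∀ T ≥ 0, |A1N g ℓ a T - c| ≤ C * Real.exp (-κ * T)) :
    ∃ P : ℂ → ℂ, DifferentiableOn ℂ P {z | -κ < z.re} ∧ P 0 ≠ 0 ∧
      ∀ x : ℝ, 0 < x → (1 - A1F f ℓ x) * P x = x * A1psihat a x := by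
  have hg0 : ∀ s, 0 ≤ g s := fun s => (hf0 s).trans (hfg s)
  refine ⟨fun z => z * A1psihat a z + c + z * A1E g ℓ a c z, ?_, ?_, ?_⟩
  · have h1 := A1E_diff ha hg0 hfin hN
    have h2 := (A1psihat_diff ha.le).differentiableOn (s := {z : ℂ | -κ < z.re})
    exact ((differentiableOn_id.mul h2).add_const _).add (differentiableOn_id.mul h1)
  · simp only [zero_mul, zero_add, add_zero]
    exact_mod_cast hc.ne'
  · intro x hx
    obtain ⟨hsum, hid⟩ := A1_real ha hg0 hfin hℓ hκ hN hx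
    have hre := A1_renewal hf0 hfg hren hsum
    simp only
    rw [A1F_real, A1E_real, A1psihat_real]
    set Gx := ∑' s, g s * Real.exp (-x * ℓ s)
    set Fx := ∑' s, f s * Real.exp (-x * ℓ s)
    set p := ∫ v, A1psi a v * Real.exp (x * v)
    set Ex := ∫ T in Ioi (0 : ℝ), Real.exp (-x * T) * (A1N g ℓ a T - c)
    have h1 : (1 - Fx) * (x * p + c + x * Ex) = x * p := by
      have h2 : c + x * Ex = x * (Gx * p) := by
        rw [hid]; field_simp; ring
      have h3 : (1 - Fx) * (1 + Gx) = 1 := by linarith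
      calc (1 - Fx) * (x * p + c + x * Ex) = (1 - Fx) * (x * p + (c + x * Ex)) := by ring
        _ = (1 - Fx) * (1 + Gx) * (x * p) := by rw [h2]; ring
        _ = x * p := by rw [h3, one_mul]
    exact_mod_cast h1

theorem A1_core {S : Type*} [Countable S] (g f : S → ℝ) (ℓ : S → ℝ) (e ℓ₀ A κ T₀ : ℝ)
    (he : 0 < e) (hℓ₀ : 2 * e < ℓ₀) (hA : 0 < A) (hκ : 0 < κ)
    (hf0 : ∀ s, 0 ≤ f s) (hfg : ∀ s, f s ≤ g s)
    (hℓ : ∀ s, ℓ₀ ≤ ℓ s) (hfin : ∀ R, {s | ℓ s ≤ R}.Finite)
    (hren : ∀ φ : ℝ → ℝ≥0∞, ∑' s, ENNReal.ofReal (g s) * φ (ℓ s) =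
      ∑' s, ENNReal.ofReal (f s) * φ (ℓ s) +
        ∑' p : S × S, ENNReal.ofReal (f p.1) * ENNReal.ofReal (g p.2) * φ (ℓ p.1 + ℓ p.2))
    (hmix : ∀ k₁ k₂ : ℝ → ℝ, (∃ K, LipschitzWith K k₁) → (∃ K, LipschitzWith K k₂) →
      (∀ s, 0 ≤ k₁ s) → (∀ s, 0 ≤ k₂ s) → (∀ s, e < |s| → k₁ s = 0) → (∀ s, e < |s| → k₂ s = 0) →
      ∃ C, ∀ T ≥ T₀, |∑' s, g s * (∫ u, k₂ u * k₁ (u + ℓ s - T)) -
        A * (∫ u, k₁ u) * (∫ u, k₂ u)| ≤ C * Real.exp (-κ * T)) : False := by
  have hg0 : ∀ s, 0 ≤ g s := fun s => (hf0 s).trans (hfg s)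
  have hℓp : ∀ s, 0 ≤ ℓ s := fun s => by linarith [hℓ s]
  have hopen : ∀ r : ℝ, IsOpen {z : ℂ | -r < z.re} := fun r =>
    isOpen_lt continuous_const Complex.continuous_re
  -- relation for every small kernel
  have hrel : ∀ a : ℝ, 0 < a → a ≤ e → ∃ P : ℂ → ℂ, DifferentiableOn ℂ P {z | -κ < z.re} ∧
      P 0 ≠ 0 ∧ ∀ x : ℝ, 0 < x → (1 - A1F f ℓ x) * P x = x * A1psihat a x := by
    intro a ha hae
    obtain ⟨c, C, hc, hN⟩ := A1_bound ha hae hA hκ hg0 hfin hmix
    exact A1_rel ha hκ hc hf0 hfg (fun s => by linarith [hℓ s]) hfin hren hN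
  -- summability of `f`
  have hsumf : ∀ x : ℝ, 0 < x → Summable fun s => f s * Real.exp (-x * ℓ s) := by
    intro x hx
    obtain ⟨c, C, hc, hN⟩ := A1_bound he le_rfl hA hκ hg0 hfin hmix
    have := (A1_real he hg0 hfin (fun s => by linarith [hℓ s]) hκ hN hx).1
    exact Summable.of_nonneg_of_le (fun s => mul_nonneg (hf0 s) (Real.exp_pos _).le)
      (fun s => mul_le_mul_of_nonneg_right (hfg s) (Real.exp_pos _).le) this
  have hFd0 : DifferentiableOn ℂ (A1F f ℓ) {z | -0 < z.re} := by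
    intro z hz
    have hz' : 0 < z.re := by simpa using hz
    have h1 := A1F_diff hf0 hℓp (r := -(z.re / 2)) (hsumf (z.re / 2) (by linarith))
    exact (h1.differentiableAt ((hopen _).mem_nhds (by
      simp only [Set.mem_setOf_eq]; linarith))).differentiableWithinAt
  obtain ⟨P, hPd, hP0, hPrel⟩ := hrel e he le_rfl
  have hrel0 : ∀ z : ℂ, -0 < z.re → (1 - A1F f ℓ z) * P z = z * A1psihat e z := by
    refine A1_ident le_rfl ?_ ?_ hPrel
    · exact ((differentiableOn_const _).sub hFd0).mul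
        (hPd.mono (fun z hz => by simp only [Set.mem_setOf_eq] at hz ⊢; linarith))
    · exact (differentiable_id.mul (A1psihat_diff he.le)).differentiableOn
  -- a disc on which `P` does not vanish
  have hPc : ContinuousAt P 0 :=
    (hPd.differentiableAt ((hopen κ).mem_nhds (by simpa using hκ))).continuousAt
  obtain ⟨d₀, hd₀, hd₀P⟩ := Metric.eventually_nhds_iff_ball.1 (hPc.eventually_ne hP0)
  set d : ℝ := min d₀ κ with hd
  have hdp : 0 < d := lt_min hd₀ hκ
  have hballP : ∀ z ∈ ball (0 : ℂ) d, P z ≠ 0 := fun z hz =>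
    hd₀P z (ball_subset_ball (min_le_left _ _) hz)
  have hballκ : ∀ z ∈ ball (0 : ℂ) d, -κ < z.re := by
    intro z hz
    rw [mem_ball_zero_iff] at hz
    have h1 := (abs_le.1 (Complex.abs_re_le_norm z)).1
    have h2 : d ≤ κ := min_le_right _ _
    linarith
  obtain ⟨x₁, hx₁, hsumx₁⟩ := A1_landau hf0 hℓp hsumf
    (H := fun z => 1 - z * A1psihat e z / P z) hdp
    (by
      refine (differentiableOn_const _).sub (DifferentiableOn.div ?_ ?_ hballP)
      · exact (differentiable_id.mul (A1psihat_diff he.le)).differentiableOn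
      · exact hPd.mono hballκ)
    (fun z hz hzre => by
      have h1 := hrel0 z (by simpa using hzre)
      have h2 := hballP z hz
      rw [← h1, mul_div_assoc, div_self h2]
      ring)
  set x₂ : ℝ := min x₁ κ with hx₂
  have hx₂p : 0 < x₂ := lt_min hx₁ hκ
  have hsumx : ∀ r : ℝ, r ≤ x₁ → Summable fun s => f s * Real.exp (r * ℓ s) := by
    intro r hr
    refine Summable.of_nonneg_of_le (fun s => mul_nonneg (hf0 s) (Real.exp_pos _).le)
      (fun s => mul_le_mul_of_nonneg_left (Real.exp_le_exp.2 ?_) (hf0 s)) hsumx₁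
    exact mul_le_mul_of_nonneg_right hr (hℓp s)
  have hFd : DifferentiableOn ℂ (A1F f ℓ) {z | -x₂ < z.re} :=
    A1F_diff hf0 hℓp (hsumx x₂ (min_le_left _ _))
  have hrelx : ∀ a : ℝ, 0 < a → a ≤ e → ∃ P : ℂ → ℂ, P 0 ≠ 0 ∧
      ∀ z : ℂ, -x₂ < z.re → (1 - A1F f ℓ z) * P z = z * A1psihat a z := by
    intro a ha hae
    obtain ⟨Q, hQd, hQ0, hQrel⟩ := hrel a ha hae
    refine ⟨Q, hQ0, A1_ident hx₂p.le ?_ ?_ hQrel⟩
    · refine ((differentiableOn_const _).sub hFd).mul (hQd.mono (fun z hz => ?_))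
      simp only [Set.mem_setOf_eq] at hz ⊢
      have : x₂ ≤ κ := min_le_right _ _
      linarith
    · exact (differentiable_id.mul (A1psihat_diff ha.le)).differentiableOn
  have hF0 : A1F f ℓ 0 = 1 := by
    obtain ⟨Q, hQ0, hQ⟩ := hrelx e he le_rfl
    have h1 := hQ 0 (by simpa using hx₂p)
    rw [zero_mul] at h1
    rcases mul_eq_zero.1 h1 with h2 | h2
    · exact (sub_eq_zero.1 h2).symm
    · exact absurd h2 hQ0
  have hstar : ∀ z : ℂ, -x₂ < z.re → z ≠ 0 → 1 - A1F f ℓ z ≠ 0 := by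
    intro z hz hz0 h0
    set a : ℝ := min e (1 / (2 * (|z.im| + 1))) with ha_def
    have hap : 0 < a := lt_min he (by positivity)
    obtain ⟨Q, _, hQ⟩ := hrelx a hap (min_le_left _ _)
    have h1 := hQ z hz
    rw [h0, zero_mul] at h1
    rcases mul_eq_zero.1 h1.symm with h2 | h2
    · exact hz0 h2
    · refine A1psihat_ne hap ?_ h2
      have h3 : a ≤ 1 / (2 * (|z.im| + 1)) := min_le_right _ _
      have h4 : |z.im| * (2 * a) ≤ 1 := by
        rw [le_div_iff₀ (by positivity)] at h3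
        nlinarith [abs_nonneg z.im]
      linarith [Real.pi_gt_three]
  -- the contradiction
  set d₂ : ℝ := x₂ / 2 with hd₂
  have hd₂p : 0 < d₂ := by positivity
  have hcontF : ContinuousOn (fun w => ‖1 - A1F f ℓ w‖) (sphere (0 : ℂ) d₂) := by
    refine (continuousOn_const.sub (hFd.continuousOn.mono (fun w hw => ?_))).norm
    rw [mem_sphere_zero_iff_norm] at hw
    have h1 := (abs_le.1 (Complex.abs_re_le_norm w)).1
    simp only [Set.mem_setOf_eq]
    linarith
  obtain ⟨w₀, hw₀, hmin⟩ := (isCompact_sphere (0 : ℂ) d₂).exists_isMinOn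
    (NormedSpace.sphere_nonempty.2 hd₂p.le) hcontF
  set m : ℝ := ‖1 - A1F f ℓ w₀‖ with hm
  have hmp : 0 < m := by
    rw [mem_sphere_zero_iff_norm] at hw₀
    refine norm_pos_iff.2 (hstar w₀ ?_ ?_)
    · have h1 := (abs_le.1 (Complex.abs_re_le_norm w₀)).1
      linarith
    · intro h
      rw [h, norm_zero] at hw₀
      linarith
  have hbsum := hsumx d₂ (by
    have : x₂ ≤ x₁ := min_le_left _ _
    linarith)
  obtain ⟨τ, hτ, hτs⟩ := A1_almost_periodic
    (fun s => mul_nonneg (hf0 s) (Real.exp_pos (d₂ * ℓ s)).le) hbsum (2 * d₂)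
    (η := m / 4) (by positivity)
  have happrox : ∀ w : ℂ, ‖w‖ ≤ d₂ → ‖A1F f ℓ (w + τ * Complex.I) - A1F f ℓ w‖ < m / 4 := by
    intro w hw
    have hw1 := (abs_le.1 (Complex.abs_re_le_norm w)).1
    have hterm : ∀ s, ‖(f s : ℂ) * Complex.exp (-w * ℓ s)‖ ≤ f s * Real.exp (d₂ * ℓ s) := by
      intro s
      rw [norm_mul, Complex.norm_exp, Complex.norm_real, Real.norm_eq_abs, abs_of_nonneg (hf0 s)]
      refine mul_le_mul_of_nonneg_left (Real.exp_le_exp.2 ?_) (hf0 s)
      simp only [Complex.mul_re, Complex.neg_re, Complex.ofReal_re, Complex.neg_im,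
        Complex.ofReal_im, mul_zero, sub_zero]
      exact mul_le_mul_of_nonneg_right (by linarith) (hℓp s)
    have hsw : Summable fun s => (f s : ℂ) * Complex.exp (-w * ℓ s) :=
      Summable.of_norm_bounded hbsum hterm
    have hterm2 : ∀ s, ‖(f s : ℂ) * Complex.exp (-(w + τ * Complex.I) * ℓ s)‖ ≤
        f s * Real.exp (d₂ * ℓ s) := by
      intro s
      rw [norm_mul, Complex.norm_exp, Complex.norm_real, Real.norm_eq_abs, abs_of_nonneg (hf0 s)]
      refine mul_le_mul_of_nonneg_left (Real.exp_le_exp.2 ?_) (hf0 s)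
      simp only [Complex.mul_re, Complex.neg_re, Complex.ofReal_re, Complex.neg_im,
        Complex.ofReal_im, mul_zero, sub_zero, Complex.add_re, Complex.I_re, Complex.I_im, mul_one]
      exact mul_le_mul_of_nonneg_right (by linarith) (hℓp s)
    have hsw2 : Summable fun s => (f s : ℂ) * Complex.exp (-(w + τ * Complex.I) * ℓ s) :=
      Summable.of_norm_bounded hbsum hterm2
    have hdiff : A1F f ℓ (w + τ * Complex.I) - A1F f ℓ w =
        ∑' s, ((f s : ℂ) * Complex.exp (-w * ℓ s)) *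
          (Complex.exp (-(τ * Complex.I) * ℓ s) - 1) := by
      unfold A1F
      rw [← hsw2.tsum_sub hsw]
      refine tsum_congr (fun s => ?_)
      rw [mul_sub, mul_one, mul_assoc, ← Complex.exp_add]
      congr 3
      ring
    rw [hdiff]
    refine lt_of_le_of_lt ?_ hτs
    have hsb : Summable fun s => f s * Real.exp (d₂ * ℓ s) *
        ‖Complex.exp (-(τ * Complex.I) * ℓ s) - 1‖ := by
      refine Summable.of_nonneg_of_le (fun s => by
        exact mul_nonneg (mul_nonneg (hf0 s) (Real.exp_pos _).le) (norm_nonneg _))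
        (fun s => ?_) (hbsum.mul_right 2)
      refine mul_le_mul_of_nonneg_left ?_ (mul_nonneg (hf0 s) (Real.exp_pos _).le)
      refine (norm_sub_le _ _).trans ?_
      rw [Complex.norm_exp]
      simp
      norm_num
    refine tsum_of_norm_bounded hsb.hasSum (fun s => ?_)
    rw [norm_mul]
    exact mul_le_mul_of_nonneg_right (hterm s) (norm_nonneg _)
  have hne : ∀ w ∈ closedBall (0 : ℂ) d₂, 1 - A1F f ℓ (w + τ * Complex.I) ≠ 0 := by
    intro w hw
    rw [mem_closedBall_zero_iff] at hw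
    have hw1 := (abs_le.1 (Complex.abs_re_le_norm w)).1
    have hw2 := (abs_le.1 (Complex.abs_im_le_norm w)).1
    refine hstar _ ?_ ?_
    · simp
      linarith
    · intro h
      have := congrArg Complex.im h
      simp at this
      linarith
  have hdc : DiffContOnCl ℂ (fun w => (1 - A1F f ℓ (w + τ * Complex.I))⁻¹) (ball (0 : ℂ) d₂) := by
    refine DifferentiableOn.diffContOnCl ?_
    rw [closure_ball _ hd₂p.ne']
    refine DifferentiableOn.inv ((differentiableOn_const _).sub ?_) hne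
    refine hFd.comp (by fun_prop) (fun w hw => ?_)
    rw [mem_closedBall_zero_iff] at hw
    have hw1 := (abs_le.1 (Complex.abs_re_le_norm w)).1
    simp
    linarith
  have hbd : ∀ w ∈ frontier (ball (0 : ℂ) d₂),
      ‖(1 - A1F f ℓ (w + τ * Complex.I))⁻¹‖ ≤ (m - m / 4)⁻¹ := by
    intro w hw
    rw [frontier_ball _ hd₂p.ne'] at hw
    have h1 : m ≤ ‖1 - A1F f ℓ w‖ := hmin hw
    rw [mem_sphere_zero_iff_norm] at hw
    have h2 := happrox w hw.le
    rw [norm_inv]
    refine inv_anti₀ (by linarith) ?_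
    have h3 : ‖1 - A1F f ℓ w‖ ≤ ‖1 - A1F f ℓ (w + τ * Complex.I)‖ +
        ‖A1F f ℓ (w + τ * Complex.I) - A1F f ℓ w‖ := by
      refine le_trans (le_of_eq ?_) (norm_add_le _ _)
      congr 1; ring
    linarith
  have h0 := Complex.norm_le_of_forall_mem_frontier_norm_le isBounded_ball hdc hbd
    (z := 0) (subset_closure (mem_ball_self hd₂p))
  simp only [zero_add] at h0
  have h1 := happrox 0 (by simpa using hd₂p.le)
  rw [zero_add, hF0, norm_sub_rev] at h1
  have h2 : 1 - A1F f ℓ (τ * Complex.I) ≠ 0 := by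
    have := hne 0 (by simpa using hd₂p.le)
    simpa using this
  rw [norm_inv] at h0
  have h3 : m - m / 4 ≤ ‖1 - A1F f ℓ (τ * Complex.I)‖ :=
    (inv_le_inv₀ (norm_pos_iff.2 h2) (by linarith)).1 h0
  linarith

/-- Task A1. A renewal measure `∑ g_s δ_{ℓ s}` with atomic inter-arrival distribution
`∑ f_s δ_{ℓ s}` cannot converge exponentially fast in the renewal theorem. -/
theorem renewal_contradiction {S : Type*} (g f : S → ℝ) (ℓ : S → ℝ) (e ℓ₀ A κ T₀ : ℝ)
    (he : 0 < e) (hℓ₀ : 2 * e < ℓ₀) (hA : 0 < A) (hκ : 0 < κ)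
    (hf0 : ∀ s, 0 ≤ f s) (hfg : ∀ s, f s ≤ g s)
    (hℓ : ∀ s, g s ≠ 0 → ℓ₀ ≤ ℓ s) (hfin : ∀ R, {s | g s ≠ 0 ∧ ℓ s ≤ R}.Finite)
    (hren : ∀ φ : ℝ → ℝ≥0∞, ∑' s, ENNReal.ofReal (g s) * φ (ℓ s) =
      ∑' s, ENNReal.ofReal (f s) * φ (ℓ s) +
        ∑' p : S × S, ENNReal.ofReal (f p.1) * ENNReal.ofReal (g p.2) * φ (ℓ p.1 + ℓ p.2))
    (hmix : ∀ k₁ k₂ : ℝ → ℝ, (∃ K, LipschitzWith K k₁) → (∃ K, LipschitzWith K k₂) →
      (∀ s, 0 ≤ k₁ s) → (∀ s, 0 ≤ k₂ s) → (∀ s, e < |s| → k₁ s = 0) → (∀ s, e < |s| → k₂ s = 0) →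
      ∃ C, ∀ T ≥ T₀, |∑' s, g s * (∫ u, k₂ u * k₁ (u + ℓ s - T)) -
        A * (∫ u, k₁ u) * (∫ u, k₂ u)| ≤ C * Real.exp (-κ * T)) : False := by
  have hfz : ∀ s, g s = 0 → f s = 0 := fun s h => le_antisymm (h ▸ hfg s) (hf0 s)
  have hcount : {s | g s ≠ 0}.Countable := by
    have : {s | g s ≠ 0} = ⋃ n : ℕ, {s | g s ≠ 0 ∧ ℓ s ≤ n} := by
      ext s
      simp only [mem_iUnion]
      constructor
      · intro hs
        obtain ⟨n, hn⟩ := exists_nat_ge (ℓ s)
        exact ⟨n, hs, hn⟩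
      · rintro ⟨n, hs, _⟩
        exact hs
    rw [this]
    exact countable_iUnion fun n => (hfin n).countable
  have : Countable {s // g s ≠ 0} := hcount.to_subtype
  have hsubE : ∀ F : S → ℝ≥0∞, (∀ s, g s = 0 → F s = 0) →
      ∑' s : {s // g s ≠ 0}, F s = ∑' s, F s := fun F hF =>
    tsum_subtype_eq_of_support_subset (s := {s | g s ≠ 0})
      (fun s hs h => hs (hF s h))
  have hsubR : ∀ F : S → ℝ, (∀ s, g s = 0 → F s = 0) →
      ∑' s : {s // g s ≠ 0}, F s = ∑' s, F s := fun F hF =>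
    tsum_subtype_eq_of_support_subset (s := {s | g s ≠ 0})
      (fun s hs h => hs (hF s h))
  refine A1_core (S := {s // g s ≠ 0}) (fun s => g s) (fun s => f s) (fun s => ℓ s) e ℓ₀ A κ T₀
    he hℓ₀ hA hκ (fun s => hf0 s) (fun s => hfg s) (fun s => hℓ s s.2) (fun R => ?_)
    (fun φ => ?_) (fun k₁ k₂ h1 h2 h3 h4 h5 h6 => ?_)
  · have h1 := (hfin R).preimage (f := (Subtype.val : {s // g s ≠ 0} → S))
      Subtype.val_injective.injOn
    exact h1.subset (fun s hs => ⟨s.2, hs⟩)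
  · rw [hsubE (fun s => ENNReal.ofReal (g s) * φ (ℓ s)) (fun s hs => by simp [hs]),
      hsubE (fun s => ENNReal.ofReal (f s) * φ (ℓ s)) (fun s hs => by simp [hfz s hs]), hren φ]
    congr 1
    rw [ENNReal.tsum_prod (f := fun a b => ENNReal.ofReal (f a) * ENNReal.ofReal (g b) *
        φ (ℓ a + ℓ b)),
      ENNReal.tsum_prod (f := fun (a b : {s // g s ≠ 0}) => ENNReal.ofReal (f a) *
        ENNReal.ofReal (g b) * φ (ℓ a + ℓ b))]
    rw [← hsubE (fun a => ∑' b, ENNReal.ofReal (f a) * ENNReal.ofReal (g b) * φ (ℓ a + ℓ b))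
      (fun s hs => by simp [hfz s hs])]
    refine tsum_congr (fun a => ?_)
    exact (hsubE (fun b => ENNReal.ofReal (f a) * ENNReal.ofReal (g b) * φ (ℓ a + ℓ b))
      (fun s hs => by simp [hs])).symm
  · obtain ⟨C, hC⟩ := hmix k₁ k₂ h1 h2 h3 h4 h5 h6
    refine ⟨C, fun T hT => ?_⟩
    rw [hsubR (fun s => g s * (∫ u, k₂ u * k₁ (u + ℓ s - T))) (fun s hs => by simp [hs])]
    exact hC T hT

end MP4a77c6
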