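import Pool.Agent.Lib.MP_4a77c6_an.Iface

open Set Metric MeasureTheory Filter Topology
open scoped ENNReal NNReal

namespace MP4a77c6

/-! Task B1: hyperbolic space. -/

/-- time component -/
private noncomputable def B1_t {n : ℕ} (x : Hyp n) : ℝ := √(1 + ‖x.vec‖ ^ 2)

private lemma B1_t_sq {n : ℕ} (x : Hyp n) : B1_t x ^ 2 = 1 + ‖x.vec‖ ^ 2 :=
  Real.sq_sqrt (by positivity)

private lemma B1_t_pos {n : ℕ} (x : Hyp n) : 0 < B1_t x := Real.sqrt_pos.2 (by positivity)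

private lemma B1_form {n : ℕ} (x y : Hyp n) :
    Hyp.form x y = B1_t x * B1_t y - inner ℝ x.vec y.vec := rfl

private lemma B1_cosh {n : ℕ} (x y : Hyp n) :
    Real.cosh (dist x y) = B1_t x * B1_t y - inner ℝ x.vec y.vec := by
  rw [Hyp.cosh_dist, B1_form]

/-- points of the line through `x` with direction `(v0, v)` -/
private noncomputable def B1_pt {n : ℕ} (x : Hyp n) (v : EuclideanSpace ℝ (Fin n)) (t : ℝ) :
    Hyp n := ⟨Real.cosh t • x.vec + Real.sinh t • v⟩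

private lemma B1_norm {n : ℕ} (a b : ℝ) (x v : EuclideanSpace ℝ (Fin n)) :
    ‖a • x + b • v‖ ^ 2 = a ^ 2 * ‖x‖ ^ 2 + 2 * a * b * inner ℝ x v + b ^ 2 * ‖v‖ ^ 2 := by
  rw [norm_add_sq_real, norm_smul, norm_smul, inner_smul_left, inner_smul_right, mul_pow, mul_pow,
    Real.norm_eq_abs, Real.norm_eq_abs, sq_abs, sq_abs]
  simp only [conj_trivial]
  ring

private lemma B1_t_pt {n : ℕ} {x : Hyp n} {v : EuclideanSpace ℝ (Fin n)} {v0 : ℝ}
    (h1 : B1_t x * v0 = inner ℝ x.vec v) (h2 : ‖v‖ ^ 2 = 1 + v0 ^ 2) (t : ℝ) :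
    B1_t (B1_pt x v t) = Real.cosh t * B1_t x + Real.sinh t * v0 := by
  have hx := B1_t_sq x
  have hxp := B1_t_pos x
  have hcs := Real.cosh_sq t
  have hv0 : v0 ^ 2 < B1_t x ^ 2 := by
    have h3 : (B1_t x * v0) ^ 2 ≤ ‖x.vec‖ ^ 2 * ‖v‖ ^ 2 := by
      rw [h1]
      have := abs_real_inner_le_norm x.vec v
      calc (inner ℝ x.vec v) ^ 2 = |inner ℝ x.vec v| ^ 2 := (sq_abs _).symm
        _ ≤ (‖x.vec‖ * ‖v‖) ^ 2 := by gcongr
        _ = _ := by ring
    rw [h2, show ‖x.vec‖ ^ 2 = B1_t x ^ 2 - 1 by rw [hx]; ring] at h3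
    nlinarith
  have habs : |v0| < B1_t x := by
    exact abs_lt_of_sq_lt_sq hv0 hxp.le
  have hT : 0 ≤ Real.cosh t * B1_t x + Real.sinh t * v0 := by
    have h4 : |Real.sinh t * v0| ≤ Real.cosh t * B1_t x := by
      rw [abs_mul]
      refine mul_le_mul ?_ habs.le (abs_nonneg _) (Real.cosh_pos t).le
      exact abs_le_of_sq_le_sq (by linarith) (Real.cosh_pos t).le
    have := (abs_le.1 h4).1
    linarith
  have hsq : 1 + ‖(B1_pt x v t).vec‖ ^ 2 = (Real.cosh t * B1_t x + Real.sinh t * v0) ^ 2 := by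
    have : ‖(B1_pt x v t).vec‖ ^ 2 = _ := B1_norm (Real.cosh t) (Real.sinh t) x.vec v
    rw [this, ← h1, h2, show ‖x.vec‖ ^ 2 = B1_t x ^ 2 - 1 by rw [hx]; ring]
    linear_combination -hcs
  change √(1 + ‖(B1_pt x v t).vec‖ ^ 2) = _
  rw [hsq, Real.sqrt_sq hT]

private lemma B1_pt_isometry {n : ℕ} {x : Hyp n} {v : EuclideanSpace ℝ (Fin n)} {v0 : ℝ}
    (h1 : B1_t x * v0 = inner ℝ x.vec v) (h2 : ‖v‖ ^ 2 = 1 + v0 ^ 2) :
    Isometry (B1_pt x v) := by
  refine Isometry.of_dist_eq fun s t => ?_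
  have hx := B1_t_sq x
  have e : Real.cosh (dist (B1_pt x v s) (B1_pt x v t)) = Real.cosh (dist s t) := by
    rw [B1_cosh, B1_t_pt h1 h2, B1_t_pt h1 h2, Real.dist_eq, Real.cosh_abs, Real.cosh_sub]
    have : inner ℝ (B1_pt x v s).vec (B1_pt x v t).vec
        = Real.cosh s * Real.cosh t * ‖x.vec‖ ^ 2
          + (Real.cosh s * Real.sinh t + Real.sinh s * Real.cosh t) * inner ℝ x.vec v
          + Real.sinh s * Real.sinh t * ‖v‖ ^ 2 := by
      unfold B1_pt
      simp only [inner_add_left, inner_add_right, inner_smul_left, inner_smul_right,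
        conj_trivial, real_inner_self_eq_norm_sq]
      rw [real_inner_comm x.vec v]
      ring
    rw [this, ← h1, h2, show ‖x.vec‖ ^ 2 = B1_t x ^ 2 - 1 by rw [hx]; ring]
    ring
  have := (Real.cosh_le_cosh.1 e.le)
  have := (Real.cosh_le_cosh.1 e.ge)
  rw [abs_of_nonneg dist_nonneg, abs_of_nonneg dist_nonneg] at *
  linarith

private lemma B1_hl_pt {n : ℕ} {x : Hyp n} {v : EuclideanSpace ℝ (Fin n)} {v0 : ℝ}
    (h1 : B1_t x * v0 = inner ℝ x.vec v) (h2 : ‖v‖ ^ 2 = 1 + v0 ^ 2) (A : Hyp n) :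
    ∃ C : ℝ, ∀ t : ℝ, Real.cosh (dist A (B1_pt x v t)) =
      Real.cosh (dist A (B1_pt x v 0)) * Real.cosh t - C * Real.sinh t := by
  refine ⟨inner ℝ A.vec v - B1_t A * v0, fun t => ?_⟩
  rw [B1_cosh, B1_cosh, B1_t_pt h1 h2, B1_t_pt h1 h2]
  unfold B1_pt
  simp only [inner_add_right, inner_smul_right, Real.cosh_zero, Real.sinh_zero]
  ring

private lemma B1_exists_dir {n : ℕ} {x y : Hyp n} (hxy : x ≠ y) :
    ∃ (v : EuclideanSpace ℝ (Fin n)) (v0 : ℝ), B1_t x * v0 = inner ℝ x.vec v ∧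
      ‖v‖ ^ 2 = 1 + v0 ^ 2 ∧ B1_pt x v (dist x y) = y := by
  have hd : 0 < dist x y := dist_pos.2 hxy
  have hs : 0 < Real.sinh (dist x y) := Real.sinh_pos_iff.2 hd
  have hc := B1_cosh x y
  have hcs := Real.cosh_sq (dist x y)
  obtain ⟨D, hD⟩ : ∃ D, D = dist x y := ⟨_, rfl⟩
  rw [← hD] at hs hc hcs ⊢
  have hx := B1_t_sq x
  have hy := B1_t_sq y
  refine ⟨(Real.sinh D)⁻¹ • (y.vec - Real.cosh D • x.vec),
    (Real.sinh D)⁻¹ * (B1_t y - Real.cosh D * B1_t x), ?_, ?_, ?_⟩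
  · rw [inner_smul_right, inner_sub_right, inner_smul_right, real_inner_self_eq_norm_sq,
      show ‖x.vec‖ ^ 2 = B1_t x ^ 2 - 1 by rw [hx]; ring]
    linear_combination (Real.sinh D)⁻¹ * (-hc)
  · rw [norm_smul, mul_pow, norm_inv, inv_pow, Real.norm_eq_abs, sq_abs, norm_sub_sq_real,
      norm_smul, mul_pow, Real.norm_eq_abs, sq_abs, inner_smul_right, real_inner_comm x.vec y.vec,
      show ‖x.vec‖ ^ 2 = B1_t x ^ 2 - 1 by rw [hx]; ring,
      show ‖y.vec‖ ^ 2 = B1_t y ^ 2 - 1 by rw [hy]; ring,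
      show inner ℝ x.vec y.vec = B1_t x * B1_t y - Real.cosh D by rw [hc]; ring]
    have hne : Real.sinh D ≠ 0 := hs.ne'
    field_simp
    linear_combination hcs
  · unfold B1_pt
    cases y
    simp only [Hyp.mk.injEq]
    rw [smul_smul, mul_inv_cancel₀ hs.ne', one_smul]
    abel

private lemma B1_pt_zero {n : ℕ} (x : Hyp n) (v : EuclideanSpace ℝ (Fin n)) :
    B1_pt x v 0 = x := by
  unfold B1_pt
  cases x
  simp

private lemma B1_eq_of_cosh {n : ℕ} {x y : Hyp n} (h : Real.cosh (dist x y) = 1) : x = y := by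
  rw [← dist_eq_zero]
  by_contra hne
  have := (Real.one_lt_cosh (x := dist x y)).2 hne
  linarith

theorem hyp_hypLike {n : ℕ} (hn : 1 ≤ n) : HypLike (Hyp n) := by
  refine ⟨fun x y => ?_, fun g hg A => ?_⟩
  · by_cases hxy : x = y
    · subst hxy
      have : Nonempty (Fin n) := ⟨⟨0, hn⟩⟩
      obtain ⟨e, he⟩ : ∃ e : EuclideanSpace ℝ (Fin n), e ≠ 0 := exists_ne 0
      have hne : x ≠ ⟨x.vec + e⟩ := by
        intro h
        apply he
        have : x.vec = x.vec + e := congrArg Hyp.vec h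
        exact (left_eq_add.1 this)
      obtain ⟨v, v0, h1, h2, _⟩ := B1_exists_dir hne
      refine ⟨B1_pt x v, B1_pt_isometry h1 h2, B1_pt_zero x v, ?_⟩
      rw [dist_self, B1_pt_zero]
    · obtain ⟨v, v0, h1, h2, h3⟩ := B1_exists_dir hxy
      exact ⟨B1_pt x v, B1_pt_isometry h1 h2, B1_pt_zero x v, h3⟩
  · have hne : g 0 ≠ g 1 := by
      intro h
      have := hg.injective h
      norm_num at this
    have hd : dist (g 0) (g 1) = 1 := by
      rw [hg.dist_eq, Real.dist_eq]; norm_num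
    obtain ⟨v, v0, h1, h2, h3⟩ := B1_exists_dir hne
    rw [hd] at h3
    have key : ∀ t, g t = B1_pt (g 0) v t := by
      intro t
      obtain ⟨C, hC⟩ := B1_hl_pt h1 h2 (g t)
      have d0 : Real.cosh (dist (g t) (B1_pt (g 0) v 0)) = Real.cosh t := by
        rw [B1_pt_zero, hg.dist_eq, Real.dist_eq, Real.cosh_abs, sub_zero]
      rw [d0] at hC
      have e1 := hC 1
      rw [h3, hg.dist_eq, Real.dist_eq, Real.cosh_abs, Real.cosh_sub] at e1
      have hs1 : 0 < Real.sinh 1 := Real.sinh_pos_iff.2 one_pos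
      have hCs : C = Real.sinh t := by
        have : (C - Real.sinh t) * Real.sinh 1 = 0 := by linear_combination e1
        rcases mul_eq_zero.1 this with h4 | h4
        · linarith
        · exact absurd h4 hs1.ne'
      have e2 := hC t
      rw [hCs] at e2
      apply B1_eq_of_cosh
      rw [e2]
      have := Real.cosh_sq t
      nlinarith
    have hfun : g = B1_pt (g 0) v := funext key
    have := B1_hl_pt h1 h2 A
    rw [← hfun] at this
    exact this

private lemma B1_norm_sub_le {n : ℕ} (x y : Hyp n) :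
    ‖x.vec - y.vec‖ ^ 2 ≤ (Hyp.form x y - 1) * (B1_t x + B1_t y) ^ 2 := by
  have hx := B1_t_sq x
  have hy := B1_t_sq y
  have hxp := B1_t_pos x
  have hyp := B1_t_pos y
  have hnx := norm_nonneg x.vec
  have hny := norm_nonneg y.vec
  have e1 : 2 * (Hyp.form x y - 1) = ‖x.vec - y.vec‖ ^ 2 - (B1_t x - B1_t y) ^ 2 := by
    rw [B1_form, norm_sub_sq_real]
    nlinarith
  have e2 : (B1_t x - B1_t y) * (B1_t x + B1_t y) = (‖x.vec‖ - ‖y.vec‖) * (‖x.vec‖ + ‖y.vec‖) := by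
    nlinarith
  have e3 : (‖x.vec‖ - ‖y.vec‖) ^ 2 ≤ ‖x.vec - y.vec‖ ^ 2 := by
    have := abs_norm_sub_norm_le x.vec y.vec
    calc (‖x.vec‖ - ‖y.vec‖) ^ 2 = |‖x.vec‖ - ‖y.vec‖| ^ 2 := (sq_abs _).symm
      _ ≤ _ := by gcongr
  have e4 : ((B1_t x - B1_t y) * (B1_t x + B1_t y)) ^ 2
      ≤ ‖x.vec - y.vec‖ ^ 2 * (‖x.vec‖ + ‖y.vec‖) ^ 2 := by
    rw [e2, mul_pow]
    exact mul_le_mul_of_nonneg_right e3 (by positivity)
  have e5 : ‖x.vec‖ * ‖y.vec‖ ≤ B1_t x * B1_t y := by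
    apply le_of_sq_le_sq _ (by positivity)
    rw [mul_pow, mul_pow, hx, hy]
    nlinarith [sq_nonneg ‖x.vec‖, sq_nonneg ‖y.vec‖]
  have e6 : (‖x.vec‖ + ‖y.vec‖) ^ 2 + 2 ≤ (B1_t x + B1_t y) ^ 2 := by nlinarith
  have e7 : 2 * ‖x.vec - y.vec‖ ^ 2 ≤ 2 * (Hyp.form x y - 1) * (B1_t x + B1_t y) ^ 2 := by
    rw [e1]
    have := mul_le_mul_of_nonneg_left e6 (sq_nonneg ‖x.vec - y.vec‖)
    nlinarith
  linarith

private lemma B1_t_le {n : ℕ} (x y : Hyp n) :
    B1_t y ≤ Hyp.form x y * (B1_t x + ‖x.vec‖) := by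
  have hx := B1_t_sq x
  have hy := B1_t_sq y
  have hxp := B1_t_pos x
  have hyp := B1_t_pos y
  have hnx := norm_nonneg x.vec
  have hny := norm_nonneg y.vec
  have h1 : inner ℝ x.vec y.vec ≤ ‖x.vec‖ * ‖y.vec‖ := real_inner_le_norm _ _
  have h2 : ‖y.vec‖ ≤ B1_t y := by
    apply le_of_sq_le_sq _ hyp.le
    rw [hy]; linarith
  have h3 : B1_t y * (B1_t x - ‖x.vec‖) ≤ Hyp.form x y := by
    rw [B1_form]
    nlinarith
  have h4 : (B1_t x - ‖x.vec‖) * (B1_t x + ‖x.vec‖) = 1 := by nlinarith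
  calc B1_t y = B1_t y * (B1_t x - ‖x.vec‖) * (B1_t x + ‖x.vec‖) := by
        rw [mul_assoc, h4, mul_one]
    _ ≤ _ := mul_le_mul_of_nonneg_right h3 (by positivity)

private lemma B1_continuous_vec {n : ℕ} : Continuous (fun x : Hyp n => x.vec) := by
  rw [continuous_iff_continuousAt]
  intro x
  rw [ContinuousAt, tendsto_iff_dist_tendsto_zero]
  have hf : Tendsto (fun y : Hyp n => Hyp.form x y) (𝓝 x) (𝓝 1) := by
    have h1 : Continuous (fun y : Hyp n => Real.cosh (dist x y)) :=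
      Real.continuous_cosh.comp (continuous_const.dist continuous_id)
    have h2 := h1.tendsto x
    simp only [dist_self, Real.cosh_zero, Hyp.cosh_dist] at h2
    exact h2
  have hsq : Tendsto (fun y : Hyp n => ‖x.vec - y.vec‖ ^ 2) (𝓝 x) (𝓝 0) := by
    have hM : Tendsto (fun y : Hyp n => (Hyp.form x y - 1) *
        (B1_t x + Hyp.form x y * (B1_t x + ‖x.vec‖)) ^ 2) (𝓝 x)
        (𝓝 ((1 - 1) * (B1_t x + 1 * (B1_t x + ‖x.vec‖)) ^ 2)) :=
      (hf.sub_const 1).mul ((tendsto_const_nhds.add (hf.mul_const _)).pow 2)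
    rw [sub_self, zero_mul] at hM
    refine squeeze_zero (fun y => by positivity) (fun y => ?_) hM
    refine (B1_norm_sub_le x y).trans ?_
    have h1 : 0 ≤ Hyp.form x y - 1 := by linarith [Hyp.one_le_form x y]
    refine mul_le_mul_of_nonneg_left ?_ h1
    have h2 := B1_t_le x y
    have hxp := B1_t_pos x
    have hyp := B1_t_pos y
    gcongr
  have hs := (Real.continuous_sqrt.tendsto 0).comp hsq
  rw [Real.sqrt_zero] at hs
  refine hs.congr fun y => ?_
  simp only [Function.comp]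
  rw [Real.sqrt_sq (norm_nonneg _), dist_comm, dist_eq_norm]

private lemma B1_continuous_mk {n : ℕ} :
    Continuous (fun v : EuclideanSpace ℝ (Fin n) => (⟨v⟩ : Hyp n)) := by
  rw [continuous_iff_continuousAt]
  intro v
  rw [ContinuousAt, tendsto_iff_dist_tendsto_zero]
  have hc : Continuous (fun w : EuclideanSpace ℝ (Fin n) =>
      Hyp.form (⟨w⟩ : Hyp n) (⟨v⟩ : Hyp n)) := by
    unfold Hyp.form
    fun_prop
  have h1 : Continuous (fun w : EuclideanSpace ℝ (Fin n) =>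
      Real.arcosh (Hyp.form (⟨w⟩ : Hyp n) (⟨v⟩ : Hyp n))) :=
    Real.continuousOn_arcosh.comp_continuous hc fun w => Hyp.one_le_form _ _
  have h2 := h1.tendsto v
  have h3 : Real.arcosh (Hyp.form (⟨v⟩ : Hyp n) (⟨v⟩ : Hyp n)) = 0 :=
    dist_self (⟨v⟩ : Hyp n)
  rw [h3] at h2
  exact h2

theorem hyp_simplyConnected (n : ℕ) : SimplyConnectedSpace (Hyp n) := by
  let e : Hyp n ≃ₜ EuclideanSpace ℝ (Fin n) :=
    { toFun := fun x => x.vec
      invFun := fun v => ⟨v⟩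
      left_inv := fun x => rfl
      right_inv := fun v => rfl
      continuous_toFun := B1_continuous_vec
      continuous_invFun := B1_continuous_mk }
  have : ContractibleSpace (Hyp n) := e.contractibleSpace
  infer_instance

end MP4a77c6
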