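import Pool.Agent.Lib.MP_4a77c6_an.Iface

open Set Metric MeasureTheory Filter Topology
open scoped ENNReal NNReal

namespace MP4a77c6

/-! Task B2: elementary geometry of a `HypLike` space. -/

variable {H : Type*} [MetricSpace H]

private lemma B2_dist {g : ℝ → H} (hg : Isometry g) (s t : ℝ) : dist (g s) (g t) = |s - t| := by
  rw [hg.dist_eq, Real.dist_eq]

private lemma B2_shift {g : ℝ → H} (hg : Isometry g) (a : ℝ) : Isometry (fun t => g (t + a)) := by
  refine Isometry.of_dist_eq fun s t => ?_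
  rw [B2_dist hg, Real.dist_eq]
  congr 1; ring

private lemma B2_eq_of_cosh {x y : H} (h : Real.cosh (dist x y) = 1) : x = y := by
  have h1 : Real.cosh (dist x y) = Real.cosh 0 := by rw [h, Real.cosh_zero]
  rw [← dist_eq_zero]
  have := Real.cosh_abs (dist x y)
  by_contra hne
  have := (Real.one_lt_cosh (x := dist x y)).2 hne
  linarith

theorem HypLike.geodesic (h : HypLike H) : IsGeodesicSpace H := by
  intro x y
  obtain ⟨g, hg, h0, h1⟩ := h.line x y
  exact ⟨g, fun s _ t _ => B2_dist hg s t, h0, h1⟩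

/-- points between `g 0` and `g d` are on `g` -/
theorem HypLike.eq_of_between (h : HypLike H) {g : ℝ → H} (hg : Isometry g) {d s : ℝ} {z : H}
    (hs : 0 ≤ s) (hsd : s ≤ d) (h1 : dist (g 0) z = s) (h2 : dist z (g d) = d - s) : z = g s := by
  rcases eq_or_lt_of_le (hs.trans hsd) with hd | hd
  · have hs0 : s = 0 := le_antisymm (by rw [hd]; exact hsd) hs
    rw [hs0] at h1 ⊢
    exact (dist_eq_zero.1 h1).symm
  · obtain ⟨C, hC⟩ := h.hl g hg z
    have hz0 : dist z (g 0) = s := by rw [dist_comm]; exact h1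
    have e1 := hC d
    rw [h2, hz0, Real.cosh_sub] at e1
    have hsd : 0 < Real.sinh d := Real.sinh_pos_iff.2 hd
    have hCs : C = Real.sinh s := by
      have : (C - Real.sinh s) * Real.sinh d = 0 := by linear_combination e1
      rcases mul_eq_zero.1 this with h3 | h3
      · linarith
      · exact absurd h3 hsd.ne'
    have e2 := hC s
    rw [hz0, hCs] at e2
    apply B2_eq_of_cosh
    rw [e2]
    have := Real.cosh_sq s
    nlinarith

/-- a geodesic segment of positive length has a unique extension to a line -/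
theorem HypLike.exists_line (h : HypLike H) {c : ℝ → H} {a b : ℝ} (hab : a < b)
    (hc : IsGeodesicOn c a b) : ∃ g : ℝ → H, Isometry g ∧ ∀ s ∈ Icc a b, g s = c s := by
  obtain ⟨g, hg, h0, h1⟩ := h.line (c a) (c b)
  have hd : dist (c a) (c b) = b - a := by
    rw [hc a ⟨le_rfl, hab.le⟩ b ⟨hab.le, le_rfl⟩, abs_sub_comm, abs_of_pos (by linarith)]
  rw [hd] at h1
  refine ⟨fun t => g (t + (-a)), B2_shift hg _, fun s hs => ?_⟩
  have e1 : dist (g 0) (c s) = s - a := by
    rw [h0, hc a ⟨le_rfl, hab.le⟩ s hs, abs_sub_comm, abs_of_nonneg (by linarith [hs.1])]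
  have e2 : dist (c s) (g (b - a)) = (b - a) - (s - a) := by
    rw [h1, hc s hs b ⟨hab.le, le_rfl⟩, abs_sub_comm, abs_of_nonneg (by linarith [hs.2])]
    ring
  have := h.eq_of_between hg (d := b - a) (s := s - a) (by linarith [hs.1]) (by linarith [hs.2]) e1 e2
  rw [this]
  rfl

theorem HypLike.line_unique (h : HypLike H) {g g' : ℝ → H} (hg : Isometry g) (hg' : Isometry g')
    {a b : ℝ} (hab : a ≠ b) (ha : g a = g' a) (hb : g b = g' b) : g = g' := by
  funext t
  have hG := B2_shift hg a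
  obtain ⟨C, hC⟩ := h.hl _ hG (g' t)
  simp only [zero_add] at hC
  have d0 : Real.cosh (dist (g' t) (g a)) = Real.cosh (t - a) := by
    rw [ha, B2_dist hg', Real.cosh_abs]
  rw [d0] at hC
  have e1 := hC (b - a)
  rw [sub_add_cancel, hb, B2_dist hg', Real.cosh_abs] at e1
  have e3 : t - b = (t - a) - (b - a) := by ring
  rw [e3, Real.cosh_sub] at e1
  have hsd : Real.sinh (b - a) ≠ 0 := by
    rw [Ne, Real.sinh_eq_zero]
    exact sub_ne_zero.2 hab.symm
  have hCs : C = Real.sinh (t - a) := by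
    have : (C - Real.sinh (t - a)) * Real.sinh (b - a) = 0 := by linear_combination e1
    rcases mul_eq_zero.1 this with h3 | h3
    · linarith
    · exact absurd h3 hsd
  have e2 := hC (t - a)
  rw [sub_add_cancel, hCs] at e2
  apply (B2_eq_of_cosh ?_).symm
  rw [e2]
  have := Real.cosh_sq (t - a)
  nlinarith

/-- geodesic segments are unique -/
theorem HypLike.geod_unique (h : HypLike H) {c c' : ℝ → H} {a b : ℝ}
    (hc : IsGeodesicOn c a b) (hc' : IsGeodesicOn c' a b) (ha : c a = c' a) (hb : c b = c' b) :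
    ∀ s ∈ Icc a b, c s = c' s := by
  intro s hs
  rcases eq_or_lt_of_le (hs.1.trans hs.2) with hab | hab
  · have hsa : s = a := le_antisymm (by rw [hab]; exact hs.2) hs.1
    rw [hsa, ha]
  · obtain ⟨g, hg, hgc⟩ := h.exists_line hab hc
    have hG := B2_shift hg a
    have ea : g a = c' a := by rw [hgc a ⟨le_rfl, hab.le⟩, ha]
    have eb : g b = c' b := by rw [hgc b ⟨hab.le, le_rfl⟩, hb]
    have e1 : dist (g (0 + a)) (c' s) = s - a := by
      rw [zero_add, ea, hc' a ⟨le_rfl, hab.le⟩ s hs, abs_sub_comm, abs_of_nonneg (by linarith [hs.1])]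
    have e2 : dist (c' s) (g ((b - a) + a)) = (b - a) - (s - a) := by
      rw [sub_add_cancel, eb, hc' s hs b ⟨hab.le, le_rfl⟩, abs_sub_comm,
        abs_of_nonneg (by linarith [hs.2])]
      ring
    have := h.eq_of_between hG (d := b - a) (s := s - a) (by linarith [hs.1])
      (by linarith [hs.2]) e1 e2
    rw [this, ← hgc s hs]
    simp

theorem HypLike.exists_mid (h : HypLike H) (x y : H) : ∃ m, IsMid m x y := by
  obtain ⟨g, hg, h0, h1⟩ := h.line x y
  have hd := dist_nonneg (x := x) (y := y)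
  refine ⟨g (dist x y / 2), ?_, ?_⟩
  · nth_rewrite 1 [← h0]
    rw [B2_dist hg, abs_sub_comm, abs_of_nonneg (by linarith)]
    ring
  · nth_rewrite 2 [← h1]
    rw [B2_dist hg, abs_sub_comm, abs_of_nonneg (by linarith)]
    ring

private lemma B2_mid_eq (h : HypLike H) {g : ℝ → H} (hg : Isometry g) {m x y : H}
    (h0 : g 0 = x) (h1 : g (dist x y) = y) (hm : IsMid m x y) : m = g (dist x y / 2) := by
  have hd := dist_nonneg (x := x) (y := y)
  refine h.eq_of_between hg (d := dist x y) (by linarith) (by linarith) ?_ ?_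
  · rw [h0]; exact hm.1
  · rw [h1, hm.2]; ring

theorem HypLike.mid_unique (h : HypLike H) {m m' x y : H} (hm : IsMid m x y) (hm' : IsMid m' x y) :
    m = m' := by
  obtain ⟨g, hg, h0, h1⟩ := h.line x y
  rw [B2_mid_eq h hg h0 h1 hm, B2_mid_eq h hg h0 h1 hm']

/-- median formula -/
theorem HypLike.mid_dist (h : HypLike H) {m x y : H} (hm : IsMid m x y) (A : H) :
    2 * Real.cosh (dist x y / 2) * Real.cosh (dist A m) =
      Real.cosh (dist A x) + Real.cosh (dist A y) := by
  obtain ⟨g, hg, h0, h1⟩ := h.line x y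
  have e := B2_mid_eq h hg h0 h1 hm
  obtain ⟨C, hC⟩ := h.hl g hg A
  obtain ⟨k, hk⟩ : ∃ k, dist x y = 2 * k := ⟨dist x y / 2, by ring⟩
  have hk2 : dist x y / 2 = k := by rw [hk]; ring
  have e1 := hC (2 * k)
  have e2 := hC k
  rw [hk] at h1
  rw [h1, h0, Real.cosh_two_mul, Real.sinh_two_mul] at e1
  rw [h0] at e2
  rw [hk2] at e ⊢
  rw [e, e2, e1]
  have := Real.cosh_sq k
  linear_combination Real.cosh (dist A x) * this

private lemma B2_tri (h : HypLike H) {m m' a b c : H} (hm : IsMid m a b) (hm' : IsMid m' a c) :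
    dist m m' ≤ dist b c / 2 := by
  have e1 := h.mid_dist hm' m
  have e2 := h.mid_dist hm c
  obtain ⟨p, hp⟩ : ∃ p, p = dist a b / 2 := ⟨_, rfl⟩
  obtain ⟨q, hq⟩ : ∃ q, q = dist a c / 2 := ⟨_, rfl⟩
  obtain ⟨r, hr⟩ : ∃ r, r = dist b c / 2 := ⟨_, rfl⟩
  have hma : dist m a = p := by rw [dist_comm, hm.1, hp]
  have hca : dist c a = 2 * q := by rw [dist_comm, hq]; ring
  have hcb : dist c b = 2 * r := by rw [dist_comm, hr]; ring
  rw [← hq, hma] at e1
  rw [← hp, hca, hcb, dist_comm c m, Real.cosh_two_mul, Real.cosh_two_mul] at e2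
  rw [← hr]
  have t1 : dist b c ≤ dist a b + dist a c := by
    rw [dist_comm a b]; exact dist_triangle _ _ _
  have t2 : dist a b ≤ dist a c + dist b c := by
    rw [dist_comm b c]; exact dist_triangle _ _ _
  have t3 : dist a c ≤ dist a b + dist b c := dist_triangle _ _ _
  have hr0 : 0 ≤ r := by rw [hr]; positivity
  have u1 : Real.cosh r ≤ Real.cosh (p + q) := by
    rw [Real.cosh_le_cosh, abs_of_nonneg hr0, abs_of_nonneg (by rw [hp, hq]; positivity)]
    rw [hr, hp, hq]; linarith
  have u2 : Real.cosh (p - q) ≤ Real.cosh r := by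
    rw [Real.cosh_le_cosh, abs_of_nonneg hr0, abs_le]
    constructor
    · rw [hr, hp, hq]; linarith
    · rw [hr, hp, hq]; linarith
  rw [Real.cosh_add] at u1
  rw [Real.cosh_sub] at u2
  have sp := Real.cosh_sq p
  have sq := Real.cosh_sq q
  have sr := Real.cosh_sq r
  have cp := Real.cosh_pos p
  have cq := Real.cosh_pos q
  have key : Real.cosh (dist m m') ≤ Real.cosh r := by
    have h1 := mul_nonneg (sub_nonneg.2 u1) (sub_nonneg.2 u2)
    have h2 : 4 * Real.cosh p * Real.cosh q * Real.cosh (dist m m')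
        ≤ 4 * Real.cosh p * Real.cosh q * Real.cosh r := by
      have e3 : 4 * Real.cosh p * Real.cosh q * Real.cosh (dist m m')
          = 2 * Real.cosh p * Real.cosh p + (Real.cosh q ^ 2 + Real.sinh q ^ 2
            + (Real.cosh r ^ 2 + Real.sinh r ^ 2)) := by
        linear_combination 2 * Real.cosh p * e1 + e2
      rw [e3]
      have h3 : Real.sinh p ^ 2 * Real.sinh q ^ 2 = (Real.cosh p ^ 2 - 1) * (Real.cosh q ^ 2 - 1) := by
        rw [sp, sq]; ring
      have h4 : Real.sinh q ^ 2 = Real.cosh q ^ 2 - 1 := by rw [sq]; ring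
      have h5 : Real.sinh r ^ 2 = Real.cosh r ^ 2 - 1 := by rw [sr]; ring
      rw [h4, h5]
      nlinarith
    have hpq : 0 < 4 * Real.cosh p * Real.cosh q := by positivity
    exact le_of_mul_le_mul_left h2 hpq
  rw [Real.cosh_le_cosh, abs_of_nonneg dist_nonneg, abs_of_nonneg hr0] at key
  exact key

private lemma B2_mid_symm {m x y : H} (hm : IsMid m x y) : IsMid m y x := by
  refine ⟨?_, ?_⟩
  · rw [dist_comm, hm.2, dist_comm x y]
  · rw [dist_comm, hm.1, dist_comm x y]

/-- joint midpoint convexity of the distance -/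
theorem HypLike.mid_convex (h : HypLike H) {m x y m' x' y' : H} (hm : IsMid m x y)
    (hm' : IsMid m' x' y') : dist m m' ≤ (dist x x' + dist y y') / 2 := by
  obtain ⟨n, hn⟩ := h.exists_mid x y'
  have h1 := B2_tri h hm hn
  have h2 := B2_tri h (B2_mid_symm hn) (B2_mid_symm hm')
  have := dist_triangle m n m'
  linarith

end MP4a77c6
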