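import Pool.Agent.Lib.MP_4a77c6_an.Iface

open Set Metric MeasureTheory Filter Topology
open scoped ENNReal NNReal

namespace MP4a77c6

/-! Task C1: metric coverings. -/

section general

variable {A B E : Type*} [MetricSpace A] [MetricSpace B] [MetricSpace E]

private lemma C1_geod_cont {c : ℝ → E} {a b : ℝ} (hc : IsGeodesicOn c a b) :
    ContinuousOn c (Icc a b) := by
  have : LipschitzOnWith 1 c (Icc a b) := by
    refine LipschitzOnWith.of_dist_le_mul fun x hx y hy => ?_
    rw [hc x hx y hy, NNReal.coe_one, one_mul, Real.dist_eq]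
  exact this.continuousOn

private lemma C1_path_lip {f : ℝ → E} {a b : ℝ} (hab : a ≤ b) (hf : ContinuousOn f (Icc a b))
    (hloc : ∀ t ∈ Ico a b, ∃ δ > 0, ∀ s ∈ Icc a b, t < s → s < t + δ → dist (f t) (f s) ≤ s - t) :
    dist (f a) (f b) ≤ b - a := by
  have hcl : IsClosed ({t | dist (f a) (f t) ≤ t - a} ∩ Icc a b) := by
    have h1 : ContinuousOn (fun t => dist (f a) (f t) - (t - a)) (Icc a b) := by
      have : ContinuousOn (fun t => dist (f a) (f t)) (Icc a b) :=
        (continuous_const.dist continuous_id).comp_continuousOn hf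
      exact this.sub (by fun_prop)
    have h2 := h1.preimage_isClosed_of_isClosed isClosed_Icc (isClosed_Iic (a := (0 : ℝ)))
    convert h2 using 1
    ext t
    simp only [mem_inter_iff, mem_ofPred_eq, mem_preimage, mem_Iic, sub_nonpos]
    tauto
  have hsub := hcl.Icc_subset_of_forall_mem_nhdsWithin (by simp) (fun t ht => by
    obtain ⟨ht1, ht2⟩ := ht
    obtain ⟨δ, hδ, h⟩ := hloc t ht2
    have hm : 0 < min δ (b - t) := lt_min hδ (by linarith [ht2.2])
    have : Ioo t (t + min δ (b - t)) ∈ 𝓝[>] t := Ioo_mem_nhdsGT (by linarith)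
    filter_upwards [this] with s hs
    have hs1 : s < t + δ := lt_of_lt_of_le hs.2 (by linarith [min_le_left δ (b - t)])
    have hs2 : s < b := lt_of_lt_of_le hs.2 (by linarith [min_le_right δ (b - t)])
    have := h s ⟨by linarith [ht2.1, hs.1], hs2.le⟩ hs.1 hs1
    have h3 := dist_triangle (f a) (f t) (f s)
    have h4 : dist (f a) (f t) ≤ t - a := ht1
    show dist (f a) (f s) ≤ s - a
    linarith)
  exact hsub ⟨hab, le_rfl⟩

private lemma C1_lift_lip {q : E → B} (hq : IsLocalIsometry q) {f : ℝ → E} {a b : ℝ} (hab : a ≤ b)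
    (hf : ContinuousOn f (Icc a b))
    (h : ∀ s ∈ Icc a b, ∀ t ∈ Icc a b, dist (q (f s)) (q (f t)) ≤ |s - t|) :
    dist (f a) (f b) ≤ b - a := by
  refine C1_path_lip hab hf fun t ht => ?_
  have ht' : t ∈ Icc a b := ⟨ht.1, ht.2.le⟩
  obtain ⟨r, hr, hri⟩ := hq (f t)
  obtain ⟨δ, hδ, hδc⟩ := Metric.continuousWithinAt_iff.1 (hf t ht') r hr
  refine ⟨δ, hδ, fun s hs hts hsδ => ?_⟩
  have h1 : dist (f s) (f t) < r := hδc hs (by
    rw [Real.dist_eq, abs_of_pos (by linarith)]; linarith)
  have h2 := hri (f t) (mem_ball_self hr) (f s) h1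
  rw [← h2]
  refine (h t ht' s hs).trans ?_
  rw [abs_sub_comm, abs_of_pos (by linarith)]

private lemma C1_joined {c : ℝ → E} {d : ℝ} (hd : 0 ≤ d) (hc : IsGeodesicOn c 0 d) {F : Set E}
    (hF : ∀ t ∈ Icc 0 d, c t ∈ F) : JoinedIn F (c 0) (c d) := by
  have hm : ∀ l ∈ Icc (0 : ℝ) 1, l * d ∈ Icc 0 d := fun l hl =>
    ⟨mul_nonneg hl.1 hd, by nlinarith [hl.2]⟩
  refine JoinedIn.ofLine (f := fun l => c (l * d)) ?_ (by simp) (by simp) ?_
  · exact (C1_geod_cont hc).comp (by fun_prop) hm
  · rintro _ ⟨l, hl, rfl⟩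
    exact hF _ (hm l hl)

theorem IsGeodesicSpace.locallyPathConnected (h : IsGeodesicSpace E) :
    LocallyPathConnectedSpace E := by
  refine LocallyPathConnectedSpace.of_bases (fun x => nhds_basis_ball) ?_
  intro x r hr
  refine ⟨x, mem_ball_self hr, fun {y} hy => ?_⟩
  obtain ⟨c, hc, h0, h1⟩ := h x y
  have hd : 0 ≤ dist x y := dist_nonneg
  have := C1_joined hd hc (F := ball x r) (fun t ht => by
    rw [mem_ball, ← h0, hc t ht 0 ⟨le_rfl, hd⟩, sub_zero, abs_of_nonneg ht.1]
    exact lt_of_le_of_lt ht.2 (by rwa [dist_comm]))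
  rwa [h0, h1] at this

theorem IsGeodesicSpace.preconnected (h : IsGeodesicSpace E) : PreconnectedSpace E := by
  refine ⟨?_⟩
  refine isPreconnected_of_forall_pair fun x _ y _ => ?_
  obtain ⟨c, hc, h0, h1⟩ := h x y
  have hd : 0 ≤ dist x y := dist_nonneg
  refine ⟨c '' Icc 0 (dist x y), subset_univ _, ⟨0, ⟨le_rfl, hd⟩, h0⟩, ⟨_, ⟨hd, le_rfl⟩, h1⟩, ?_⟩
  exact isPreconnected_Icc.image _ (C1_geod_cont hc)

/-- If `q ∘ F` is 1-Lipschitz, `F` continuous, `q` a local isometry, the source of `F` a geodesic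
space, then `F` is 1-Lipschitz. -/
theorem lipschitz_of_comp (hA : IsGeodesicSpace A) {q : E → B} (hq : IsLocalIsometry q)
    {F : A → E} (hF : Continuous F) (hqF : LipschitzWith 1 (fun a => q (F a))) :
    LipschitzWith 1 F := by
  refine LipschitzWith.of_dist_le_mul fun x y => ?_
  rw [NNReal.coe_one, one_mul]
  obtain ⟨c, hc, h0, h1⟩ := hA x y
  have hd : 0 ≤ dist x y := dist_nonneg
  have := C1_lift_lip hq hd (f := fun t => F (c t)) (hF.comp_continuousOn (C1_geod_cont hc))
    (fun s hs t ht => by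
      refine (hqF.dist_le_mul (c s) (c t)).trans ?_
      rw [NNReal.coe_one, one_mul, hc s hs t ht])
  simpa only [h0, h1, sub_zero] using this

private lemma C1_continuous {q : E → B} (hq : IsLocalIsometry q) : Continuous q := by
  rw [Metric.continuous_iff]
  intro b ε hε
  obtain ⟨r, hr, hri⟩ := hq b
  refine ⟨min r ε, lt_min hr hε, fun a ha => ?_⟩
  rw [hri a (lt_of_lt_of_le ha (min_le_left _ _)) b (mem_ball_self hr)]
  exact lt_of_lt_of_le ha (min_le_right _ _)

theorem IsLocalIsometry.lipschitz {q : E → B} (hq : IsLocalIsometry q) (hE : IsGeodesicSpace E) :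
    LipschitzWith 1 q := by
  refine LipschitzWith.of_dist_le_mul fun x y => ?_
  rw [NNReal.coe_one, one_mul]
  obtain ⟨c, hc, h0, h1⟩ := hE x y
  have hd : 0 ≤ dist x y := dist_nonneg
  have := C1_path_lip hd (f := fun t => q (c t))
    ((C1_continuous hq).comp_continuousOn (C1_geod_cont hc)) (fun t ht => by
      obtain ⟨r, hr, hri⟩ := hq (c t)
      refine ⟨r, hr, fun s hs hts hsr => ?_⟩
      have ht' : t ∈ Icc 0 (dist x y) := ⟨ht.1, ht.2.le⟩
      have hd : dist (c t) (c s) = s - t := by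
        rw [hc t ht' s hs, abs_sub_comm, abs_of_pos (by linarith)]
      rw [hri (c t) (mem_ball_self hr) (c s) (by rw [mem_ball, dist_comm, hd]; linarith), hd])
  simpa only [h0, h1, sub_zero] using this

theorem IsLocalIsometry.isLocalGeodesic_comp {q : E → B} (hq : IsLocalIsometry q) {c : ℝ → E}
    (hc : IsLocalGeodesic c) : IsLocalGeodesic (fun t => q (c t)) := by
  intro t
  obtain ⟨ε, hε, hg⟩ := hc t
  obtain ⟨r, hr, hri⟩ := hq (c t)
  have hm : 0 < min ε (r / 2) := lt_min hε (by linarith)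
  have hsub : ∀ s ∈ Icc (t - min ε (r / 2)) (t + min ε (r / 2)),
      s ∈ Icc (t - ε) (t + ε) ∧ c s ∈ ball (c t) r := by
    intro s hs
    have h1 : s ∈ Icc (t - ε) (t + ε) :=
      ⟨by linarith [hs.1, min_le_left ε (r / 2)], by linarith [hs.2, min_le_left ε (r / 2)]⟩
    refine ⟨h1, ?_⟩
    rw [mem_ball, hg s h1 t ⟨by linarith, by linarith⟩]
    have : |s - t| ≤ r / 2 := abs_le.2
      ⟨by linarith [hs.1, min_le_right ε (r / 2)], by linarith [hs.2, min_le_right ε (r / 2)]⟩
    linarith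
  refine ⟨_, hm, fun s hs s' hs' => ?_⟩
  obtain ⟨h1, h2⟩ := hsub s hs
  obtain ⟨h3, h4⟩ := hsub s' hs'
  show dist (q (c s)) (q (c s')) = _
  rw [hri _ h2 _ h4, hg s h1 s' h3]

/-- a continuous lift of a local geodesic is a local geodesic -/
theorem IsLocalIsometry.isLocalGeodesic_of_comp {q : E → B} (hq : IsLocalIsometry q) {c : ℝ → E}
    (hcont : Continuous c) (hc : IsLocalGeodesic (fun t => q (c t))) : IsLocalGeodesic c := by
  intro t
  obtain ⟨ε, hε, hg⟩ := hc t
  obtain ⟨r, hr, hri⟩ := hq (c t)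
  obtain ⟨δ, hδ, hδc⟩ := Metric.continuous_iff.1 hcont t r hr
  have hm : 0 < min ε (δ / 2) := lt_min hε (by linarith)
  have hsub : ∀ s ∈ Icc (t - min ε (δ / 2)) (t + min ε (δ / 2)),
      s ∈ Icc (t - ε) (t + ε) ∧ c s ∈ ball (c t) r := by
    intro s hs
    have h1 : s ∈ Icc (t - ε) (t + ε) :=
      ⟨by linarith [hs.1, min_le_left ε (δ / 2)], by linarith [hs.2, min_le_left ε (δ / 2)]⟩
    refine ⟨h1, hδc s ?_⟩
    have : |s - t| ≤ δ / 2 := abs_le.2
      ⟨by linarith [hs.1, min_le_right ε (δ / 2)], by linarith [hs.2, min_le_right ε (δ / 2)]⟩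
    rw [Real.dist_eq]
    linarith
  refine ⟨_, hm, fun s hs s' hs' => ?_⟩
  obtain ⟨h1, h2⟩ := hsub s hs
  obtain ⟨h3, h4⟩ := hsub s' hs'
  rw [← hri _ h2 _ h4]
  exact hg s h1 s' h3

theorem exists_lift [SimplyConnectedSpace A] [LocallyPathConnectedSpace A] {q : E → B}
    (hq : IsCoveringMap q) {f : A → B} (hf : Continuous f) {a₀ : A} {e₀ : E} (he : q e₀ = f a₀) :
    ∃ F : A → E, Continuous F ∧ F a₀ = e₀ ∧ ∀ a, q (F a) = f a := by
  obtain ⟨F, ⟨h1, h2⟩, -⟩ := hq.existsUnique_continuousMap_lifts ⟨f, hf⟩ a₀ e₀ he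
  exact ⟨F, F.continuous, h1, fun a => congrFun h2 a⟩

theorem lift_unique [PreconnectedSpace A] {q : E → B} (hq : IsCoveringMap q) {F G : A → E}
    (hF : Continuous F) (hG : Continuous G) (h : ∀ a, q (F a) = q (G a)) {a₀ : A}
    (ha : F a₀ = G a₀) : F = G :=
  hq.eq_of_comp_eq hF hG (funext h) a₀ ha

theorem wallLifts_exists {q : E → B} (hq : IsCoveringMap q) {σ : ℝ → B} {L : ℝ}
    (hσ : ContinuousOn σ (Icc 0 L)) {s₀ : ℝ} (hs₀ : s₀ ∈ Icc 0 L) {e₀ : E} (he : q e₀ = σ s₀) :
    ∃ τ ∈ wallLifts q σ L, τ s₀ = e₀ := by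
  have hL : (0 : ℝ) ≤ L := hs₀.1.trans hs₀.2
  have hcont : Continuous (fun s => σ (projIcc 0 L hL s : ℝ)) :=
    hσ.comp_continuous (continuous_subtype_val.comp continuous_projIcc)
      (fun s => (projIcc 0 L hL s).2)
  have hval : ∀ s ∈ Icc 0 L, σ (projIcc 0 L hL s : ℝ) = σ s := fun s hs => by
    rw [projIcc_of_mem hL hs]
  obtain ⟨F, hF, hF0, hFq⟩ := exists_lift hq hcont (a₀ := s₀) (e₀ := e₀) (by rw [he, hval s₀ hs₀])
  exact ⟨F, ⟨hF.continuousOn, fun s hs => by rw [hFq s, hval s hs]⟩, hF0⟩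

theorem wallLifts_unique {q : E → B} (hq : IsCoveringMap q) {σ : ℝ → B} {L : ℝ}
    {τ τ' : ℝ → E} (hτ : τ ∈ wallLifts q σ L) (hτ' : τ' ∈ wallLifts q σ L)
    {s₀ : ℝ} (hs₀ : s₀ ∈ Icc 0 L) (h : τ s₀ = τ' s₀) : ∀ s ∈ Icc 0 L, τ s = τ' s :=
  fun _ hs => hq.eqOn_of_comp_eqOn isPreconnected_Icc hτ.1 hτ'.1
    (fun s hs => (hτ.2 s hs).trans (hτ'.2 s hs).symm) hs₀ h hs

private lemma C1_section {q : E → B} (hq : IsCoveringMap q) (x : B) :
    ∃ U : Set B, x ∈ U ∧ IsOpen U ∧ ∀ y, q y ∈ U → ∃ s : B → E, ContinuousOn s U ∧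
      (∀ z ∈ U, q (s z) = z) ∧ s (q y) = y := by
  classical
  obtain ⟨-, U, hxU, hU, hqU, H, hH⟩ := hq x
  refine ⟨U, hxU, hU, fun y hy => ?_⟩
  refine ⟨fun z => if hz : z ∈ U then (H.symm (⟨z, hz⟩, (H ⟨y, hy⟩).2)).1 else y, ?_, ?_, ?_⟩
  · rw [continuousOn_iff_continuous_domRestrict]
    have : Continuous (fun z : U => (H.symm (z, (H ⟨y, hy⟩).2)).1) :=
      continuous_subtype_val.comp (H.symm.continuous.comp (by fun_prop))
    convert this using 1
    ext z
    simp
  · intro z hz
    simp only [hz, dite_true]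
    have := hH (H.symm (⟨z, hz⟩, (H ⟨y, hy⟩).2))
    rw [H.apply_symm_apply] at this
    exact this.symm
  · simp only [hy, dite_true]
    have : H.symm (⟨q y, hy⟩, (H ⟨y, hy⟩).2) = ⟨y, hy⟩ := by
      rw [H.symm_apply_eq]
      refine Prod.ext (Subtype.ext ?_) rfl
      exact (hH ⟨y, hy⟩).symm
    rw [this]

private lemma C1_local {q : E → B} (hE : IsGeodesicSpace E) (hB : IsGeodesicSpace B)
    (hq : IsCoveringMap q) (hl : IsLocalIsometry q) (x : B) : ∃ ρ > 0, ∀ y, q y ∈ ball x ρ →
      (∀ a ∈ ball y ρ, ∀ b ∈ ball y ρ, dist (q a) (q b) = dist a b) ∧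
      ∀ z ∈ ball (q y) ρ, ∃ a ∈ ball y ρ, q a = z := by
  obtain ⟨U, hxU, hU, hs⟩ := C1_section hq x
  obtain ⟨r, hr, hrU⟩ := Metric.isOpen_iff.1 hU x hxU
  have hlip := hl.lipschitz hE
  have hlip' : ∀ a b, dist (q a) (q b) ≤ dist a b := fun a b => by
    simpa using hlip.dist_le_mul a b
  refine ⟨r / 4, by linarith, fun y hy => ?_⟩
  have hyU : q y ∈ U := hrU (ball_subset_ball (by linarith) hy)
  obtain ⟨s, hsc, hsq, hsy⟩ := hs y hyU
  rw [mem_ball] at hy
  -- points near `y` are in the same sheet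
  have hsheet : ∀ a ∈ ball y (r / 4), s (q a) = a := by
    intro a ha
    rw [mem_ball, dist_comm] at ha
    obtain ⟨c, hc, h0, h1⟩ := hE y a
    have hd : 0 ≤ dist y a := dist_nonneg
    have hcU : ∀ t ∈ Icc 0 (dist y a), q (c t) ∈ U := by
      intro t ht
      apply hrU
      rw [mem_ball]
      have h2 : dist (q (c t)) (q y) ≤ t := by
        refine (hlip' _ _).trans ?_
        rw [← h0, hc t ht 0 ⟨le_rfl, hd⟩, sub_zero, abs_of_nonneg ht.1]
      have h3 := dist_triangle (q (c t)) (q y) x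
      linarith [ht.2]
    have := hq.eqOn_of_comp_eqOn (s := Icc 0 (dist y a)) (g₁ := fun t => s (q (c t))) (g₂ := c)
      isPreconnected_Icc
      (hsc.comp (hq.continuous.comp_continuousOn (C1_geod_cont hc)) hcU) (C1_geod_cont hc)
      (fun t ht => hsq _ (hcU t ht)) (a := 0) ⟨le_rfl, hd⟩ (by
        show s (q (c 0)) = c 0
        rw [h0, hsy])
    have h4 := this ⟨hd, le_rfl⟩
    simpa only [h1] using h4
  -- lifting geodesics
  have hlift : ∀ z w, (∀ v, dist z v + dist v w = dist z w → v ∈ U) →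
      dist (s z) (s w) ≤ dist z w := by
    intro z w hzw
    obtain ⟨c, hc, h0, h1⟩ := hB z w
    have hd : 0 ≤ dist z w := dist_nonneg
    have hcU : ∀ t ∈ Icc 0 (dist z w), c t ∈ U := by
      intro t ht
      apply hzw
      have e1 : dist z (c t) = t := by
        rw [← h0, hc 0 ⟨le_rfl, hd⟩ t ht, zero_sub, abs_neg, abs_of_nonneg ht.1]
      have e2 : dist (c t) w = dist z w - t := by
        have := hc t ht (dist z w) ⟨hd, le_rfl⟩
        rw [h1] at this
        rw [this, abs_sub_comm, abs_of_nonneg (by linarith [ht.2])]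
      rw [e1, e2]; ring
    have := C1_lift_lip hl hd (f := fun t => s (c t)) (hsc.comp (C1_geod_cont hc) hcU)
      (fun t ht t' ht' => by
        show dist (q (s (c t))) (q (s (c t'))) ≤ _
        rw [hsq _ (hcU t ht), hsq _ (hcU t' ht'), hc t ht t' ht'])
    simpa only [h0, h1, sub_zero] using this
  refine ⟨fun a ha b hb => le_antisymm (hlip' a b) ?_, fun z hz => ?_⟩
  · have := hlift (q a) (q b) (fun v hv => hrU (by
      rw [mem_ball]
      have h1 := hlip' a y
      have h2 := hlip' b y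
      rw [mem_ball] at ha hb
      have h3 := dist_triangle (q a) (q y) (q b)
      rw [dist_comm (q y)] at h3
      have h4 := dist_triangle v (q a) x
      have h5 := dist_triangle v (q b) x
      have h6 := dist_triangle (q a) (q y) x
      have h7 := dist_triangle (q b) (q y) x
      rw [dist_comm v (q a)] at h4
      linarith))
    rwa [hsheet a ha, hsheet b hb] at this
  · rw [mem_ball, dist_comm] at hz
    have hzU : z ∈ U := hrU (by
      rw [mem_ball]
      have := dist_triangle z (q y) x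
      rw [dist_comm z (q y)] at this
      linarith)
    have := hlift (q y) z (fun v hv => hrU (by
      rw [mem_ball]
      have h1 := dist_triangle v (q y) x
      rw [dist_comm v (q y)] at h1
      have h2 : 0 ≤ dist v z := dist_nonneg
      linarith))
    rw [hsy] at this
    refine ⟨s z, ?_, hsq z hzU⟩
    rw [mem_ball, dist_comm]
    linarith

theorem exists_uniformCover [CompactSpace B] (hE : IsGeodesicSpace E) (hB : IsGeodesicSpace B)
    {q : E → B} (hq : IsCoveringMap q) (hl : IsLocalIsometry q) : ∃ ε > 0, IsUniformCover q ε := by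
  classical
  choose ρ hρ h using C1_local hE hB hq hl
  obtain ⟨t, -, ht⟩ := (isCompact_univ (X := B)).elim_nhds_subcover (fun x => ball x (ρ x))
    (fun x _ => ball_mem_nhds x (hρ x))
  have hmin : ∃ ε > 0, ∀ x ∈ t, ε ≤ ρ x := by
    clear ht
    induction t using Finset.induction_on with
    | empty => exact ⟨1, one_pos, by simp⟩
    | insert a s ha ih =>
      obtain ⟨ε, hε, h1⟩ := ih
      refine ⟨min ε (ρ a), lt_min hε (hρ a), fun x hx => ?_⟩
      rcases Finset.mem_insert.1 hx with rfl | hx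
      · exact min_le_right _ _
      · exact (min_le_left _ _).trans (h1 x hx)
  obtain ⟨ε, hε, hεt⟩ := hmin
  refine ⟨ε, hε, fun y => ?_⟩
  have hy : q y ∈ ⋃ x ∈ t, ball x (ρ x) := ht (mem_univ _)
  simp only [mem_iUnion] at hy
  obtain ⟨x, hxt, hx⟩ := hy
  obtain ⟨h1, h2⟩ := h x y hx
  have hsub := hεt x hxt
  refine ⟨fun a ha b hb => h1 a (ball_subset_ball hsub ha) b (ball_subset_ball hsub hb),
    fun z hz => ?_⟩
  obtain ⟨a, ha, haz⟩ := h2 z (ball_subset_ball hsub hz)
  refine ⟨a, ?_, haz⟩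
  rw [mem_ball, ← h1 a ha y (mem_ball_self (hρ x)), haz]
  exact hz

theorem IsUniformCover.mono {q : E → B} {ε δ : ℝ}
    (h : IsUniformCover q ε) (hδ : 0 < δ) (hδε : δ ≤ ε) : IsUniformCover q δ := by
  intro y
  refine ⟨fun a ha b hb => (h y).1 a (ball_subset_ball hδε ha) b (ball_subset_ball hδε hb),
    fun x hx => ?_⟩
  obtain ⟨a, ha, hax⟩ := (h y).2 x (ball_subset_ball hδε hx)
  refine ⟨a, ?_, hax⟩
  have h1 := (h y).1 a ha y (mem_ball_self (hδ.trans_le hδε))
  rw [mem_ball, ← h1, hax]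
  exact hx

end general

section universal

variable {X Y : Type*} [MetricSpace X] [MetricSpace Y] {π : Y → X}

theorem IsUniversalCover.lipschitz (h : IsUniversalCover π) : LipschitzWith 1 π :=
  h.localIsometry.lipschitz h.geodesic

private lemma C1_localGeod_cont {c : ℝ → X} (hc : IsLocalGeodesic c) : Continuous c := by
  rw [continuous_iff_continuousAt]
  intro t
  obtain ⟨ε, hε, h⟩ := hc t
  exact (C1_geod_cont h).continuousAt (Icc_mem_nhds (by linarith) (by linarith))

/-- lifts of local geodesics `ℝ → X` -/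
theorem IsUniversalCover.exists_geodLift (h : IsUniversalCover π) (c : GeodSpace X) (t₀ : ℝ)
    {y : Y} (hy : π y = c.1 t₀) : ∃ c' : GeodSpace Y, c'.1 t₀ = y ∧ ∀ t, π (c'.1 t) = c.1 t := by
  obtain ⟨F, hF, hF0, hFq⟩ := exists_lift h.covering (C1_localGeod_cont c.2) hy
  refine ⟨⟨F, h.localIsometry.isLocalGeodesic_of_comp hF ?_⟩, hF0, hFq⟩
  have : (fun t => π (F t)) = c.1 := funext hFq
  rw [this]
  exact c.2

theorem IsUniversalCover.geodLift_unique (h : IsUniversalCover π) (c c' : GeodSpace Y)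
    (hc : ∀ t, π (c.1 t) = π (c'.1 t)) {t₀ : ℝ} (h0 : c.1 t₀ = c'.1 t₀) : c = c' :=
  Subtype.ext (lift_unique h.covering (C1_localGeod_cont c.2) (C1_localGeod_cont c'.2) hc h0)

theorem IsUniversalCover.properSpace [CompactSpace X] (h : IsUniversalCover π) {ε : ℝ}
    (hε : 0 < ε) (hu : IsUniformCover π ε) : ProperSpace Y := by
  have hsmall : ∀ y : Y, IsCompact (closedBall y (ε / 2)) := by
    intro y
    have himg : IsCompact (closedBall (π y) (ε / 2)) := isClosed_closedBall.isCompact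
    have hsub : closedBall y (ε / 2) ⊆ ball y ε := closedBall_subset_ball (by linarith)
    let f : closedBall y (ε / 2) → X := fun z => π z.1
    have hf : Isometry f := Isometry.of_dist_eq fun a b =>
      (hu y).1 a.1 (hsub a.2) b.1 (hsub b.2)
    rw [isCompact_iff_isCompact_univ, hf.isUniformInducing.isInducing.isCompact_iff]
    convert himg using 1
    ext x
    simp only [image_univ, mem_range]
    constructor
    · rintro ⟨z, rfl⟩
      have h1 := (hu y).1 z.1 (hsub z.2) y (mem_ball_self hε)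
      have h2 : dist z.1 y ≤ ε / 2 := z.2
      show dist (π z.1) (π y) ≤ ε / 2
      rwa [h1]
    · intro hx
      obtain ⟨a, ha, hax⟩ := (hu y).2 x (closedBall_subset_ball (by linarith) hx)
      refine ⟨⟨a, ?_⟩, hax⟩
      have h1 := (hu y).1 a ha y (mem_ball_self hε)
      show dist a y ≤ ε / 2
      rw [← h1, hax]
      exact hx
  have hgrow : ∀ n : ℕ, ∀ y : Y, IsCompact (closedBall y (n * (ε / 4))) := by
    intro n
    induction n with
    | zero =>
      intro y
      simp
    | succ n ih =>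
      intro y
      obtain ⟨t, -, ht⟩ := (ih y).elim_nhds_subcover (fun z => ball z (ε / 4))
        (fun z _ => ball_mem_nhds z (by linarith))
      refine (t.isCompact_biUnion (f := fun z => closedBall z (ε / 2))
        (fun z _ => hsmall z)).of_isClosed_subset isClosed_closedBall ?_
      intro z hz
      rw [mem_closedBall, dist_comm] at hz
      push_cast at hz
      obtain ⟨c, hc, h0, h1⟩ := h.geodesic y z
      have hd : 0 ≤ dist y z := dist_nonneg
      have hn : (0 : ℝ) ≤ n * (ε / 4) := by positivity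
      set r := min (dist y z) (n * (ε / 4)) with hr
      have hr0 : 0 ≤ r := le_min hd hn
      have hr1 : r ≤ dist y z := min_le_left _ _
      have hr2 : r ≤ n * (ε / 4) := min_le_right _ _
      have hr3 : dist y z - ε / 4 ≤ r := le_min (by linarith) (by linarith)
      have e1 : dist (c r) y ≤ n * (ε / 4) := by
        rw [← h0, hc r ⟨hr0, hr1⟩ 0 ⟨le_rfl, hd⟩, sub_zero, abs_of_nonneg hr0]
        exact hr2
      have e2 : dist z (c r) ≤ ε / 4 := by
        have := hc (dist y z) ⟨hd, le_rfl⟩ r ⟨hr0, hr1⟩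
        rw [h1, abs_of_nonneg (by linarith)] at this
        rw [this]; linarith
      have hmem : c r ∈ ⋃ z ∈ t, ball z (ε / 4) := ht e1
      simp only [mem_iUnion] at hmem ⊢
      obtain ⟨i, hi, hci⟩ := hmem
      refine ⟨i, hi, ?_⟩
      rw [mem_ball] at hci
      rw [mem_closedBall]
      have := dist_triangle z (c r) i
      linarith
  refine ⟨fun y r => ?_⟩
  obtain ⟨n, hn⟩ := exists_nat_ge (r / (ε / 4))
  refine (hgrow n y).of_isClosed_subset isClosed_closedBall (closedBall_subset_closedBall ?_)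
  rwa [div_le_iff₀ (by linarith)] at hn

theorem IsUniversalCover.exists_deck (h : IsUniversalCover π) {y y' : Y} (hy : π y = π y') :
    ∃ γ ∈ Deck π, γ y = y' := by
  have := h.simplyConnected
  have := h.geodesic.locallyPathConnected
  have := h.geodesic.preconnected
  obtain ⟨F, hF, hF0, hFq⟩ := exists_lift h.covering h.covering.continuous (a₀ := y) hy.symm
  obtain ⟨G, hG, hG0, hGq⟩ := exists_lift h.covering h.covering.continuous (a₀ := y') hy
  have hFG : (fun z => F (G z)) = id := lift_unique h.covering (hF.comp hG) continuous_id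
    (fun z => by rw [hFq, hGq]; rfl) (a₀ := y') (by simp [hG0, hF0])
  have hGF : (fun z => G (F z)) = id := lift_unique h.covering (hG.comp hF) continuous_id
    (fun z => by rw [hGq, hFq]; rfl) (a₀ := y) (by simp [hG0, hF0])
  have hFl : LipschitzWith 1 F := lipschitz_of_comp h.geodesic h.localIsometry hF (by
    simp only [hFq]; exact h.lipschitz)
  have hGl : LipschitzWith 1 G := lipschitz_of_comp h.geodesic h.localIsometry hG (by
    simp only [hGq]; exact h.lipschitz)
  have hiso : Isometry F := by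
    refine Isometry.of_dist_eq fun a b => le_antisymm ?_ ?_
    · simpa using hFl.dist_le_mul a b
    · have := hGl.dist_le_mul (F a) (F b)
      have ea : G (F a) = a := congrFun hGF a
      have eb : G (F b) = b := congrFun hGF b
      rw [ea, eb] at this
      simpa using this
  refine ⟨IsometryEquiv.mk' F G (fun z => congrFun hFG z) hiso, ?_, hF0⟩
  intro z
  exact hFq z

theorem IsUniversalCover.deck_unique (h : IsUniversalCover π) {γ γ' : Y ≃ᵢ Y} (hγ : γ ∈ Deck π)
    (hγ' : γ' ∈ Deck π) {y : Y} (hy : γ y = γ' y) : γ = γ' := by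
  have := h.geodesic.preconnected
  have := lift_unique h.covering γ.continuous γ'.continuous
    (fun z => (hγ z).trans (hγ' z).symm) hy
  exact IsometryEquiv.ext (fun z => congrFun this z)

theorem IsUniversalCover.fiber_finite [CompactSpace X] (h : IsUniversalCover π) {ε : ℝ}
    (hε : 0 < ε) (hu : IsUniformCover π ε) (p : X) (x : Y) (R : ℝ) :
    {y | π y = p ∧ dist x y ≤ R}.Finite := by
  have := h.properSpace hε hu
  obtain ⟨t, -, ht⟩ := (isCompact_closedBall x R).elim_nhds_subcover (fun z => ball z (ε / 2))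
    (fun z _ => ball_mem_nhds z (by linarith))
  have hfin : (⋃ i ∈ t, {y | π y = p ∧ y ∈ ball i (ε / 2)}).Finite := by
    refine t.finite_toSet.biUnion fun i _ => Set.Subsingleton.finite ?_
    rintro a ⟨ha1, ha2⟩ b ⟨hb1, hb2⟩
    rw [mem_ball] at ha2 hb2
    have h1 := dist_triangle a i b
    rw [dist_comm i b] at h1
    have h2 : dist a b < ε := by linarith
    have h3 : dist b a < ε := by rwa [dist_comm]
    have h4 := (hu a).1 a (mem_ball_self hε) b h3
    rw [ha1, hb1, dist_self] at h4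
    exact dist_eq_zero.1 h4.symm
  refine hfin.subset ?_
  rintro y ⟨hy1, hy2⟩
  have hmem : y ∈ ⋃ z ∈ t, ball z (ε / 2) := ht (by rwa [mem_closedBall, dist_comm])
  simp only [mem_iUnion] at hmem ⊢
  obtain ⟨i, hi, hyi⟩ := hmem
  exact ⟨i, hi, hy1, hyi⟩

theorem IsUniformCover.eq_of_dist_lt {ε : ℝ} (hu : IsUniformCover π ε) {y y' : Y}
    (hy : π y = π y') (hd : dist y y' < ε) : y = y' := by
  have hε : 0 < ε := lt_of_le_of_lt dist_nonneg hd
  have := (hu y).1 y (mem_ball_self hε) y' (by rwa [mem_ball, dist_comm])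
  rw [hy, dist_self] at this
  exact dist_eq_zero.1 this.symm

/-- The projection `GY → GX`. -/
def projGeod (hπ : IsUniversalCover π) (c : GeodSpace Y) : GeodSpace X :=
  ⟨fun t => π (c.1 t), hπ.localIsometry.isLocalGeodesic_comp c.2⟩

theorem measurable_projGeod (hπ : IsUniversalCover π) : Measurable (projGeod hπ) := by
  rw [measurable_iff_comap_le]
  have e : (GeodSpace.instMeasurableSpace : MeasurableSpace (GeodSpace X)) =
    ⨆ t : ℝ, MeasurableSpace.comap (fun c : GeodSpace X => c.1 t) (borel X) := rfl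
  have e' : (GeodSpace.instMeasurableSpace : MeasurableSpace (GeodSpace Y)) =
    ⨆ t : ℝ, MeasurableSpace.comap (fun c : GeodSpace Y => c.1 t) (borel Y) := rfl
  rw [e, e', MeasurableSpace.comap_iSup]
  refine iSup_le fun t => ?_
  refine le_trans ?_ (le_iSup _ t)
  rw [MeasurableSpace.comap_comp]
  have hcomp : (fun c : GeodSpace X => c.1 t) ∘ projGeod hπ = π ∘ (fun c : GeodSpace Y => c.1 t) :=
    rfl
  rw [hcomp, ← MeasurableSpace.comap_comp]
  exact MeasurableSpace.comap_mono hπ.covering.continuous.borel_measurable.comap_le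

end universal

end MP4a77c6
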