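import Pool.Agent.Lib.MP_4a77c6_an.B1
import Pool.Agent.Lib.MP_4a77c6_an.B2
import Pool.Agent.Lib.MP_4a77c6_an.C1

open Set Metric MeasureTheory Filter Topology
open scoped ENNReal NNReal

namespace MP4a77c6

/-! Task C2: the sheets on one side. -/

variable {n : ℕ} {M X Y : Type*} [MetricSpace M] [MetricSpace X] [MetricSpace Y]

private lemma C2_lip (hn : 1 ≤ n) {P : Hyp n → M}
    (hPl : IsLocalIsometry P) {j : M → X} (hj : Isometry j) {π : Y → X} (hπ : IsUniversalCover π)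
    {Λ : Hyp n → Y} (hΛ : Λ ∈ lifts π (fun x => j (P x))) : LipschitzWith 1 Λ := by
  have hG : IsGeodesicSpace (Hyp n) := (hyp_hypLike hn).geodesic
  refine lipschitz_of_comp hG hπ.localIsometry hΛ.1 ?_
  have h1 : LipschitzWith 1 P := hPl.lipschitz hG
  have h2 : LipschitzWith (1 * 1) (fun x => j (P x)) := hj.lipschitz.comp h1
  rw [mul_one] at h2
  have h3 : (fun a => π (Λ a)) = fun x => j (P x) := funext hΛ.2
  rw [h3]
  exact h2

theorem sheet_retraction (hn : 1 ≤ n) {P : Hyp n → M} (hP : IsCoveringMap P)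
    (hPl : IsLocalIsometry P) {j : M → X} (hj : Isometry j) {r : X → M} (hr : LipschitzWith 1 r)
    (hrj : ∀ a, r (j a) = a) {π : Y → X} (hπ : IsUniversalCover π)
    {Λ : Hyp n → Y} (hΛ : Λ ∈ lifts π (fun x => j (P x))) :
    ∃ R : Y → Hyp n, LipschitzWith 1 R ∧ ∀ x, R (Λ x) = x := by
  have hG : IsGeodesicSpace (Hyp n) := (hyp_hypLike hn).geodesic
  have := hπ.simplyConnected
  have : LocallyPathConnectedSpace Y := hπ.geodesic.locallyPathConnected
  have : PreconnectedSpace (Hyp n) := hG.preconnected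
  have hlip : LipschitzWith 1 (fun y => r (π y)) := by
    have := hr.comp hπ.lipschitz
    rwa [mul_one] at this
  let x₀ : Hyp n := ⟨0⟩
  obtain ⟨R, hR, hR0, hPR⟩ := exists_lift hP hlip.continuous (a₀ := Λ x₀) (e₀ := x₀) (by
    rw [hΛ.2, hrj])
  refine ⟨R, lipschitz_of_comp hπ.geodesic hPl hR ?_, ?_⟩
  · have h3 : (fun a => P (R a)) = fun y => r (π y) := funext hPR
    rw [h3]; exact hlip
  · have h4 : (fun x => R (Λ x)) = fun x => x := by
      refine lift_unique hP (hR.comp hΛ.1) continuous_id (fun x => ?_) (a₀ := x₀) hR0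
      rw [hPR, hΛ.2, hrj]
    exact fun x => congrFun h4 x

theorem sheet_isometry (hn : 1 ≤ n) {P : Hyp n → M} (hP : IsCoveringMap P)
    (hPl : IsLocalIsometry P) {j : M → X} (hj : Isometry j) {r : X → M} (hr : LipschitzWith 1 r)
    (hrj : ∀ a, r (j a) = a) {π : Y → X} (hπ : IsUniversalCover π)
    {Λ : Hyp n → Y} (hΛ : Λ ∈ lifts π (fun x => j (P x))) : Isometry Λ := by
  obtain ⟨R, hR, hRΛ⟩ := sheet_retraction hn hP hPl hj hr hrj hπ hΛ
  have hΛl := C2_lip hn hPl hj hπ hΛ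
  refine Isometry.of_dist_eq (fun x y => le_antisymm ?_ ?_)
  · have := hΛl.dist_le_mul x y
    rwa [NNReal.coe_one, one_mul] at this
  · have := hR.dist_le_mul (Λ x) (Λ y)
    rwa [NNReal.coe_one, one_mul, hRΛ, hRΛ] at this

theorem sheet_exists (hn : 1 ≤ n) {P : Hyp n → M} (hP : IsCoveringMap P)
    (hPs : Function.Surjective P) {j : M → X} (hj : Isometry j) {π : Y → X}
    (hπ : IsUniversalCover π) {y : Y} (hy : π y ∈ range j) :
    ∃ Λ ∈ lifts π (fun x => j (P x)), y ∈ range Λ := by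
  have hG : IsGeodesicSpace (Hyp n) := (hyp_hypLike hn).geodesic
  have := hyp_simplyConnected n
  have : LocallyPathConnectedSpace (Hyp n) := hG.locallyPathConnected
  obtain ⟨a, ha⟩ := hy
  obtain ⟨x₀, hx₀⟩ := hPs a
  obtain ⟨Λ, hΛ, hΛ0, hπΛ⟩ := exists_lift hπ.covering (f := fun x => j (P x))
    (hj.continuous.comp hP.continuous) (a₀ := x₀) (e₀ := y) (by rw [← ha, hx₀])
  exact ⟨Λ, ⟨hΛ, hπΛ⟩, x₀, hΛ0⟩

theorem sheet_near (hn : 1 ≤ n) {P : Hyp n → M} {j : M → X} (hj : Isometry j) {π : Y → X}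
    {ε : ℝ} (hπ : IsUniversalCover π) (hu : IsUniformCover π ε) (hPu : IsUniformCover P ε)
    (hPl : IsLocalIsometry P)
    {Λ : Hyp n → Y} (hΛ : Λ ∈ lifts π (fun x => j (P x))) {y : Y} (hy : y ∈ range Λ) :
    π ⁻¹' (range j) ∩ ball y ε ⊆ range Λ := by
  rintro z ⟨⟨m, hm⟩, hz⟩
  obtain ⟨h, rfl⟩ := hy
  have hΛl := C2_lip hn hPl hj hπ hΛ
  have hε : 0 < ε := lt_of_le_of_lt dist_nonneg hz
  have h1 : m ∈ ball (P h) ε := by
    rw [mem_ball, ← hj.dist_eq, hm]
    have h2 : j (P h) = π (Λ h) := (hΛ.2 h).symm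
    rw [h2, (hu (Λ h)).1 z hz (Λ h) (mem_ball_self hε)]
    exact hz
  obtain ⟨h', hh', hPh'⟩ := (hPu h).2 m h1
  have h3 : Λ h' ∈ ball (Λ h) ε := by
    rw [mem_ball]
    have := hΛl.dist_le_mul h' h
    rw [NNReal.coe_one, one_mul] at this
    exact this.trans_lt hh'
  have h4 : dist (π (Λ h')) (π z) = dist (Λ h') z := (hu (Λ h)).1 _ h3 _ hz
  have h5 : π (Λ h') = π z := by
    have h6 : π (Λ h') = j (P h') := hΛ.2 h'
    rw [h6, ← hm, hPh']
  rw [h5, dist_self] at h4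
  exact ⟨h', dist_eq_zero.1 h4.symm⟩

end MP4a77c6
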