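import Pool.Agent.Lib.MP_4a77c6_an.Iface

open Set Metric MeasureTheory Filter Topology
open scoped ENNReal NNReal

namespace MP4a77c6

/-- A continuous integer-valued function on a preconnected set vanishing somewhere vanishes. -/
private lemma C3_const {Y : Type*} [TopologicalSpace Y] {C : Set Y} (hC : IsPreconnected C)
    {g : Y → ℝ} (hg : ContinuousOn g C) (hZ : ∀ y ∈ C, ∃ k : ℤ, g y = k) {w : Y} (hw : w ∈ C)
    (h0 : g w = 0) : ∀ y ∈ C, g y = 0 := by
  have himg : IsPreconnected (g '' C) := hC.image g hg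
  intro y hy
  by_contra hne
  have hord := himg.ordConnected
  obtain ⟨k, hk⟩ := hZ y hy
  have hk0 : k ≠ 0 := by
    rintro rfl
    exact hne (by simpa using hk)
  -- a non-integer value between `0` and `g y`
  have key : ∀ v : ℝ, v ∈ Set.uIcc (g w) (g y) → ∃ m : ℤ, v = m := by
    intro v hv
    have : v ∈ g '' C := hord.uIcc_subset (mem_image_of_mem g hw) (mem_image_of_mem g hy) hv
    obtain ⟨z, hz, rfl⟩ := this
    exact hZ z hz
  rcases lt_or_gt_of_ne hk0 with hneg | hpos
  · have h1 : (k : ℝ) ≤ -1 := by exact_mod_cast Int.le_sub_one_of_lt hneg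
    obtain ⟨m, hm⟩ := key (-1/2) (by
      rw [h0, hk, Set.mem_uIcc]; right; constructor <;> linarith)
    have : (2 * m : ℝ) = -1 := by linarith
    have h2 : 2 * m = -1 := by exact_mod_cast this
    omega
  · have h1 : (1 : ℝ) ≤ k := by exact_mod_cast hpos
    obtain ⟨m, hm⟩ := key (1/2) (by
      rw [h0, hk, Set.mem_uIcc]; left; constructor <;> linarith)
    have : (2 * m : ℝ) = 1 := by linarith
    have h2 : 2 * m = 1 := by exact_mod_cast this
    omega

/-- Task C3: a compact connected set `W` that is open and closed in `A ∩ B` (with a uniform gap)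
separates the simply connected space `Y = A ∪ B`. -/
theorem separation {Y : Type*} [MetricSpace Y] [SimplyConnectedSpace Y]
    [LocallyPathConnectedSpace Y] {A B W : Set Y} (hA : IsClosed A) (hB : IsClosed B)
    (hAB : A ∪ B = univ) (hW : IsCompact W) (hWc : IsPreconnected W) (hWn : W.Nonempty)
    (hWA : W ⊆ A) (hWB : W ⊆ B) {ε : ℝ} (hε : 0 < ε)
    (hsep : ∀ y ∈ A ∩ B, y ∉ W → ∀ w ∈ W, ε ≤ dist y w) :
    ∃ VA VB : Set Y, IsOpen VA ∧ IsOpen VB ∧ Disjoint VA VB ∧ VA ∪ VB = Wᶜ ∧
      (∀ C, IsPreconnected C → C ⊆ A → W ⊆ C → C ⊆ VA ∪ W) ∧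
      (∀ C, IsPreconnected C → C ⊆ B → W ⊆ C → C ⊆ VB ∪ W) := by
  classical
  obtain ⟨w₀, hw₀⟩ := hWn
  set u : Y → ℝ := fun y => min 1 (infDist y W / ε) with hu
  have hu_cont : Continuous u := by
    refine continuous_const.min ?_
    exact (continuous_infDist_pt W).div_const ε
  have hu0 : ∀ y ∈ W, u y = 0 := by
    intro y hy
    have : infDist y W = 0 := infDist_zero_of_mem hy
    simp [hu, this]
  have huge : ∀ y, ε ≤ infDist y W → u y = 1 := by
    intro y hy
    have : 1 ≤ infDist y W / ε := by rwa [le_div_iff₀ hε, one_mul]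
    simp [hu, this]
  have hupos : ∀ y ∉ W, 0 < u y := by
    intro y hy
    have h1 : 0 < infDist y W := (hW.isClosed.notMem_iff_infDist_pos ⟨w₀, hw₀⟩).1 hy
    exact lt_min one_pos (by positivity)
  have hule : ∀ y, u y ≤ 1 := fun y => min_le_left _ _
  have hu1 : ∀ y, y ∈ A → y ∈ B → y ∉ W → u y = 1 := by
    intro y hyA hyB hy
    exact huge y ((le_infDist ⟨w₀, hw₀⟩).2 (fun w hw => hsep y ⟨hyA, hyB⟩ hy w hw))
  have c1 : ((1 : ℝ) : AddCircle (1 : ℝ)) = 0 := AddCircle.coe_period 1
  -- the circle valued map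
  let f : Y → AddCircle (1 : ℝ) := fun y => if y ∈ A then (u y : AddCircle (1 : ℝ)) else 0
  have hfA : ∀ y ∈ A, f y = (u y : AddCircle (1 : ℝ)) := fun y hy => by simp [f, hy]
  have hfB : ∀ y ∈ B, f y = 0 := by
    intro y hy
    by_cases hyA : y ∈ A
    · rw [hfA y hyA]
      by_cases hyW : y ∈ W
      · rw [hu0 y hyW]; rfl
      · rw [hu1 y hyA hy hyW, c1]
    · simp [f, hyA]
  have hf : Continuous f := by
    rw [← continuousOn_univ, ← hAB]
    refine ContinuousOn.union_of_isClosed ?_ ?_ hA hB
    · refine ContinuousOn.congr (f := fun y => (u y : AddCircle (1 : ℝ))) ?_ hfA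
      exact ((AddCircle.continuous_mk' (1 : ℝ)).comp hu_cont).continuousOn
    · exact ContinuousOn.congr (f := fun _ => (0 : AddCircle (1 : ℝ))) continuousOn_const hfB
  obtain ⟨F, ⟨hF0, hFf⟩, -⟩ := (AddCircle.isCoveringMap_coe (1 : ℝ)).existsUnique_continuousMap_lifts
    ⟨f, hf⟩ w₀ (0 : ℝ) (by
      show ((0 : ℝ) : AddCircle (1 : ℝ)) = f w₀
      rw [hfA w₀ (hWA hw₀), hu0 w₀ hw₀])
  have hFf' : ∀ y, ((F y : ℝ) : AddCircle (1 : ℝ)) = f y := fun y => congrFun hFf y
  have hFc : Continuous F := F.continuous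
  have zero_iff : ∀ x : ℝ, (x : AddCircle (1 : ℝ)) = 0 → ∃ k : ℤ, x = k := by
    intro x hx
    obtain ⟨k, hk⟩ := (AddCircle.coe_eq_zero_iff (1 : ℝ)).1 hx
    exact ⟨k, by rw [← hk]; simp⟩
  have hFB : ∀ y ∈ B, ∃ k : ℤ, F y = k := fun y hy => zero_iff _ (by rw [hFf' y, hfB y hy])
  have hFA : ∀ y ∈ A, ∃ k : ℤ, F y - u y = k := fun y hy => zero_iff _ (by
    rw [AddCircle.coe_sub, hFf' y, hfA y hy, sub_self])
  have hFW : ∀ y ∈ W, F y = 0 :=
    C3_const hWc hFc.continuousOn (fun y hy => hFB y (hWB hy)) hw₀ hF0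
  have hWcl : IsClosed W := hW.isClosed
  refine ⟨{y | 0 < F y}, {y | F y ≤ 0} \ W, isOpen_lt continuous_const hFc, ?_, ?_, ?_, ?_, ?_⟩
  · rw [isOpen_iff_mem_nhds]
    rintro y ⟨hy, hyW⟩
    have hWn : ∀ᶠ z in 𝓝 y, z ∉ W := hWcl.isOpen_compl.mem_nhds hyW
    have hmain : ∀ᶠ z in 𝓝 y, F z ≤ 0 := by
      rcases lt_or_eq_of_le (show F y ≤ 0 from hy) with hlt | heq
      · filter_upwards [hFc.continuousAt.eventually_lt continuousAt_const hlt] with z hz using hz.le
      · have hsmall : ∀ᶠ z in 𝓝 y, |F z| < 1 / 2 := by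
          have : ContinuousAt (fun z => |F z|) y := hFc.abs.continuousAt
          have h2 : |F y| < 1 / 2 := by rw [heq]; norm_num
          exact this.eventually_lt continuousAt_const h2
        have hint : ∀ z, z ∈ B → |F z| < 1 / 2 → F z ≤ 0 := by
          intro z hz hz2
          obtain ⟨k, hk⟩ := hFB z hz
          rw [hk] at hz2 ⊢
          have : |(k : ℝ)| < 1 := by linarith
          have h3 : |k| < 1 := by exact_mod_cast this
          have h4 : k = 0 := Int.abs_lt_one_iff.1 h3
          simp [h4]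
        by_cases hyA : y ∈ A
        · obtain ⟨k, hk⟩ := hFA y hyA
          have hk1 : u y = 1 := by
            have h1 := hupos y hyW
            have h2 := hule y
            rw [heq, zero_sub] at hk
            have h3 : (-1 : ℝ) ≤ k := by rw [← hk]; linarith
            have h4 : (k : ℝ) < 0 := by rw [← hk]; linarith
            have h5 : -1 ≤ k := by exact_mod_cast h3
            have h6 : k < 0 := by exact_mod_cast h4
            have h7 : k = -1 := by omega
            rw [h7] at hk
            push_cast at hk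
            linarith
          have hularge : ∀ᶠ z in 𝓝 y, 1 / 2 < u z := by
            refine continuousAt_const.eventually_lt hu_cont.continuousAt ?_
            rw [hk1]; norm_num
          filter_upwards [hsmall, hularge] with z hz1 hz2
          have hzAB : z ∈ A ∪ B := by rw [hAB]; trivial
          rcases hzAB with hzA | hzB
          · obtain ⟨k, hk⟩ := hFA z hzA
            have h1 := hule z
            have h2 := abs_lt.1 hz1
            have h3 : (k : ℝ) < 0 := by rw [← hk]; linarith
            have h5 : k < 0 := by exact_mod_cast h3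
            have h6 : (k : ℝ) ≤ -1 := by exact_mod_cast Int.le_sub_one_of_lt h5
            linarith
          · exact hint z hzB hz1
        · have hA' : ∀ᶠ z in 𝓝 y, z ∉ A := hA.isOpen_compl.mem_nhds hyA
          filter_upwards [hsmall, hA'] with z hz1 hz2
          have hzAB : z ∈ A ∪ B := by rw [hAB]; trivial
          rcases hzAB with hzA | hzB
          · exact absurd hzA hz2
          · exact hint z hzB hz1
    filter_upwards [hWn, hmain] with z h1 h2 using ⟨h2, h1⟩
  · rw [Set.disjoint_left]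
    rintro y hy ⟨hy1, -⟩
    have h1 : 0 < F y := hy
    have h2 : F y ≤ 0 := hy1
    linarith
  · ext y
    constructor
    · rintro (hy | hy)
      · intro hyW
        have : F y = 0 := hFW y hyW
        have h2 : 0 < F y := hy
        linarith
      · exact hy.2
    · intro hy
      rcases lt_or_ge 0 (F y) with h | h
      · exact Or.inl h
      · exact Or.inr ⟨h, hy⟩
  · intro C hC hCA hWC y hy
    have := C3_const hC (g := fun y => F y - u y) (hFc.sub hu_cont).continuousOn
      (fun y hy => hFA y (hCA hy)) (hWC hw₀) (by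
        show F w₀ - u w₀ = 0
        rw [hu0 w₀ hw₀, hFW w₀ hw₀, sub_zero]) y hy
    by_cases hyW : y ∈ W
    · exact Or.inr hyW
    · left
      have h1 := hupos y hyW
      show 0 < F y
      have h2 : F y - u y = 0 := this
      linarith
  · intro C hC hCB hWC y hy
    have := C3_const hC hFc.continuousOn (fun y hy => hFB y (hCB hy)) (hWC hw₀) (hFW w₀ hw₀) y hy
    by_cases hyW : y ∈ W
    · exact Or.inr hyW
    · exact Or.inl ⟨this.le, hyW⟩

end MP4a77c6
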