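import Pool.Agent.Lib.MP_4a77c6_an.C2
import Pool.Agent.Lib.MP_4a77c6_an.C3

open Set Metric MeasureTheory Filter Topology
open scoped ENNReal NNReal

namespace MP4a77c6

/-! Task C4: the universal cover of the glued space is a tree of sheets. -/

private lemma C4_geod_cont {X : Type*} [MetricSpace X] {c : ℝ → X} {a b : ℝ}
    (hc : IsGeodesicOn c a b) : ContinuousOn c (Icc a b) := by
  refine (LipschitzOnWith.of_dist_le_mul (K := 1) (fun s hs t ht => ?_)).continuousOn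
  rw [hc s hs t ht, NNReal.coe_one, one_mul, Real.dist_eq]

private lemma C4_real_geod : IsGeodesicSpace ℝ := by
  intro x y
  by_cases h : x ≤ y
  · refine ⟨fun t => x + t, ?_, by simp, ?_⟩
    · intro s _ t _
      rw [Real.dist_eq]; congr 1; ring
    · simp only
      rw [Real.dist_eq, abs_sub_comm, abs_of_nonneg (by linarith)]; ring
  · push Not at h
    refine ⟨fun t => x - t, ?_, by simp, ?_⟩
    · intro s _ t _
      rw [Real.dist_eq, show x - s - (x - t) = -(s - t) by ring, abs_neg]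
    · simp only
      rw [Real.dist_eq, abs_of_nonneg (by linarith)]; ring

/-- lifts of geodesics are 1-Lipschitz -/
private lemma C4_lift_lip {E B : Type*} [MetricSpace E] [MetricSpace B] {q : E → B}
    (hl : IsLocalIsometry q) {σ : ℝ → B} {L : ℝ} (hL : 0 ≤ L) (hσ : IsGeodesicOn σ 0 L)
    {τ : ℝ → E} (hτ : τ ∈ wallLifts q σ L) : ∀ s ∈ Icc 0 L, ∀ t ∈ Icc 0 L,
      dist (τ s) (τ t) ≤ |s - t| := by
  let F : ℝ → E := fun t => τ (projIcc 0 L hL t)
  have hFc : Continuous F := by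
    have := hτ.1.domRestrict
    exact this.comp continuous_projIcc
  have hqF : LipschitzWith 1 (fun t => q (F t)) := by
    refine LipschitzWith.of_dist_le_mul (fun s t => ?_)
    rw [NNReal.coe_one, one_mul]
    change dist (q (τ (projIcc 0 L hL s))) (q (τ (projIcc 0 L hL t))) ≤ _
    rw [hτ.2 _ (projIcc 0 L hL s).2, hτ.2 _ (projIcc 0 L hL t).2,
      hσ _ (projIcc 0 L hL s).2 _ (projIcc 0 L hL t).2]
    exact abs_projIcc_sub_projIcc hL
  have h := lipschitz_of_comp C4_real_geod hl hFc hqF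
  intro s hs t ht
  have := h.dist_le_mul s t
  rw [NNReal.coe_one, one_mul] at this
  change dist (τ (projIcc 0 L hL s)) (τ (projIcc 0 L hL t)) ≤ _ at this
  rw [projIcc_of_mem hL hs, projIcc_of_mem hL ht] at this
  exact this

private lemma C4_concat {X : Type*} [MetricSpace X] {c c' : ℝ → X} {a b : ℝ} (ha : 0 ≤ a)
    (hb : 0 ≤ b) (hc : IsGeodesicOn c 0 a) (hc' : IsGeodesicOn c' 0 b) (h0 : c a = c' 0)
    (hd : dist (c 0) (c' b) = a + b) :
    IsGeodesicOn (fun t => if t ≤ a then c t else c' (t - a)) 0 (a + b) := by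
  have key : ∀ s ∈ Icc 0 a, ∀ t ∈ Icc 0 b, dist (c s) (c' t) = a - s + t := by
    intro s hs t ht
    have e1 : dist (c 0) (c s) = s := by
      rw [hc 0 ⟨le_rfl, ha⟩ s hs, zero_sub, abs_neg, abs_of_nonneg hs.1]
    have e2 : dist (c s) (c a) = a - s := by
      rw [hc s hs a ⟨ha, le_rfl⟩, abs_sub_comm, abs_of_nonneg (by linarith [hs.2])]
    have e3 : dist (c' 0) (c' t) = t := by
      rw [hc' 0 ⟨le_rfl, hb⟩ t ht, zero_sub, abs_neg, abs_of_nonneg ht.1]
    have e4 : dist (c' t) (c' b) = b - t := by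
      rw [hc' t ht b ⟨hb, le_rfl⟩, abs_sub_comm, abs_of_nonneg (by linarith [ht.2])]
    apply le_antisymm
    · calc dist (c s) (c' t) ≤ dist (c s) (c a) + dist (c a) (c' t) := dist_triangle _ _ _
        _ = a - s + t := by rw [e2, h0, e3]
    · have h1 := dist_triangle4 (c 0) (c s) (c' t) (c' b)
      rw [hd, e1, e4] at h1
      linarith
  intro s hs t ht
  by_cases h1 : s ≤ a <;> by_cases h2 : t ≤ a
  · simp only [h1, h2, if_true]
    exact hc s ⟨hs.1, h1⟩ t ⟨ht.1, h2⟩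
  · simp only [h1, h2, if_true, if_false]
    push Not at h2
    rw [key s ⟨hs.1, h1⟩ (t - a) ⟨by linarith, by linarith [ht.2]⟩, abs_sub_comm,
      abs_of_nonneg (by linarith)]
    ring
  · simp only [h1, h2, if_true, if_false]
    push Not at h1
    rw [dist_comm, key t ⟨ht.1, h2⟩ (s - a) ⟨by linarith, by linarith [hs.2]⟩,
      abs_of_nonneg (by linarith)]
    ring
  · simp only [h1, h2, if_false]
    push Not at h1 h2
    rw [hc' (s - a) ⟨by linarith, by linarith [hs.2]⟩ (t - a) ⟨by linarith, by linarith [ht.2]⟩]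
    congr 1; ring

section glue

variable {M₁ M₂ X : Type*} [MetricSpace M₁] [MetricSpace M₂] [MetricSpace X]
    {L : ℝ} {σ₁ : ℝ → M₁} {σ₂ : ℝ → M₂} {j₁ : M₁ → X} {j₂ : M₂ → X}

private lemma C4_symm (hX : IsGluing L σ₁ σ₂ j₁ j₂) :
    IsGluing L σ₂ σ₁ j₂ j₁ where
  isometry_left := hX.isometry_right
  isometry_right := hX.isometry_left
  cover x := (hX.cover x).symm
  glue s hs := (hX.glue s hs).symm
  dist_eq a b := by
    rw [dist_comm, hX.dist_eq]
    congr 1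
    funext s
    rw [dist_comm b, dist_comm a, add_comm]

private lemma C4_attained (hL : 0 < L) (hσ₁ : IsGeodesicOn σ₁ 0 L) (hσ₂ : IsGeodesicOn σ₂ 0 L)
    (hX : IsGluing L σ₁ σ₂ j₁ j₂) (a : M₁) (b : M₂) :
    ∃ s ∈ Icc 0 L, dist (j₁ a) (j₂ b) = dist a (σ₁ s) + dist (σ₂ s) b := by
  have hc : ContinuousOn (fun s => dist a (σ₁ s) + dist (σ₂ s) b) (Icc 0 L) :=
    (continuous_dist.comp_continuousOn (continuousOn_const.prodMk (C4_geod_cont hσ₁))).add
      (continuous_dist.comp_continuousOn ((C4_geod_cont hσ₂).prodMk continuousOn_const))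
  obtain ⟨s, hs, hmin⟩ := isCompact_Icc.exists_isMinOn ⟨0, ⟨le_rfl, hL.le⟩⟩ hc
  refine ⟨s, hs, ?_⟩
  rw [hX.dist_eq]
  apply le_antisymm
  · exact ciInf_le ⟨0, by rintro _ ⟨s, rfl⟩; positivity⟩ (⟨s, hs⟩ : Icc (0 : ℝ) L)
  · have : Nonempty (Icc (0 : ℝ) L) := ⟨⟨0, ⟨le_rfl, hL.le⟩⟩⟩
    exact le_ciInf (fun s' => hmin s'.2)

/-- retraction onto the first piece -/
private lemma C4_retr (hL : 0 < L) (hσ₁ : IsGeodesicOn σ₁ 0 L) (hσ₂ : IsGeodesicOn σ₂ 0 L)
    (hX : IsGluing L σ₁ σ₂ j₁ j₂) :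
    ∃ r : X → M₁, LipschitzWith 1 r ∧ ∀ a, r (j₁ a) = a := by
  classical
  have hmin : ∀ b : M₂, min L (dist (σ₂ 0) b) ∈ Icc 0 L := fun b =>
    ⟨le_min hL.le dist_nonneg, min_le_left _ _⟩
  have h0L : (0 : ℝ) ∈ Icc 0 L := ⟨le_rfl, hL.le⟩
  have hr : ∀ x : X, ∃ m : M₁, (∀ a, x = j₁ a → m = a) ∧
      (∀ b, x = j₂ b → m = σ₁ (min L (dist (σ₂ 0) b))) := by
    intro x
    by_cases hx : ∃ a, j₁ a = x
    · obtain ⟨a, rfl⟩ := hx
      refine ⟨a, fun a' ha' => hX.isometry_left.injective ha', fun b hb => ?_⟩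
      obtain ⟨s, hs, hsd⟩ := C4_attained hL hσ₁ hσ₂ hX a b
      rw [← hb, dist_self] at hsd
      have d1 : dist a (σ₁ s) = 0 := le_antisymm (by linarith [dist_nonneg (x := σ₂ s) (y := b)])
        dist_nonneg
      have d2 : dist (σ₂ s) b = 0 := le_antisymm (by linarith [dist_nonneg (x := a) (y := σ₁ s)])
        dist_nonneg
      rw [dist_eq_zero] at d1 d2
      rw [← d2, hσ₂ 0 h0L s hs, zero_sub, abs_neg, abs_of_nonneg hs.1, min_eq_right hs.2, d1]
    · obtain ⟨b, rfl⟩ : ∃ b, j₂ b = x := by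
        rcases hX.cover x with h | h
        · exact absurd h hx
        · exact h
      refine ⟨σ₁ (min L (dist (σ₂ 0) b)), fun a ha => absurd ⟨a, ha.symm⟩ hx, fun b' hb' => ?_⟩
      rw [hX.isometry_right.injective hb']
  choose r hr1 hr2 using hr
  have hminlip : ∀ b b' : M₂, |min L (dist (σ₂ 0) b) - min L (dist (σ₂ 0) b')| ≤ dist b b' := by
    intro b b'
    refine (abs_min_sub_min_le_max _ _ _ _).trans ?_
    rw [sub_self, abs_zero]
    refine max_le dist_nonneg ?_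
    rw [dist_comm (σ₂ 0) b, dist_comm (σ₂ 0) b']
    exact abs_dist_sub_le _ _ _
  have h12 : ∀ a b, dist a (σ₁ (min L (dist (σ₂ 0) b))) ≤ dist (j₁ a) (j₂ b) := by
    intro a b
    obtain ⟨s, hs, hsd⟩ := C4_attained hL hσ₁ hσ₂ hX a b
    rw [hsd]
    refine (dist_triangle _ (σ₁ s) _).trans ?_
    have h1 : dist (σ₁ s) (σ₁ (min L (dist (σ₂ 0) b))) ≤ dist (σ₂ s) b := by
      rw [hσ₁ s hs _ (hmin b)]
      have h2 := hminlip (σ₂ s) b
      rw [hσ₂ 0 h0L s hs, zero_sub, abs_neg, abs_of_nonneg hs.1, min_eq_right hs.2] at h2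
      exact h2
    linarith
  refine ⟨r, LipschitzWith.of_dist_le_mul (fun x y => ?_), fun a => hr1 _ a rfl⟩
  rw [NNReal.coe_one, one_mul]
  rcases hX.cover x with ⟨a, rfl⟩ | ⟨b, rfl⟩ <;> rcases hX.cover y with ⟨a', rfl⟩ | ⟨b', rfl⟩
  · rw [hr1 _ a rfl, hr1 _ a' rfl, hX.isometry_left.dist_eq]
  · rw [hr1 _ a rfl, hr2 _ b' rfl]; exact h12 a b'
  · rw [hr2 _ b rfl, hr1 _ a' rfl, dist_comm, dist_comm (j₂ b)]; exact h12 a' b
  · rw [hr2 _ b rfl, hr2 _ b' rfl, hX.isometry_right.dist_eq, hσ₁ _ (hmin b) _ (hmin b')]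
    exact hminlip b b'

private lemma C4_geodX (hL : 0 < L) (hσ₁ : IsGeodesicOn σ₁ 0 L) (hσ₂ : IsGeodesicOn σ₂ 0 L)
    (hX : IsGluing L σ₁ σ₂ j₁ j₂) (h1 : IsGeodesicSpace M₁) (h2 : IsGeodesicSpace M₂) (a : M₁)
    (y : X) : ∃ c : ℝ → X, IsGeodesicOn c 0 (dist (j₁ a) y) ∧ c 0 = j₁ a ∧
      c (dist (j₁ a) y) = y := by
  rcases hX.cover y with ⟨a', rfl⟩ | ⟨b, rfl⟩
  · obtain ⟨c, hc, hc0, hc1⟩ := h1 a a'
    rw [hX.isometry_left.dist_eq]
    refine ⟨fun t => j₁ (c t), fun s hs t ht => ?_, by simp only [hc0], by simp only [hc1]⟩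
    rw [hX.isometry_left.dist_eq]; exact hc s hs t ht
  · obtain ⟨s, hs, hsd⟩ := C4_attained hL hσ₁ hσ₂ hX a b
    obtain ⟨c, hc, hc0, hc1⟩ := h1 a (σ₁ s)
    obtain ⟨c', hc', hc0', hc1'⟩ := h2 (σ₂ s) b
    have hcX : IsGeodesicOn (fun t => j₁ (c t)) 0 (dist a (σ₁ s)) := fun s hs t ht => by
      rw [hX.isometry_left.dist_eq]; exact hc s hs t ht
    have hcX' : IsGeodesicOn (fun t => j₂ (c' t)) 0 (dist (σ₂ s) b) := fun s hs t ht => by
      rw [hX.isometry_right.dist_eq]; exact hc' s hs t ht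
    have h := C4_concat dist_nonneg dist_nonneg hcX hcX'
      (by simp only [hc1, hc0']; exact hX.glue s hs) (by simp only [hc0, hc1']; exact hsd)
    rw [hsd]
    refine ⟨_, h, ?_, ?_⟩
    · simp only [dist_nonneg, if_true, hc0]
    · by_cases h0 : dist a (σ₁ s) + dist (σ₂ s) b ≤ dist a (σ₁ s)
      · have h3 : dist (σ₂ s) b = 0 := le_antisymm (by linarith) dist_nonneg
        simp only [h0, if_true]
        rw [h3, add_zero, hc1, hX.glue s hs, dist_eq_zero.1 h3]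
      · simp only [h0, if_false, add_sub_cancel_left, hc1']

end glue

/-- walls are geodesics -/
private lemma C4_wall_geod {X Y : Type*} [MetricSpace X] [MetricSpace Y] {π : Y → X}
    (hπ : IsUniversalCover π) {σ : ℝ → X} {L : ℝ} (hL : 0 < L) (hσ : IsGeodesicOn σ 0 L)
    {τ : ℝ → Y} (hτ : τ ∈ wallLifts π σ L) : IsGeodesicOn τ 0 L := by
  intro s hs t ht
  apply le_antisymm
  · exact C4_lift_lip hπ.localIsometry hL.le hσ hτ s hs t ht
  · have := hπ.lipschitz.dist_le_mul (τ s) (τ t)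
    rw [NNReal.coe_one, one_mul, hτ.2 s hs, hτ.2 t ht, hσ s hs t ht] at this
    exact this

/-- a point over the segment near a wall is on the wall -/
private lemma C4_gap {X Y : Type*} [MetricSpace X] [MetricSpace Y] {π : Y → X}
    (hπ : IsUniversalCover π) {ε : ℝ} (hu : IsUniformCover π ε) {σ : ℝ → X} {L : ℝ} (hL : 0 < L)
    (hσ : IsGeodesicOn σ 0 L) {τ : ℝ → Y} (hτ : τ ∈ wallLifts π σ L) {y : Y}
    (hy : π y ∈ σ '' Icc 0 L) (hyW : y ∉ τ '' Icc 0 L) : ∀ w ∈ τ '' Icc 0 L, ε ≤ dist y w := by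
  rintro _ ⟨s, hs, rfl⟩
  by_contra hlt
  push Not at hlt
  have hε : 0 < ε := lt_of_le_of_lt dist_nonneg hlt
  obtain ⟨s₀, hs₀, hs₀y⟩ := hy
  have h1 : dist (π y) (π (τ s)) = dist y (τ s) := (hu (τ s)).1 y hlt _ (mem_ball_self hε)
  rw [← hs₀y, hτ.2 s hs, hσ s₀ hs₀ s hs] at h1
  have h2 : dist (τ s₀) (τ s) = |s₀ - s| := C4_wall_geod hπ hL hσ hτ s₀ hs₀ s hs
  have h3 : τ s₀ ∈ ball (τ s) ε := by rw [mem_ball, h2, h1]; exact hlt
  have h4 : dist (π y) (π (τ s₀)) = dist y (τ s₀) := (hu (τ s)).1 y hlt _ h3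
  rw [hτ.2 s₀ hs₀, hs₀y, dist_self] at h4
  exact hyW ⟨s₀, hs₀, (dist_eq_zero.1 h4.symm).symm⟩

/-- from every point of a sheet one reaches a wall -/
private lemma C4_dense {n : ℕ} {M X Y : Type*} [MetricSpace M] [MetricSpace X] [MetricSpace Y]
    (hn : 1 ≤ n) {P : Hyp n → M} (hP : IsCoveringMap P) (hPl : IsLocalIsometry P)
    (hM : CompactSpace M) (hMg : IsGeodesicSpace M) {j : M → X} (hj : Isometry j)
    {r : X → M} (hr : LipschitzWith 1 r) (hrj : ∀ a, r (j a) = a)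
    {π : Y → X} (hπ : IsUniversalCover π) {σ : ℝ → X} {L : ℝ} (hL : 0 < L)
    (hσ : IsGeodesicOn σ 0 L) {m₀ : M} (hm₀ : j m₀ = σ 0) {D : ℝ}
    (hD : Metric.diam (univ : Set M) ≤ D)
    {Λ : Hyp n → Y} (hΛ : Λ ∈ lifts π (fun x => j (P x))) (x : Hyp n) :
    ∃ τ ∈ wallLifts π σ L, τ 0 ∈ range Λ ∧ dist (Λ x) (τ 0) ≤ D := by
  obtain ⟨c, hc, hc0, hc1⟩ := hMg (P x) m₀
  set d := dist (P x) m₀ with hd
  have hd0 : 0 ≤ d := dist_nonneg
  have h0d : (0 : ℝ) ∈ Icc 0 d := ⟨le_rfl, hd0⟩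
  have hdd : d ∈ Icc 0 d := ⟨hd0, le_rfl⟩
  obtain ⟨g, hg, hg0⟩ := wallLifts_exists hP (C4_geod_cont hc) h0d (e₀ := x) hc0.symm
  have hgd : P (g d) = m₀ := by rw [hg.2 d hdd, hc1]
  have hdist : dist x (g d) ≤ d := by
    have := C4_lift_lip hPl hd0 hc hg 0 h0d d hdd
    rwa [hg0, zero_sub, abs_neg, abs_of_nonneg hd0] at this
  have h0L : (0 : ℝ) ∈ Icc 0 L := ⟨le_rfl, hL.le⟩
  have hπg : π (Λ (g d)) = σ 0 := by
    have h1 : π (Λ (g d)) = j (P (g d)) := hΛ.2 (g d)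
    rw [h1, hgd, hm₀]
  obtain ⟨τ, hτ, hτ0⟩ := wallLifts_exists hπ.covering (C4_geod_cont hσ) h0L hπg
  refine ⟨τ, hτ, ?_, ?_⟩
  · rw [hτ0]; exact mem_range_self _
  · rw [hτ0, (sheet_isometry hn hP hPl hj hr hrj hπ hΛ).dist_eq]
    refine hdist.trans (le_trans ?_ hD)
    exact Metric.dist_le_diam_of_mem (isCompact_univ.isBounded) (mem_univ _) (mem_univ _)

theorem exists_setup {n₁ n₂ : ℕ} (hn₁ : 1 ≤ n₁) (hn₂ : 1 ≤ n₂)
    {M₁ M₂ X Y : Type*} [MetricSpace M₁] [MetricSpace M₂] [MetricSpace X] [MetricSpace Y]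
    (hM₁ : IsHyperbolicManifold n₁ M₁) (hM₂ : IsHyperbolicManifold n₂ M₂)
    {L : ℝ} (hL : 0 < L) {σ₁ : ℝ → M₁} {σ₂ : ℝ → M₂} (hσ₁ : IsGeodesicOn σ₁ 0 L)
    (hσ₂ : IsGeodesicOn σ₂ 0 L) {j₁ : M₁ → X} {j₂ : M₂ → X} (hX : IsGluing L σ₁ σ₂ j₁ j₂)
    {π : Y → X} (hπ : IsUniversalCover π) :
    ∃ (ε D : ℝ) (S : Bool → Set X) (q : ∀ i : Bool, Hyp (bif i then n₁ else n₂) → X),
      IsSetup (fun i => bif i then n₁ else n₂) L ε D S q (fun s => j₁ (σ₁ s)) π := by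
  obtain ⟨hc₁, hg₁, P₁, hP₁, hPs₁, hPl₁⟩ := hM₁
  obtain ⟨hc₂, hg₂, P₂, hP₂, hPs₂, hPl₂⟩ := hM₂
  have hX' := C4_symm hX
  have h0L : (0 : ℝ) ∈ Icc 0 L := ⟨le_rfl, hL.le⟩
  have hH₁ : IsGeodesicSpace (Hyp n₁) := (hyp_hypLike hn₁).geodesic
  have hH₂ : IsGeodesicSpace (Hyp n₂) := (hyp_hypLike hn₂).geodesic
  -- `X`
  have hcomp : CompactSpace X := by
    constructor
    have h1 : (univ : Set X) = range j₁ ∪ range j₂ := by
      ext x; simpa using hX.cover x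
    rw [h1]
    exact (isCompact_range hX.isometry_left.continuous).union
      (isCompact_range hX.isometry_right.continuous)
  have hXg : IsGeodesicSpace X := by
    intro x y
    rcases hX.cover x with ⟨a, rfl⟩ | ⟨b, rfl⟩
    · exact C4_geodX hL hσ₁ hσ₂ hX hg₁ hg₂ a y
    · exact C4_geodX hL hσ₂ hσ₁ hX' hg₂ hg₁ b y
  have hcl₁ : IsClosed (range j₁) := (isCompact_range hX.isometry_left.continuous).isClosed
  have hcl₂ : IsClosed (range j₂) := (isCompact_range hX.isometry_right.continuous).isClosed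
  have hinter : range j₁ ∩ range j₂ = (fun s => j₁ (σ₁ s)) '' Icc 0 L := by
    ext x
    constructor
    · rintro ⟨⟨a, rfl⟩, ⟨b, hb⟩⟩
      obtain ⟨s, hs, hsd⟩ := C4_attained hL hσ₁ hσ₂ hX a b
      rw [hb, dist_self] at hsd
      have d1 : dist a (σ₁ s) = 0 := le_antisymm (by linarith [dist_nonneg (x := σ₂ s) (y := b)])
        dist_nonneg
      exact ⟨s, hs, by simp only [← dist_eq_zero.1 d1]⟩
    · rintro ⟨s, hs, rfl⟩
      exact ⟨⟨σ₁ s, rfl⟩, ⟨σ₂ s, (hX.glue s hs).symm⟩⟩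
  have hgeod : IsGeodesicOn (fun s => j₁ (σ₁ s)) 0 L := fun s hs t ht => by
    rw [hX.isometry_left.dist_eq]; exact hσ₁ s hs t ht
  obtain ⟨r₁, hr₁, hrj₁⟩ := C4_retr hL hσ₁ hσ₂ hX
  obtain ⟨r₂, hr₂, hrj₂⟩ := C4_retr hL hσ₂ hσ₁ hX'
  obtain ⟨ε₀, hε₀, hu₀⟩ := exists_uniformCover hπ.geodesic hXg hπ.covering hπ.localIsometry
  obtain ⟨ε₁, hε₁, hu₁⟩ := exists_uniformCover hH₁ hg₁ hP₁ hPl₁
  obtain ⟨ε₂, hε₂, hu₂⟩ := exists_uniformCover hH₂ hg₂ hP₂ hPl₂
  set ε := min ε₀ (min ε₁ ε₂) with hε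
  have hεpos : 0 < ε := lt_min hε₀ (lt_min hε₁ hε₂)
  have hu : IsUniformCover π ε := hu₀.mono hεpos (min_le_left _ _)
  have hu₁' : IsUniformCover P₁ ε := hu₁.mono hεpos ((min_le_right _ _).trans (min_le_left _ _))
  have hu₂' : IsUniformCover P₂ ε := hu₂.mono hεpos ((min_le_right _ _).trans (min_le_right _ _))
  have := hπ.simplyConnected
  have : LocallyPathConnectedSpace Y := hπ.geodesic.locallyPathConnected
  let S : Bool → Set X := fun i => match i with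
    | true => range j₁
    | false => range j₂
  let q : ∀ i : Bool, Hyp (bif i then n₁ else n₂) → X := fun i => match i with
    | true => fun x => j₁ (P₁ x)
    | false => fun x => j₂ (P₂ x)
  refine ⟨ε, max (Metric.diam (univ : Set M₁)) (Metric.diam (univ : Set M₂)), S, q, ?_⟩
  have hreg : ∀ i, IsClosed (S i) := by
    intro i; cases i
    · exact hcl₂
    · exact hcl₁
  have hσS : ∀ i, ∀ s ∈ Icc 0 L, j₁ (σ₁ s) ∈ S i := by
    intro i s hs; cases i
    · exact ⟨σ₂ s, (hX.glue s hs).symm⟩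
    · exact ⟨σ₁ s, rfl⟩
  have hcov : ∀ y, y ∈ π ⁻¹' S true ∨ y ∈ π ⁻¹' S false := fun y => hX.cover (π y)
  refine
    { compact := hcomp
      geodesicX := hXg
      cover := hπ
      uniform := hu
      closed := hreg
      inter := hinter
      union := by
        ext x
        exact ⟨fun _ => mem_univ x, fun _ => hX.cover x⟩
      geod := hgeod
      tree := ?_
      dense := ?_ }
  · refine
      { n_pos := ?_
        L_pos := hL
        eps_pos := hεpos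
        geodesic := hπ.geodesic
        reg_closed := fun i => (hreg i).preimage hπ.covering.continuous
        reg_cover := hcov
        sheet_isometry := ?_
        sheet_reg := ?_
        sheet_exists := ?_
        sheet_near := ?_
        retraction := ?_
        wall_geod := fun τ hτ => C4_wall_geod hπ hL hgeod hτ
        wall_reg := ?_
        wall_exists := ?_
        separation := ?_ }
    · intro i; cases i
      · exact hn₂
      · exact hn₁
    · intro i Λ hΛ; cases i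
      · exact sheet_isometry hn₂ hP₂ hPl₂ hX.isometry_right hr₂ hrj₂ hπ hΛ
      · exact sheet_isometry hn₁ hP₁ hPl₁ hX.isometry_left hr₁ hrj₁ hπ hΛ
    · rintro i Λ hΛ _ ⟨x, rfl⟩; cases i
      · exact ⟨P₂ x, (hΛ.2 x).symm⟩
      · exact ⟨P₁ x, (hΛ.2 x).symm⟩
    · intro i y hy; cases i
      · exact sheet_exists hn₂ hP₂ hPs₂ hX.isometry_right hπ hy
      · exact sheet_exists hn₁ hP₁ hPs₁ hX.isometry_left hπ hy
    · intro i Λ hΛ y hy; cases i
      · exact sheet_near hn₂ hX.isometry_right hπ hu hu₂' hPl₂ hΛ hy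
      · exact sheet_near hn₁ hX.isometry_left hπ hu hu₁' hPl₁ hΛ hy
    · intro i Λ hΛ; cases i
      · exact sheet_retraction hn₂ hP₂ hPl₂ hX.isometry_right hr₂ hrj₂ hπ hΛ
      · exact sheet_retraction hn₁ hP₁ hPl₁ hX.isometry_left hr₁ hrj₁ hπ hΛ
    · intro τ hτ s hs i
      rw [mem_preimage, hτ.2 s hs]
      exact hσS i s hs
    · intro y hy1 hy2
      have h1 : π y ∈ (fun s => j₁ (σ₁ s)) '' Icc 0 L := by
        rw [← hinter]; exact ⟨hy1, hy2⟩
      obtain ⟨s₀, hs₀, hs₀y⟩ := h1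
      obtain ⟨τ, hτ, hτs⟩ := wallLifts_exists hπ.covering (C4_geod_cont hgeod) hs₀ hs₀y.symm
      exact ⟨τ, hτ, s₀, hs₀, hτs⟩
    · intro τ hτ
      have hτc := C4_geod_cont (C4_wall_geod hπ hL hgeod hτ)
      obtain ⟨VA, VB, hVA, hVB, hdisj, hun, hCA, hCB⟩ := separation (Y := Y)
        (A := π ⁻¹' S true) (B := π ⁻¹' S false) (W := τ '' Icc 0 L)
        ((hreg true).preimage hπ.covering.continuous)
        ((hreg false).preimage hπ.covering.continuous)
        (by ext y; simpa using hcov y)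
        (isCompact_Icc.image_of_continuousOn hτc)
        (isPreconnected_Icc.image _ hτc)
        ⟨τ 0, mem_image_of_mem τ h0L⟩
        (by rintro _ ⟨s, hs, rfl⟩; rw [mem_preimage, hτ.2 s hs]; exact hσS true s hs)
        (by rintro _ ⟨s, hs, rfl⟩; rw [mem_preimage, hτ.2 s hs]; exact hσS false s hs)
        hεpos
        (fun y hy hyW => C4_gap hπ hu hL hgeod hτ (by rw [← hinter]; exact hy) hyW)
      refine ⟨fun i => bif i then VA else VB, ?_, hdisj, hun, ?_⟩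
      · intro i; cases i
        · exact hVB
        · exact hVA
      · intro i Λ hΛ hW; cases i
        · have : PreconnectedSpace (Hyp (bif false then n₁ else n₂)) := hH₂.preconnected
          refine hCB (range Λ) (isPreconnected_range hΛ.1) ?_ hW
          rintro _ ⟨x, rfl⟩
          exact ⟨P₂ x, (hΛ.2 x).symm⟩
        · have : PreconnectedSpace (Hyp (bif true then n₁ else n₂)) := hH₁.preconnected
          refine hCA (range Λ) (isPreconnected_range hΛ.1) ?_ hW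
          rintro _ ⟨x, rfl⟩
          exact ⟨P₁ x, (hΛ.2 x).symm⟩
  · intro i Λ hΛ x; cases i
    · exact C4_dense hn₂ hP₂ hPl₂ hc₂ hg₂ hX.isometry_right hr₂ hrj₂ hπ hL hgeod
        (m₀ := σ₂ 0) (hX.glue 0 h0L).symm (le_max_right _ _) hΛ x
    · exact C4_dense hn₁ hP₁ hPl₁ hc₁ hg₁ hX.isometry_left hr₁ hrj₁ hπ hL hgeod
        (m₀ := σ₁ 0) rfl (le_max_left _ _) hΛ x

end MP4a77c6
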