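import Pool.Agent.Lib.MP_4a77c6_an.B1
import Pool.Agent.Lib.MP_4a77c6_an.B2

open Set Metric MeasureTheory Filter Topology
open scoped ENNReal NNReal

namespace MP4a77c6

/-! Task D1: geometry of a tree of sheets, first part. -/

namespace IsSheetTree

variable {Y : Type*} [MetricSpace Y] {n : Bool → ℕ} {L ε : ℝ} {reg : Bool → Set Y}
  {sheets : ∀ i, Set (Hyp (n i) → Y)} {walls : Set (ℝ → Y)}

/-- The two sides of the wall `τ`. -/
noncomputable def V (h : IsSheetTree n L ε reg sheets walls) {τ : ℝ → Y} (hτ : τ ∈ walls) :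
    Bool → Set Y := Classical.choose (h.separation τ hτ)

theorem V_open (h : IsSheetTree n L ε reg sheets walls) {τ : ℝ → Y} (hτ : τ ∈ walls) (i : Bool) :
    IsOpen (h.V hτ i) := (Classical.choose_spec (h.separation τ hτ)).1 i

theorem V_disjoint (h : IsSheetTree n L ε reg sheets walls) {τ : ℝ → Y} (hτ : τ ∈ walls) :
    Disjoint (h.V hτ true) (h.V hτ false) := (Classical.choose_spec (h.separation τ hτ)).2.1

theorem V_union (h : IsSheetTree n L ε reg sheets walls) {τ : ℝ → Y} (hτ : τ ∈ walls) :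
    h.V hτ true ∪ h.V hτ false = (τ '' Icc 0 L)ᶜ :=
  (Classical.choose_spec (h.separation τ hτ)).2.2.1

theorem range_subset_V (h : IsSheetTree n L ε reg sheets walls) {τ : ℝ → Y} (hτ : τ ∈ walls)
    {i : Bool} {Λ : Hyp (n i) → Y} (hΛ : Λ ∈ sheets i) (hW : τ '' Icc 0 L ⊆ range Λ) :
    range Λ ⊆ h.V hτ i ∪ τ '' Icc 0 L :=
  (Classical.choose_spec (h.separation τ hτ)).2.2.2 i Λ hΛ hW

theorem range_closed (h : IsSheetTree n L ε reg sheets walls) {i : Bool} {Λ : Hyp (n i) → Y}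
    (hΛ : Λ ∈ sheets i) : IsClosed (range Λ) := by
  refine isClosed_of_closure_subset fun z hz => ?_
  obtain ⟨b, hb, hzb⟩ := Metric.mem_closure_iff.1 hz ε h.eps_pos
  refine h.sheet_near i Λ hΛ b hb ⟨?_, hzb⟩
  exact (h.reg_closed i).closure_subset_iff.2 (h.sheet_reg i Λ hΛ) hz

/-- a preconnected subset of `reg i` meeting a type `i` sheet is contained in it -/
theorem subset_range (h : IsSheetTree n L ε reg sheets walls) {i : Bool} {Λ : Hyp (n i) → Y}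
    (hΛ : Λ ∈ sheets i) {C : Set Y} (hC : IsPreconnected C) (hCr : C ⊆ reg i)
    (hm : (C ∩ range Λ).Nonempty) : C ⊆ range Λ := by
  have key : ∀ x ∈ C, x ∈ ⋃ y ∈ range Λ, ball y ε → x ∈ range Λ := by
    intro x hx hx'
    simp only [mem_iUnion, exists_prop] at hx'
    obtain ⟨y, hy, hxy⟩ := hx'
    exact h.sheet_near i Λ hΛ y hy ⟨hCr hx, hxy⟩
  have hopen : IsOpen (⋃ y ∈ range Λ, ball y ε) := isOpen_biUnion fun y _ => isOpen_ball
  have h1 := isPreconnected_iff_subset_of_disjoint.1 hC (⋃ y ∈ range Λ, ball y ε) (range Λ)ᶜ hopen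
    (h.range_closed hΛ).isOpen_compl (by
      intro x hx
      by_cases hxr : x ∈ range Λ
      · left
        simp only [mem_iUnion, exists_prop]
        exact ⟨x, hxr, mem_ball_self h.eps_pos⟩
      · exact Or.inr hxr) (by
      ext x
      simp only [mem_inter_iff, mem_empty_iff_false, iff_false, not_and]
      intro hx hxu hxr
      exact hxr (key x hx hxu))
  rcases h1 with h1 | h1
  · exact fun x hx => key x hx (h1 hx)
  · obtain ⟨z, hz, hzr⟩ := hm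
    exact absurd hzr (h1 hz)

theorem range_preconnected (h : IsSheetTree n L ε reg sheets walls) {i : Bool}
    {Λ : Hyp (n i) → Y} (hΛ : Λ ∈ sheets i) : IsPreconnected (range Λ) := by
  have := hyp_simplyConnected (n i)
  exact isPreconnected_range (h.sheet_isometry i Λ hΛ).continuous

theorem range_eq (h : IsSheetTree n L ε reg sheets walls) {i : Bool} {Λ Λ' : Hyp (n i) → Y}
    (hΛ : Λ ∈ sheets i) (hΛ' : Λ' ∈ sheets i) (hm : (range Λ ∩ range Λ').Nonempty) :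
    range Λ = range Λ' := by
  apply Subset.antisymm
  · exact h.subset_range hΛ' (h.range_preconnected hΛ) (h.sheet_reg i Λ hΛ) hm
  · exact h.subset_range hΛ (h.range_preconnected hΛ') (h.sheet_reg i Λ' hΛ')
      (by rwa [inter_comm])

theorem wall_continuousOn (h : IsSheetTree n L ε reg sheets walls) {τ : ℝ → Y}
    (hτ : τ ∈ walls) : ContinuousOn τ (Icc 0 L) := by
  have hg := h.wall_geod τ hτ
  rw [Metric.continuousOn_iff]
  intro b hb δ hδ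
  exact ⟨δ, hδ, fun a ha hab => by rw [hg a ha b hb]; exact hab⟩

theorem wall_preconnected (h : IsSheetTree n L ε reg sheets walls) {τ : ℝ → Y}
    (hτ : τ ∈ walls) : IsPreconnected (τ '' Icc 0 L) :=
  isPreconnected_Icc.image _ (h.wall_continuousOn hτ)

theorem wall_compact (h : IsSheetTree n L ε reg sheets walls) {τ : ℝ → Y}
    (hτ : τ ∈ walls) : IsCompact (τ '' Icc 0 L) :=
  isCompact_Icc.image_of_continuousOn (h.wall_continuousOn hτ)

theorem wall_reg' (h : IsSheetTree n L ε reg sheets walls) {τ : ℝ → Y}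
    (hτ : τ ∈ walls) (i : Bool) : τ '' Icc 0 L ⊆ reg i := by
  rintro _ ⟨s, hs, rfl⟩
  exact h.wall_reg τ hτ s hs i

theorem wall_subset (h : IsSheetTree n L ε reg sheets walls) {i : Bool} {Λ : Hyp (n i) → Y}
    (hΛ : Λ ∈ sheets i) {τ : ℝ → Y} (hτ : τ ∈ walls) (hm : (τ '' Icc 0 L ∩ range Λ).Nonempty) :
    τ '' Icc 0 L ⊆ range Λ :=
  h.subset_range hΛ (h.wall_preconnected hτ) (h.wall_reg' hτ i) hm

theorem exists_sheet_of_wall (h : IsSheetTree n L ε reg sheets walls) {τ : ℝ → Y}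
    (hτ : τ ∈ walls) (i : Bool) : ∃ Λ ∈ sheets i, τ '' Icc 0 L ⊆ range Λ := by
  have h0 : (0 : ℝ) ∈ Icc 0 L := ⟨le_rfl, h.L_pos.le⟩
  obtain ⟨Λ, hΛ, hy⟩ := h.sheet_exists i (τ 0) (h.wall_reg τ hτ 0 h0 i)
  exact ⟨Λ, hΛ, h.wall_subset hΛ hτ ⟨τ 0, mem_image_of_mem _ h0, hy⟩⟩

theorem mem_V_or (h : IsSheetTree n L ε reg sheets walls) {τ : ℝ → Y} (hτ : τ ∈ walls)
    (i : Bool) {y : Y} (hy : y ∉ τ '' Icc 0 L) : y ∈ h.V hτ i ∨ y ∈ h.V hτ (!i) := by
  have : y ∈ h.V hτ true ∪ h.V hτ false := by rw [h.V_union hτ]; exact hy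
  cases i
  · exact this.symm
  · exact this

theorem not_mem_V (h : IsSheetTree n L ε reg sheets walls) {τ : ℝ → Y} (hτ : τ ∈ walls)
    (i : Bool) {y : Y} (hy : y ∈ h.V hτ i) : y ∉ h.V hτ (!i) ∧ y ∉ τ '' Icc 0 L := by
  have h1 : y ∈ h.V hτ true → y ∉ h.V hτ false :=
    fun h3 => Set.disjoint_left.1 (h.V_disjoint hτ) h3
  have h2 : y ∉ τ '' Icc 0 L := by
    have : y ∈ h.V hτ true ∪ h.V hτ false := by
      cases i
      · exact Or.inr hy
      · exact Or.inl hy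
    rw [h.V_union hτ] at this
    exact this
  refine ⟨?_, h2⟩
  cases i
  · exact fun h3 => h1 h3 hy
  · exact h1 hy

/-- the two sheets at a wall meet exactly in the wall -/
theorem inter_sheets (h : IsSheetTree n L ε reg sheets walls) {τ : ℝ → Y} (hτ : τ ∈ walls)
    {Λ : Hyp (n true) → Y} (hΛ : Λ ∈ sheets true) {Λ' : Hyp (n false) → Y}
    (hΛ' : Λ' ∈ sheets false) (hW : τ '' Icc 0 L ⊆ range Λ) (hW' : τ '' Icc 0 L ⊆ range Λ') :
    range Λ ∩ range Λ' = τ '' Icc 0 L := by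
  apply Subset.antisymm
  · rintro y ⟨h1, h2⟩
    by_contra hy
    have h3 := (h.range_subset_V hτ hΛ hW h1).resolve_right hy
    have h4 := (h.range_subset_V hτ hΛ' hW' h2).resolve_right hy
    exact Set.disjoint_left.1 (h.V_disjoint hτ) h3 h4
  · exact fun y hy => ⟨hW hy, hW' hy⟩

/-- a preconnected set avoiding the wall is on one side -/
theorem subset_side (h : IsSheetTree n L ε reg sheets walls) {τ : ℝ → Y} (hτ : τ ∈ walls)
    {i : Bool} {C : Set Y} (hC : IsPreconnected C) (hCW : Disjoint C (τ '' Icc 0 L))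
    (hm : (C ∩ h.V hτ i).Nonempty) : C ⊆ h.V hτ i := by
  refine hC.subset_left_of_subset_union (h.V_open hτ i) (h.V_open hτ (!i)) ?_ ?_ hm
  · rw [Set.disjoint_left]
    intro y hy
    exact (h.not_mem_V hτ i hy).1
  · intro y hy
    exact h.mem_V_or hτ i (Set.disjoint_left.1 hCW hy)

/-- every path from one side of a wall to the other crosses it -/
theorem crossing (h : IsSheetTree n L ε reg sheets walls) {τ : ℝ → Y} (hτ : τ ∈ walls)
    {i : Bool} {c : ℝ → Y} {a b : ℝ} (hab : a ≤ b) (hc : ContinuousOn c (Icc a b))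
    (ha : c a ∈ h.V hτ i ∪ τ '' Icc 0 L) (hb : c b ∈ h.V hτ (!i) ∪ τ '' Icc 0 L) :
    ∃ t ∈ Icc a b, c t ∈ τ '' Icc 0 L := by
  by_contra hcon
  push Not at hcon
  have ha' : c a ∈ h.V hτ i := ha.resolve_right (hcon a ⟨le_rfl, hab⟩)
  have hb' : c b ∈ h.V hτ (!i) := hb.resolve_right (hcon b ⟨hab, le_rfl⟩)
  have hsub := h.subset_side hτ (i := i) (isPreconnected_Icc.image c hc) (by
    rw [Set.disjoint_left]
    rintro _ ⟨t, ht, rfl⟩
    exact hcon t ht) ⟨c a, ⟨a, ⟨le_rfl, hab⟩, rfl⟩, ha'⟩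
  exact (h.not_mem_V hτ i (hsub ⟨b, ⟨hab, le_rfl⟩, rfl⟩)).1 hb'

theorem _root_.MP4a77c6.IsGeodesicOn.continuousOn' {c : ℝ → Y} {a b : ℝ}
    (hc : IsGeodesicOn c a b) : ContinuousOn c (Icc a b) := by
  rw [Metric.continuousOn_iff]
  intro s hs δ hδ
  exact ⟨δ, hδ, fun t ht hst => by rw [hc t ht s hs]; exact hst⟩

theorem crossing_dist (h : IsSheetTree n L ε reg sheets walls) {τ : ℝ → Y} (hτ : τ ∈ walls)
    {i : Bool} {y z : Y} (hy : y ∈ h.V hτ i ∪ τ '' Icc 0 L)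
    (hz : z ∈ h.V hτ (!i) ∪ τ '' Icc 0 L) :
    ∃ s ∈ Icc 0 L, dist y z = dist y (τ s) + dist (τ s) z := by
  obtain ⟨c, hc, hc0, hc1⟩ := h.geodesic y z
  obtain ⟨t, ht, ⟨s, hs, hst⟩⟩ := h.crossing hτ (i := i) dist_nonneg hc.continuousOn'
    (by rwa [hc0]) (by rwa [hc1])
  refine ⟨s, hs, ?_⟩
  have e1 := hc 0 ⟨le_rfl, dist_nonneg⟩ t ht
  have e2 := hc t ht (dist y z) ⟨dist_nonneg, le_rfl⟩
  rw [hc0] at e1
  rw [hc1] at e2
  rw [hst, e1, e2, abs_sub_comm, abs_of_nonneg (by linarith [ht.1]),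
    abs_sub_comm, abs_of_nonneg (by linarith [ht.2])]
  ring

/-- a sheet is on one (closed) side of every wall -/
theorem sheet_side (h : IsSheetTree n L ε reg sheets walls) {τ : ℝ → Y} (hτ : τ ∈ walls)
    {i : Bool} {Λ : Hyp (n i) → Y} (hΛ : Λ ∈ sheets i) :
    ∃ k, range Λ ⊆ h.V hτ k ∪ τ '' Icc 0 L := by
  by_cases hm : (τ '' Icc 0 L ∩ range Λ).Nonempty
  · exact ⟨i, h.range_subset_V hτ hΛ (h.wall_subset hΛ hτ hm)⟩
  · have hd : Disjoint (range Λ) (τ '' Icc 0 L) := by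
      rw [Set.disjoint_left]
      intro y hy hy'
      exact hm ⟨y, hy', hy⟩
    have hy : (Λ ⟨0⟩) ∈ range Λ := ⟨_, rfl⟩
    rcases h.mem_V_or hτ true (Set.disjoint_left.1 hd hy) with h1 | h1
    · exact ⟨true, (h.subset_side hτ (h.range_preconnected hΛ) hd ⟨_, hy, h1⟩).trans
        subset_union_left⟩
    · exact ⟨false, (h.subset_side hτ (h.range_preconnected hΛ) hd ⟨_, hy, h1⟩).trans
        subset_union_left⟩

theorem exists_wall_of_mem (h : IsSheetTree n L ε reg sheets walls) {i : Bool} {y : Y}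
    (h1 : y ∈ reg i) (h2 : y ∈ reg (!i)) : ∃ τ ∈ walls, y ∈ τ '' Icc 0 L := by
  cases i
  · exact h.wall_exists y h2 h1
  · exact h.wall_exists y h1 h2

theorem mem_reg_or (h : IsSheetTree n L ε reg sheets walls) (i : Bool) (y : Y) :
    y ∈ reg i ∨ y ∈ reg (!i) := by
  cases i
  · exact (h.reg_cover y).symm
  · exact h.reg_cover y

/-- a geodesic from a point `c 0` outside of a sheet to a point of the sheet enters the sheet
through a wall, coming from the other sheet at this wall -/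
theorem entrance (h : IsSheetTree n L ε reg sheets walls) {i : Bool} {Λ : Hyp (n i) → Y}
    (hΛ : Λ ∈ sheets i) {c : ℝ → Y} {a : ℝ} (ha : 0 ≤ a) (hc : IsGeodesicOn c 0 a)
    (h0 : c 0 ∉ range Λ) (h1 : c a ∈ range Λ) :
    ∃ (τ : ℝ → Y) (hτ : τ ∈ walls) (Λ' : Hyp (n (!i)) → Y) (t : ℝ), τ '' Icc 0 L ⊆ range Λ ∧
      Λ' ∈ sheets (!i) ∧ τ '' Icc 0 L ⊆ range Λ' ∧ t ∈ Ioc 0 a ∧ c t ∈ τ '' Icc 0 L ∧
      (∀ s ∈ Ico 0 t, c s ∈ h.V hτ (!i)) ∧
      (∀ s ∈ Icc 0 t, t - s < ε → c s ∈ range Λ') := by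
  -- the first time in `range Λ`
  set T : Set ℝ := {t | t ∈ Icc 0 a ∧ c t ∈ range Λ} with hT
  have hTne : T.Nonempty := ⟨a, ⟨ha, le_rfl⟩, h1⟩
  have hTc : IsClosed T := by
    have := hc.continuousOn'.preimage_isClosed_of_isClosed isClosed_Icc (h.range_closed hΛ)
    exact this
  have hTb : BddBelow T := ⟨0, fun t ht => ht.1.1⟩
  set t := sInf T with ht
  have htT : t ∈ T := hTc.csInf_mem hTne hTb
  have ht0 : 0 < t := by
    rcases eq_or_lt_of_le htT.1.1 with h2 | h2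
    · exfalso; rw [← h2] at htT; exact h0 htT.2
    · exact h2
  have hbefore : ∀ s ∈ Ico 0 t, c s ∉ range Λ := by
    intro s hs hsr
    have : t ≤ s := csInf_le hTb ⟨⟨hs.1, hs.2.le.trans htT.1.2⟩, hsr⟩
    exact absurd hs.2 (not_lt.2 this)
  have hdist : ∀ s ∈ Icc 0 t, dist (c s) (c t) = t - s := by
    intro s hs
    rw [hc s ⟨hs.1, hs.2.trans htT.1.2⟩ t htT.1, abs_sub_comm, abs_of_nonneg (by linarith [hs.2])]
  have hother : ∀ s ∈ Ico 0 t, t - s < ε → c s ∈ reg (!i) := by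
    intro s hs hsε
    rcases h.mem_reg_or i (c s) with h2 | h2
    · exfalso
      refine hbefore s hs (h.sheet_near i Λ hΛ (c t) htT.2 ⟨h2, ?_⟩)
      rw [mem_ball, hdist s ⟨hs.1, hs.2.le⟩]; exact hsε
    · exact h2
  have hct : c t ∈ reg (!i) := by
    have h3 : ∃ᶠ s in 𝓝[<] t, c s ∈ reg (!i) := by
      apply Eventually.frequently
      have h4 : Ioo (max 0 (t - ε)) t ∈ 𝓝[<] t :=
        Ioo_mem_nhdsLT (by rw [max_lt_iff]; exact ⟨ht0, by linarith [h.eps_pos]⟩)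
      filter_upwards [h4] with s hs
      have h5 := (max_lt_iff.1 hs.1)
      exact hother s ⟨h5.1.le, hs.2⟩ (by linarith [h5.2])
    have h6 : Tendsto c (𝓝[<] t) (𝓝 (c t)) := by
      have h7 : ContinuousWithinAt c (Icc 0 t) t :=
        (hc.continuousOn' t htT.1).mono (Icc_subset_Icc le_rfl htT.1.2)
      have h8 : Tendsto c (𝓝[Icc 0 t] t) (𝓝 (c t)) := h7
      refine h8.mono_left ?_
      rw [nhdsWithin_Icc_eq_nhdsLE ht0]
      exact nhdsWithin_mono _ Iio_subset_Iic_self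
    exact (h.reg_closed (!i)).mem_of_frequently_of_tendsto h3 h6
  have hcti : c t ∈ reg i := h.sheet_reg i Λ hΛ htT.2
  obtain ⟨τ, hτ, hcτ⟩ := h.exists_wall_of_mem hcti hct
  have hW : τ '' Icc 0 L ⊆ range Λ := h.wall_subset hΛ hτ ⟨c t, hcτ, htT.2⟩
  obtain ⟨Λ', hΛ', hW'⟩ := h.exists_sheet_of_wall hτ (!i)
  have hnear : ∀ s ∈ Icc 0 t, t - s < ε → c s ∈ range Λ' := by
    intro s hs hsε
    rcases eq_or_lt_of_le hs.2 with h2 | h2
    · rw [h2]; exact hW' hcτ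
    · exact h.sheet_near (!i) Λ' hΛ' (c t) (hW' hcτ) ⟨hother s ⟨hs.1, h2⟩ hsε, by
        rw [mem_ball, hdist s hs]; exact hsε⟩
  refine ⟨τ, hτ, Λ', t, hW, hΛ', hW', ⟨ht0, htT.1.2⟩, hcτ, ?_, hnear⟩
  -- the part before `t` is on the other side
  set s₀ := max 0 (t - ε / 2) with hs₀
  have hs₀' : s₀ ∈ Ico 0 t := ⟨le_max_left _ _, by
    rw [hs₀, max_lt_iff]; exact ⟨ht0, by linarith [h.eps_pos]⟩⟩
  have hs₀ε : t - s₀ < ε := by
    have := le_max_right 0 (t - ε / 2)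
    linarith [h.eps_pos]
  have hs₀V : c s₀ ∈ h.V hτ (!i) := by
    have h2 := h.range_subset_V hτ hΛ' hW' (hnear s₀ ⟨hs₀'.1, hs₀'.2.le⟩ hs₀ε)
    refine h2.resolve_right fun h3 => ?_
    exact hbefore s₀ hs₀' (hW h3)
  have hsub := h.subset_side hτ (i := !i) (C := c '' Ico 0 t)
    (isPreconnected_Ico.image c (hc.continuousOn'.mono fun s hs =>
      ⟨hs.1, hs.2.le.trans htT.1.2⟩)) (by
      rw [Set.disjoint_left]
      rintro _ ⟨s, hs, rfl⟩ hs'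
      exact hbefore s hs (hW hs')) ⟨c s₀, ⟨s₀, hs₀', rfl⟩, hs₀V⟩
  exact fun s hs => hsub ⟨s, hs, rfl⟩

theorem _root_.MP4a77c6.D1_geod_of_lip {Z : Type*} [MetricSpace Z] {f : ℝ → Z} {a b : ℝ}
    (hlip : ∀ s ∈ Icc a b, ∀ t ∈ Icc a b, dist (f s) (f t) ≤ |s - t|)
    (hend : dist (f a) (f b) = b - a) : IsGeodesicOn f a b := by
  have key : ∀ s ∈ Icc a b, ∀ t ∈ Icc a b, s ≤ t → dist (f s) (f t) = |s - t| := by
    intro s hs t ht hst
    apply le_antisymm (hlip s hs t ht)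
    have hab : a ≤ b := hs.1.trans hs.2
    have e1 := hlip a ⟨le_rfl, hab⟩ s hs
    have e2 := hlip t ht b ⟨hab, le_rfl⟩
    have e3 := dist_triangle4 (f a) (f s) (f t) (f b)
    rw [abs_sub_comm, abs_of_nonneg (by linarith [hs.1])] at e1
    rw [abs_sub_comm, abs_of_nonneg (by linarith [ht.2])] at e2
    rw [abs_sub_comm, abs_of_nonneg (by linarith)]
    linarith
  intro s hs t ht
  rcases le_total s t with h1 | h1
  · exact key s hs t ht h1
  · rw [dist_comm, abs_sub_comm]; exact key t ht s hs h1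

/-- geodesics between points of a sheet stay in the sheet -/
theorem geod_stay (h : IsSheetTree n L ε reg sheets walls) {i : Bool} {Λ : Hyp (n i) → Y}
    (hΛ : Λ ∈ sheets i) {c : ℝ → Y} {a b : ℝ} (hc : IsGeodesicOn c a b)
    (h0 : c a ∈ range Λ) (h1 : c b ∈ range Λ) : ∀ t ∈ Icc a b, c t ∈ range Λ := by
  intro t₀ ht₀
  by_contra hcon
  have hd : IsGeodesicOn (fun s => c (t₀ + s)) 0 (b - t₀) := by
    intro s hs t ht
    have := hc (t₀ + s) ⟨by linarith [hs.1, ht₀.1], by linarith [hs.2]⟩ (t₀ + t)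
      ⟨by linarith [ht.1, ht₀.1], by linarith [ht.2]⟩
    simp only [this]
    congr 1; ring
  obtain ⟨τ, hτ, Λ', t, hW, hΛ', hW', ht, hct, hV, hnear⟩ :=
    h.entrance hΛ (c := fun s => c (t₀ + s)) (a := b - t₀) (by linarith [ht₀.2]) hd
      (by simpa using hcon) (by simpa using h1)
  have hV0 : c t₀ ∈ h.V hτ (!i) := by simpa using hV 0 ⟨le_rfl, ht.1⟩
  -- last time before `t₀` on the wall
  set T : Set ℝ := {s | s ∈ Icc a t₀ ∧ c s ∈ τ '' Icc 0 L} with hT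
  have hca : ContinuousOn c (Icc a t₀) := hc.continuousOn'.mono (Icc_subset_Icc le_rfl ht₀.2)
  have hTne : T.Nonempty := by
    obtain ⟨s, hs, hs'⟩ := h.crossing hτ (i := i) ht₀.1 hca (h.range_subset_V hτ hΛ hW h0)
      (Or.inl hV0)
    exact ⟨s, hs, hs'⟩
  have hTc : IsClosed T := hca.preimage_isClosed_of_isClosed isClosed_Icc
    (h.wall_compact hτ).isClosed
  have hTb : BddAbove T := ⟨t₀, fun t ht => ht.1.2⟩
  set t₁ := sSup T with ht₁
  have ht₁T : t₁ ∈ T := hTc.csSup_mem hTne hTb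
  have ht₁0 : t₁ < t₀ := by
    rcases eq_or_lt_of_le ht₁T.1.2 with h2 | h2
    · exfalso; rw [h2] at ht₁T; exact (h.not_mem_V hτ (!i) hV0).2 ht₁T.2
    · exact h2
  set t₂ := t₀ + t with ht₂
  have ht₂b : t₂ ≤ b := by linarith [ht.2]
  have ht₁a : a ≤ t₁ := ht₁T.1.1
  have ht12 : t₁ < t₂ := by linarith [ht.1]
  obtain ⟨R, hR, hRΛ⟩ := h.retraction (!i) Λ' hΛ'
  have hRW : ∀ y ∈ range Λ', Λ' (R y) = y := by
    rintro _ ⟨x, rfl⟩
    rw [hRΛ]
  have hRiso : ∀ y ∈ range Λ', ∀ z ∈ range Λ', dist (R y) (R z) = dist y z := by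
    intro y hy z hz
    rw [← (h.sheet_isometry _ Λ' hΛ').dist_eq, hRW y hy, hRW z hz]
  obtain ⟨s₁, hs₁, hs₁'⟩ := ht₁T.2
  obtain ⟨s₂, hs₂, hs₂'⟩ := hct
  have hd12 : |s₁ - s₂| = t₂ - t₁ := by
    rw [← h.wall_geod τ hτ s₁ hs₁ s₂ hs₂, hs₁', hs₂']
    show dist (c t₁) (c t₂) = t₂ - t₁
    rw [hc t₁ ⟨ht₁a, by linarith⟩ t₂ ⟨by linarith, ht₂b⟩, abs_sub_comm,
      abs_of_nonneg (by linarith)]
  have hRc : IsGeodesicOn (fun s => R (c s)) t₁ t₂ := by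
    apply D1_geod_of_lip
    · intro s hs s' hs'
      refine (hR.dist_le_mul _ _).trans ?_
      rw [hc s ⟨by linarith [hs.1], by linarith [hs.2]⟩ s' ⟨by linarith [hs'.1],
        by linarith [hs'.2]⟩]
      simp
    · have e1 : c t₁ ∈ range Λ' := hW' ht₁T.2
      have e2 : c t₂ ∈ range Λ' := hW' ⟨s₂, hs₂, hs₂'⟩
      rw [hRiso _ e1 _ e2, hc t₁ ⟨ht₁a, by linarith⟩ t₂ ⟨by linarith, ht₂b⟩, abs_sub_comm,
        abs_of_nonneg (by linarith)]
  -- `R ∘ c` runs along the wall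
  have hRcW : ∀ s ∈ Icc t₁ t₂, ∃ u ∈ Icc 0 L, R (c s) = R (τ u) := by
    have hH := hyp_hypLike (h.n_pos (!i))
    rcases le_total s₁ s₂ with h12 | h12
    · have hd' : s₂ - s₁ = t₂ - t₁ := by
        rw [← hd12, abs_sub_comm, abs_of_nonneg (by linarith)]
      have hmem : ∀ s ∈ Icc t₁ t₂, s₁ + (s - t₁) ∈ Icc 0 L := fun s hs =>
        ⟨by linarith [hs.1, hs₁.1], by linarith [hs.2, hs₂.2]⟩
      have he : IsGeodesicOn (fun s => R (τ (s₁ + (s - t₁)))) t₁ t₂ := by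
        intro s hs s' hs'
        rw [hRiso _ (hW' ⟨_, hmem s hs, rfl⟩) _ (hW' ⟨_, hmem s' hs', rfl⟩),
          h.wall_geod τ hτ _ (hmem s hs) _ (hmem s' hs')]
        congr 1; ring
      have := hH.geod_unique hRc he (by
        show R (c t₁) = R (τ (s₁ + (t₁ - t₁)))
        rw [sub_self, add_zero, hs₁']) (by
        show R (c t₂) = R (τ (s₁ + (t₂ - t₁)))
        rw [← hd', add_sub_cancel, hs₂'])
      exact fun s hs => ⟨_, hmem s hs, this s hs⟩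
    · have hd' : s₁ - s₂ = t₂ - t₁ := by
        rw [← hd12, abs_of_nonneg (by linarith)]
      have hmem : ∀ s ∈ Icc t₁ t₂, s₁ - (s - t₁) ∈ Icc 0 L := fun s hs =>
        ⟨by linarith [hs.2, hs₂.1], by linarith [hs.1, hs₁.2]⟩
      have he : IsGeodesicOn (fun s => R (τ (s₁ - (s - t₁)))) t₁ t₂ := by
        intro s hs s' hs'
        rw [hRiso _ (hW' ⟨_, hmem s hs, rfl⟩) _ (hW' ⟨_, hmem s' hs', rfl⟩),
          h.wall_geod τ hτ _ (hmem s hs) _ (hmem s' hs'), abs_sub_comm]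
        congr 1; ring
      have := hH.geod_unique hRc he (by
        show R (c t₁) = R (τ (s₁ - (t₁ - t₁)))
        rw [sub_self, sub_zero, hs₁']) (by
        show R (c t₂) = R (τ (s₁ - (t₂ - t₁)))
        rw [← hd', sub_sub_cancel, hs₂'])
      exact fun s hs => ⟨_, hmem s hs, this s hs⟩
  -- a time close to `t₂`
  set s := max 0 (t - ε / 2) with hs
  have hst : s < t := by rw [hs, max_lt_iff]; exact ⟨ht.1, by linarith [h.eps_pos]⟩
  have hs0 : 0 ≤ s := le_max_left _ _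
  have hsε : t - s < ε := by
    have := le_max_right 0 (t - ε / 2)
    linarith [h.eps_pos]
  obtain ⟨u, hu, hu'⟩ := hRcW (t₀ + s) ⟨by linarith, by linarith⟩
  have h3 : c (t₀ + s) ∈ range Λ' := hnear s ⟨hs0, hst.le⟩ hsε
  have h4 : c (t₀ + s) = τ u := by
    rw [← hRW _ h3, hu', hRW _ (hW' ⟨u, hu, rfl⟩)]
  exact (h.not_mem_V hτ (!i) (hV s ⟨hs0, hst⟩)).2 ⟨u, hu, h4.symm⟩

/-- one-sided local structure of geodesics -/
theorem local_right (h : IsSheetTree n L ε reg sheets walls) {c : ℝ → Y} {a b : ℝ} (hab : a < b)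
    (hc : IsGeodesicOn c a b) :
    ∃ (i : Bool) (Λ : Hyp (n i) → Y) (η : ℝ), Λ ∈ sheets i ∧ 0 < η ∧ a + η ≤ b ∧
      ∀ t ∈ Icc a (a + η), c t ∈ range Λ := by
  have key : ∃ (i : Bool) (η : ℝ), 0 < η ∧ η < ε ∧ a + η ≤ b ∧ c a ∈ reg i ∧
      c (a + η) ∈ reg i := by
    set η₀ := min (b - a) (ε / 2) with hη₀
    have h1 : 0 < η₀ := lt_min (by linarith) (by linarith [h.eps_pos])
    have h2 : η₀ < ε := (min_le_right _ _).trans_lt (by linarith [h.eps_pos])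
    have h3 : a + η₀ ≤ b := by linarith [min_le_left (b - a) (ε / 2)]
    by_cases hall : ∀ k, c a ∈ reg k
    · rcases h.reg_cover (c (a + η₀)) with h4 | h4
      · exact ⟨true, η₀, h1, h2, h3, hall _, h4⟩
      · exact ⟨false, η₀, h1, h2, h3, hall _, h4⟩
    · push Not at hall
      obtain ⟨k, hk⟩ := hall
      obtain ⟨δ, hδ, hδ'⟩ := Metric.isOpen_iff.1 (h.reg_closed k).isOpen_compl (c a) hk
      set η := min η₀ (δ / 2) with hη
      have g1 : 0 < η := lt_min h1 (by linarith)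
      have g2 : η ≤ η₀ := min_le_left _ _
      have g3 : η < δ := (min_le_right _ _).trans_lt (by linarith)
      refine ⟨!k, η, g1, g2.trans_lt h2, by linarith, (h.mem_reg_or k (c a)).resolve_left hk, ?_⟩
      refine (h.mem_reg_or k (c (a + η))).resolve_left ?_
      apply hδ'
      rw [mem_ball, hc (a + η) ⟨by linarith, by linarith⟩ a ⟨le_rfl, hab.le⟩]
      rw [add_sub_cancel_left, abs_of_pos g1]
      exact g3
  obtain ⟨i, η, hη0, hηε, hηb, hia, hib⟩ := key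
  obtain ⟨Λ, hΛ, hcΛ⟩ := h.sheet_exists i (c a) hia
  refine ⟨i, Λ, η, hΛ, hη0, hηb, ?_⟩
  have h5 : c (a + η) ∈ range Λ := by
    refine h.sheet_near i Λ hΛ (c a) hcΛ ⟨hib, ?_⟩
    rw [mem_ball, hc (a + η) ⟨by linarith, hηb⟩ a ⟨le_rfl, hab.le⟩, add_sub_cancel_left,
      abs_of_pos hη0]
    exact hηε
  exact h.geod_stay hΛ (fun s hs t ht => hc s ⟨hs.1, hs.2.trans hηb⟩ t ⟨ht.1, ht.2.trans hηb⟩)
    hcΛ h5

theorem mid_convex_step (h : IsSheetTree n L ε reg sheets walls) {τ : ℝ → Y} (hτ : τ ∈ walls)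
    {i j : Bool} {Λ : Hyp (n i) → Y} (hΛ : Λ ∈ sheets i) {Λ'' : Hyp (n (!i)) → Y}
    (hΛ'' : Λ'' ∈ sheets (!i)) (hW : τ '' Icc 0 L ⊆ range Λ) (hW'' : τ '' Icc 0 L ⊆ range Λ'')
    {Λ' : Hyp (n j) → Y} (hside : range Λ' ⊆ h.V hτ (!i) ∪ τ '' Icc 0 L)
    (IH : ∀ {m x y : Hyp (n (!i))} {m' x' y' : Hyp (n j)}, IsMid m x y → IsMid m' x' y' →
      dist (Λ'' m) (Λ' m') ≤ (dist (Λ'' x) (Λ' x') + dist (Λ'' y) (Λ' y')) / 2)
    {m x y : Hyp (n i)} {m' x' y' : Hyp (n j)} (hm : IsMid m x y) (hm' : IsMid m' x' y') :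
    dist (Λ m) (Λ' m') ≤ (dist (Λ x) (Λ' x') + dist (Λ y) (Λ' y')) / 2 := by
  have hsV := h.range_subset_V hτ hΛ hW
  obtain ⟨s₁, hs₁, e₁⟩ := h.crossing_dist hτ (i := i) (hsV ⟨x, rfl⟩) (hside ⟨x', rfl⟩)
  obtain ⟨s₂, hs₂, e₂⟩ := h.crossing_dist hτ (i := i) (hsV ⟨y, rfl⟩) (hside ⟨y', rfl⟩)
  have hs : (s₁ + s₂) / 2 ∈ Icc 0 L := ⟨by linarith [hs₁.1, hs₂.1], by linarith [hs₁.2, hs₂.2]⟩
  obtain ⟨u₁, hu₁⟩ := hW ⟨s₁, hs₁, rfl⟩
  obtain ⟨u₂, hu₂⟩ := hW ⟨s₂, hs₂, rfl⟩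
  obtain ⟨u, hu⟩ := hW ⟨_, hs, rfl⟩
  obtain ⟨v₁, hv₁⟩ := hW'' ⟨s₁, hs₁, rfl⟩
  obtain ⟨v₂, hv₂⟩ := hW'' ⟨s₂, hs₂, rfl⟩
  obtain ⟨v, hv⟩ := hW'' ⟨_, hs, rfl⟩
  have hi := h.sheet_isometry i Λ hΛ
  have hi'' := h.sheet_isometry _ Λ'' hΛ''
  have hg := h.wall_geod τ hτ
  have d1 : dist (τ s₁) (τ ((s₁ + s₂) / 2)) = dist (τ s₁) (τ s₂) / 2 := by
    rw [hg _ hs₁ _ hs, hg _ hs₁ _ hs₂]
    rw [show s₁ - (s₁ + s₂) / 2 = (s₁ - s₂) / 2 by ring, abs_div, abs_two]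
  have d2 : dist (τ ((s₁ + s₂) / 2)) (τ s₂) = dist (τ s₁) (τ s₂) / 2 := by
    rw [hg _ hs _ hs₂, hg _ hs₁ _ hs₂]
    rw [show (s₁ + s₂) / 2 - s₂ = (s₁ - s₂) / 2 by ring, abs_div, abs_two]
  have hmu : IsMid u u₁ u₂ := by
    constructor
    · rw [← hi.dist_eq, ← hi.dist_eq, hu, hu₁, hu₂, d1]
    · rw [← hi.dist_eq, ← hi.dist_eq, hu, hu₁, hu₂, d2]
  have hmv : IsMid v v₁ v₂ := by
    constructor
    · rw [← hi''.dist_eq, ← hi''.dist_eq, hv, hv₁, hv₂, d1]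
    · rw [← hi''.dist_eq, ← hi''.dist_eq, hv, hv₁, hv₂, d2]
  have k1 := (hyp_hypLike (h.n_pos i)).mid_convex hm hmu
  have k2 := IH hmv hm'
  rw [← hi.dist_eq, ← hi.dist_eq, ← hi.dist_eq, hu, hu₁, hu₂] at k1
  rw [hv, hv₁, hv₂] at k2
  have k3 := dist_triangle (Λ m) (τ ((s₁ + s₂) / 2)) (Λ' m')
  linarith

theorem mid_convex_same (h : IsSheetTree n L ε reg sheets walls) {i : Bool}
    {Λ : Hyp (n i) → Y} (hΛ : Λ ∈ sheets i) {Λ' : Hyp (n i) → Y} (hΛ' : Λ' ∈ sheets i)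
    (hr : range Λ' ⊆ range Λ) {m x y : Hyp (n i)} {m' x' y' : Hyp (n i)} (hm : IsMid m x y)
    (hm' : IsMid m' x' y') :
    dist (Λ m) (Λ' m') ≤ (dist (Λ x) (Λ' x') + dist (Λ y) (Λ' y')) / 2 := by
  obtain ⟨a, ha⟩ := hr ⟨m', rfl⟩
  obtain ⟨b, hb⟩ := hr ⟨x', rfl⟩
  obtain ⟨c, hc⟩ := hr ⟨y', rfl⟩
  have hi := h.sheet_isometry i Λ hΛ
  have hi' := h.sheet_isometry i Λ' hΛ'
  have hmid : IsMid a b c := by
    constructor
    · rw [← hi.dist_eq, ← hi.dist_eq, ha, hb, hc, hi'.dist_eq, hi'.dist_eq, hm'.1]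
    · rw [← hi.dist_eq, ← hi.dist_eq, ha, hb, hc, hi'.dist_eq, hi'.dist_eq, hm'.2]
  have := (hyp_hypLike (h.n_pos i)).mid_convex hm hmid
  rwa [← hi.dist_eq, ← hi.dist_eq, ← hi.dist_eq, ha, hb, hc] at this

theorem mid_convex_meet (h : IsSheetTree n L ε reg sheets walls) {i j : Bool}
    {Λ : Hyp (n i) → Y} (hΛ : Λ ∈ sheets i) {Λ' : Hyp (n j) → Y} (hΛ' : Λ' ∈ sheets j)
    (hmeet : (range Λ ∩ range Λ').Nonempty)
    {m x y : Hyp (n i)} {m' x' y' : Hyp (n j)} (hm : IsMid m x y) (hm' : IsMid m' x' y') :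
    dist (Λ m) (Λ' m') ≤ (dist (Λ x) (Λ' x') + dist (Λ y) (Λ' y')) / 2 := by
  rcases eq_or_ne j i with hij | hij
  · subst hij
    exact h.mid_convex_same hΛ hΛ' (h.range_eq hΛ hΛ' hmeet).symm.subset hm hm'
  · have hji : j = !i := by revert hij; cases i <;> cases j <;> simp
    subst hji
    obtain ⟨z, hz, hz'⟩ := hmeet
    obtain ⟨τ, hτ, hzτ⟩ := h.exists_wall_of_mem (h.sheet_reg i Λ hΛ hz)
      (h.sheet_reg _ Λ' hΛ' hz')
    have hW : τ '' Icc 0 L ⊆ range Λ := h.wall_subset hΛ hτ ⟨z, hzτ, hz⟩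
    have hW' : τ '' Icc 0 L ⊆ range Λ' := h.wall_subset hΛ' hτ ⟨z, hzτ, hz'⟩
    exact h.mid_convex_step hτ hΛ hΛ' hW hW' (h.range_subset_V hτ hΛ' hW')
      (fun h1 h2 => h.mid_convex_same hΛ' hΛ' subset_rfl h1 h2) hm hm'

/-- joint midpoint convexity of the distance between points of two sheets -/
theorem mid_convex (h : IsSheetTree n L ε reg sheets walls) {i j : Bool}
    {Λ : Hyp (n i) → Y} (hΛ : Λ ∈ sheets i) {Λ' : Hyp (n j) → Y} (hΛ' : Λ' ∈ sheets j)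
    {m x y : Hyp (n i)} {m' x' y' : Hyp (n j)} (hm : IsMid m x y) (hm' : IsMid m' x' y') :
    dist (Λ m) (Λ' m') ≤ (dist (Λ x) (Λ' x') + dist (Λ y) (Λ' y')) / 2 := by
  have main : ∀ (N : ℕ) (i : Bool) (Λ : Hyp (n i) → Y), Λ ∈ sheets i →
      (∃ x x', dist (Λ x) (Λ' x') ≤ N * (ε / 2)) →
      ∀ (m x y : Hyp (n i)) (m' x' y' : Hyp (n j)), IsMid m x y → IsMid m' x' y' →
      dist (Λ m) (Λ' m') ≤ (dist (Λ x) (Λ' x') + dist (Λ y) (Λ' y')) / 2 := by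
    intro N
    induction N with
    | zero =>
      rintro i Λ hΛ ⟨x, x', hx⟩ m x₁ y m' x₁' y' hm hm'
      have : Λ x = Λ' x' := by
        apply dist_le_zero.1
        simpa using hx
      exact h.mid_convex_meet hΛ hΛ' ⟨Λ x, ⟨x, rfl⟩, ⟨x', this.symm⟩⟩ hm hm'
    | succ N IH =>
      rintro i Λ hΛ ⟨x, x', hx⟩ m x₁ y m' x₁' y' hm hm'
      by_cases hmeet : (range Λ ∩ range Λ').Nonempty
      · exact h.mid_convex_meet hΛ hΛ' hmeet hm hm'
      · obtain ⟨c, hc, hc0, hc1⟩ := h.geodesic (Λ' x') (Λ x)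
        have h0 : c 0 ∉ range Λ := fun hh => hmeet ⟨c 0, hh, ⟨x', hc0.symm⟩⟩
        obtain ⟨τ, hτ, Λ'', t, hW, hΛ'', hW'', ht, hct, hV, hnear⟩ :=
          h.entrance hΛ dist_nonneg hc h0 (by rw [hc1]; exact ⟨x, rfl⟩)
        have hd : Disjoint (range Λ') (τ '' Icc 0 L) := by
          rw [Set.disjoint_left]
          intro z hz hz'
          exact hmeet ⟨z, hW hz', hz⟩
        have hside : range Λ' ⊆ h.V hτ (!i) :=
          h.subset_side hτ (h.range_preconnected hΛ') hd ⟨c 0, ⟨x', hc0.symm⟩, hV 0 ⟨le_rfl, ht.1⟩⟩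
        refine h.mid_convex_step hτ hΛ hΛ'' hW hW'' (hside.trans subset_union_left) ?_ hm hm'
        intro m₂ x₂ y₂ m₂' x₂' y₂' hm₂ hm₂'
        refine IH (!i) Λ'' hΛ'' ?_ m₂ x₂ y₂ m₂' x₂' y₂' hm₂ hm₂'
        set s := max 0 (t - ε / 2) with hs
        have hst : s ≤ t := by rw [hs, max_le_iff]; exact ⟨ht.1.le, by linarith [h.eps_pos]⟩
        have hs0 : 0 ≤ s := le_max_left _ _
        have hsε : t - s < ε := by
          have := le_max_right 0 (t - ε / 2)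
          linarith [h.eps_pos]
        obtain ⟨v, hv⟩ := hnear s ⟨hs0, hst⟩ hsε
        refine ⟨v, x', ?_⟩
        rw [hv, ← hc0, hc s ⟨hs0, hst.trans ht.2⟩ 0 ⟨le_rfl, dist_nonneg⟩, sub_zero,
          abs_of_nonneg hs0, hs, max_le_iff]
        constructor
        · have := h.eps_pos; positivity
        · have h6 := ht.2
          rw [dist_comm] at h6
          push_cast at hx
          linarith
  obtain ⟨N, hN⟩ := exists_nat_gt (dist (Λ x) (Λ' x') / (ε / 2))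
  refine main N i Λ hΛ ⟨x, x', ?_⟩ m x y m' x' y' hm hm'
  have := h.eps_pos
  rw [div_lt_iff₀ (by positivity)] at hN
  exact hN.le

end IsSheetTree

end MP4a77c6
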