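import Pool.Agent.Lib.MP_4a77c6_an.D1

open Set Metric MeasureTheory Filter Topology
open scoped ENNReal NNReal

namespace MP4a77c6

/-! Task D2: Busemann convexity. -/

/-- derivative of a distance function given by the hyperbolic law of cosines -/
theorem D2_hasDerivAt {u : ℝ → ℝ} {a C : ℝ} (ha : 0 < a) (hu0 : ∀ x, 0 ≤ u x)
    (hu : ∀ x, Real.cosh (u x) = Real.cosh a * Real.cosh x - C * Real.sinh x) :
    HasDerivAt u (-(C / Real.sinh a)) 0 := by
  have hfun : u = fun x => Real.arcosh (Real.cosh a * Real.cosh x - C * Real.sinh x) := by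
    funext x
    rw [← hu x, Real.arcosh_cosh (hu0 x)]
  have h1 : (1 : ℝ) < Real.cosh a := Real.one_lt_cosh.2 ha.ne'
  have h2 : HasDerivAt (fun x => Real.cosh a * Real.cosh x - C * Real.sinh x)
      (Real.cosh a * Real.sinh 0 - C * Real.cosh 0) 0 :=
    ((Real.hasDerivAt_cosh 0).const_mul _).sub ((Real.hasDerivAt_sinh 0).const_mul _)
  have h3 : HasDerivAt Real.arcosh (√((Real.cosh a) ^ 2 - 1))⁻¹
      (Real.cosh a * Real.cosh 0 - C * Real.sinh 0) := by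
    simp only [Real.cosh_zero, mul_one, Real.sinh_zero, mul_zero, sub_zero]
    exact Real.hasDerivAt_arcosh h1
  have h4 := h3.comp (0 : ℝ) h2
  have h5 : √((Real.cosh a) ^ 2 - 1) = Real.sinh a := by
    rw [show (Real.cosh a) ^ 2 - 1 = (Real.sinh a) ^ 2 by rw [Real.cosh_sq]; ring]
    exact Real.sqrt_sq (Real.sinh_nonneg_iff.2 ha.le)
  have h6 : -(C / Real.sinh a) =
      (√((Real.cosh a) ^ 2 - 1))⁻¹ * (Real.cosh a * Real.sinh 0 - C * Real.cosh 0) := by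
    rw [h5]
    simp only [Real.sinh_zero, mul_zero, Real.cosh_zero, mul_one, zero_sub]
    field_simp
  rw [h6, hfun]
  exact h4

theorem D2_deriv_nonneg {F : ℝ → ℝ} {F' s : ℝ} (hs : 0 < s) (hF : HasDerivAt F F' 0)
    (h : ∀ x ∈ Icc 0 s, F 0 ≤ F x) : 0 ≤ F' := by
  have h1 := (hasDerivAt_iff_tendsto_slope.1 hF).mono_left
    (nhdsWithin_mono (0 : ℝ) (s := Ioi 0) (t := {0}ᶜ) (by
      intro x hx; simp only [mem_compl_iff, mem_singleton_iff]; exact ne_of_gt hx))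
  refine ge_of_tendsto h1 ?_
  filter_upwards [Ioo_mem_nhdsGT hs] with x hx
  rw [slope_def_field]
  exact div_nonneg (sub_nonneg.2 (h x ⟨hx.1.le, hx.2.le⟩)) (by linarith [hx.1])

namespace IsSheetTree

variable {Y : Type*} [MetricSpace Y] {n : Bool → ℕ} {L ε : ℝ} {reg : Bool → Set Y}
  {sheets : ∀ i, Set (Hyp (n i) → Y)} {walls : Set (ℝ → Y)}

/-- the line of a sheet extending (part of) a wall, starting at `τ s₀` in direction `κ = ±1` -/
theorem D2_wall_line (h : IsSheetTree n L ε reg sheets walls) {τ : ℝ → Y} (hτ : τ ∈ walls)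
    {i : Bool} {Λ : Hyp (n i) → Y} (hΛ : Λ ∈ sheets i) (hW : τ '' Icc 0 L ⊆ range Λ)
    {s₀ κ s : ℝ} (hκ : |κ| = 1) (hs : 0 < s) (hmem : ∀ x ∈ Icc 0 s, s₀ + κ * x ∈ Icc 0 L) :
    ∃ g : ℝ → Hyp (n i), Isometry g ∧ ∀ x ∈ Icc 0 s, Λ (g x) = τ (s₀ + κ * x) := by
  have hi := h.sheet_isometry i Λ hΛ
  have hch : ∀ x : ℝ, ∃ e : Hyp (n i), x ∈ Icc 0 s → Λ e = τ (s₀ + κ * x) := by
    intro x
    by_cases hx : x ∈ Icc 0 s
    · obtain ⟨e, he⟩ := hW ⟨_, hmem x hx, rfl⟩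
      exact ⟨e, fun _ => he⟩
    · exact ⟨⟨0⟩, fun hx' => absurd hx' hx⟩
  choose E hE using hch
  have hgeod : IsGeodesicOn E 0 s := by
    intro x hx y hy
    rw [← hi.dist_eq, hE x hx, hE y hy, h.wall_geod τ hτ _ (hmem x hx) _ (hmem y hy)]
    rw [show s₀ + κ * x - (s₀ + κ * y) = κ * (x - y) by ring, abs_mul, hκ, one_mul]
  obtain ⟨g, hg, hgE⟩ := (hyp_hypLike (h.n_pos i)).exists_line hs hgeod
  exact ⟨g, hg, fun x hx => by rw [hgE x hx, hE x hx]⟩

/-- `ref_le` for points of the wall -/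
theorem D2_ref_wall (h : IsSheetTree n L ε reg sheets walls) {τ : ℝ → Y} (hτ : τ ∈ walls)
    {i : Bool} {Λ : Hyp (n i) → Y} (hΛ : Λ ∈ sheets i) {Λ' : Hyp (n (!i)) → Y}
    (hΛ' : Λ' ∈ sheets (!i)) (hW : τ '' Icc 0 L ⊆ range Λ) (hW' : τ '' Icc 0 L ⊆ range Λ')
    {c : ℝ → Y} {a b : ℝ} (ha : 0 < a) (hb : 0 ≤ b) (hc : IsGeodesicOn c (-a) b)
    (h0 : c 0 ∈ τ '' Icc 0 L) (hcb : c b ∈ range Λ') {g : ℝ → Hyp (n i)} (hg : Isometry g)
    (hgc : ∀ t ∈ Icc (-a) 0, Λ (g t) = c t) {s' : ℝ} (hs' : s' ∈ Icc 0 L) :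
    dist (τ s') (Λ (g b)) ≤ dist (τ s') (c b) := by
  have hi := h.sheet_isometry i Λ hΛ
  have hi' := h.sheet_isometry _ Λ' hΛ'
  have hg0 : Λ (g 0) = c 0 := hgc 0 ⟨by linarith, le_rfl⟩
  have hcb0 : dist (c 0) (c b) = b := by
    rw [hc 0 ⟨by linarith, hb⟩ b ⟨by linarith, le_rfl⟩, zero_sub, abs_neg, abs_of_nonneg hb]
  have hgb0 : dist (c 0) (Λ (g b)) = b := by
    rw [← hg0, hi.dist_eq, hg.dist_eq, Real.dist_eq, zero_sub, abs_neg, abs_of_nonneg hb]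
  rcases eq_or_lt_of_le hb with hb0 | hb0
  · rw [← hb0, hg0]
  obtain ⟨s₀, hs₀, hs₀'⟩ := h0
  rcases eq_or_ne s' s₀ with hss | hss
  · rw [hss, hs₀', hgb0, hcb0]
  -- parametrise the wall from `τ s₀` to `τ s'`
  set s := |s' - s₀| with hsdef
  have hs : 0 < s := abs_pos.2 (sub_ne_zero.2 hss)
  obtain ⟨κ, hκ, hκs⟩ : ∃ κ : ℝ, |κ| = 1 ∧ s₀ + κ * s = s' := by
    rcases le_total s₀ s' with h1 | h1
    · exact ⟨1, abs_one, by rw [hsdef, abs_of_nonneg (by linarith)]; ring⟩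
    · exact ⟨-1, by simp, by rw [hsdef, abs_of_nonpos (by linarith)]; ring⟩
  have hmem : ∀ x ∈ Icc 0 s, s₀ + κ * x ∈ Icc 0 L := by
    intro x hx
    have hx' : s₀ + κ * x = (1 - x / s) * s₀ + (x / s) * s' := by
      rw [← hκs]; field_simp; ring
    have hx0 : 0 ≤ x / s := div_nonneg hx.1 hs.le
    have hx1 : x / s ≤ 1 := (div_le_one hs).2 hx.2
    rw [hx']
    exact (convex_Icc (0 : ℝ) L) hs₀ hs' (by linarith) hx0 (by ring)
  obtain ⟨g₁, hg₁, hg₁'⟩ := h.D2_wall_line hτ hΛ hW hκ hs hmem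
  obtain ⟨g₂, hg₂, hg₂'⟩ := h.D2_wall_line hτ hΛ' hW' hκ hs hmem
  obtain ⟨B, hB⟩ := hcb
  set A := g (-a) with hA
  have hAc : Λ A = c (-a) := hgc (-a) ⟨le_rfl, by linarith⟩
  have hH := hyp_hypLike (h.n_pos i)
  have hH' := hyp_hypLike (h.n_pos (!i))
  obtain ⟨CA, hCA⟩ := hH.hl g₁ hg₁ A
  obtain ⟨CB, hCB⟩ := hH'.hl g₂ hg₂ B
  have e0 : τ (s₀ + κ * 0) = c 0 := by rw [mul_zero, add_zero, hs₀']
  have hA0 : dist A (g₁ 0) = a := by
    rw [← hi.dist_eq, hAc, hg₁' 0 ⟨le_rfl, hs.le⟩, e0,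
      hc (-a) ⟨le_rfl, by linarith⟩ 0 ⟨by linarith, hb⟩, sub_zero, abs_neg, abs_of_pos ha]
  have hB0 : dist B (g₂ 0) = b := by
    rw [← hi'.dist_eq, hB, hg₂' 0 ⟨le_rfl, hs.le⟩, e0, dist_comm, hcb0]
  rw [hA0] at hCA
  rw [hB0] at hCB
  have hsinha : 0 < Real.sinh a := Real.sinh_pos_iff.2 ha
  have hsinhb : 0 < Real.sinh b := Real.sinh_pos_iff.2 hb0
  have hsinhs : 0 < Real.sinh s := Real.sinh_pos_iff.2 hs
  -- first variation
  have hvar : 0 ≤ -(CA / Real.sinh a) + -(CB / Real.sinh b) := by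
    have hd1 := D2_hasDerivAt ha (fun x => dist_nonneg) hCA
    have hd2 := D2_hasDerivAt hb0 (fun x => dist_nonneg) hCB
    refine D2_deriv_nonneg hs (hd1.add hd2) ?_
    intro x hx
    simp only [Pi.add_apply]
    rw [hA0, hB0]
    have e1 : dist A (g₁ x) = dist (c (-a)) (τ (s₀ + κ * x)) := by
      rw [← hi.dist_eq, hAc, hg₁' x hx]
    have e2 : dist B (g₂ x) = dist (τ (s₀ + κ * x)) (c b) := by
      rw [← hi'.dist_eq, hB, hg₂' x hx, dist_comm]
    rw [e1, e2]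
    have e3 : dist (c (-a)) (c b) = a + b := by
      rw [hc (-a) ⟨le_rfl, by linarith⟩ b ⟨by linarith, le_rfl⟩, abs_sub_comm,
        abs_of_nonneg (by linarith)]; ring
    rw [← e3]
    exact dist_triangle _ _ _
  -- the two distances
  have hw1 : Λ (g₁ s) = τ s' := by rw [hg₁' s ⟨hs.le, le_rfl⟩, hκs]
  have hw2 : Λ' (g₂ s) = τ s' := by rw [hg₂' s ⟨hs.le, le_rfl⟩, hκs]
  have k1 : Real.cosh (dist (τ s') (c b)) = Real.cosh b * Real.cosh s - CB * Real.sinh s := by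
    rw [← hCB s, ← hi'.dist_eq B, hB, hw2, dist_comm]
  obtain ⟨C', hC'⟩ := hH.hl g hg (g₁ s)
  have hws : dist (g₁ s) (g 0) = s := by
    rw [← hi.dist_eq, hw1, hg0, ← hs₀', h.wall_geod τ hτ s' hs' s₀ hs₀]
  rw [hws] at hC'
  have k2 : Real.cosh (dist (τ s') (Λ (g b))) =
      Real.cosh s * Real.cosh b - C' * Real.sinh b := by
    rw [← hC' b, ← hi.dist_eq (g₁ s), hw1]
  have k3 : Real.cosh a * Real.cosh s - CA * Real.sinh s =
      Real.cosh s * Real.cosh a + C' * Real.sinh a := by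
    have := hC' (-a)
    rw [Real.cosh_neg, Real.sinh_neg, ← hA, dist_comm, hCA s] at this
    linarith
  have k4 : C' * Real.sinh a = - (CA * Real.sinh s) := by linarith
  have k5 : CB * Real.sinh a + CA * Real.sinh b ≤ 0 := by
    have : 0 ≤ (-(CA / Real.sinh a) + -(CB / Real.sinh b)) * (Real.sinh a * Real.sinh b) :=
      mul_nonneg hvar (by positivity)
    have e : (-(CA / Real.sinh a) + -(CB / Real.sinh b)) * (Real.sinh a * Real.sinh b) =
      -(CB * Real.sinh a + CA * Real.sinh b) := by field_simp; ring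
    rw [e] at this
    linarith
  have k6 : Real.cosh (dist (τ s') (Λ (g b))) ≤ Real.cosh (dist (τ s') (c b)) := by
    rw [k1, k2]
    have : CB * Real.sinh s ≤ C' * Real.sinh b := by
      have e1 : (CB * Real.sinh s) * Real.sinh a ≤ (C' * Real.sinh b) * Real.sinh a := by
        have : (C' * Real.sinh b) * Real.sinh a = - (CA * Real.sinh s) * Real.sinh b := by
          rw [← k4]; ring
        rw [this]
        nlinarith
      exact le_of_mul_le_mul_right e1 hsinha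
    nlinarith
  rw [Real.cosh_le_cosh, abs_of_nonneg dist_nonneg, abs_of_nonneg dist_nonneg] at k6
  exact k6

/-- Let `c` be a geodesic on `[-a,b]` which is in the sheet `Λ` (of type `i`) before time `0`, in
the sheet `Λ'` of the other type after time `0`, with `c 0` on the wall `τ` common to both. If
`g` is the line of `Hyp (n i)` extending `c` on `[-a,0]`, then points of the closed side of
`τ` containing `Λ` are closer to `Λ (g b)` than to `c b`. -/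
theorem ref_le (h : IsSheetTree n L ε reg sheets walls) {τ : ℝ → Y} (hτ : τ ∈ walls) {i : Bool}
    {Λ : Hyp (n i) → Y} (hΛ : Λ ∈ sheets i) {Λ' : Hyp (n (!i)) → Y} (hΛ' : Λ' ∈ sheets (!i))
    (hW : τ '' Icc 0 L ⊆ range Λ) (hW' : τ '' Icc 0 L ⊆ range Λ')
    {c : ℝ → Y} {a b : ℝ} (ha : 0 < a) (hb : 0 ≤ b) (hc : IsGeodesicOn c (-a) b)
    (h0 : c 0 ∈ τ '' Icc 0 L) (hcb : c b ∈ range Λ') {g : ℝ → Hyp (n i)} (hg : Isometry g)
    (hgc : ∀ t ∈ Icc (-a) 0, Λ (g t) = c t) {y : Y} (hy : y ∈ h.V hτ i ∪ τ '' Icc 0 L) :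
    dist y (Λ (g b)) ≤ dist y (c b) := by
  obtain ⟨s, hs, e⟩ := h.crossing_dist hτ (i := i) hy (h.range_subset_V hτ hΛ' hW' hcb)
  rw [e]
  exact (dist_triangle _ (τ s) _).trans (add_le_add le_rfl
    (h.D2_ref_wall hτ hΛ hΛ' hW hW' ha hb hc h0 hcb hg hgc hs))

/-- A continuous function which is locally midpoint convex is convex. -/
theorem _root_.MP4a77c6.convex_of_local {f : ℝ → ℝ} {a b : ℝ} (hab : a ≤ b)
    (hf : ContinuousOn f (Icc a b))
    (hloc : ∀ t ∈ Ioo a b, ∃ h₀ > 0, ∀ h ∈ Ioo 0 h₀, f t ≤ (f (t - h) + f (t + h)) / 2) :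
    ConvexOn ℝ (Icc a b) f := by
  have key : ∀ x ∈ Icc a b, ∀ y ∈ Icc a b, x < y → ∀ z ∈ Icc x y,
      f z ≤ f x + (f y - f x) / (y - x) * (z - x) := by
    intro x hx y hy hxy z hz
    by_contra hcon
    push Not at hcon
    set F : ℝ → ℝ := fun t => f t - (f x + (f y - f x) / (y - x) * (t - x)) with hF
    have hFx : F x = 0 := by simp [hF]
    have hFy : F y = 0 := by
      have : y - x ≠ 0 := by linarith
      simp only [hF]; field_simp; ring
    have hFz : 0 < F z := by simp only [hF]; linarith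
    have hsub : Icc x y ⊆ Icc a b := Icc_subset_Icc hx.1 hy.2
    have hFc : ContinuousOn F (Icc x y) := by
      apply (hf.mono hsub).sub
      fun_prop
    obtain ⟨w, hw, hwmax⟩ := isCompact_Icc.exists_isMaxOn ⟨z, hz⟩ hFc
    set T : Set ℝ := {t | t ∈ Icc x y ∧ F t = F w} with hT
    have hTc : IsClosed T := hFc.preimage_isClosed_of_isClosed isClosed_Icc isClosed_singleton
    have hTb : BddBelow T := ⟨x, fun t ht => ht.1.1⟩
    have hTne : T.Nonempty := ⟨w, hw, rfl⟩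
    set t := sInf T with ht
    have htT : t ∈ T := hTc.csInf_mem hTne hTb
    have hMpos : 0 < F w := hFz.trans_le (hwmax hz)
    have htx : x < t := by
      rcases eq_or_lt_of_le htT.1.1 with h1 | h1
      · exfalso; rw [← h1] at htT; rw [← htT.2, hFx] at hMpos; exact lt_irrefl _ hMpos
      · exact h1
    have hty : t < y := by
      rcases eq_or_lt_of_le htT.1.2 with h1 | h1
      · exfalso; rw [h1] at htT; rw [← htT.2, hFy] at hMpos; exact lt_irrefl _ hMpos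
      · exact h1
    obtain ⟨h₀, hh₀, hh⟩ := hloc t ⟨hx.1.trans_lt htx, hty.trans_le hy.2⟩
    set h := min (h₀ / 2) (min (t - x) (y - t)) with hdef
    have hpos : 0 < h := lt_min (by linarith) (lt_min (by linarith) (by linarith))
    have h1 : h < h₀ := (min_le_left _ _).trans_lt (by linarith)
    have h2 : h ≤ t - x := (min_le_right _ _).trans (min_le_left _ _)
    have h3 : h ≤ y - t := (min_le_right _ _).trans (min_le_right _ _)
    have h4 := hh h ⟨hpos, h1⟩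
    have h5 : F t ≤ (F (t - h) + F (t + h)) / 2 := by
      simp only [hF]
      have : (f y - f x) / (y - x) * (t - h - x) + (f y - f x) / (y - x) * (t + h - x) =
        2 * ((f y - f x) / (y - x) * (t - x)) := by ring
      linarith
    have h6 : F (t + h) ≤ F w := hwmax ⟨by linarith, by linarith⟩
    have h7 : F (t - h) ≤ F w := hwmax ⟨by linarith, by linarith⟩
    have h8 : F (t - h) ≠ F w := by
      intro h9
      have : t ≤ t - h := csInf_le hTb ⟨⟨by linarith, by linarith⟩, h9⟩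
      linarith
    have h10 : F (t - h) < F w := lt_of_le_of_ne h7 h8
    have h11 : F t = F w := htT.2
    linarith
  refine ⟨convex_Icc a b, ?_⟩
  have key2 : ∀ x ∈ Icc a b, ∀ y ∈ Icc a b, x < y → ∀ p q : ℝ, 0 ≤ p → 0 ≤ q → p + q = 1 →
      f (p * x + q * y) ≤ p * f x + q * f y := by
    intro x hx y hy hxy p q hp hq hpq
    have hz : p * x + q * y ∈ Icc x y := by
      have hp' : p = 1 - q := by linarith
      subst hp'
      constructor <;> nlinarith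
    have h1 := key x hx y hy hxy _ hz
    have h2 : (f y - f x) / (y - x) * (p * x + q * y - x) = (f y - f x) * q := by
      have hp' : p = 1 - q := by linarith
      have : y - x ≠ 0 := by linarith
      subst hp'
      field_simp
      ring
    rw [h2] at h1
    have hp' : p = 1 - q := by linarith
    rw [hp'] at h1 ⊢
    linarith
  intro x hx y hy p q hp hq hpq
  simp only [smul_eq_mul]
  rcases lt_trichotomy x y with h1 | h1 | h1
  · exact key2 x hx y hy h1 p q hp hq hpq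
  · subst h1
    rw [← add_mul, ← add_mul, hpq, one_mul, one_mul]
  · rw [add_comm (p * x), add_comm (p * f x)]
    exact key2 y hy x hx h1 q p hq hp (by linarith)

/-- pull back to the model of a geodesic contained in a sheet -/
theorem D2_pull (h : IsSheetTree n L ε reg sheets walls) {i : Bool} {Λ : Hyp (n i) → Y}
    (hΛ : Λ ∈ sheets i) {c : ℝ → Y} {a b : ℝ} (hab : a < b) (hc : IsGeodesicOn c a b)
    (hr : ∀ s ∈ Icc a b, c s ∈ range Λ) :
    ∃ g : ℝ → Hyp (n i), Isometry g ∧ ∀ s ∈ Icc a b, Λ (g s) = c s := by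
  have hi := h.sheet_isometry i Λ hΛ
  have hch : ∀ x : ℝ, ∃ e : Hyp (n i), x ∈ Icc a b → Λ e = c x := by
    intro x
    by_cases hx : x ∈ Icc a b
    · obtain ⟨e, he⟩ := hr x hx
      exact ⟨e, fun _ => he⟩
    · exact ⟨⟨0⟩, fun hx' => absurd hx' hx⟩
  choose E hE using hch
  have hgeod : IsGeodesicOn E a b := by
    intro x hx y hy
    rw [← hi.dist_eq, hE x hx, hE y hy, hc x hx y hy]
  obtain ⟨g, hg, hgE⟩ := (hyp_hypLike (h.n_pos i)).exists_line hab hgeod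
  exact ⟨g, hg, fun x hx => by rw [hgE x hx, hE x hx]⟩

theorem D2_mid_of_geod (h : IsSheetTree n L ε reg sheets walls) {i : Bool} {Λ : Hyp (n i) → Y}
    (hΛ : Λ ∈ sheets i) {c : ℝ → Y} {η p : ℝ} (hc : IsGeodesicOn c (-η) η)
    (hp : p ∈ Icc 0 η) {x₀ x₁ x₂ : Hyp (n i)} (h0 : Λ x₀ = c 0) (h1 : Λ x₁ = c (-p))
    (h2 : Λ x₂ = c p) : IsMid x₀ x₁ x₂ := by
  have hi := h.sheet_isometry i Λ hΛ
  have m0 : (0 : ℝ) ∈ Icc (-η) η := ⟨by linarith [hp.1, hp.2], by linarith [hp.1, hp.2]⟩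
  have m1 : (-p : ℝ) ∈ Icc (-η) η := ⟨by linarith [hp.1, hp.2], by linarith [hp.1, hp.2]⟩
  have m2 : (p : ℝ) ∈ Icc (-η) η := ⟨by linarith [hp.1, hp.2], by linarith [hp.1, hp.2]⟩
  constructor
  · rw [← hi.dist_eq, ← hi.dist_eq, h0, h1, h2, hc _ m1 _ m0, hc _ m1 _ m2, sub_zero, abs_neg,
      abs_of_nonneg hp.1, show -p - p = -(2 * p) by ring, abs_neg,
      abs_of_nonneg (by linarith [hp.1])]
    ring
  · rw [← hi.dist_eq, ← hi.dist_eq, h0, h1, h2, hc _ m0 _ m2, hc _ m1 _ m2, zero_sub, abs_neg,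
      abs_of_nonneg hp.1, show -p - p = -(2 * p) by ring, abs_neg,
      abs_of_nonneg (by linarith [hp.1])]
    ring

theorem D2_LC0 (h : IsSheetTree n L ε reg sheets walls) {i j : Bool} {Λ : Hyp (n i) → Y}
    (hΛ : Λ ∈ sheets i) {Λ' : Hyp (n j) → Y} (hΛ' : Λ' ∈ sheets j) {c c' : ℝ → Y} {η : ℝ}
    (hc : IsGeodesicOn c (-η) η) (hs : ∀ s ∈ Icc (-η) η, c s ∈ range Λ)
    (hc' : IsGeodesicOn c' (-η) η) (hs' : ∀ s ∈ Icc (-η) η, c' s ∈ range Λ')
    {p q : ℝ} (hp : p ∈ Icc 0 η) (hq : q ∈ Icc 0 η) :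
    dist (c 0) (c' 0) ≤ (dist (c (-p)) (c' (-q)) + dist (c p) (c' q)) / 2 := by
  have mem : ∀ {r : ℝ}, r ∈ Icc 0 η → (0 : ℝ) ∈ Icc (-η) η ∧ (-r : ℝ) ∈ Icc (-η) η ∧
      (r : ℝ) ∈ Icc (-η) η := fun {r} hr =>
    ⟨⟨by linarith [hr.1, hr.2], by linarith [hr.1, hr.2]⟩,
      ⟨by linarith [hr.1, hr.2], by linarith [hr.1, hr.2]⟩,
      ⟨by linarith [hr.1, hr.2], by linarith [hr.1, hr.2]⟩⟩
  obtain ⟨x₀, hx₀⟩ := hs 0 (mem hp).1
  obtain ⟨x₁, hx₁⟩ := hs (-p) (mem hp).2.1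
  obtain ⟨x₂, hx₂⟩ := hs p (mem hp).2.2
  obtain ⟨y₀, hy₀⟩ := hs' 0 (mem hq).1
  obtain ⟨y₁, hy₁⟩ := hs' (-q) (mem hq).2.1
  obtain ⟨y₂, hy₂⟩ := hs' q (mem hq).2.2
  have := h.mid_convex hΛ hΛ' (h.D2_mid_of_geod hΛ hc hp hx₀ hx₁ hx₂)
    (h.D2_mid_of_geod hΛ' hc' hq hy₀ hy₁ hy₂)
  rwa [hx₀, hx₁, hx₂, hy₀, hy₁, hy₂] at this

theorem D2_LC1_aux (h : IsSheetTree n L ε reg sheets walls) {i j : Bool} (hij : j = !i)
    {τ : ℝ → Y} (hτ : τ ∈ walls) {Λ : Hyp (n i) → Y} (hΛ : Λ ∈ sheets i)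
    {Λ' : Hyp (n j) → Y} (hΛ' : Λ' ∈ sheets j) (hW : τ '' Icc 0 L ⊆ range Λ)
    (hW' : τ '' Icc 0 L ⊆ range Λ') {c : ℝ → Y} {η : ℝ} (hη : 0 < η)
    (hc : IsGeodesicOn c (-η) η) (h0 : c 0 ∈ τ '' Icc 0 L)
    (hl : ∀ s ∈ Icc (-η) 0, c s ∈ range Λ) (hr : ∀ s ∈ Icc 0 η, c s ∈ range Λ')
    {k : Bool} {Λ₂ : Hyp (n k) → Y} (hΛ₂ : Λ₂ ∈ sheets k)
    (hside : range Λ₂ ⊆ h.V hτ i ∪ τ '' Icc 0 L) {c' : ℝ → Y} (hc' : IsGeodesicOn c' (-η) η)
    (hs' : ∀ s ∈ Icc (-η) η, c' s ∈ range Λ₂) {p q : ℝ} (hp : p ∈ Icc 0 η) (hq : q ∈ Icc 0 η) :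
    dist (c 0) (c' 0) ≤ (dist (c (-p)) (c' (-q)) + dist (c p) (c' q)) / 2 := by
  subst hij
  have hcl : IsGeodesicOn c (-η) 0 := fun s hs t ht =>
    hc s ⟨hs.1, hs.2.trans hη.le⟩ t ⟨ht.1, ht.2.trans hη.le⟩
  have hcp : IsGeodesicOn c (-η) p := fun s hs t ht =>
    hc s ⟨hs.1, hs.2.trans hp.2⟩ t ⟨ht.1, ht.2.trans hp.2⟩
  obtain ⟨g, hg, hgc⟩ := h.D2_pull hΛ (by linarith) hcl hl
  have hmq : q ∈ Icc (-η) η := ⟨by linarith [hq.1], hq.2⟩
  have hmq' : -q ∈ Icc (-η) η := ⟨by linarith [hq.2], by linarith [hq.1]⟩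
  have hm0 : (0 : ℝ) ∈ Icc (-η) η := ⟨by linarith, hη.le⟩
  have href := h.ref_le hτ hΛ hΛ' hW hW' hη hp.1 hcp h0 (hr p hp) hg hgc (hside (hs' q hmq))
  obtain ⟨y₀, hy₀⟩ := hs' 0 hm0
  obtain ⟨y₁, hy₁⟩ := hs' (-q) hmq'
  obtain ⟨y₂, hy₂⟩ := hs' q hmq
  have hmid : IsMid (g 0) (g (-p)) (g p) := by
    constructor
    · rw [hg.dist_eq, hg.dist_eq, Real.dist_eq, Real.dist_eq, sub_zero, abs_neg,
        abs_of_nonneg hp.1, show -p - p = -(2 * p) by ring, abs_neg,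
        abs_of_nonneg (by linarith [hp.1])]
      ring
    · rw [hg.dist_eq, hg.dist_eq, Real.dist_eq, Real.dist_eq, zero_sub, abs_neg,
        abs_of_nonneg hp.1, show -p - p = -(2 * p) by ring, abs_neg,
        abs_of_nonneg (by linarith [hp.1])]
      ring
  have hmc := h.mid_convex hΛ hΛ₂ hmid (h.D2_mid_of_geod hΛ₂ hc' hq hy₀ hy₁ hy₂)
  rw [hy₀, hy₁, hy₂, hgc 0 ⟨by linarith, le_rfl⟩, hgc (-p) ⟨by linarith [hp.2], by
    linarith [hp.1]⟩] at hmc
  rw [dist_comm (c p), dist_comm (Λ (g p))] at *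
  linarith

/-- `c` is contained in one sheet on `[-η,η]` -/
def D2Straight (n : Bool → ℕ) (sheets : ∀ i, Set (Hyp (n i) → Y)) (c : ℝ → Y) (η : ℝ) : Prop :=
  ∃ (i : Bool) (Λ : Hyp (n i) → Y), Λ ∈ sheets i ∧ ∀ s ∈ Icc (-η) η, c s ∈ range Λ

/-- `c` breaks at `0`: it passes from a sheet to another one -/
def D2Break (n : Bool → ℕ) (L : ℝ) (sheets : ∀ i, Set (Hyp (n i) → Y)) (walls : Set (ℝ → Y))
    (c : ℝ → Y) (η : ℝ) : Prop :=
  ∃ (i j : Bool) (Λ : Hyp (n i) → Y) (Λ' : Hyp (n j) → Y) (τ : ℝ → Y), j = !i ∧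
    Λ ∈ sheets i ∧ Λ' ∈ sheets j ∧ τ ∈ walls ∧ τ '' Icc 0 L ⊆ range Λ ∧
    τ '' Icc 0 L ⊆ range Λ' ∧ c 0 ∈ τ '' Icc 0 L ∧ (∀ s ∈ Icc (-η) 0, c s ∈ range Λ) ∧
    ∀ s ∈ Icc 0 η, c s ∈ range Λ'

theorem D2_LC (h : IsSheetTree n L ε reg sheets walls) {c c' : ℝ → Y} {η : ℝ} (hη : 0 < η)
    (hc : IsGeodesicOn c (-η) η) (hc' : IsGeodesicOn c' (-η) η)
    (hn : D2Straight n sheets c η ∨ D2Break n L sheets walls c η)
    (hs : D2Straight n sheets c' η) {p q : ℝ} (hp : p ∈ Icc 0 η) (hq : q ∈ Icc 0 η) :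
    dist (c 0) (c' 0) ≤ (dist (c (-p)) (c' (-q)) + dist (c p) (c' q)) / 2 := by
  obtain ⟨k, Λ₂, hΛ₂, hs'⟩ := hs
  rcases hn with ⟨i, Λ, hΛ, hr⟩ | ⟨i, j, Λ, Λ', τ, hij, hΛ, hΛ', hτ, hW, hW', h0, hl, hr⟩
  · exact h.D2_LC0 hΛ hΛ₂ hc hr hc' hs' hp hq
  · obtain ⟨l, hside⟩ := h.sheet_side hτ hΛ₂
    rcases eq_or_ne l i with hli | hli
    · subst hli
      exact h.D2_LC1_aux hij hτ hΛ hΛ' hW hW' hη hc h0 hl hr hΛ₂ hside hc' hs' hp hq
    · have hlj : l = j := by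
        subst hij; revert hli; cases i <;> cases l <;> simp
      subst hlj
      have hrev : ∀ {d : ℝ → Y}, IsGeodesicOn d (-η) η → IsGeodesicOn (fun s => d (-s)) (-η) η :=
        fun {d} hd s hs t ht => by
          have := hd (-s) ⟨by linarith [hs.2], by linarith [hs.1]⟩ (-t)
            ⟨by linarith [ht.2], by linarith [ht.1]⟩
          simp only [this]
          rw [show -s - -t = -(s - t) by ring, abs_neg]
      have key := h.D2_LC1_aux (i := l) (j := i) (by rw [hij]; simp) hτ hΛ' hΛ hW' hW hη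
        (hrev hc) (by simpa using h0)
        (fun s hs => hr (-s) ⟨by linarith [hs.2], by linarith [hs.1]⟩)
        (fun s hs => hl (-s) ⟨by linarith [hs.2], by linarith [hs.1]⟩) hΛ₂ hside (hrev hc')
        (fun s hs => hs' (-s) ⟨by linarith [hs.2], by linarith [hs.1]⟩) hp hq
      simp only [neg_zero, neg_neg] at key
      linarith

theorem D2Straight.mono {c : ℝ → Y} {η η' : ℝ} (hs : D2Straight n sheets c η) (h : η' ≤ η) :
    D2Straight n sheets c η' := by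
  obtain ⟨i, Λ, hΛ, hr⟩ := hs
  exact ⟨i, Λ, hΛ, fun s hs => hr s ⟨by linarith [hs.1], by linarith [hs.2]⟩⟩

theorem D2Break.mono {c : ℝ → Y} {η η' : ℝ} (hs : D2Break n L sheets walls c η) (h : η' ≤ η) :
    D2Break n L sheets walls c η' := by
  obtain ⟨i, j, Λ, Λ', τ, hij, hΛ, hΛ', hτ, hW, hW', h0, hl, hr⟩ := hs
  exact ⟨i, j, Λ, Λ', τ, hij, hΛ, hΛ', hτ, hW, hW', h0,
    fun s hs => hl s ⟨by linarith [hs.1], hs.2⟩, fun s hs => hr s ⟨hs.1, by linarith [hs.2]⟩⟩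

/-- straight near `t` -/
def D2Str (n : Bool → ℕ) (sheets : ∀ i, Set (Hyp (n i) → Y)) (c : ℝ → Y) (t : ℝ) : Prop :=
  ∃ η > 0, IsGeodesicOn (fun s => c (t + s)) (-η) η ∧ D2Straight n sheets (fun s => c (t + s)) η

/-- straight or break at `t` -/
def D2Nice (n : Bool → ℕ) (L : ℝ) (sheets : ∀ i, Set (Hyp (n i) → Y)) (walls : Set (ℝ → Y))
    (c : ℝ → Y) (t : ℝ) : Prop :=
  ∃ η > 0, IsGeodesicOn (fun s => c (t + s)) (-η) η ∧
    (D2Straight n sheets (fun s => c (t + s)) η ∨ D2Break n L sheets walls (fun s => c (t + s)) η)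

theorem D2Str.nice {c : ℝ → Y} {t : ℝ} (hs : D2Str n sheets c t) :
    D2Nice n L sheets walls c t := by
  obtain ⟨η, hη, hg, hs⟩ := hs
  exact ⟨η, hη, hg, Or.inl hs⟩

theorem D2_nice (h : IsSheetTree n L ε reg sheets walls) {c : ℝ → Y} {t η : ℝ} (hη : 0 < η)
    (hc : IsGeodesicOn c (t - η) (t + η)) : D2Nice n L sheets walls c t := by
  have hcr : IsGeodesicOn c t (t + η) := fun s hs u hu =>
    hc s ⟨by linarith [hs.1], hs.2⟩ u ⟨by linarith [hu.1], hu.2⟩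
  have hcl : IsGeodesicOn (fun s => c (-s)) (-t) (-t + η) := fun s hs u hu => by
    have := hc (-s) ⟨by linarith [hs.2], by linarith [hs.1]⟩ (-u)
      ⟨by linarith [hu.2], by linarith [hu.1]⟩
    simp only [this]
    rw [show -s - -u = -(s - u) by ring, abs_neg]
  obtain ⟨i₁, Λ₁, η₁, hΛ₁, hη₁, hη₁', hr⟩ := h.local_right (by linarith) hcr
  obtain ⟨i₂, Λ₂, η₂, hΛ₂, hη₂, hη₂', hl⟩ := h.local_right (by linarith) hcl
  set η₀ := min η₁ η₂ with hη₀
  have h0 : 0 < η₀ := lt_min hη₁ hη₂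
  have h1 : η₀ ≤ η₁ := min_le_left _ _
  have h2 : η₀ ≤ η₂ := min_le_right _ _
  have hg : IsGeodesicOn (fun s => c (t + s)) (-η₀) η₀ := fun s hs u hu => by
    have := hc (t + s) ⟨by linarith [hs.1], by linarith [hs.2]⟩ (t + u)
      ⟨by linarith [hu.1], by linarith [hu.2]⟩
    simp only [this]
    congr 1; ring
  have hr' : ∀ s ∈ Icc 0 η₀, c (t + s) ∈ range Λ₁ := fun s hs =>
    hr (t + s) ⟨by linarith [hs.1], by linarith [hs.2]⟩
  have hl' : ∀ s ∈ Icc (-η₀) 0, c (t + s) ∈ range Λ₂ := fun s hs => by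
    have := hl (-t - s) ⟨by linarith [hs.2], by linarith [hs.1]⟩
    rwa [show -(-t - s) = t + s by ring] at this
  have ht1 : c t ∈ range Λ₁ := by simpa using hr' 0 ⟨le_rfl, h0.le⟩
  have ht2 : c t ∈ range Λ₂ := by simpa using hl' 0 ⟨by linarith, le_rfl⟩
  refine ⟨η₀, h0, hg, ?_⟩
  rcases eq_or_ne i₁ i₂ with h12 | h12
  · subst h12
    left
    have hre := h.range_eq hΛ₁ hΛ₂ ⟨c t, ht1, ht2⟩
    refine ⟨i₁, Λ₁, hΛ₁, fun s hs => ?_⟩
    rcases le_total s 0 with h3 | h3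
    · rw [hre]; exact hl' s ⟨hs.1, h3⟩
    · exact hr' s ⟨h3, hs.2⟩
  · right
    have h12' : i₁ = !i₂ := by revert h12; cases i₁ <;> cases i₂ <;> simp
    obtain ⟨τ, hτ, hτt⟩ := h.exists_wall_of_mem (i := i₂) (h.sheet_reg _ Λ₂ hΛ₂ ht2)
      (by rw [← h12']; exact h.sheet_reg _ Λ₁ hΛ₁ ht1)
    refine ⟨i₂, i₁, Λ₂, Λ₁, τ, h12', hΛ₂, hΛ₁, hτ, h.wall_subset hΛ₂ hτ ⟨c t, hτt, ht2⟩,
      h.wall_subset hΛ₁ hτ ⟨c t, hτt, ht1⟩, by simpa using hτt, hl', hr'⟩

theorem D2_str_of_mem (h : IsSheetTree n L ε reg sheets walls) {c : ℝ → Y} {a b t : ℝ}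
    (hc : IsGeodesicOn c a b) {i : Bool} {Λ : Hyp (n i) → Y} (hΛ : Λ ∈ sheets i)
    (hr : ∀ s ∈ Icc a b, c s ∈ range Λ) (ht : t ∈ Ioo a b) : D2Str n sheets c t := by
  set η := min (t - a) (b - t) with hη
  have h0 : 0 < η := lt_min (by linarith [ht.1]) (by linarith [ht.2])
  have h1 : η ≤ t - a := min_le_left _ _
  have h2 : η ≤ b - t := min_le_right _ _
  refine ⟨η, h0, fun s hs u hu => ?_, i, Λ, hΛ, fun s hs => hr _ ⟨?_, ?_⟩⟩
  · have := hc (t + s) ⟨by linarith [hs.1], by linarith [hs.2]⟩ (t + u)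
      ⟨by linarith [hu.1], by linarith [hu.2]⟩
    simp only [this]
    congr 1; ring
  · linarith [hs.1]
  · linarith [hs.2]

/-- breaks on the right of `t` are isolated from `t` -/
theorem D2_right_str (h : IsSheetTree n L ε reg sheets walls) {c : ℝ → Y} {t b : ℝ}
    (htb : t < b) (hc : IsGeodesicOn c t b) : ∃ δ > 0, ∀ u ∈ Ioo t (t + δ), D2Str n sheets c u := by
  obtain ⟨i, Λ, η, hΛ, hη, hη', hr⟩ := h.local_right htb hc
  refine ⟨η, hη, fun u hu => h.D2_str_of_mem (fun s hs v hv => hc s ⟨hs.1, hs.2.trans hη'⟩ v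
    ⟨hv.1, hv.2.trans hη'⟩) hΛ hr hu⟩

theorem D2_left_str (h : IsSheetTree n L ε reg sheets walls) {c : ℝ → Y} {t a : ℝ}
    (hta : a < t) (hc : IsGeodesicOn c a t) : ∃ δ > 0, ∀ u ∈ Ioo (t - δ) t, D2Str n sheets c u := by
  have hcl : IsGeodesicOn (fun s => c (-s)) (-t) (-a) := fun s hs u hu => by
    have := hc (-s) ⟨by linarith [hs.2], by linarith [hs.1]⟩ (-u)
      ⟨by linarith [hu.2], by linarith [hu.1]⟩
    simp only [this]
    rw [show -s - -u = -(s - u) by ring, abs_neg]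
  obtain ⟨i, Λ, η, hΛ, hη, hη', hr⟩ := h.local_right (by linarith) hcl
  refine ⟨η, hη, fun u hu => h.D2_str_of_mem (a := t - η) (b := t)
    (fun s hs v hv => hc s ⟨by linarith [hs.1], hs.2⟩ v ⟨by linarith [hv.1], hv.2⟩) hΛ ?_ hu⟩
  intro s hs
  have := hr (-s) ⟨by linarith [hs.2], by linarith [hs.1]⟩
  rwa [neg_neg] at this

theorem D2_finite_breaks (h : IsSheetTree n L ε reg sheets walls) {c : ℝ → Y} {a : ℝ}
    (hc : IsLocalGeodesicOn c 0 a) : {t | t ∈ Icc 0 a ∧ ¬ D2Str n sheets c t}.Finite := by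
  have key : ∀ t ∈ Icc 0 a, ∃ δ > 0, ∀ u ∈ Icc 0 a, u ≠ t → |u - t| < δ → D2Str n sheets c u := by
    intro t ht
    obtain ⟨e, he, hgeo⟩ := hc t ht
    have hr : ∃ δ > 0, ∀ u ∈ Icc 0 a, t < u → |u - t| < δ → D2Str n sheets c u := by
      rcases eq_or_lt_of_le ht.2 with h1 | h1
      · exact ⟨1, one_pos, fun u hu htu _ => absurd hu.2 (by rw [← h1]; exact not_le.2 htu)⟩
      · set b := min a (t + e) with hb
        have hb1 : t < b := lt_min h1 (by linarith)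
        have hb2 : b ≤ a := min_le_left _ _
        have hb3 : b ≤ t + e := min_le_right _ _
        obtain ⟨δ, hδ, hu⟩ := h.D2_right_str hb1 (c := c) (fun s hs v hv =>
          hgeo s ⟨ht.1.trans hs.1, hs.2.trans hb2⟩ v ⟨ht.1.trans hv.1, hv.2.trans hb2⟩
            (by rw [abs_of_nonneg (by linarith [hs.1])]; linarith [hs.2])
            (by rw [abs_of_nonneg (by linarith [hv.1])]; linarith [hv.2]))
        refine ⟨δ, hδ, fun u _ htu hd => hu u ⟨htu, ?_⟩⟩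
        rw [abs_of_pos (by linarith)] at hd
        linarith
    have hl : ∃ δ > 0, ∀ u ∈ Icc 0 a, u < t → |u - t| < δ → D2Str n sheets c u := by
      rcases eq_or_lt_of_le ht.1 with h1 | h1
      · exact ⟨1, one_pos, fun u hu htu _ => absurd hu.1 (by rw [h1]; exact not_le.2 htu)⟩
      · set b := max 0 (t - e) with hb
        have hb1 : b < t := max_lt h1 (by linarith)
        have hb2 : 0 ≤ b := le_max_left _ _
        have hb3 : t - e ≤ b := le_max_right _ _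
        obtain ⟨δ, hδ, hu⟩ := h.D2_left_str hb1 (c := c) (fun s hs v hv =>
          hgeo s ⟨hb2.trans hs.1, hs.2.trans ht.2⟩ v ⟨hb2.trans hv.1, hv.2.trans ht.2⟩
            (by rw [abs_of_nonpos (by linarith [hs.2])]; linarith [hs.1])
            (by rw [abs_of_nonpos (by linarith [hv.2])]; linarith [hv.1]))
        refine ⟨δ, hδ, fun u _ htu hd => hu u ⟨?_, htu⟩⟩
        rw [abs_of_neg (by linarith)] at hd
        linarith
    obtain ⟨δ₁, hδ₁, h1⟩ := hr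
    obtain ⟨δ₂, hδ₂, h2⟩ := hl
    refine ⟨min δ₁ δ₂, lt_min hδ₁ hδ₂, fun u hu hut hd => ?_⟩
    rcases lt_or_gt_of_ne hut with h3 | h3
    · exact h2 u hu h3 (hd.trans_le (min_le_right _ _))
    · exact h1 u hu h3 (hd.trans_le (min_le_left _ _))
  have hind := isCompact_Icc.induction_on (s := Icc (0 : ℝ) a)
    (p := fun s => {t | t ∈ s ∧ t ∈ Icc 0 a ∧ ¬ D2Str n sheets c t}.Finite) (by simp)
    (fun s t hst ht => ht.subset fun x hx => ⟨hst hx.1, hx.2⟩)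
    (fun s t hs ht => (hs.union ht).subset fun x hx => by
      rcases hx.1 with h1 | h1
      · exact Or.inl ⟨h1, hx.2⟩
      · exact Or.inr ⟨h1, hx.2⟩)
    (fun t ht => by
      obtain ⟨δ, hδ, hu⟩ := key t ht
      refine ⟨ball t δ, mem_nhdsWithin_of_mem_nhds (ball_mem_nhds t hδ), ?_⟩
      refine (Set.finite_singleton t).subset ?_
      rintro u ⟨hu1, hu2, hu3⟩
      by_contra hne
      exact hu3 (hu u hu2 hne (by rwa [mem_ball, Real.dist_eq] at hu1)))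
  exact hind.subset fun x hx => ⟨hx.1, hx⟩

/-- convexity in the generic case -/
theorem D2_generic (h : IsSheetTree n L ε reg sheets walls) {c c' : ℝ → Y} {a b : ℝ}
    (ha : 0 ≤ a) (hb : 0 ≤ b) (hc : ContinuousOn c (Icc 0 a)) (hc' : ContinuousOn c' (Icc 0 b))
    (hloc : ∀ l ∈ Ioo (0 : ℝ) 1, (D2Str n sheets c (l * a) ∧ D2Nice n L sheets walls c' (l * b)) ∨
      (D2Nice n L sheets walls c (l * a) ∧ D2Str n sheets c' (l * b))) :
    ∀ l ∈ Icc (0 : ℝ) 1,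
      dist (c (l * a)) (c' (l * b)) ≤ (1 - l) * dist (c 0) (c' 0) + l * dist (c a) (c' b) := by
  have hma : ∀ l ∈ Icc (0 : ℝ) 1, l * a ∈ Icc 0 a := fun l hl =>
    ⟨mul_nonneg hl.1 ha, by nlinarith [hl.2]⟩
  have hmb : ∀ l ∈ Icc (0 : ℝ) 1, l * b ∈ Icc 0 b := fun l hl =>
    ⟨mul_nonneg hl.1 hb, by nlinarith [hl.2]⟩
  have hcont : ContinuousOn (fun l : ℝ => dist (c (l * a)) (c' (l * b))) (Icc 0 1) := by
    have h1 : ContinuousOn (fun l : ℝ => c (l * a)) (Icc 0 1) := hc.comp (by fun_prop) hma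
    have h2 : ContinuousOn (fun l : ℝ => c' (l * b)) (Icc 0 1) := hc'.comp (by fun_prop) hmb
    exact continuous_dist.comp_continuousOn (h1.prodMk h2)
  have hconv : ConvexOn ℝ (Icc (0 : ℝ) 1) (fun l : ℝ => dist (c (l * a)) (c' (l * b))) := by
    refine convex_of_local zero_le_one hcont fun l hl => ?_
    have main : ∀ (d d' : ℝ → Y) (a b : ℝ), 0 ≤ a → 0 ≤ b → D2Nice n L sheets walls d (l * a) →
        D2Str n sheets d' (l * b) → ∃ h₀ > 0, ∀ k ∈ Ioo 0 h₀, dist (d (l * a)) (d' (l * b)) ≤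
        (dist (d ((l - k) * a)) (d' ((l - k) * b)) +
          dist (d ((l + k) * a)) (d' ((l + k) * b))) / 2 := by
      rintro d d' a b ha hb ⟨η, hη, hg, hn⟩ ⟨η', hη', hg', hs⟩
      set η₀ := min η η' with hη₀
      have h0 : 0 < η₀ := lt_min hη hη'
      have h1 : η₀ ≤ η := min_le_left _ _
      have h2 : η₀ ≤ η' := min_le_right _ _
      refine ⟨η₀ / (a + b + 1), by positivity, fun k hk => ?_⟩
      have hk0 : 0 ≤ k := hk.1.le
      have hk1 : k * (a + b + 1) ≤ η₀ := by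
        have := hk.2
        rw [lt_div_iff₀ (by positivity)] at this
        exact this.le
      have hka : k * a ∈ Icc 0 η₀ := ⟨mul_nonneg hk0 ha, by nlinarith⟩
      have hkb : k * b ∈ Icc 0 η₀ := ⟨mul_nonneg hk0 hb, by nlinarith⟩
      have hgm : ∀ {e : ℝ → Y} {η₁ : ℝ}, η₀ ≤ η₁ → IsGeodesicOn e (-η₁) η₁ →
          IsGeodesicOn e (-η₀) η₀ := fun hη₁ he s hs u hu =>
        he s ⟨by linarith [hs.1], by linarith [hs.2]⟩ u ⟨by linarith [hu.1], by linarith [hu.2]⟩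
      have hn' : D2Straight n sheets (fun s => d (l * a + s)) η₀ ∨
          D2Break n L sheets walls (fun s => d (l * a + s)) η₀ :=
        hn.imp (fun hh => hh.mono h1) (fun hh => hh.mono h1)
      have := h.D2_LC h0 (hgm h1 hg) (hgm h2 hg') hn' (hs.mono h2) hka hkb
      simp only [add_zero] at this
      rw [show (l - k) * a = l * a + -(k * a) by ring, show (l - k) * b = l * b + -(k * b) by ring,
        show (l + k) * a = l * a + k * a by ring, show (l + k) * b = l * b + k * b by ring]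
      exact this
    rcases hloc l hl with ⟨h1, h2⟩ | ⟨h1, h2⟩
    · obtain ⟨h₀, hh₀, hk⟩ := main c' c b a hb ha h2 h1
      refine ⟨h₀, hh₀, fun k hk' => ?_⟩
      have := hk k hk'
      simp only [dist_comm (c' _)] at this
      exact this
    · exact main c c' a b ha hb h1 h2
  intro l hl
  have h0 : (0 : ℝ) ∈ Icc (0 : ℝ) 1 := ⟨le_rfl, zero_le_one⟩
  have h1 : (1 : ℝ) ∈ Icc (0 : ℝ) 1 := ⟨zero_le_one, le_rfl⟩
  have h2 : 0 ≤ 1 - l := by linarith [hl.2]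
  have := hconv.2 h0 h1 h2 hl.1 (by ring)
  simpa using this

theorem D2_continuousOn {c : ℝ → Y} {a b : ℝ} (hc : IsLocalGeodesicOn c a b) :
    ContinuousOn c (Icc a b) := by
  intro t ht
  obtain ⟨e, he, hg⟩ := hc t ht
  rw [Metric.continuousWithinAt_iff]
  intro δ hδ
  refine ⟨min δ e, lt_min hδ he, fun {u} hu hut => ?_⟩
  rw [Real.dist_eq] at hut
  rw [hg u hu t ht (hut.le.trans (min_le_right _ _)) (by simp [he.le])]
  exact hut.trans_le (min_le_left _ _)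

theorem D2_nice_of_local (h : IsSheetTree n L ε reg sheets walls) {c : ℝ → Y} {a t : ℝ}
    (hc : IsLocalGeodesicOn c 0 a) (ht : t ∈ Ioo 0 a) : D2Nice n L sheets walls c t := by
  obtain ⟨e, he, hg⟩ := hc t ⟨ht.1.le, ht.2.le⟩
  set η := min e (min t (a - t)) with hη
  have h0 : 0 < η := lt_min he (lt_min ht.1 (by linarith [ht.2]))
  have h1 : η ≤ e := min_le_left _ _
  have h2 : η ≤ t := (min_le_right _ _).trans (min_le_left _ _)
  have h3 : η ≤ a - t := (min_le_right _ _).trans (min_le_right _ _)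
  refine h.D2_nice h0 fun s hs u hu => hg s ⟨by linarith [hs.1], by linarith [hs.2]⟩ u
    ⟨by linarith [hu.1], by linarith [hu.2]⟩ ?_ ?_
  · rw [abs_le]; constructor <;> linarith [hs.1, hs.2]
  · rw [abs_le]; constructor <;> linarith [hu.1, hu.2]

/-- a straight line through a given point, used to replace constant paths -/
theorem D2_exists_straight (h : IsSheetTree n L ε reg sheets walls) (y : Y) :
    ∃ c : ℝ → Y, c 0 = y ∧ Continuous c ∧ D2Str n sheets c 0 := by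
  obtain ⟨i, hi⟩ : ∃ i, y ∈ reg i := by
    rcases h.reg_cover y with h1 | h1
    exacts [⟨_, h1⟩, ⟨_, h1⟩]
  obtain ⟨Λ, hΛ, x, hx⟩ := h.sheet_exists i y hi
  obtain ⟨g, hg, hg0, -⟩ := (hyp_hypLike (h.n_pos i)).line x x
  have hiso := h.sheet_isometry i Λ hΛ
  refine ⟨fun s => Λ (g s), by show Λ (g 0) = y; rw [hg0, hx], hiso.continuous.comp hg.continuous, 1, one_pos,
    fun s _ t _ => ?_, i, Λ, hΛ, fun s _ => ⟨_, rfl⟩⟩
  rw [hiso.dist_eq, hg.dist_eq, Real.dist_eq]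
  congr 1; ring

/-- Main result of this part. -/
theorem busemannConvex (h : IsSheetTree n L ε reg sheets walls) : IsBusemannConvex Y := by
  intro c c' a b ha hb hc hc' l hl
  rcases eq_or_lt_of_le ha with ha0 | ha0
  · -- `c` is a point
    subst ha0
    obtain ⟨d, hd0, hdc, hds⟩ := h.D2_exists_straight (c 0)
    rcases eq_or_lt_of_le hb with hb0 | hb0
    · subst hb0
      simp only [mul_zero]
      linarith
    · have := h.D2_generic le_rfl hb (c := d) (c' := c') hdc.continuousOn (D2_continuousOn hc')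
        (fun l hl => Or.inl ⟨by rw [mul_zero]; exact hds, h.D2_nice_of_local hc'
          ⟨mul_pos hl.1 hb0, by nlinarith [hl.2]⟩⟩) l hl
      simpa [hd0] using this
  rcases eq_or_lt_of_le hb with hb0 | hb0
  · subst hb0
    obtain ⟨d, hd0, hdc, hds⟩ := h.D2_exists_straight (c' 0)
    have := h.D2_generic ha le_rfl (c := c) (c' := d) (D2_continuousOn hc) hdc.continuousOn
      (fun l hl => Or.inr ⟨h.D2_nice_of_local hc ⟨mul_pos hl.1 ha0, by nlinarith [hl.2]⟩,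
        by rw [mul_zero]; exact hds⟩) l hl
    simpa [hd0] using this
  -- the main case: shift `c'`
  set B := {t | t ∈ Icc 0 a ∧ ¬ D2Str n sheets c t} with hB
  set B' := {t | t ∈ Icc 0 b ∧ ¬ D2Str n sheets c' t} with hB'
  have hBf : B.Finite := h.D2_finite_breaks hc
  have hBf' : B'.Finite := h.D2_finite_breaks hc'
  set F : Set ℝ := (fun p : ℝ × ℝ => p.2 - p.1 * b / a) '' (B ×ˢ B') with hF
  have hFf : F.Finite := (hBf.prod hBf').image _
  have hcc := D2_continuousOn hc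
  have hcc' := D2_continuousOn hc'
  -- convexity of the shifted function
  have hshift : ∀ δ ∈ Ioo 0 b, δ ∉ F →
      dist (c (l * (a * (1 - δ / b)))) (c' (l * (b - δ) + δ)) ≤
        (1 - l) * dist (c 0) (c' δ) + l * dist (c (a * (1 - δ / b))) (c' b) := by
    intro δ hδ hδF
    have hq1 : 0 < 1 - δ / b := by
      rw [sub_pos, div_lt_one hb0]; exact hδ.2
    have hq2 : 1 - δ / b < 1 := by
      have : 0 < δ / b := div_pos hδ.1 hb0
      linarith
    have haδ : 0 < a * (1 - δ / b) := mul_pos ha0 hq1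
    have haδ' : a * (1 - δ / b) < a := by nlinarith
    have hcd : ContinuousOn (fun s => c' (s + δ)) (Icc 0 (b - δ)) := by
      refine hcc'.comp (by fun_prop) fun s hs => ?_
      exact ⟨by linarith [hs.1, hδ.1], by linarith [hs.2]⟩
    have hshiftStr : ∀ u : ℝ, D2Str n sheets c' (u + δ) →
        D2Str n sheets (fun s => c' (s + δ)) u := by
      rintro u ⟨η, hη, hg, hs⟩
      have e : (fun s => c' (u + δ + s)) = fun s => c' (u + s + δ) := by
        funext s; congr 1; ring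
      rw [e] at hg hs
      exact ⟨η, hη, hg, hs⟩
    have hshiftNice : ∀ u : ℝ, D2Nice n L sheets walls c' (u + δ) →
        D2Nice n L sheets walls (fun s => c' (s + δ)) u := by
      rintro u ⟨η, hη, hg, hs⟩
      have e : (fun s => c' (u + δ + s)) = fun s => c' (u + s + δ) := by
        funext s; congr 1; ring
      rw [e] at hg hs
      exact ⟨η, hη, hg, hs⟩
    have := h.D2_generic (c := c) (c' := fun s => c' (s + δ)) haδ.le (by linarith [hδ.2])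
      (hcc.mono (Icc_subset_Icc le_rfl haδ'.le)) hcd (fun k hk => by
        have hk1 : k * (a * (1 - δ / b)) ∈ Ioo 0 a :=
          ⟨mul_pos hk.1 haδ, by nlinarith [hk.2, hk.1]⟩
        have hk2 : k * (b - δ) + δ ∈ Ioo 0 b := by
          have h1 : 0 < b - δ := by linarith [hδ.2]
          exact ⟨by nlinarith [hk.1, hδ.1], by nlinarith [hk.2]⟩
        have hN := h.D2_nice_of_local hc hk1
        have hN' := hshiftNice _ (h.D2_nice_of_local hc' hk2)
        by_cases hS : D2Str n sheets c (k * (a * (1 - δ / b)))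
        · exact Or.inl ⟨hS, hN'⟩
        · right
          refine ⟨hN, hshiftStr _ ?_⟩
          by_contra hS'
          apply hδF
          refine ⟨(k * (a * (1 - δ / b)), k * (b - δ) + δ), ⟨⟨⟨hk1.1.le, hk1.2.le⟩, hS⟩,
            ⟨⟨hk2.1.le, hk2.2.le⟩, hS'⟩⟩, ?_⟩
          simp only
          field_simp
          ring) l hl
    simpa using this
  -- let `δ → 0+`
  have hev : ∀ᶠ δ in 𝓝[>] (0 : ℝ), dist (c (l * (a * (1 - δ / b)))) (c' (l * (b - δ) + δ)) ≤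
        (1 - l) * dist (c 0) (c' δ) + l * dist (c (a * (1 - δ / b))) (c' b) := by
    have h1 : ∀ᶠ δ in 𝓝[>] (0 : ℝ), δ ∈ Ioo 0 b := Ioo_mem_nhdsGT hb0
    have h2 : ∀ᶠ δ in 𝓝[>] (0 : ℝ), δ ∉ F \ {0} := by
      have : (F \ {0})ᶜ ∈ 𝓝 (0 : ℝ) :=
        ((hFf.subset sdiff_subset).isClosed.isOpen_compl).mem_nhds (by simp)
      exact mem_nhdsWithin_of_mem_nhds this
    filter_upwards [h1, h2] with δ hδ1 hδ2
    refine hshift δ hδ1 fun hh => hδ2 ⟨hh, ?_⟩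
    simp only [mem_singleton_iff]
    exact hδ1.1.ne'
  have hIoo : ∀ᶠ δ in 𝓝[>] (0 : ℝ), δ ∈ Ioo 0 b := Ioo_mem_nhdsGT hb0
  -- limits
  have hlim : ∀ {d : ℝ → Y} {A : ℝ} (_ : ContinuousOn d (Icc 0 A)) {u : ℝ → ℝ} {u₀ : ℝ}
      (_ : Continuous u) (_ : u 0 = u₀) (_ : u₀ ∈ Icc 0 A)
      (_ : ∀ᶠ δ in 𝓝[>] (0 : ℝ), u δ ∈ Icc 0 A),
      Tendsto (fun δ => d (u δ)) (𝓝[>] 0) (𝓝 (d u₀)) := by
    intro d A hd u u₀ hu hu0 hmem hmem'
    have h1 : Tendsto d (𝓝[Icc 0 A] u₀) (𝓝 (d u₀)) := hd u₀ hmem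
    refine h1.comp ?_
    rw [tendsto_nhdsWithin_iff]
    refine ⟨?_, hmem'⟩
    rw [← hu0]
    exact (hu.tendsto 0).mono_left nhdsWithin_le_nhds
  have hla : l * a ∈ Icc 0 a := ⟨mul_nonneg hl.1 ha, by nlinarith [hl.2]⟩
  have hlb : l * b ∈ Icc 0 b := ⟨mul_nonneg hl.1 hb, by nlinarith [hl.2]⟩
  have hq : ∀ δ ∈ Ioo 0 b, 0 ≤ 1 - δ / b ∧ 1 - δ / b ≤ 1 := fun δ hδ => by
    have h1 : δ / b ≤ 1 := (div_le_one hb0).2 hδ.2.le
    have h2 : 0 ≤ δ / b := div_nonneg hδ.1.le hb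
    constructor <;> linarith
  have L1 : Tendsto (fun δ => c (l * (a * (1 - δ / b)))) (𝓝[>] 0) (𝓝 (c (l * a))) :=
    hlim hcc (u := fun δ => l * (a * (1 - δ / b))) (by fun_prop) (by simp) hla (by
      filter_upwards [hIoo] with δ hδ
      obtain ⟨h1, h2⟩ := hq δ hδ
      refine ⟨mul_nonneg hl.1 (mul_nonneg ha h1), ?_⟩
      have : a * (1 - δ / b) ≤ a := by nlinarith
      have : l * (a * (1 - δ / b)) ≤ 1 * a :=
        mul_le_mul hl.2 this (mul_nonneg ha h1) zero_le_one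
      linarith)
  have L2 : Tendsto (fun δ => c' (l * (b - δ) + δ)) (𝓝[>] 0) (𝓝 (c' (l * b))) :=
    hlim hcc' (u := fun δ => l * (b - δ) + δ) (by fun_prop) (by simp) hlb (by
      filter_upwards [hIoo] with δ hδ
      have h1 : 0 < b - δ := by linarith [hδ.2]
      refine ⟨by nlinarith [hl.1, hδ.1], by nlinarith [hl.2]⟩)
  have L3 : Tendsto (fun δ => c' δ) (𝓝[>] 0) (𝓝 (c' 0)) :=
    hlim hcc' (u := fun δ => δ) (by fun_prop) rfl ⟨le_rfl, hb⟩ (by
      filter_upwards [hIoo] with δ hδ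
      exact ⟨hδ.1.le, hδ.2.le⟩)
  have L4 : Tendsto (fun δ => c (a * (1 - δ / b))) (𝓝[>] 0) (𝓝 (c a)) :=
    hlim hcc (u := fun δ => a * (1 - δ / b)) (by fun_prop) (by simp) ⟨ha, le_rfl⟩ (by
      filter_upwards [hIoo] with δ hδ
      obtain ⟨h1, h2⟩ := hq δ hδ
      exact ⟨mul_nonneg ha h1, by nlinarith⟩)
  refine le_of_tendsto_of_tendsto (L1.dist L2) ?_ hev
  exact ((tendsto_const_nhds.dist L3).const_mul _).add ((L4.dist tendsto_const_nhds).const_mul _)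

end IsSheetTree

end MP4a77c6
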