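import Pool.Agent.Lib.MP_4a77c6_an.Hyp

open Set Metric MeasureTheory Filter Topology
open scoped ENNReal NNReal

namespace MP4a77c6

/-! ## Geodesics -/

section Geodesics

variable {X : Type*} [MetricSpace X]

/-- `c` restricted to `[a,b]` is a geodesic parametrised by arc length. -/
def IsGeodesicOn (c : ℝ → X) (a b : ℝ) : Prop :=
  ∀ s ∈ Icc a b, ∀ t ∈ Icc a b, dist (c s) (c t) = |s - t|

/-- `X` is a geodesic space: any two points are joined by a geodesic. -/
def IsGeodesicSpace (X : Type*) [MetricSpace X] : Prop :=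
  ∀ x y : X, ∃ c : ℝ → X, IsGeodesicOn c 0 (dist x y) ∧ c 0 = x ∧ c (dist x y) = y

/-- `c : ℝ → X` is a local geodesic parametrised by arc length. -/
def IsLocalGeodesic (c : ℝ → X) : Prop :=
  ∀ t, ∃ ε > 0, IsGeodesicOn c (t - ε) (t + ε)

/-- `f` preserves distances near every point of the source. -/
def IsLocalIsometry {E B : Type*} [MetricSpace E] [MetricSpace B] (f : E → B) : Prop :=
  ∀ e, ∃ r > 0, ∀ a ∈ ball e r, ∀ b ∈ ball e r, dist (f a) (f b) = dist a b

lemma IsLocalGeodesic.shift {c : ℝ → X} (hc : IsLocalGeodesic c) (t : ℝ) :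
    IsLocalGeodesic (fun s => c (s + t)) := by
  intro s
  obtain ⟨ε, hε, h⟩ := hc (s + t)
  refine ⟨ε, hε, fun u hu v hv => ?_⟩
  rw [h (u + t) ⟨by linarith [hu.1], by linarith [hu.2]⟩ (v + t)
    ⟨by linarith [hv.1], by linarith [hv.2]⟩]
  congr 1; ring

end Geodesics

/-- The space `GX` of all local geodesics `c : ℝ → X` parametrised by arc length. -/
def GeodSpace (X : Type*) [MetricSpace X] : Type _ := {c : ℝ → X // IsLocalGeodesic c}

section GeodSpace

variable {X : Type*} [MetricSpace X]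

/-- The geodesic flow `(g_t c)(s) = c (s + t)`. -/
def GeodSpace.flow (t : ℝ) (c : GeodSpace X) : GeodSpace X :=
  ⟨fun s => c.1 (s + t), c.2.shift t⟩

/-- The metric `∫ d(c s, c' s) e^{-2|s|} ds` of `GX`. -/
noncomputable def GeodSpace.gdist (c c' : GeodSpace X) : ℝ :=
  ∫ s : ℝ, dist (c.1 s) (c'.1 s) * Real.exp (-2 * |s|)

/-- The `σ`-algebra of `GX` generated by the evaluation maps `c ↦ c t` (for compact `X`, and more
generally for separable `X`, this is the Borel `σ`-algebra of the topology of uniform convergence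
on compact sets). -/
instance GeodSpace.instMeasurableSpace : MeasurableSpace (GeodSpace X) :=
  ⨆ t : ℝ, MeasurableSpace.comap (fun c : GeodSpace X => c.1 t) (borel X)

/-- `A` bounds `|f|` and `B` is an `α`-Hölder constant of `f` on `GX`. -/
def IsHolderWith (α A B : ℝ) (f : GeodSpace X → ℝ) : Prop :=
  (∀ c, |f c| ≤ A) ∧ ∀ c c', |f c - f c'| ≤ B * (GeodSpace.gdist c c') ^ α

/-- Exponential decay of correlations of the geodesic flow for Hölder observables. -/
def HasExpDecay (m : Measure (GeodSpace X)) : Prop :=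
  ∃ α : ℝ, 0 < α ∧ α ≤ 1 ∧ ∃ C > 0, ∃ κ > 0, ∀ (f h : GeodSpace X → ℝ) (A B A' B' : ℝ),
    IsHolderWith α A B f → IsHolderWith α A' B' h → ∀ t : ℝ, 0 ≤ t →
      |∫ c, f (c.flow t) * h c ∂m - (∫ c, f c ∂m) * ∫ c, h c ∂m| ≤
        C * (A + B) * (A' + B') * Real.exp (-κ * t)

end GeodSpace

/-! ## Hyperbolic manifolds, gluing, universal covers -/

/-- `M` is a compact connected hyperbolic manifold of dimension `n` with its Riemannian (length)
metric, i.e. a compact geodesic space with a locally isometric covering by `H^n`. -/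
structure IsHyperbolicManifold (n : ℕ) (M : Type*) [MetricSpace M] : Prop where
  compact : CompactSpace M
  geodesic : IsGeodesicSpace M
  covering : ∃ P : Hyp n → M, IsCoveringMap P ∧ Function.Surjective P ∧ IsLocalIsometry P

/-- `X` (with the maps `j₁ : M₁ → X`, `j₂ : M₂ → X`) is the quotient of `M₁ ⊔ M₂` obtained by
identifying `σ₁ s` with `σ₂ s` for `0 ≤ s ≤ L`, with the induced length metric. -/
structure IsGluing {M₁ M₂ X : Type*} [MetricSpace M₁] [MetricSpace M₂] [MetricSpace X]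
    (L : ℝ) (σ₁ : ℝ → M₁) (σ₂ : ℝ → M₂) (j₁ : M₁ → X) (j₂ : M₂ → X) : Prop where
  isometry_left : Isometry j₁
  isometry_right : Isometry j₂
  cover : ∀ x, x ∈ range j₁ ∨ x ∈ range j₂
  glue : ∀ s ∈ Icc 0 L, j₁ (σ₁ s) = j₂ (σ₂ s)
  dist_eq : ∀ a b, dist (j₁ a) (j₂ b) = ⨅ s : Icc (0 : ℝ) L, (dist a (σ₁ s) + dist (σ₂ s) b)

/-- `π : Y → X` is a universal covering of the metric space `X`, `Y` being endowed with the length
metric for which `π` is a local isometry. -/
structure IsUniversalCover {Y X : Type*} [MetricSpace Y] [MetricSpace X] (π : Y → X) : Prop where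
  geodesic : IsGeodesicSpace Y
  simplyConnected : SimplyConnectedSpace Y
  covering : IsCoveringMap π
  surjective : Function.Surjective π
  localIsometry : IsLocalIsometry π

/-- The group of deck transformations of `π`. -/
def Deck {Y X : Type*} [MetricSpace Y] (π : Y → X) : Subgroup (Y ≃ᵢ Y) where
  carrier := {γ | ∀ y, π (γ y) = π y}
  mul_mem' := by
    intro a b ha hb y
    exact (ha (b y)).trans (hb y)
  one_mem' := fun y => rfl
  inv_mem' := by
    intro a ha y
    exact (ha (a⁻¹ y)).symm.trans (congrArg π (a.apply_symm_apply y))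

/-! ## The boundary at infinity -/

section Boundary

variable {Y : Type*} [MetricSpace Y]

/-- Geodesic rays. -/
def Ray (Y : Type*) [MetricSpace Y] : Type _ := {ρ : ℝ≥0 → Y // Isometry ρ}

/-- Two rays are asymptotic if they stay at bounded distance. -/
instance raySetoid (Y : Type*) [MetricSpace Y] : Setoid (Ray Y) where
  r ρ ρ' := ∃ C : ℝ, ∀ t, dist (ρ.1 t) (ρ'.1 t) ≤ C
  iseqv := by
    refine ⟨fun ρ => ⟨0, fun t => by simp⟩, fun ⟨C, h⟩ => ⟨C, fun t => by rw [dist_comm]; exact h t⟩,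
      fun ⟨C, h⟩ ⟨D, h'⟩ => ⟨C + D, fun t => ?_⟩⟩
    exact (dist_triangle _ _ _).trans (add_le_add (h t) (h' t))

/-- The boundary at infinity `∂Y`: asymptoty classes of geodesic rays. -/
def Bd (Y : Type*) [MetricSpace Y] : Type _ := Quotient (raySetoid Y)

/-- The point at infinity of a ray. -/
def Ray.bd (ρ : Ray Y) : Bd Y := Quotient.mk _ ρ

open Classical in
/-- The geodesic ray from `y` to the boundary point `ξ`. -/
noncomputable def rayFrom (y : Y) (ξ : Bd Y) : ℝ≥0 → Y :=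
  if h : ∃ ρ : Ray Y, ρ.1 0 = y ∧ ρ.bd = ξ then (Classical.choose h).1 else fun _ => y

/-- The `σ`-algebra of `∂Y` generated by the maps `ξ ↦ (ray from y to ξ) (t)`, i.e. the Borel
`σ`-algebra of the cone topology. -/
noncomputable instance Bd.instMeasurableSpace : MeasurableSpace (Bd Y) :=
  ⨆ p : Y × ℝ≥0, MeasurableSpace.comap (fun ξ => rayFrom p.1 ξ p.2) (borel Y)

/-- The Busemann function `β_ξ(x,y) = lim_t d(x, ρ(t)) - t`, `ρ` the ray from `y` to `ξ`. -/
noncomputable def busemann (ξ : Bd Y) (x y : Y) : ℝ :=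
  limUnder atTop (fun t : ℝ≥0 => dist x (rayFrom y ξ t) - t)

/-- The image of a ray under an isometry. -/
def Ray.map (γ : Y ≃ᵢ Y) (ρ : Ray Y) : Ray Y := ⟨fun t => γ (ρ.1 t), γ.isometry.comp ρ.2⟩

/-- The action of an isometry on the boundary. -/
def Bd.map (γ : Y ≃ᵢ Y) : Bd Y → Bd Y :=
  Quotient.map (Ray.map γ) (by
    rintro ρ ρ' ⟨C, h⟩
    exact ⟨C, fun t => by simpa [Ray.map, γ.isometry.dist_eq] using h t⟩)

/-- `c` is a geodesic line of `Y` going from `ξ = c(-∞)` to `η = c(+∞)`. -/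
def GeodSpace.EndsAt (c : GeodSpace Y) (ξ η : Bd Y) : Prop :=
  (∃ ρ : Ray Y, ρ.bd = ξ ∧ ∀ t : ℝ≥0, ρ.1 t = c.1 (-t)) ∧
    ∃ ρ : Ray Y, ρ.bd = η ∧ ∀ t : ℝ≥0, ρ.1 t = c.1 t

/-- The Gromov product `(ξ|η)_x` of the end points of the line `c`, seen from `x`:
`½ lim (d(x, c(-t)) + d(x, c(t)) - d(c(-t), c(t)))`. -/
noncomputable def gromovProd (x : Y) (c : GeodSpace Y) : ℝ :=
  limUnder atTop (fun t : ℝ => (dist x (c.1 (-t)) + dist x (c.1 t) - 2 * t) / 2)

end Boundary

/-! ## Patterson–Sullivan and Bowen–Margulis measures -/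

/-- `μ` is a conformal density of dimension `h` on `∂Y`, invariant under the deck group of `π`
(the Patterson–Sullivan measures form such a density, with `h` the critical exponent). -/
structure IsConformalDensity {Y X : Type*} [MetricSpace Y] (π : Y → X)
    (h : ℝ) (μ : Y → Measure (Bd Y)) : Prop where
  finite : ∀ y, IsFiniteMeasure (μ y)
  ne_zero : ∀ y, μ y ≠ 0
  equivariant : ∀ γ ∈ Deck π, ∀ y, (μ y).map (Bd.map γ) = μ (γ y)
  conformal : ∀ x y, μ x =
    (μ y).withDensity (fun ξ => ENNReal.ofReal (Real.exp (-h * busemann ξ x y)))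

open Classical in
/-- `m` is the Bowen–Margulis measure of `GX`: the probability measure which is, up to a factor
`Z⁻¹`, the quotient by the deck group of the measure `e^{2h(ξ|η)} dμ(ξ) dμ(η) dt` of `GY`. Here
`line ξ η` is a geodesic line from `ξ` to `η`, parametrised by `t ↦ g_t (line ξ η)`, and the
quotient measure is characterised by the formula
`∫_{GX} (∑ of Ψ over the lifts of c) dm(c) = Z⁻¹ ∫_{GY} Ψ`. -/
structure IsBowenMargulis {Y X : Type*} [MetricSpace Y] [MetricSpace X] (π : Y → X)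
    (h : ℝ) (μ : Y → Measure (Bd Y)) (x₀ : Y) (m : Measure (GeodSpace X)) : Prop where
  prob : IsProbabilityMeasure m
  formula : ∃ (line : Bd Y → Bd Y → GeodSpace Y) (Z : ℝ≥0∞), Z ≠ 0 ∧ Z ≠ ⊤ ∧
    (∀ ξ η, ξ ≠ η → (line ξ η).EndsAt ξ η) ∧
    ∀ Ψ : GeodSpace Y → ℝ≥0∞, Measurable Ψ →
      ∫⁻ c, (∑' c' : {c' : GeodSpace Y // ∀ t, π (c'.1 t) = c.1 t}, Ψ c'.1) ∂m =
      Z⁻¹ * ∫⁻ ξ, ∫⁻ η, (if ξ = η then 0 else
        ENNReal.ofReal (Real.exp (2 * h * gromovProd x₀ (line ξ η))) *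
          ∫⁻ t : ℝ, Ψ ((line ξ η).flow t)) ∂(μ x₀) ∂(μ x₀)

end MP4a77c6
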