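import Pool.Agent.Lib.MP_4a77c6_an.Iface

open Set Metric MeasureTheory Filter Topology
open scoped ENNReal NNReal

namespace MP4a77c6

/-! Task E1: geodesics, rays and the boundary of a proper Busemann convex space. -/

variable {Y : Type*} [MetricSpace Y]

theorem IsGeodesicOn.isLocalGeodesicOn {c : ℝ → Y} {a b : ℝ} (hc : IsGeodesicOn c a b) :
    IsLocalGeodesicOn c a b := by
  intro t _
  exact ⟨1, one_pos, fun s hs s' hs' _ _ => hc s hs s' hs'⟩

theorem geo_spec (hG : IsGeodesicSpace Y) (x y : Y) :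
    IsGeodesicOn (geo x y) 0 (dist x y) ∧ geo x y 0 = x ∧ geo x y (dist x y) = y := by
  unfold geo
  rw [dif_pos (hG x y)]
  exact Classical.choose_spec (hG x y)

private lemma E1_shift {c : ℝ → Y} {a b s t : ℝ} (hc : IsLocalGeodesicOn c a b)
    (hs : s ∈ Icc a b) (ht : t ∈ Icc a b) :
    IsLocalGeodesicOn (fun u => c (s + u)) 0 (t - s) := by
  intro u hu
  have hmem : ∀ v ∈ Icc 0 (t - s), s + v ∈ Icc a b := fun v hv =>
    ⟨by linarith [hs.1, hv.1], by linarith [hv.2, ht.2]⟩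
  obtain ⟨ε, hε, h⟩ := hc (s + u) (hmem u hu)
  refine ⟨ε, hε, fun v hv v' hv' h1 h2 => ?_⟩
  have := h (s + v) (hmem v hv) (s + v') (hmem v' hv') (by convert h1 using 2; ring)
    (by convert h2 using 2; ring)
  simpa using this

private lemma E1_shiftG {c : ℝ → Y} {a b s t : ℝ} (hc : IsGeodesicOn c a b)
    (hs : s ∈ Icc a b) (ht : t ∈ Icc a b) :
    IsGeodesicOn (fun u => c (s + u)) 0 (t - s) := by
  intro u hu v hv
  have hmem : ∀ v ∈ Icc 0 (t - s), s + v ∈ Icc a b := fun v hv =>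
    ⟨by linarith [hs.1, hv.1], by linarith [hv.2, ht.2]⟩
  have := hc _ (hmem u hu) _ (hmem v hv)
  simpa using this

private lemma E1_mono {c : ℝ → Y} {a b a' b' : ℝ} (hc : IsGeodesicOn c a b)
    (ha : a ≤ a') (hb : b' ≤ b) : IsGeodesicOn c a' b' :=
  fun s hs t ht => hc s ⟨ha.trans hs.1, hs.2.trans hb⟩ t ⟨ha.trans ht.1, ht.2.trans hb⟩

/-- convexity for geodesics with the same origin -/
private lemma E1_bc0 (hB : IsBusemannConvex Y) {c c' : ℝ → Y} {v t : ℝ}
    (hc : IsGeodesicOn c 0 v) (hc' : IsGeodesicOn c' 0 v) (h0 : c 0 = c' 0)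
    (ht : 0 ≤ t) (htv : t ≤ v) (hv : 0 < v) :
    dist (c t) (c' t) ≤ t / v * dist (c v) (c' v) := by
  have := hB c c' v v hv.le hv.le hc.isLocalGeodesicOn hc'.isLocalGeodesicOn (t / v)
    ⟨by positivity, (div_le_one hv).2 htv⟩
  rw [div_mul_cancel₀ _ hv.ne', h0, dist_self, mul_zero, zero_add] at this
  exact this

private lemma E1_local (hG : IsGeodesicSpace Y) (hB : IsBusemannConvex Y)
    {c : ℝ → Y} {a b : ℝ} (hc : IsLocalGeodesicOn c a b) {s t : ℝ}
    (hs : s ∈ Icc a b) (ht : t ∈ Icc a b) (hst : s ≤ t) : dist (c s) (c t) = t - s := by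
  rcases hst.eq_or_lt with rfl | hlt
  · simp
  obtain ⟨g1, g2, g3⟩ := geo_spec hG (c s) (c t)
  set d := dist (c s) (c t) with hd
  obtain ⟨ε, hε, hloc⟩ := hc s hs
  have hts : 0 < t - s := sub_pos.2 hlt
  set l := min 1 (ε / (t - s)) with hl
  have hl0 : 0 < l := lt_min one_pos (by positivity)
  have hl1 : l ≤ 1 := min_le_left _ _
  have hle : l * (t - s) ≤ ε := by
    have : l ≤ ε / (t - s) := min_le_right _ _
    calc l * (t - s) ≤ ε / (t - s) * (t - s) := by gcongr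
      _ = ε := div_mul_cancel₀ _ hts.ne'
  have hbc := hB (fun u => c (s + u)) (geo (c s) (c t)) (t - s) d hts.le dist_nonneg
    (E1_shift hc hs ht) g1.isLocalGeodesicOn l ⟨hl0.le, hl1⟩
  simp only [add_zero, add_sub_cancel, g2, g3, dist_self, mul_zero] at hbc
  have heq : c (s + l * (t - s)) = geo (c s) (c t) (l * d) :=
    dist_eq_zero.1 (le_antisymm hbc dist_nonneg)
  have hlts : l * (t - s) ≤ t - s := by
    nlinarith
  have hlts0 : 0 ≤ l * (t - s) := by positivity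
  have h1 : dist (c s) (c (s + l * (t - s))) = l * (t - s) := by
    have := hloc s hs (s + l * (t - s)) ⟨by linarith [hs.1], by linarith [ht.2]⟩
      (by simp [hε.le]) (by rw [add_sub_cancel_left, abs_of_nonneg hlts0]; exact hle)
    rw [this]
    rw [sub_add_cancel_left, abs_neg, abs_of_nonneg hlts0]
  have h2 : dist (c s) (geo (c s) (c t) (l * d)) = l * d := by
    have hd0 : 0 ≤ d := dist_nonneg
    have := g1 0 ⟨le_rfl, hd0⟩ (l * d) ⟨by positivity, by nlinarith⟩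
    rw [g2] at this
    rw [this, zero_sub, abs_neg, abs_of_nonneg (by positivity)]
  rw [heq, h2] at h1
  exact mul_left_cancel₀ hl0.ne' h1

theorem IsBusemannConvex.isGeodesicOn (hG : IsGeodesicSpace Y) (hB : IsBusemannConvex Y)
    {c : ℝ → Y} {a b : ℝ} (hab : a ≤ b) (hc : IsLocalGeodesicOn c a b) : IsGeodesicOn c a b := by
  intro s hs t ht
  rcases le_total s t with h | h
  · rw [E1_local hG hB hc hs ht h, abs_sub_comm, abs_of_nonneg (sub_nonneg.2 h)]
  · rw [dist_comm, E1_local hG hB hc ht hs h, abs_of_nonneg (sub_nonneg.2 h)]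

theorem IsBusemannConvex.geod_unique (hB : IsBusemannConvex Y)
    {c c' : ℝ → Y} {a b : ℝ} (hc : IsGeodesicOn c a b) (hc' : IsGeodesicOn c' a b)
    (ha : c a = c' a) (hb : c b = c' b) : ∀ s ∈ Icc a b, c s = c' s := by
  intro s hs
  rcases (hs.1.trans hs.2).eq_or_lt with h | hlt
  · have : s = a := le_antisymm (by rw [h]; exact hs.2) hs.1
    rw [this, ha]
  have hm : ∀ {x}, x = a ∨ x = b → x ∈ Icc a b := by
    rintro x (rfl | rfl)
    · exact ⟨le_rfl, hlt.le⟩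
    · exact ⟨hlt.le, le_rfl⟩
  have := E1_bc0 hB (E1_shiftG hc (hm (Or.inl rfl)) (hm (Or.inr rfl)))
    (E1_shiftG hc' (hm (Or.inl rfl)) (hm (Or.inr rfl))) (by simpa using ha)
    (sub_nonneg.2 hs.1) (by linarith [hs.2]) (sub_pos.2 hlt)
  simp only [add_sub_cancel, hb, dist_self, mul_zero] at this
  exact dist_eq_zero.1 (le_antisymm this dist_nonneg)

theorem IsBusemannConvex.geo_eq (hG : IsGeodesicSpace Y) (hB : IsBusemannConvex Y)
    {c : ℝ → Y} {a : ℝ} (ha : 0 ≤ a) (hc : IsGeodesicOn c 0 a) :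
    ∀ s ∈ Icc 0 a, geo (c 0) (c a) s = c s := by
  have hd : dist (c 0) (c a) = a := by
    rw [hc 0 ⟨le_rfl, ha⟩ a ⟨ha, le_rfl⟩, zero_sub, abs_neg, abs_of_nonneg ha]
  obtain ⟨g1, g2, g3⟩ := geo_spec hG (c 0) (c a)
  rw [hd] at g1 g3
  exact hB.geod_unique g1 hc g2 g3

/-- concatenation of two geodesics whose ends are at the right distance -/
private lemma E1_join {c c' : ℝ → Y} {a b : ℝ} (ha : 0 ≤ a) (hb : 0 ≤ b)
    (hc : IsGeodesicOn c 0 a) (hc' : IsGeodesicOn c' 0 b) (h : c a = c' 0)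
    (hd : dist (c 0) (c' b) = a + b) :
    IsGeodesicOn (fun s => if s ≤ a then c s else c' (s - a)) 0 (a + b) := by
  have key : ∀ s ∈ Icc 0 (a + b), ∀ t ∈ Icc 0 (a + b), s ≤ t →
      dist (if s ≤ a then c s else c' (s - a)) (if t ≤ a then c t else c' (t - a)) = t - s := by
    intro s hs t ht hst
    by_cases hta : t ≤ a
    · rw [if_pos (hst.trans hta), if_pos hta, hc s ⟨hs.1, hst.trans hta⟩ t ⟨ht.1, hta⟩,
        abs_sub_comm, abs_of_nonneg (sub_nonneg.2 hst)]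
    rw [if_neg hta]
    by_cases hsa : s ≤ a
    · rw [if_pos hsa]
      push Not at hta
      have h1 : dist (c s) (c a) = a - s := by
        rw [hc s ⟨hs.1, hsa⟩ a ⟨ha, le_rfl⟩, abs_sub_comm, abs_of_nonneg (sub_nonneg.2 hsa)]
      have h2 : dist (c a) (c' (t - a)) = t - a := by
        rw [h, hc' 0 ⟨le_rfl, hb⟩ (t - a) ⟨by linarith, by linarith [ht.2]⟩, zero_sub, abs_neg,
          abs_of_nonneg (by linarith)]
      have h3 : dist (c 0) (c s) = s := by
        rw [hc 0 ⟨le_rfl, ha⟩ s ⟨hs.1, hsa⟩, zero_sub, abs_neg, abs_of_nonneg hs.1]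
      have h4 : dist (c' (t - a)) (c' b) = b - (t - a) := by
        rw [hc' (t - a) ⟨by linarith, by linarith [ht.2]⟩ b ⟨hb, le_rfl⟩, abs_sub_comm,
          abs_of_nonneg (by linarith [ht.2])]
      have h5 := dist_triangle4 (c 0) (c s) (c' (t - a)) (c' b)
      have h6 := dist_triangle (c s) (c a) (c' (t - a))
      apply le_antisymm <;> linarith
    · rw [if_neg hsa]
      push Not at hta hsa
      rw [hc' (s - a) ⟨by linarith, by linarith [hs.2]⟩ (t - a) ⟨by linarith, by linarith [ht.2]⟩,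
        abs_sub_comm, abs_of_nonneg (by linarith)]
      ring
  intro s hs t ht
  rcases le_total s t with hst | hst
  · simp only [key s hs t ht hst, abs_sub_comm s t, abs_of_nonneg (sub_nonneg.2 hst)]
  · rw [dist_comm]
    simp only [key t ht s hs hst, abs_of_nonneg (sub_nonneg.2 hst)]

/-- if `z` is between `x` and `y` then `geo x y` passes through `z` -/
theorem IsBusemannConvex.geo_between (hG : IsGeodesicSpace Y) (hB : IsBusemannConvex Y)
    {x y z : Y} (h : dist x z + dist z y = dist x y) :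
    geo x y (dist x z) = z ∧ ∀ s ∈ Icc 0 (dist x z), geo x y s = geo x z s := by
  obtain ⟨g1, g2, g3⟩ := geo_spec hG x z
  obtain ⟨k1, k2, k3⟩ := geo_spec hG z y
  obtain ⟨m1, m2, m3⟩ := geo_spec hG x y
  have hj := E1_join dist_nonneg dist_nonneg g1 k1 (by rw [g3, k2]) (by rw [g2, k3, h])
  rw [h] at hj
  have hu := hB.geod_unique m1 hj
    (by simp [m2, g2, dist_nonneg]) (by
      rw [m3]
      by_cases hzy : dist x y ≤ dist x z
      · have : dist z y = 0 := by linarith [dist_nonneg (x := z) (y := y)]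
        have hzy' : z = y := dist_eq_zero.1 this
        simp only [if_pos hzy]
        rw [← hzy', g3]
      · simp only [if_neg hzy]
        rw [← h, add_sub_cancel_left, k3])
  have hle : dist x z ≤ dist x y := by linarith [dist_nonneg (x := z) (y := y)]
  constructor
  · rw [hu (dist x z) ⟨dist_nonneg, hle⟩]
    simp [g3]
  · intro s hs
    rw [hu s ⟨hs.1, hs.2.trans hle⟩]
    simp [hs.2]

theorem IsBusemannConvex.geo_map (hG : IsGeodesicSpace Y) (hB : IsBusemannConvex Y)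
    (γ : Y ≃ᵢ Y) (x y : Y) : ∀ s ∈ Icc 0 (dist x y), geo (γ x) (γ y) s = γ (geo x y s) := by
  obtain ⟨g1, g2, g3⟩ := geo_spec hG x y
  have hc : IsGeodesicOn (fun s => γ (geo x y s)) 0 (dist x y) := by
    intro s hs t ht
    rw [γ.isometry.dist_eq]
    exact g1 s hs t ht
  have := hB.geo_eq hG dist_nonneg hc
  simpa only [g2, g3] using this

/-- concatenation of geodesics that is a local geodesic at the junction is a geodesic -/
theorem IsBusemannConvex.concat (hG : IsGeodesicSpace Y) (hB : IsBusemannConvex Y)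
    {c c' : ℝ → Y} {a b r : ℝ} (hr : 0 < r) (hra : r ≤ a) (hrb : r ≤ b)
    (hc : IsGeodesicOn c 0 a) (hc' : IsGeodesicOn c' 0 b)
    (h0 : c 0 = c' 0) (h : dist (c r) (c' r) = 2 * r) : dist (c a) (c' b) = a + b := by
  set C : ℝ → Y := fun s => if s ≤ 0 then c (-s) else c' s with hC
  have ha : 0 < a := hr.trans_le hra
  have hb : 0 < b := hr.trans_le hrb
  have hneg : ∀ s ∈ Icc (-a) b, ∀ t ∈ Icc (-a) b, s ≤ 0 → t ≤ 0 → dist (C s) (C t) = |s - t| := by
    intro s hs t ht hs0 ht0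
    simp only [hC, if_pos hs0, if_pos ht0]
    rw [hc (-s) ⟨by linarith, by linarith [hs.1]⟩ (-t) ⟨by linarith, by linarith [ht.1]⟩]
    rw [abs_sub_comm]; congr 1; ring
  have hC' : ∀ s, 0 ≤ s → C s = c' s := by
    intro s hs
    rcases hs.eq_or_lt with rfl | hs
    · simp [hC, h0]
    · simp [hC, hs.not_ge]
  have hpos : ∀ s ∈ Icc (-a) b, ∀ t ∈ Icc (-a) b, 0 ≤ s → 0 ≤ t → dist (C s) (C t) = |s - t| := by
    intro s hs t ht hs0 ht0
    rw [hC' s hs0, hC' t ht0]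
    exact hc' s ⟨hs0, hs.2⟩ t ⟨ht0, ht.2⟩
  have hmix : ∀ s ∈ Icc (-r) 0, ∀ t ∈ Icc 0 r, dist (C s) (C t) = t - s := by
    intro s hs t ht
    rw [hC' t ht.1]
    simp only [hC, if_pos hs.2]
    have h1 : dist (c r) (c (-s)) = r + s := by
      rw [hc r ⟨hr.le, hra⟩ (-s) ⟨by linarith [hs.2], by linarith [hs.1]⟩,
        abs_of_nonneg (by linarith [hs.1])]
      ring
    have h2 : dist (c' t) (c' r) = r - t := by
      rw [hc' t ⟨ht.1, by linarith [ht.2]⟩ r ⟨hr.le, hrb⟩, abs_sub_comm,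
        abs_of_nonneg (by linarith [ht.2])]
    have h3 : dist (c (-s)) (c 0) = -s := by
      rw [hc (-s) ⟨by linarith [hs.2], by linarith [hs.1]⟩ 0 ⟨le_rfl, ha.le⟩, sub_zero,
        abs_of_nonneg (by linarith [hs.2])]
    have h4 : dist (c 0) (c' t) = t := by
      rw [h0, hc' 0 ⟨le_rfl, hb.le⟩ t ⟨ht.1, by linarith [ht.2]⟩, zero_sub, abs_neg,
        abs_of_nonneg ht.1]
    have h5 := dist_triangle4 (c r) (c (-s)) (c' t) (c' r)
    have h6 := dist_triangle (c (-s)) (c 0) (c' t)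
    apply le_antisymm <;> linarith
  have hloc : IsLocalGeodesicOn C (-a) b := by
    intro t ht
    rcases lt_trichotomy t 0 with h' | h' | h'
    · refine ⟨-t / 2, by linarith, fun s hs s' hs' h1 h2 => ?_⟩
      rw [abs_le] at h1 h2
      exact hneg s hs s' hs' (by linarith [h1.2]) (by linarith [h2.2])
    · subst h'
      refine ⟨r, hr, fun s hs s' hs' h1 h2 => ?_⟩
      rw [sub_zero, abs_le] at h1 h2
      rcases le_total s 0 with hs0 | hs0 <;> rcases le_total s' 0 with hs0' | hs0'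
      · exact hneg s hs s' hs' hs0 hs0'
      · rw [hmix s ⟨h1.1, hs0⟩ s' ⟨hs0', h2.2⟩, abs_sub_comm, abs_of_nonneg (by linarith)]
      · rw [dist_comm, hmix s' ⟨h2.1, hs0'⟩ s ⟨hs0, h1.2⟩, abs_of_nonneg (by linarith)]
      · exact hpos s hs s' hs' hs0 hs0'
    · refine ⟨t / 2, by linarith, fun s hs s' hs' h1 h2 => ?_⟩
      rw [abs_le] at h1 h2
      exact hpos s hs s' hs' (by linarith [h1.1]) (by linarith [h2.1])
  have hgeo := hB.isGeodesicOn hG (by linarith) hloc (-a) ⟨le_rfl, by linarith⟩ b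
    ⟨by linarith, le_rfl⟩
  have e1 : C (-a) = c a := by simp [hC, ha.le]
  rw [e1, hC' b hb.le] at hgeo
  rw [hgeo, abs_sub_comm, abs_of_nonneg (by linarith)]
  ring

theorem IsBusemannConvex.isometry (hG : IsGeodesicSpace Y) (hB : IsBusemannConvex Y)
    (c : GeodSpace Y) : Isometry c.1 := by
  apply Isometry.of_dist_eq
  intro s t
  have hl : IsLocalGeodesicOn c.1 (min s t) (max s t) := by
    intro u _
    obtain ⟨ε, hε, h⟩ := c.2 u
    refine ⟨ε, hε, fun v _ v' _ h1 h2 => h v ?_ v' ?_⟩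
    · rw [abs_le] at h1; exact ⟨by linarith [h1.1], by linarith [h1.2]⟩
    · rw [abs_le] at h2; exact ⟨by linarith [h2.1], by linarith [h2.2]⟩
  rw [hB.isGeodesicOn hG (min_le_max) hl s ⟨min_le_left _ _, le_max_left _ _⟩ t
    ⟨min_le_right _ _, le_max_right _ _⟩, Real.dist_eq]

/-- a ray as a geodesic `ℝ → Y` -/
private lemma E1_rayG {ρ : ℝ≥0 → Y} (hρ : Isometry ρ) (T : ℝ) :
    IsGeodesicOn (fun s => ρ s.toNNReal) 0 T := by
  intro s hs t ht
  simp only [hρ.dist_eq, NNReal.dist_eq, Real.coe_toNNReal _ hs.1, Real.coe_toNNReal _ ht.1]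

private lemma E1_tendsto_aux (K s : ℝ) :
    Tendsto (fun T : ℝ => s / T * K) atTop (𝓝 0) := by
  have : Tendsto (fun T : ℝ => s / T) atTop (𝓝 0) := tendsto_const_nhds.div_atTop tendsto_id
  simpa using this.mul_const K

/-- asymptotic rays with the same origin are equal -/
theorem IsBusemannConvex.ray_unique (hB : IsBusemannConvex Y) {ρ ρ' : Ray Y}
    (h0 : ρ.1 0 = ρ'.1 0) (h : ρ.bd = ρ'.bd) : ρ = ρ' := by
  obtain ⟨C, hC⟩ : ∃ C : ℝ, ∀ t, dist (ρ.1 t) (ρ'.1 t) ≤ C := Quotient.exact h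
  apply Subtype.ext
  funext t
  have key : ∀ T : ℝ, max 1 (t : ℝ) ≤ T → dist (ρ.1 t) (ρ'.1 t) ≤ (t : ℝ) / T * C := by
    intro T hT
    have hT1 : 0 < T := lt_of_lt_of_le one_pos ((le_max_left _ _).trans hT)
    have hT2 : (t : ℝ) ≤ T := (le_max_right _ _).trans hT
    have := E1_bc0 hB (E1_rayG ρ.2 T) (E1_rayG ρ'.2 T) (by simpa using h0) t.2 hT2 hT1
    simp only [NNReal.val_eq_coe, Real.toNNReal_coe] at this
    refine this.trans ?_
    have h2 : (0 : ℝ) ≤ (t : ℝ) / T := by positivity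
    exact mul_le_mul_of_nonneg_left (hC _) h2
  have hlim := E1_tendsto_aux C (t : ℝ)
  have hle : dist (ρ.1 t) (ρ'.1 t) ≤ 0 :=
    ge_of_tendsto hlim (eventually_atTop.2 ⟨max 1 (t : ℝ), key⟩)
  exact dist_le_zero.1 hle

theorem IsBusemannConvex.ray_exists [ProperSpace Y] (hG : IsGeodesicSpace Y)
    (hB : IsBusemannConvex Y) (y : Y) (ξ : Bd Y) : ∃ ρ : Ray Y, ρ.1 0 = y ∧ ρ.bd = ξ := by
  obtain ⟨ρ₀, rfl⟩ : ∃ ρ₀ : Ray Y, ρ₀.bd = ξ := Quotient.exists_rep ξ
  set C := dist y (ρ₀.1 0) with hC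
  have hC0 : 0 ≤ C := dist_nonneg
  let g : ℕ → ℝ → Y := fun n => geo y (ρ₀.1 n)
  let d : ℕ → ℝ := fun n => dist y (ρ₀.1 n)
  have hg : ∀ n, IsGeodesicOn (g n) 0 (d n) ∧ g n 0 = y ∧ g n (d n) = ρ₀.1 n := fun n =>
    geo_spec hG y (ρ₀.1 n)
  have hdn : ∀ n : ℕ, |d n - n| ≤ C := by
    intro n
    have h1 : dist (ρ₀.1 0) (ρ₀.1 n) = n := by
      rw [ρ₀.2.dist_eq, NNReal.dist_eq]; simp
    have h2 := dist_triangle y (ρ₀.1 0) (ρ₀.1 n)
    have h3 := dist_triangle_left (ρ₀.1 0) (ρ₀.1 n) y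
    rw [abs_le]
    constructor
    · simp only [d]; linarith
    · simp only [d]; linarith
  have hd0 : ∀ n, 0 ≤ d n := fun n => dist_nonneg
  -- comparison with the ray
  have hcomp : ∀ (m : ℕ) (t : ℝ), 0 < m → 0 ≤ t → t ≤ m →
      dist (g m (t / m * d m)) (ρ₀.1 t.toNNReal) ≤ C := by
    intro m t hm ht htm
    have hm' : (0 : ℝ) < m := by exact_mod_cast hm
    have hl : t / m ∈ Icc (0 : ℝ) 1 := ⟨by positivity, (div_le_one hm').2 htm⟩
    have := hB (g m) (fun s => ρ₀.1 s.toNNReal) (d m) m (hd0 m) hm'.le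
      (hg m).1.isLocalGeodesicOn (E1_rayG ρ₀.2 m).isLocalGeodesicOn (t / m) hl
    simp only [div_mul_cancel₀ _ hm'.ne', (hg m).2.1, (hg m).2.2, Real.toNNReal_zero,
      Real.toNNReal_natCast, dist_self, mul_zero, add_zero] at this
    refine this.trans ?_
    rw [← hC]
    nlinarith [hl.1, hl.2]
  -- the two parameters are close
  have hpar : ∀ (m : ℕ) (t : ℝ), 0 < m → 0 ≤ t → t ≤ m → |t / m * d m - t| ≤ C := by
    intro m t hm ht htm
    have hm' : (0 : ℝ) < m := by exact_mod_cast hm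
    have hl : t / m ∈ Icc (0 : ℝ) 1 := ⟨by positivity, (div_le_one hm').2 htm⟩
    have e : t / m * d m - t = t / m * (d m - m) := by
      field_simp
    rw [e, abs_mul, abs_of_nonneg hl.1]
    calc t / m * |d m - m| ≤ 1 * C := mul_le_mul hl.2 (hdn m) (abs_nonneg _) zero_le_one
      _ = C := one_mul C
  -- main Cauchy estimate
  have hcau : ∀ (n m : ℕ) (t : ℝ), 0 < n → n ≤ m → 0 ≤ t → t + 2 * C + 1 ≤ n →
      dist (g n t) (g m t) ≤ t / (n - 2 * C) * (5 * C) := by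
    intro n m t hn hnm ht htn
    have hm : 0 < m := hn.trans_le hnm
    have hnm' : (n : ℝ) ≤ m := by exact_mod_cast hnm
    set u := (n : ℝ) / m * d m with hu
    have hnn : (0 : ℝ) ≤ n := Nat.cast_nonneg n
    have h1 := hpar m n hm hnn hnm'
    have h2 := hcomp m n hm hnn hnm'
    rw [Real.toNNReal_natCast] at h2
    have h3 := hdn n
    have hm' : (0 : ℝ) < m := by exact_mod_cast hm
    have hu_le : u ≤ d m := by
      have : (n : ℝ) / m ≤ 1 := (div_le_one hm').2 hnm'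
      rw [hu]; nlinarith [hd0 m]
    have hu0 : 0 ≤ u := by rw [hu]; have := hd0 m; positivity
    set v := min (d n) (d m) with hv
    have hvn : v ≤ d n := min_le_left _ _
    have hvm : v ≤ d m := min_le_right _ _
    rw [abs_le] at h1 h3
    have huv : |u - v| ≤ 2 * C := by
      rw [abs_le]
      rcases le_total (d n) (d m) with h | h
      · rw [hv, min_eq_left h]
        exact ⟨by linarith [h1.1, h3.2], by linarith [h1.2, h3.1]⟩
      · rw [hv, min_eq_right h]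
        exact ⟨by linarith [h1.1, h3.2], by linarith⟩
    have hdv : d n - v ≤ 2 * C := by
      rcases le_total (d n) (d m) with h | h
      · rw [hv, min_eq_left h]; linarith
      · rw [hv, min_eq_right h]; linarith [h1.1, h3.2]
    have hvlow : n - 2 * C ≤ v := by
      rw [abs_le] at huv
      rcases le_total (d n) (d m) with h | h
      · rw [hv, min_eq_left h]; linarith [h3.1]
      · rw [hv, min_eq_right h]; linarith [h1.1]
    have hvpos : 0 < v := by linarith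
    have hv0 : 0 ≤ v := hvpos.le
    have e1 : dist (g n v) (g n (d n)) = d n - v := by
      rw [(hg n).1 v ⟨hv0, hvn⟩ (d n) ⟨hd0 n, le_rfl⟩, abs_sub_comm,
        abs_of_nonneg (by linarith)]
    have e2 : dist (g m u) (g m v) = |u - v| :=
      (hg m).1 u ⟨hu0, hu_le⟩ v ⟨hv0, hvm⟩
    have e3 : dist (g n v) (g m v) ≤ 5 * C := by
      have t1 := dist_triangle4 (g n v) (ρ₀.1 n) (g m u) (g m v)
      rw [(hg n).2.2] at e1
      rw [dist_comm] at h2
      linarith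
    have htv : t ≤ v := by linarith
    have e4 := E1_bc0 hB (E1_mono (hg n).1 le_rfl hvn) (E1_mono (hg m).1 le_rfl hvm)
      (by rw [(hg n).2.1, (hg m).2.1]) ht htv hvpos
    refine e4.trans ?_
    have hpos2 : (0 : ℝ) < n - 2 * C := by linarith
    have e5 : t / v ≤ t / (n - 2 * C) := by gcongr
    have e6 : 0 ≤ t / (n - 2 * C) := by positivity
    exact mul_le_mul e5 e3 dist_nonneg e6
  -- limits
  have hlim0 : ∀ t : ℝ, Tendsto (fun n : ℕ => t / ((n : ℝ) - 2 * C) * (5 * C)) atTop (𝓝 0) := by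
    intro t
    have h1 : Tendsto (fun n : ℕ => ((n : ℝ) - 2 * C)) atTop atTop :=
      tendsto_atTop_add_const_right _ _ tendsto_natCast_atTop_atTop
    exact (E1_tendsto_aux (5 * C) t).comp h1
  have hcauchy : ∀ t : ℝ, 0 ≤ t → CauchySeq (fun n : ℕ => g n t) := by
    intro t ht
    rw [Metric.cauchySeq_iff']
    intro ε hε
    have h1 := (hlim0 t).eventually (gt_mem_nhds hε)
    have h2 : ∀ᶠ n : ℕ in atTop, t + 2 * C + 1 ≤ (n : ℝ) :=
      tendsto_natCast_atTop_atTop.eventually (eventually_ge_atTop _)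
    obtain ⟨N, hN1, hN2, hN3⟩ := (h1.and (h2.and (eventually_gt_atTop 0))).exists
    refine ⟨N, fun n hn => ?_⟩
    rw [dist_comm]
    exact (hcau N n t hN3 hn ht hN2).trans_lt hN1
  have hex : ∀ t : ℝ≥0, ∃ z, Tendsto (fun n : ℕ => g n t) atTop (𝓝 z) := fun t =>
    cauchySeq_tendsto_of_complete (hcauchy t t.2)
  choose ρ hρ using hex
  have hlarge : ∀ t : ℝ, ∀ᶠ n : ℕ in atTop, t ≤ d n := by
    intro t
    have h2 : ∀ᶠ n : ℕ in atTop, t + C ≤ (n : ℝ) :=
      tendsto_natCast_atTop_atTop.eventually (eventually_ge_atTop _)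
    filter_upwards [h2] with n hn
    have := hdn n
    rw [abs_le] at this
    linarith [this.1]
  have hiso : Isometry ρ := by
    apply Isometry.of_dist_eq
    intro s t
    have h1 : Tendsto (fun n : ℕ => dist (g n s) (g n t)) atTop (𝓝 (dist (ρ s) (ρ t))) :=
      (hρ s).dist (hρ t)
    have h2 : Tendsto (fun n : ℕ => dist (g n s) (g n t)) atTop (𝓝 (dist s t)) := by
      apply tendsto_const_nhds.congr'
      filter_upwards [hlarge s, hlarge t] with n hs ht
      rw [(hg n).1 s ⟨s.2, hs⟩ t ⟨t.2, ht⟩, NNReal.dist_eq]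
    exact tendsto_nhds_unique h1 h2
  refine ⟨⟨ρ, hiso⟩, ?_, ?_⟩
  · have h1 : Tendsto (fun n : ℕ => g n (0 : ℝ≥0)) atTop (𝓝 y) := by
      apply tendsto_const_nhds.congr
      intro n
      rw [NNReal.coe_zero, (hg n).2.1]
    exact tendsto_nhds_unique (hρ 0) h1
  · apply Quotient.sound
    refine ⟨2 * C, fun t => ?_⟩
    have h1 : Tendsto (fun n : ℕ => dist (g n t) (ρ₀.1 t)) atTop (𝓝 (dist (ρ t) (ρ₀.1 t))) :=
      (hρ t).dist tendsto_const_nhds
    apply le_of_tendsto h1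
    have h2 : ∀ᶠ n : ℕ in atTop, (t : ℝ) ≤ (n : ℝ) :=
      tendsto_natCast_atTop_atTop.eventually (eventually_ge_atTop _)
    filter_upwards [hlarge t, h2, eventually_gt_atTop 0] with n hn1 hn2 hn3
    have h3 := hcomp n t hn3 t.2 hn2
    rw [Real.toNNReal_coe] at h3
    have h4 := hpar n t hn3 t.2 hn2
    have hn' : (0 : ℝ) < n := by exact_mod_cast hn3
    have h5 : (t : ℝ) / n ≤ 1 := (div_le_one hn').2 hn2
    have h50 : 0 ≤ (t : ℝ) / n := by positivity
    have h6 : dist (g n t) (g n (t / n * d n)) = |(t : ℝ) - t / n * d n| :=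
      (hg n).1 t ⟨t.2, hn1⟩ _ ⟨mul_nonneg h50 (hd0 n), by nlinarith [hd0 n]⟩
    rw [abs_sub_comm] at h4
    calc dist (g n t) (ρ₀.1 t) ≤ dist (g n t) (g n (t / n * d n)) +
        dist (g n (t / n * d n)) (ρ₀.1 t) := dist_triangle _ _ _
      _ ≤ C + C := by rw [h6]; exact add_le_add h4 h3
      _ = 2 * C := by ring

theorem rayFrom_eq (hB : IsBusemannConvex Y) (ρ : Ray Y) :
    rayFrom (ρ.1 0) ρ.bd = ρ.1 := by
  have h : ∃ ρ' : Ray Y, ρ'.1 0 = ρ.1 0 ∧ ρ'.bd = ρ.bd := ⟨ρ, rfl, rfl⟩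
  unfold rayFrom
  rw [dif_pos h]
  obtain ⟨h1, h2⟩ := Classical.choose_spec h
  rw [hB.ray_unique h1 h2]

theorem rayFrom_spec [ProperSpace Y] (hG : IsGeodesicSpace Y) (hB : IsBusemannConvex Y)
    (y : Y) (ξ : Bd Y) : rayFrom y ξ 0 = y ∧ ∃ ρ : Ray Y, ρ.1 = rayFrom y ξ ∧ ρ.bd = ξ := by
  obtain ⟨ρ, rfl, rfl⟩ := hB.ray_exists hG y ξ
  rw [rayFrom_eq hB ρ]
  exact ⟨rfl, ρ, rfl, rfl⟩

theorem rayFrom_isometry [ProperSpace Y] (hG : IsGeodesicSpace Y) (hB : IsBusemannConvex Y)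
    (y : Y) (ξ : Bd Y) : Isometry (rayFrom y ξ) := by
  obtain ⟨_, ρ, h, _⟩ := rayFrom_spec hG hB y ξ
  rw [← h]
  exact ρ.2

theorem rayFrom_map [ProperSpace Y] (hG : IsGeodesicSpace Y) (hB : IsBusemannConvex Y)
    (γ : Y ≃ᵢ Y) (y : Y) (ξ : Bd Y) (t : ℝ≥0) :
    rayFrom (γ y) (Bd.map γ ξ) t = γ (rayFrom y ξ t) := by
  obtain ⟨ρ, rfl, rfl⟩ := hB.ray_exists hG y ξ
  have h := rayFrom_eq hB (Ray.map γ ρ)
  have h2 : (Ray.map γ ρ).bd = Bd.map γ ρ.bd := rfl
  rw [h2] at h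
  have h3 : (Ray.map γ ρ).1 0 = γ (ρ.1 0) := rfl
  rw [h3] at h
  rw [h, rayFrom_eq hB ρ]
  rfl

/-- sub-rays -/
theorem rayFrom_add [ProperSpace Y] (hG : IsGeodesicSpace Y) (hB : IsBusemannConvex Y)
    (y : Y) (ξ : Bd Y) (s t : ℝ≥0) : rayFrom (rayFrom y ξ s) ξ t = rayFrom y ξ (s + t) := by
  obtain ⟨ρ, rfl, rfl⟩ := hB.ray_exists hG y ξ
  rw [rayFrom_eq hB ρ]
  let ρ' : Ray Y := ⟨fun t => ρ.1 (s + t), by
    apply Isometry.of_dist_eq
    intro u v
    rw [ρ.2.dist_eq, NNReal.dist_eq, NNReal.dist_eq]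
    push_cast
    congr 1; ring⟩
  have hbd : ρ'.bd = ρ.bd := by
    apply Quotient.sound
    refine ⟨s, fun u => ?_⟩
    change dist (ρ.1 (s + u)) (ρ.1 u) ≤ s
    rw [ρ.2.dist_eq, NNReal.dist_eq]
    push_cast
    rw [add_sub_cancel_right, abs_of_nonneg (NNReal.coe_nonneg s)]
  have h := rayFrom_eq hB ρ'
  have h0 : ρ'.1 0 = ρ.1 s := by simp [ρ']
  rw [h0, hbd] at h
  rw [h]

/-- if `dist x z + t = dist x (ρ t)` for all `t`, `ρ` the ray from `z` to `ξ`, then the ray from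
`x` to `ξ` goes through `z` -/
theorem rayFrom_through [ProperSpace Y] (hG : IsGeodesicSpace Y) (hB : IsBusemannConvex Y)
    (x z : Y) (ξ : Bd Y) (h : ∀ t : ℝ≥0, dist x (rayFrom z ξ t) = dist x z + t) :
    rayFrom x ξ (nndist x z) = z ∧
      ∀ t : ℝ≥0, t ≤ nndist x z → rayFrom x ξ t = geo x z t := by
  obtain ⟨ρ, rfl, rfl⟩ := hB.ray_exists hG z ξ
  rw [rayFrom_eq hB ρ] at h
  obtain ⟨g1, g2, g3⟩ := geo_spec hG x (ρ.1 0)
  set d := nndist x (ρ.1 0) with hd
  have hdd : dist x (ρ.1 0) = d := rfl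
  rw [hdd] at g1 g3 h
  let R : ℝ≥0 → Y := fun t => if t ≤ d then geo x (ρ.1 0) t else ρ.1 (t - d)
  have key : ∀ s t : ℝ≥0, s ≤ t → dist (R s) (R t) = t - s := by
    intro s t hst
    have hst' : (s : ℝ) ≤ t := by exact_mod_cast hst
    simp only [R]
    by_cases htd : t ≤ d
    · have htd' : (t : ℝ) ≤ d := by exact_mod_cast htd
      rw [if_pos (hst.trans htd), if_pos htd, g1 s ⟨s.2, hst'.trans htd'⟩ t ⟨t.2, htd'⟩,
        abs_sub_comm, abs_of_nonneg (sub_nonneg.2 hst')]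
    rw [if_neg htd]
    push Not at htd
    have htd' : (d : ℝ) < t := by exact_mod_cast htd
    have ht2 : ((t - d : ℝ≥0) : ℝ) = t - d := NNReal.coe_sub htd.le
    by_cases hsd : s ≤ d
    · have hsd' : (s : ℝ) ≤ d := by exact_mod_cast hsd
      rw [if_pos hsd]
      have h1 : dist (geo x (ρ.1 0) s) (ρ.1 0) = d - s := by
        have := g1 s ⟨s.2, hsd'⟩ d ⟨d.2, le_rfl⟩
        rw [g3] at this
        rw [this, abs_sub_comm, abs_of_nonneg (sub_nonneg.2 hsd')]
      have h2 : dist (ρ.1 0) (ρ.1 (t - d)) = t - d := by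
        rw [ρ.2.dist_eq, NNReal.dist_eq, ht2, NNReal.coe_zero, zero_sub, abs_neg,
          abs_of_nonneg (by linarith)]
      have h3 : dist x (geo x (ρ.1 0) s) = s := by
        have := g1 0 ⟨le_rfl, d.2⟩ s ⟨s.2, hsd'⟩
        rw [g2] at this
        rw [this, zero_sub, abs_neg, abs_of_nonneg (NNReal.coe_nonneg s)]
      have h4 := h (t - d)
      rw [ht2] at h4
      have h5 := dist_triangle x (geo x (ρ.1 0) s) (ρ.1 (t - d))
      have h6 := dist_triangle (geo x (ρ.1 0) s) (ρ.1 0) (ρ.1 (t - d))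
      apply le_antisymm <;> linarith
    · rw [if_neg hsd]
      push Not at hsd
      have hsd' : (d : ℝ) < s := by exact_mod_cast hsd
      rw [ρ.2.dist_eq, NNReal.dist_eq, ht2, NNReal.coe_sub hsd.le, abs_sub_comm,
        abs_of_nonneg (by linarith)]
      ring
  have hiso : Isometry R := by
    apply Isometry.of_dist_eq
    intro s t
    rw [NNReal.dist_eq]
    rcases le_total s t with hst | hst
    · rw [key s t hst, abs_sub_comm, abs_of_nonneg (sub_nonneg.2 (by exact_mod_cast hst))]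
    · rw [dist_comm, key t s hst, abs_of_nonneg (sub_nonneg.2 (by exact_mod_cast hst))]
  let R' : Ray Y := ⟨R, hiso⟩
  have hRd : R d = ρ.1 0 := by simp [R, g3]
  have hR0 : R 0 = x := by simp [R, g2]
  have hbd : R'.bd = ρ.bd := by
    apply Quotient.sound
    refine ⟨2 * d, fun t => ?_⟩
    change dist (R t) (ρ.1 t) ≤ 2 * d
    by_cases htd : t ≤ d
    · have htd' : (t : ℝ) ≤ d := by exact_mod_cast htd
      have h1 := key t d htd
      rw [hRd] at h1
      have h2 : dist (ρ.1 0) (ρ.1 t) = t := by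
        rw [ρ.2.dist_eq, NNReal.dist_eq, NNReal.coe_zero, zero_sub, abs_neg,
          abs_of_nonneg (NNReal.coe_nonneg t)]
      have h3 := dist_triangle (R t) (ρ.1 0) (ρ.1 t)
      linarith [t.2]
    · simp only [R, if_neg htd]
      push Not at htd
      rw [ρ.2.dist_eq, NNReal.dist_eq, NNReal.coe_sub htd.le]
      rw [sub_sub_cancel_left, abs_neg, abs_of_nonneg (NNReal.coe_nonneg d)]
      have := d.2
      change (d : ℝ) ≤ 2 * d
      have h9 : (0 : ℝ) ≤ d := d.2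
      linarith
  have hfin := rayFrom_eq hB R'
  have h0 : R'.1 0 = x := hR0
  rw [h0, hbd] at hfin
  rw [hfin]
  refine ⟨hRd, fun t ht => ?_⟩
  change R t = _
  simp [R, ht]

theorem rayFrom_dist_le [ProperSpace Y] (hG : IsGeodesicSpace Y) (hB : IsBusemannConvex Y)
    (x y : Y) (ξ : Bd Y) (t : ℝ≥0) : dist (rayFrom x ξ t) (rayFrom y ξ t) ≤ dist x y := by
  obtain ⟨ρ, rfl, rfl⟩ := hB.ray_exists hG x ξ
  obtain ⟨ρ', rfl, h⟩ := hB.ray_exists hG y ρ.bd
  rw [rayFrom_eq hB ρ, ← h, rayFrom_eq hB ρ']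
  obtain ⟨C, hC⟩ : ∃ C : ℝ, ∀ t, dist (ρ'.1 t) (ρ.1 t) ≤ C := Quotient.exact h
  have hC0 : 0 ≤ C := dist_nonneg.trans (hC 0)
  have key : ∀ T : ℝ, max 1 (t : ℝ) ≤ T →
      dist (ρ.1 t) (ρ'.1 t) ≤ dist (ρ.1 0) (ρ'.1 0) + (t : ℝ) / T * C := by
    intro T hT
    have hT1 : 0 < T := lt_of_lt_of_le one_pos ((le_max_left _ _).trans hT)
    have hT2 : (t : ℝ) ≤ T := (le_max_right _ _).trans hT
    have hl : (t : ℝ) / T ∈ Icc (0 : ℝ) 1 := ⟨by positivity, (div_le_one hT1).2 hT2⟩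
    have := hB _ _ T T hT1.le hT1.le (E1_rayG ρ.2 T).isLocalGeodesicOn
      (E1_rayG ρ'.2 T).isLocalGeodesicOn ((t : ℝ) / T) hl
    simp only [div_mul_cancel₀ _ hT1.ne', Real.toNNReal_coe, Real.toNNReal_zero] at this
    have h1 : dist (ρ.1 T.toNNReal) (ρ'.1 T.toNNReal) ≤ C := by rw [dist_comm]; exact hC _
    have h2 : (1 - (t : ℝ) / T) * dist (ρ.1 0) (ρ'.1 0) ≤ dist (ρ.1 0) (ρ'.1 0) := by
      have := dist_nonneg (x := ρ.1 0) (y := ρ'.1 0)
      nlinarith [hl.1]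
    have h3 : (t : ℝ) / T * dist (ρ.1 T.toNNReal) (ρ'.1 T.toNNReal) ≤ (t : ℝ) / T * C :=
      mul_le_mul_of_nonneg_left h1 hl.1
    linarith
  have hlim : Tendsto (fun T : ℝ => dist (ρ.1 0) (ρ'.1 0) + (t : ℝ) / T * C) atTop
      (𝓝 (dist (ρ.1 0) (ρ'.1 0) + 0)) := tendsto_const_nhds.add (E1_tendsto_aux C (t : ℝ))
  rw [add_zero] at hlim
  exact ge_of_tendsto hlim (eventually_atTop.2 ⟨max 1 (t : ℝ), key⟩)

theorem geo_tendsto [ProperSpace Y] (hG : IsGeodesicSpace Y) (hB : IsBusemannConvex Y)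
    (o : Y) (ρ : Ray Y) (s : ℝ≥0) :
    Tendsto (fun t : ℝ≥0 => geo o (ρ.1 t) s) atTop (𝓝 (rayFrom o ρ.bd s)) := by
  obtain ⟨ρ', rfl, h⟩ := hB.ray_exists hG o ρ.bd
  rw [← h, rayFrom_eq hB ρ']
  obtain ⟨C, hC⟩ : ∃ C : ℝ, ∀ t, dist (ρ'.1 t) (ρ.1 t) ≤ C := Quotient.exact h
  have hC0 : 0 ≤ C := dist_nonneg.trans (hC 0)
  have key : ∀ t : ℝ≥0, (s : ℝ) + C + 1 ≤ t →
      dist (geo (ρ'.1 0) (ρ.1 t) s) (ρ'.1 s) ≤ (s : ℝ) / (t - C) * (3 * C) := by
    intro t ht
    obtain ⟨g1, g2, g3⟩ := geo_spec hG (ρ'.1 0) (ρ.1 t)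
    set d := dist (ρ'.1 0) (ρ.1 t) with hd
    have h1 : dist (ρ'.1 0) (ρ'.1 t) = t := by
      rw [ρ'.2.dist_eq, NNReal.dist_eq, NNReal.coe_zero, zero_sub, abs_neg,
        abs_of_nonneg (NNReal.coe_nonneg t)]
    have h2 := dist_triangle (ρ'.1 0) (ρ'.1 t) (ρ.1 t)
    have h3 := dist_triangle (ρ'.1 0) (ρ.1 t) (ρ'.1 t)
    have h4 := hC t
    have h4' := hC t
    rw [dist_comm] at h4'
    have hs0 : (0 : ℝ) ≤ s := s.2
    have ht0 : (0 : ℝ) ≤ t := t.2
    set v := min d (t : ℝ) with hv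
    have hvd : v ≤ d := min_le_left _ _
    have hvt : v ≤ t := min_le_right _ _
    have hvlow : (t : ℝ) - C ≤ v := le_min (by linarith) (by linarith)
    have hvpos : 0 < v := by linarith
    have hdv : d - v ≤ C := by
      rcases le_total d (t : ℝ) with h' | h'
      · rw [hv, min_eq_left h']; linarith
      · rw [hv, min_eq_right h']; linarith
    have e1 : dist (geo (ρ'.1 0) (ρ.1 t) v) (ρ.1 t) = d - v := by
      have := g1 v ⟨hvpos.le, hvd⟩ d ⟨dist_nonneg, le_rfl⟩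
      rw [g3] at this
      rw [this, abs_sub_comm, abs_of_nonneg (by linarith)]
    have e2 : dist (ρ'.1 t) (ρ'.1 v.toNNReal) = t - v := by
      rw [ρ'.2.dist_eq, NNReal.dist_eq, Real.coe_toNNReal _ hvpos.le, abs_of_nonneg (by linarith)]
    have e3 : dist (geo (ρ'.1 0) (ρ.1 t) v) (ρ'.1 v.toNNReal) ≤ 3 * C := by
      have := dist_triangle4 (geo (ρ'.1 0) (ρ.1 t) v) (ρ.1 t) (ρ'.1 t) (ρ'.1 v.toNNReal)
      linarith
    have hsv : (s : ℝ) ≤ v := by linarith
    have e4 := E1_bc0 hB (E1_mono g1 le_rfl hvd) (E1_rayG ρ'.2 v) (by simpa using g2) hs0 hsv hvpos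
    simp only [Real.toNNReal_coe] at e4
    refine e4.trans ?_
    have hpos2 : (0 : ℝ) < t - C := by linarith
    have e5 : (s : ℝ) / v ≤ s / (t - C) := by gcongr
    have e6 : 0 ≤ (s : ℝ) / (t - C) := by positivity
    exact mul_le_mul e5 e3 dist_nonneg e6
  rw [tendsto_iff_dist_tendsto_zero]
  have hat : Tendsto (fun t : ℝ≥0 => (t : ℝ)) atTop atTop := NNReal.tendsto_coe_atTop.2 tendsto_id
  have hlim : Tendsto (fun t : ℝ≥0 => (s : ℝ) / ((t : ℝ) - C) * (3 * C)) atTop (𝓝 0) :=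
    (E1_tendsto_aux (3 * C) (s : ℝ)).comp (tendsto_atTop_add_const_right _ _ hat)
  refine squeeze_zero' (Eventually.of_forall fun _ => dist_nonneg) ?_ hlim
  filter_upwards [hat.eventually (eventually_ge_atTop ((s : ℝ) + C + 1))] with t ht
  exact key t ht

theorem busemann_tendsto [ProperSpace Y] (hG : IsGeodesicSpace Y) (hB : IsBusemannConvex Y)
    (ξ : Bd Y) (x y : Y) :
    Tendsto (fun t : ℝ≥0 => dist x (rayFrom y ξ t) - t) atTop (𝓝 (busemann ξ x y)) := by
  unfold busemann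
  apply tendsto_nhds_limUnder
  have hiso := rayFrom_isometry hG hB y ξ
  have h0 := (rayFrom_spec hG hB y ξ).1
  have hanti : Antitone (fun t : ℝ≥0 => dist x (rayFrom y ξ t) - t) := by
    intro s t hst
    have hst' : (s : ℝ) ≤ t := by exact_mod_cast hst
    have h1 := dist_triangle x (rayFrom y ξ s) (rayFrom y ξ t)
    rw [hiso.dist_eq, NNReal.dist_eq, abs_sub_comm, abs_of_nonneg (sub_nonneg.2 hst')] at h1
    change dist x (rayFrom y ξ t) - t ≤ dist x (rayFrom y ξ s) - s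
    linarith
  have hbdd : BddBelow (Set.range (fun t : ℝ≥0 => dist x (rayFrom y ξ t) - t)) := by
    refine ⟨-dist x y, ?_⟩
    rintro _ ⟨t, rfl⟩
    have h1 : dist y (rayFrom y ξ t) = t := by
      have h2 := hiso.dist_eq 0 t
      rw [h0, NNReal.dist_eq, NNReal.coe_zero, zero_sub, abs_neg,
        abs_of_nonneg (NNReal.coe_nonneg t)] at h2
      exact h2
    have h2 := dist_triangle_left y (rayFrom y ξ t) x
    change -dist x y ≤ dist x (rayFrom y ξ t) - t
    linarith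
  exact ⟨_, tendsto_atTop_ciInf hanti hbdd⟩

/-! measurability -/

theorem measurable_rayFrom {F : Y → ℝ} (hF : Continuous F) (y : Y) (t : ℝ≥0) :
    Measurable (fun ξ : Bd Y => F (rayFrom y ξ t)) := by
  letI : MeasurableSpace Y := borel Y
  haveI : BorelSpace Y := ⟨rfl⟩
  have h : Measurable (fun ξ : Bd Y => rayFrom y ξ t) := by
    rw [measurable_iff_comap_le]
    exact le_iSup (fun p : Y × ℝ≥0 =>
      MeasurableSpace.comap (fun ξ : Bd Y => rayFrom p.1 ξ p.2) (borel Y)) (y, t)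
  exact hF.measurable.comp h

theorem measurableSet_rayFrom_eq (y z : Y) (t : ℝ≥0) :
    MeasurableSet {ξ : Bd Y | rayFrom y ξ t = z} := by
  have h := measurable_rayFrom (F := fun w => dist w z) (continuous_id.dist continuous_const) y t
  have : {ξ : Bd Y | rayFrom y ξ t = z} = (fun ξ : Bd Y => dist (rayFrom y ξ t) z) ⁻¹' {0} := by
    ext ξ; simp
  rw [this]
  exact h (measurableSet_singleton 0)

theorem measurable_busemann [ProperSpace Y] (hG : IsGeodesicSpace Y) (hB : IsBusemannConvex Y)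
    (x y : Y) : Measurable (fun ξ : Bd Y => busemann ξ x y) := by
  have hn : ∀ n : ℕ, Measurable (fun ξ : Bd Y => dist x (rayFrom y ξ (n : ℝ≥0)) - ((n : ℝ≥0) : ℝ)) :=
    fun n => (measurable_rayFrom (F := fun w => dist x w)
      (continuous_const.dist continuous_id) y n).sub measurable_const
  refine measurable_of_tendsto_metrizable hn ?_
  rw [tendsto_pi_nhds]
  intro ξ
  exact (busemann_tendsto hG hB ξ x y).comp tendsto_natCast_atTop_atTop

theorem measurable_bdMap [ProperSpace Y] (hG : IsGeodesicSpace Y) (hB : IsBusemannConvex Y)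
    (γ : Y ≃ᵢ Y) : Measurable (Bd.map γ) := by
  letI : MeasurableSpace Y := borel Y
  haveI : BorelSpace Y := ⟨rfl⟩
  rw [measurable_iff_comap_le]
  change MeasurableSpace.comap (Bd.map γ) (⨆ p : Y × ℝ≥0,
    MeasurableSpace.comap (fun ξ : Bd Y => rayFrom p.1 ξ p.2) (borel Y)) ≤ _
  rw [MeasurableSpace.comap_iSup]
  apply iSup_le
  intro p
  rw [MeasurableSpace.comap_comp]
  have h : (fun ξ : Bd Y => rayFrom p.1 ξ p.2) ∘ Bd.map γ =
      γ ∘ (fun ξ : Bd Y => rayFrom (γ.symm p.1) ξ p.2) := by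
    funext ξ
    have := rayFrom_map hG hB γ (γ.symm p.1) ξ p.2
    rw [IsometryEquiv.apply_symm_apply] at this
    exact this
  rw [h]
  have h1 : Measurable (fun ξ : Bd Y => rayFrom (γ.symm p.1) ξ p.2) := by
    rw [measurable_iff_comap_le]
    exact le_iSup (fun p : Y × ℝ≥0 =>
      MeasurableSpace.comap (fun ξ : Bd Y => rayFrom p.1 ξ p.2) (borel Y)) (γ.symm p.1, p.2)
  exact (γ.continuous.measurable.comp h1).comap_le

theorem measurable_eval {F : Y → ℝ} (hF : Continuous F) (t : ℝ) :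
    Measurable (fun c : GeodSpace Y => F (c.1 t)) := by
  letI : MeasurableSpace Y := borel Y
  haveI : BorelSpace Y := ⟨rfl⟩
  have h : Measurable (fun c : GeodSpace Y => c.1 t) := by
    rw [measurable_iff_comap_le]
    exact le_iSup (fun t : ℝ =>
      MeasurableSpace.comap (fun c : GeodSpace Y => c.1 t) (borel Y)) t
  exact hF.measurable.comp h

theorem measurable_flow (t : ℝ) : Measurable (GeodSpace.flow (X := Y) t) := by
  rw [measurable_iff_comap_le]
  change MeasurableSpace.comap (GeodSpace.flow (X := Y) t) (⨆ t : ℝ,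
    MeasurableSpace.comap (fun c : GeodSpace Y => c.1 t) (borel Y)) ≤ _
  rw [MeasurableSpace.comap_iSup]
  apply iSup_le
  intro s
  rw [MeasurableSpace.comap_comp]
  exact le_iSup (fun t : ℝ =>
      MeasurableSpace.comap (fun c : GeodSpace Y => c.1 t) (borel Y)) (s + t)

end MP4a77c6
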