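import Pool.Agent.Lib.MP_4a77c6_an.Iface

open Set Metric MeasureTheory Filter Topology
open scoped ENNReal NNReal

namespace MP4a77c6

/-- `Φ` is the observable of the gate `(p, α, β)` with time kernel `k`. -/
structure IsGateObs {X : Type*} [MetricSpace X] (p : X) (r e : ℝ) (α β : X → ℝ)
    (k : ℝ → ℝ) (Φ : GeodSpace X → ℝ) : Prop where
  nonneg : ∀ c, 0 ≤ Φ c
  meas : Measurable Φ
  eq : ∀ (c : GeodSpace X) (t : ℝ), |t| ≤ e → c.1 t = p →
    Φ c = k t * α (c.1 (t - r)) * β (c.1 (t + r))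
  supp : ∀ c : GeodSpace X, Φ c ≠ 0 → ∃ t : ℝ, |t| ≤ e ∧ c.1 t = p ∧
    0 < α (c.1 (t - r)) ∧ 0 < β (c.1 (t + r))

/-- A gate: geodesics entering `p` through directions with `α > 0` and leaving `p` through
directions with `β > 0` do so independently. -/
structure IsGate {Y X : Type*} [MetricSpace Y] [MetricSpace X] (π : Y → X) (p : X) (r e : ℝ)
    (α β : X → ℝ) : Prop where
  e_pos : 0 < e
  e_le : 16 * e ≤ r
  α_mem : ∀ x, α x ∈ Icc (0 : ℝ) 1
  β_mem : ∀ x, β x ∈ Icc (0 : ℝ) 1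
  /-- continuity near the sphere of radius `r` about `p` -/
  α_cont : Continuous α
  β_cont : Continuous β
  uniform : IsUniformCover π (16 * r)
  concat : ∀ (c c' : ℝ → Y) (a b : ℝ), IsGeodesicOn c 0 a → IsGeodesicOn c' 0 b → c 0 = c' 0 →
    π (c 0) = p → r ≤ a → r ≤ b → 0 < α (π (c r)) → 0 < β (π (c' r)) →
    dist (c a) (c' b) = a + b
  obs : ∀ k : ℝ → ℝ, (∃ K, LipschitzWith K k) → (∀ s, 0 ≤ k s) → (∀ s, e < |s| → k s = 0) →
    ∃ (Φ : GeodSpace X → ℝ) (B : ℝ), IsHolderWith 1 B B Φ ∧ IsGateObs p r e α β k Φ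

end MP4a77c6
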