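import Pool.Agent.Lib.MP_4a77c6_an.D2
import Pool.Agent.Lib.MP_4a77c6_an.C1
import Pool.Agent.Lib.MP_4a77c6_an.E1
import Pool.Agent.Lib.MP_4a77c6_an.GateDef

open Set Metric MeasureTheory Filter Topology
open scoped ENNReal NNReal

namespace MP4a77c6

/-! Task F1: the gates. -/

variable {Y X : Type*} [MetricSpace Y] [MetricSpace X] {n : Bool → ℕ} {L ε D : ℝ}
    {S : Bool → Set X} {q : ∀ i, Hyp (n i) → X} {σ : ℝ → X} {π : Y → X}

theorem wt_mem (T : Set X) (p a : X) (s : ℝ) (x : X) : wt T p a s x ∈ Icc (0 : ℝ) 1 := by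
  unfold wt
  split_ifs
  · exact ⟨le_min zero_le_one (le_max_left _ _), min_le_left _ _⟩
  · exact ⟨le_rfl, zero_le_one⟩

/-! ### auxiliary facts -/

private lemma F1_contOn {Z : Type*} [MetricSpace Z] {c : ℝ → Z} {a b : ℝ} (hc : IsGeodesicOn c a b) :
    ContinuousOn c (Icc a b) := by
  have : LipschitzOnWith 1 c (Icc a b) := LipschitzOnWith.of_dist_le_mul fun s hs t ht => by
    rw [hc s hs t ht, Real.dist_eq]; simp
  exact this.continuousOn

private lemma F1_mono {Z : Type*} [MetricSpace Z] {c : ℝ → Z} {a b a' b' : ℝ} (hc : IsGeodesicOn c a b)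
    (ha : a ≤ a') (hb : b' ≤ b) : IsGeodesicOn c a' b' :=
  fun s hs t ht => hc s ⟨ha.trans hs.1, hs.2.trans hb⟩ t ⟨ha.trans ht.1, ht.2.trans hb⟩

private lemma F1_sinh_le_one {x : ℝ} (hx : x ≤ 1 / 2) : Real.sinh x ≤ 1 := by
  have h1 : Real.exp x ≤ Real.exp (1 / 2) := Real.exp_le_exp.2 hx
  have h2 : Real.exp (1 / 2) < 2 := by
    have h3 : Real.exp (1 / 2) * Real.exp (1 / 2) = Real.exp 1 := by
      rw [← Real.exp_add]; norm_num
    have h4 := Real.exp_one_lt_d9
    nlinarith [Real.exp_pos (1 / 2 : ℝ)]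
  rw [Real.sinh_eq]
  have := Real.exp_pos (-x)
  linarith

private lemma F1_cosh_lip {M a b : ℝ} (ha : a ∈ Icc 0 M) (hb : b ∈ Icc 0 M) :
    |Real.cosh a - Real.cosh b| ≤ Real.cosh M * |a - b| := by
  have := Convex.norm_image_sub_le_of_norm_hasDerivWithin_le (f := Real.cosh) (f' := Real.sinh)
    (C := Real.cosh M) (s := Icc 0 M) (x := b) (y := a)
    (fun x _ => (Real.hasDerivAt_cosh x).hasDerivWithinAt)
    (fun x hx => by
      rw [Real.norm_eq_abs, abs_of_nonneg (Real.sinh_nonneg_iff.2 hx.1)]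
      exact (Real.sinh_lt_cosh x).le.trans (Real.cosh_le_cosh.2 (by
        rw [abs_of_nonneg hx.1, abs_of_nonneg (hx.1.trans hx.2)]; exact hx.2)))
    (convex_Icc 0 M) hb ha
  simpa [Real.norm_eq_abs] using this

private lemma F1_cross (hs : IsSetup n L ε D S q σ π) (i : Bool) {x y : X} (hx : x ∈ S i)
    (hy : y ∉ S i) : ∃ s ∈ Icc 0 L, dist x (σ s) ≤ dist x y := by
  obtain ⟨c, hc, hc0, hc1⟩ := hs.geodesicX x y
  have hpre : IsPreconnected (c '' Icc 0 (dist x y)) := isPreconnected_Icc.image c (F1_contOn hc)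
  have hcov : ∀ z, z ∈ S i ∪ S (!i) := by
    intro z
    have := hs.union.ge (mem_univ z)
    cases i
    · exact this.symm
    · exact this
  have hy' : y ∈ S (!i) := (hcov y).resolve_left hy
  have h := isPreconnected_closed_iff.1 hpre (S i) (S (!i)) (hs.closed i) (hs.closed (!i))
    (fun z _ => hcov z) ⟨x, ⟨0, ⟨le_rfl, dist_nonneg⟩, hc0⟩, hx⟩
    ⟨y, ⟨dist x y, ⟨dist_nonneg, le_rfl⟩, hc1⟩, hy'⟩
  obtain ⟨z, ⟨t, ht, htz⟩, hz1, hz2⟩ := h
  have hz : z ∈ σ '' Icc 0 L := by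
    rw [← hs.inter]
    cases i
    · exact ⟨hz2, hz1⟩
    · exact ⟨hz1, hz2⟩
  obtain ⟨s, hs1, hs2⟩ := hz
  refine ⟨s, hs1, ?_⟩
  rw [hs2, ← htz, ← hc0, hc 0 ⟨le_rfl, dist_nonneg⟩ t ht, zero_sub, abs_neg, abs_of_nonneg ht.1, hc0]
  exact ht.2

/-- on the segment the expression defining the weights is nonpositive -/
private lemma F1_seg (hs : IsSetup n L ε D S q σ π) {r : ℝ} (hr : 0 < r) (hr2 : 64 * r ≤ L) {s : ℝ}
    (hs1 : s ∈ Icc 0 L) :
    Real.cosh (dist (σ s) (σ r)) - Real.cosh (dist (σ s) (σ 0)) * Real.cosh r ≤ 0 := by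
  have hL : 0 ≤ L := hs.tree.L_pos.le
  rw [hs.geod s hs1 r ⟨hr.le, by linarith⟩, hs.geod s hs1 0 ⟨le_rfl, hL⟩, Real.cosh_abs, Real.cosh_abs,
    Real.cosh_sub, sub_zero]
  have h1 : 0 ≤ Real.sinh s := Real.sinh_nonneg_iff.2 hs1.1
  have h2 : 0 ≤ Real.sinh r := Real.sinh_nonneg_iff.2 hr.le
  nlinarith [mul_nonneg h1 h2]

private lemma F1_minmax_lip (a b : ℝ) : |min 1 (max 0 a) - min 1 (max 0 b)| ≤ |a - b| := by
  calc |min 1 (max 0 a) - min 1 (max 0 b)| ≤ |max 0 a - max 0 b| := by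
        have := abs_min_sub_min_le_max 1 (max 0 a) 1 (max 0 b)
        simpa using this
    _ ≤ |a - b| := by
        have := abs_max_sub_max_le_max 0 a 0 b
        simpa using this

/-- `wt (S i) (σ 0) (σ r) r` is a Lipschitz function (it vanishes on the segment `σ`) -/
theorem wt_lipschitz (hs : IsSetup n L ε D S q σ π) {r : ℝ} (hr : 0 < r) (hr2 : 64 * r ≤ L)
    (i : Bool) : ∃ K, LipschitzWith K (wt (S i) (σ 0) (σ r) r) := by
  classical
  haveI := hs.compact
  obtain ⟨M, hM⟩ := Metric.isBounded_iff.1 (isCompact_univ (X := X)).isBounded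
  have hM' : ∀ x y : X, dist x y ∈ Icc 0 M := fun x y => ⟨dist_nonneg, hM (mem_univ x) (mem_univ y)⟩
  set f : X → ℝ := fun x => min 1 (max 0 (Real.cosh (dist x (σ r)) -
    Real.cosh (dist x (σ 0)) * Real.cosh r)) with hf
  set K : ℝ := Real.cosh M + Real.cosh M * Real.cosh r with hK
  have hK0 : 0 ≤ K := by positivity
  have hfl : ∀ x y, |f x - f y| ≤ K * dist x y := by
    intro x y
    refine (F1_minmax_lip _ _).trans ?_
    have h1 := F1_cosh_lip (hM' x (σ r)) (hM' y (σ r))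
    have h2 := F1_cosh_lip (hM' x (σ 0)) (hM' y (σ 0))
    have h3 : |dist x (σ r) - dist y (σ r)| ≤ dist x y := abs_dist_sub_le x y (σ r)
    have h4 : |dist x (σ 0) - dist y (σ 0)| ≤ dist x y := abs_dist_sub_le x y (σ 0)
    have hc : 0 < Real.cosh M := Real.cosh_pos M
    have hcr : 0 < Real.cosh r := Real.cosh_pos r
    calc |Real.cosh (dist x (σ r)) - Real.cosh (dist x (σ 0)) * Real.cosh r -
          (Real.cosh (dist y (σ r)) - Real.cosh (dist y (σ 0)) * Real.cosh r)|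
        = |(Real.cosh (dist x (σ r)) - Real.cosh (dist y (σ r))) -
          (Real.cosh (dist x (σ 0)) - Real.cosh (dist y (σ 0))) * Real.cosh r| := by congr 1; ring
      _ ≤ |Real.cosh (dist x (σ r)) - Real.cosh (dist y (σ r))| +
          |(Real.cosh (dist x (σ 0)) - Real.cosh (dist y (σ 0))) * Real.cosh r| := abs_sub _ _
      _ ≤ Real.cosh M * dist x y + (Real.cosh M * dist x y) * Real.cosh r := by
          rw [abs_mul, abs_of_pos hcr]
          gcongr
          · exact h1.trans (by gcongr)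
          · exact h2.trans (by gcongr)
      _ = K * dist x y := by rw [hK]; ring
  have hseg : ∀ s ∈ Icc 0 L, f (σ s) = 0 := by
    intro s hs1
    have := F1_seg hs hr hr2 hs1
    simp only [hf]
    rw [max_eq_left this, min_eq_right zero_le_one]
  have hone : ∀ x y, x ∈ S i → y ∉ S i →
      |wt (S i) (σ 0) (σ r) r x - wt (S i) (σ 0) (σ r) r y| ≤ K * dist x y := by
    intro x y hx hy
    obtain ⟨s, hs1, hs2⟩ := F1_cross hs i hx hy
    have h1 : wt (S i) (σ 0) (σ r) r x = f x := by unfold wt; rw [if_pos hx]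
    have h2 : wt (S i) (σ 0) (σ r) r y = 0 := by unfold wt; rw [if_neg hy]
    rw [h1, h2, ← hseg s hs1]
    exact (hfl _ _).trans (by gcongr)
  refine ⟨K.toNNReal, LipschitzWith.of_dist_le_mul fun x y => ?_⟩
  rw [Real.coe_toNNReal _ hK0, Real.dist_eq]
  by_cases hx : x ∈ S i
  · by_cases hy : y ∈ S i
    · have h1 : wt (S i) (σ 0) (σ r) r x = f x := by unfold wt; rw [if_pos hx]
      have h2 : wt (S i) (σ 0) (σ r) r y = f y := by unfold wt; rw [if_pos hy]
      rw [h1, h2]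
      exact hfl x y
    · exact hone x y hx hy
  · by_cases hy : y ∈ S i
    · rw [abs_sub_comm, dist_comm]
      exact hone y x hy hx
    · have h1 : wt (S i) (σ 0) (σ r) r x = 0 := by unfold wt; rw [if_neg hx]
      have h2 : wt (S i) (σ 0) (σ r) r y = 0 := by unfold wt; rw [if_neg hy]
      rw [h1, h2]
      simp only [sub_self, abs_zero]
      positivity

/-! ### the law of cosines in the sheets -/

private lemma F1_law (h : IsSheetTree n L ε (fun i => π ⁻¹' (S i)) (fun i => lifts π (q i))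
      (wallLifts π σ L)) {i : Bool} {Λ : Hyp (n i) → Y} (hΛ : Λ ∈ lifts π (q i)) {c : ℝ → Y} {u : ℝ}
    (hu : 0 < u) (hc : IsGeodesicOn c 0 u) (hcΛ : ∀ s ∈ Icc 0 u, c s ∈ range Λ) {A : Y}
    (hA : A ∈ range Λ) :
    ∃ C : ℝ, ∀ s ∈ Icc 0 u, Real.cosh (dist A (c s)) =
      Real.cosh (dist A (c 0)) * Real.cosh s - C * Real.sinh s := by
  classical
  have hiso : Isometry Λ := h.sheet_isometry i Λ hΛ
  obtain ⟨a, ha⟩ := hA
  have hch : ∀ s : ℝ, ∃ x : Hyp (n i), s ∈ Icc 0 u → Λ x = c s := by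
    intro s
    by_cases hs : s ∈ Icc 0 u
    · obtain ⟨x, hx⟩ := hcΛ s hs
      exact ⟨x, fun _ => hx⟩
    · exact ⟨a, fun hs' => absurd hs' hs⟩
  choose γ hγ using hch
  have hγg : IsGeodesicOn γ 0 u := by
    intro s hs t ht
    rw [← hiso.dist_eq, hγ s hs, hγ t ht]
    exact hc s hs t ht
  have hH : HypLike (Hyp (n i)) := hyp_hypLike (h.n_pos i)
  obtain ⟨g, hg, hgc⟩ := hH.exists_line hu hγg
  obtain ⟨C, hC⟩ := hH.hl g hg a
  refine ⟨C, fun s hs => ?_⟩
  have h0 : (0 : ℝ) ∈ Icc 0 u := ⟨le_rfl, hu.le⟩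
  rw [← ha, ← hγ s hs, ← hγ 0 h0, hiso.dist_eq, hiso.dist_eq, ← hgc s hs, ← hgc 0 h0]
  exact hC s

private lemma F1_wall (hs : IsSetup n L ε D S q σ π) {o : Y} (ho : π o = σ 0) :
    ∃ τ ∈ wallLifts π σ L, τ 0 = o :=
  wallLifts_exists hs.cover.covering (F1_contOn hs.geod) ⟨le_rfl, hs.tree.L_pos.le⟩ ho

/-- value of the weight near a lift of `σ 0` -/
private lemma F1_wt_eq (hs : IsSetup n L ε D S q σ π) {r : ℝ} (hr : 0 < r)
    (hr1 : 64 * r ≤ ε) (hr2 : 64 * r ≤ L) {τ : ℝ → Y} (hτ : τ ∈ wallLifts π σ L)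
    (i : Bool) {y : Y} (hy : dist (τ 0) y ≤ 8 * r) (hyS : π y ∈ S i) :
    wt (S i) (σ 0) (σ r) r (π y) =
      min 1 (max 0 (Real.cosh (dist y (τ r)) - Real.cosh (dist y (τ 0)) * Real.cosh r)) := by
  have hL : 0 ≤ L := hs.tree.L_pos.le
  have hrL : r ∈ Icc 0 L := ⟨hr.le, by linarith⟩
  have h0L : (0 : ℝ) ∈ Icc 0 L := ⟨le_rfl, hL⟩
  have hgeo := hs.tree.wall_geod τ hτ
  have h1 : τ r ∈ ball (τ 0) ε := by
    rw [mem_ball, hgeo r hrL 0 h0L, sub_zero, abs_of_pos hr]; linarith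
  have h2 : τ 0 ∈ ball (τ 0) ε := mem_ball_self (by linarith)
  have h3 : y ∈ ball (τ 0) ε := by rw [mem_ball, dist_comm]; linarith
  have hu := (hs.uniform (τ 0)).1
  unfold wt
  rw [if_pos hyS, ← hτ.2 0 h0L, ← hτ.2 r hrL, hu y h3 (τ r) h1, hu y h3 (τ 0) h2]

/-- near the wall, points of `reg i` are in the sheet of type `i` at the wall -/
private lemma F1_in_sheet (hs : IsSetup n L ε D S q σ π) {r : ℝ} (hr : 0 < r)
    (hr1 : 64 * r ≤ ε) {τ : ℝ → Y} {i : Bool} {Λ : Hyp (n i) → Y}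
    (hΛ : Λ ∈ lifts π (q i)) (hW : τ '' Icc 0 L ⊆ range Λ) {y : Y} (hy : dist (τ 0) y ≤ 8 * r)
    (hyS : π y ∈ S i) : y ∈ range Λ := by
  have h0L : (0 : ℝ) ∈ Icc 0 L := ⟨le_rfl, hs.tree.L_pos.le⟩
  refine hs.tree.sheet_near i Λ hΛ (τ 0) (hW ⟨0, h0L, rfl⟩) ⟨hyS, ?_⟩
  rw [mem_ball, dist_comm]; linarith

/-- the weight along a geodesic that stays in the sheet -/
private lemma F1_along (hs : IsSetup n L ε D S q σ π) {r : ℝ} (hr : 0 < r)
    (hr1 : 64 * r ≤ ε) (hr2 : 64 * r ≤ L) (hr3 : 64 * r ≤ 1) {τ : ℝ → Y}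
    (hτ : τ ∈ wallLifts π σ L) {i : Bool} {Λ : Hyp (n i) → Y} (hΛ : Λ ∈ lifts π (q i))
    (hW : τ '' Icc 0 L ⊆ range Λ) {c : ℝ → Y} {u : ℝ} (hu : 0 < u) (hu4 : u ≤ 4 * r)
    (hc : IsGeodesicOn c 0 u) (h0 : c 0 = τ 0) (hcu : c u ∈ range Λ) :
    ∃ C : ℝ, ∀ s ∈ Icc 0 u, wt (S i) (σ 0) (σ r) r (π (c s)) = C * Real.sinh s := by
  have hL : 0 ≤ L := hs.tree.L_pos.le
  have hrL : r ∈ Icc 0 L := ⟨hr.le, by linarith⟩
  have h0L : (0 : ℝ) ∈ Icc 0 L := ⟨le_rfl, hL⟩
  have hgeo := hs.tree.wall_geod τ hτ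
  have hc0 : c 0 ∈ range Λ := by rw [h0]; exact hW ⟨0, h0L, rfl⟩
  have hcΛ := hs.tree.geod_stay hΛ hc hc0 hcu
  obtain ⟨C, hC⟩ := F1_law hs.tree hΛ hu hc hcΛ (hW ⟨r, hrL, rfl⟩)
  have hd : dist (τ r) (c 0) = r := by
    rw [h0, hgeo r hrL 0 h0L, sub_zero, abs_of_pos hr]
  refine ⟨max 0 (-C), fun s hsu => ?_⟩
  have hd0 : dist (τ 0) (c s) = s := by
    rw [← h0, hc 0 ⟨le_rfl, hu.le⟩ s hsu, zero_sub, abs_neg, abs_of_nonneg hsu.1]
  have hS : π (c s) ∈ S i := hs.tree.sheet_reg i Λ hΛ (hcΛ s hsu)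
  rw [F1_wt_eq hs hr hr1 hr2 hτ i (by rw [hd0]; linarith [hsu.2]) hS, dist_comm (c s) (τ r), hC s hsu,
    hd, dist_comm (c s) (τ 0), hd0]
  have hsh : 0 ≤ Real.sinh s := Real.sinh_nonneg_iff.2 hsu.1
  have hrh : 0 ≤ Real.sinh r := Real.sinh_nonneg_iff.2 hr.le
  have e1 : Real.cosh r * Real.cosh s - C * Real.sinh s - Real.cosh s * Real.cosh r =
      -C * Real.sinh s := by ring
  rw [e1]
  have e2 : max 0 (-C * Real.sinh s) = max 0 (-C) * Real.sinh s := by
    rw [max_mul_of_nonneg _ _ hsh, zero_mul]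
  have hb : -C * Real.sinh s ≤ Real.sinh r * Real.sinh s := by
    have h1 : dist (τ r) (c s) ≤ r + s := by
      calc dist (τ r) (c s) ≤ dist (τ r) (c 0) + dist (c 0) (c s) := dist_triangle _ _ _
        _ = r + s := by rw [hd, h0, hd0]
    have h2 : Real.cosh (dist (τ r) (c s)) ≤ Real.cosh (r + s) := by
      rw [Real.cosh_le_cosh, abs_of_nonneg dist_nonneg, abs_of_nonneg (by linarith [hsu.1])]
      exact h1
    rw [hC s hsu, hd, Real.cosh_add] at h2
    linarith
  have hle : -C * Real.sinh s ≤ 1 := by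
    refine hb.trans ?_
    have h1 : Real.sinh r ≤ 1 := F1_sinh_le_one (by linarith)
    have h2 : Real.sinh s ≤ 1 := F1_sinh_le_one (by linarith [hsu.2])
    nlinarith
  rw [min_eq_right (max_le zero_le_one hle), e2]

/-- along a geodesic starting at a gate, the weight is proportional to `sinh` of the distance -/
theorem wt_dir (hs : IsSetup n L ε D S q σ π) {r : ℝ} (hr : 0 < r)
    (hr1 : 64 * r ≤ ε) (hr2 : 64 * r ≤ L) (hr3 : 64 * r ≤ 1) (i : Bool) {c : ℝ → Y} {a u v : ℝ}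
    (hc : IsGeodesicOn c 0 a) (h0 : π (c 0) = σ 0) (hu : u ∈ Ioc 0 a) (hv : v ∈ Ioc 0 a)
    (hu4 : u ≤ 4 * r) (hv4 : v ≤ 4 * r) :
    wt (S i) (σ 0) (σ r) r (π (c u)) * Real.sinh v =
      wt (S i) (σ 0) (σ r) r (π (c v)) * Real.sinh u := by
  -- it is enough to treat `v ≤ u`
  wlog huv : v ≤ u generalizing u v
  · exact (this hv hu hv4 hu4 (not_le.1 huv).le).symm
  have hL : 0 ≤ L := hs.tree.L_pos.le
  have h0L : (0 : ℝ) ∈ Icc 0 L := ⟨le_rfl, hL⟩
  obtain ⟨τ, hτ, hτ0⟩ := F1_wall hs h0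
  have hcu : IsGeodesicOn c 0 u := F1_mono hc le_rfl hu.2
  have hdist : ∀ s ∈ Icc 0 u, dist (τ 0) (c s) = s := by
    intro s hsu
    rw [hτ0, hcu 0 ⟨le_rfl, hu.1.le⟩ s hsu, zero_sub, abs_neg, abs_of_nonneg hsu.1]
  have hvu : v ∈ Icc 0 u := ⟨hv.1.le, huv⟩
  have huu : u ∈ Icc 0 u := ⟨hu.1.le, le_rfl⟩
  by_cases hcS : π (c u) ∈ S i
  · obtain ⟨Λ, hΛ, hW⟩ := hs.tree.exists_sheet_of_wall hτ i
    have hin : c u ∈ range Λ := F1_in_sheet hs hr hr1 hΛ hW (by rw [hdist u huu]; linarith) hcS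
    obtain ⟨C, hC⟩ := F1_along hs hr hr1 hr2 hr3 hτ hΛ hW hu.1 hu4 hcu hτ0.symm hin
    rw [hC u huu, hC v hvu]
    ring
  · have h1 : wt (S i) (σ 0) (σ r) r (π (c u)) = 0 := by unfold wt; rw [if_neg hcS]
    rw [h1, zero_mul]
    by_cases hvS : π (c v) ∈ S i
    · -- `c v` is on the wall
      have hcov : π (c u) ∈ S (!i) := by
        have := hs.union.ge (mem_univ (π (c u)))
        cases i
        · exact this.resolve_right hcS
        · exact this.resolve_left hcS
      obtain ⟨Λ, hΛ, hW⟩ := hs.tree.exists_sheet_of_wall hτ i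
      obtain ⟨Λ', hΛ', hW'⟩ := hs.tree.exists_sheet_of_wall hτ (!i)
      have hin : c v ∈ range Λ := F1_in_sheet hs hr hr1 hΛ hW (by rw [hdist v hvu]; linarith) hvS
      have hin' : c u ∈ range Λ' :=
        F1_in_sheet hs hr hr1 hΛ' hW' (by rw [hdist u huu]; linarith) hcov
      have hc0 : c 0 ∈ range Λ' := by rw [← hτ0]; exact hW' ⟨0, h0L, rfl⟩
      have hin'' := hs.tree.geod_stay hΛ' hcu hc0 hin' v hvu
      have hwall : c v ∈ τ '' Icc 0 L := by
        cases i
        · rw [← hs.tree.inter_sheets hτ hΛ' hΛ hW' hW]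
          exact ⟨hin'', hin⟩
        · rw [← hs.tree.inter_sheets hτ hΛ hΛ' hW hW']
          exact ⟨hin, hin''⟩
      obtain ⟨s, hs1, hs2⟩ := hwall
      have h2 : wt (S i) (σ 0) (σ r) r (π (c v)) = 0 := by
        unfold wt
        rw [if_pos hvS, ← hs2, hτ.2 s hs1, max_eq_left (F1_seg hs hr hr2 hs1),
          min_eq_right zero_le_one]
      rw [h2, zero_mul]
    · have h2 : wt (S i) (σ 0) (σ r) r (π (c v)) = 0 := by unfold wt; rw [if_neg hvS]
      rw [h2, zero_mul]

/-- points in the open cone see the wall at distance at least the distance to its origin -/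
private lemma F1_far (hs : IsSetup n L ε D S q σ π) {r : ℝ} (hr : 0 < r)
    (hr1 : 64 * r ≤ ε) (hr2 : 64 * r ≤ L) {τ : ℝ → Y}
    (hτ : τ ∈ wallLifts π σ L) {i : Bool} {x : Y} (hx : dist (τ 0) x ≤ 8 * r)
    (hx0 : 0 < wt (S i) (σ 0) (σ r) r (π x)) {Λ : Hyp (n i) → Y} (hΛ : Λ ∈ lifts π (q i))
    (hW : τ '' Icc 0 L ⊆ range Λ) :
    x ∈ range Λ ∧ ∀ s ∈ Icc 0 L, dist x (τ 0) ≤ dist x (τ s) := by
  have hL : 0 ≤ L := hs.tree.L_pos.le
  have hrL : r ∈ Icc 0 L := ⟨hr.le, by linarith⟩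
  have h0L : (0 : ℝ) ∈ Icc 0 L := ⟨le_rfl, hL⟩
  have hgeo := hs.tree.wall_geod τ hτ
  have hxS : π x ∈ S i := by
    by_contra hcon
    unfold wt at hx0
    rw [if_neg hcon] at hx0
    exact lt_irrefl _ hx0
  have hin : x ∈ range Λ := F1_in_sheet hs hr hr1 hΛ hW hx hxS
  refine ⟨hin, fun s hs1 => ?_⟩
  obtain ⟨C, hC⟩ := F1_law hs.tree hΛ hs.tree.L_pos hgeo (fun s hs1 => hW ⟨s, hs1, rfl⟩) hin
  rw [F1_wt_eq hs hr hr1 hr2 hτ i hx hxS, hC r hrL] at hx0
  have h1 : 0 < max 0 (Real.cosh (dist x (τ 0)) * Real.cosh r - C * Real.sinh r -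
      Real.cosh (dist x (τ 0)) * Real.cosh r) := lt_of_lt_of_le hx0 (min_le_right _ _)
  have h2 : 0 < Real.cosh (dist x (τ 0)) * Real.cosh r - C * Real.sinh r -
      Real.cosh (dist x (τ 0)) * Real.cosh r := by
    rcases lt_max_iff.1 h1 with h | h
    · exact absurd h (lt_irrefl _)
    · exact h
  have hrh : 0 < Real.sinh r := Real.sinh_pos_iff.2 hr
  have hCneg : C < 0 := by
    by_contra hcon
    push Not at hcon
    nlinarith [mul_nonneg hcon hrh.le]
  have h3 : Real.cosh (dist x (τ 0)) ≤ Real.cosh (dist x (τ s)) := by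
    rw [hC s hs1]
    have hsh : 0 ≤ Real.sinh s := Real.sinh_nonneg_iff.2 hs1.1
    have h4 := Real.one_le_cosh s
    have h5 := Real.cosh_pos (dist x (τ 0))
    nlinarith [mul_nonneg (neg_nonneg.2 hCneg.le) hsh]
  rw [Real.cosh_le_cosh, abs_of_nonneg dist_nonneg, abs_of_nonneg dist_nonneg] at h3
  exact h3

/-- local concatenation -/
theorem wt_concat (hs : IsSetup n L ε D S q σ π) {r : ℝ} (hr : 0 < r)
    (hr1 : 64 * r ≤ ε) (hr2 : 64 * r ≤ L) (hr3 : 64 * r ≤ 1) {o x y : Y} (ho : π o = σ 0)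
    (hx : dist o x ≤ 8 * r) (hy : dist o y ≤ 8 * r)
    (hx0 : 0 < wt (S true) (σ 0) (σ r) r (π x)) (hy0 : 0 < wt (S false) (σ 0) (σ r) r (π y)) :
    dist x y = dist x o + dist o y := by
  obtain ⟨τ, hτ, hτ0⟩ := F1_wall hs ho
  subst hτ0
  obtain ⟨Λ, hΛ, hW⟩ := hs.tree.exists_sheet_of_wall hτ true
  obtain ⟨Λ', hΛ', hW'⟩ := hs.tree.exists_sheet_of_wall hτ false
  obtain ⟨hin, hfar⟩ := F1_far hs hr hr1 hr2 hτ hx hx0 hΛ hW
  obtain ⟨hin', hfar'⟩ := F1_far hs hr hr1 hr2 hτ hy hy0 hΛ' hW'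
  obtain ⟨s, hs1, hs2⟩ := hs.tree.crossing_dist hτ (i := true)
    (hs.tree.range_subset_V hτ hΛ hW hin) (hs.tree.range_subset_V hτ hΛ' hW' hin')
  refine le_antisymm (dist_triangle _ _ _) ?_
  rw [hs2, dist_comm (τ 0) y, dist_comm (τ s) y]
  exact add_le_add (hfar s hs1) (hfar' s hs1)

/-! ### the observables -/

lemma F1_exp_integrable : Integrable (fun s : ℝ => Real.exp (-2 * |s|)) := by
  have h1 : IntegrableOn (fun s : ℝ => Real.exp (-2 * |s|)) (Ioi 0) := by
    refine (exp_neg_integrableOn_Ioi 0 (b := 2) (by norm_num)).congr_fun (fun s hs => ?_) measurableSet_Ioi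
    simp only [abs_of_pos (mem_Ioi.1 hs)]
  have h2 : IntegrableOn (fun s : ℝ => Real.exp (-2 * |s|)) (Iic 0) := by
    rw [← Measure.map_neg_eq_self (volume : Measure ℝ)]
    let m : MeasurableEmbedding fun x : ℝ => -x := (Homeomorph.neg ℝ).measurableEmbedding
    rw [m.integrableOn_map_iff]
    simp_rw [Function.comp_def, abs_neg, neg_preimage, neg_Iic, neg_zero]
    exact Iff.mpr integrableOn_Ici_iff_integrableOn_Ioi h1
  rw [← integrableOn_univ, ← Iic_union_Ioi (a := (0 : ℝ))]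
  exact h2.union h1

lemma F1_continuous {Z : Type*} [MetricSpace Z] {c : ℝ → Z} (hc : IsLocalGeodesic c) : Continuous c := by
  rw [continuous_iff_continuousAt]
  intro t
  obtain ⟨δ, hδ, h⟩ := hc t
  rw [Metric.continuousAt_iff]
  intro η hη
  refine ⟨min δ η, lt_min hδ hη, fun {s} hs => ?_⟩
  have h1 : |s - t| < δ := lt_of_lt_of_le hs (min_le_left _ _)
  have h2 : |s - t| < η := lt_of_lt_of_le hs (min_le_right _ _)
  rw [abs_lt] at h1
  rw [h s ⟨by linarith, by linarith⟩ t ⟨by linarith, by linarith⟩]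
  exact h2

/-- `f` is bounded by `A` and `A`-Lipschitz -/
def F1LB {Z : Type*} [PseudoMetricSpace Z] (A : ℝ) (f : Z → ℝ) : Prop :=
  (∀ x, |f x| ≤ A) ∧ ∀ x y, |f x - f y| ≤ A * dist x y

lemma F1LB.mono {Z : Type*} [PseudoMetricSpace Z] {A B : ℝ} {f : Z → ℝ} (h : F1LB A f) (hAB : A ≤ B) :
    F1LB B f :=
  ⟨fun x => (h.1 x).trans hAB, fun x y => (h.2 x y).trans (mul_le_mul_of_nonneg_right hAB dist_nonneg)⟩

lemma F1LB.mul {Z : Type*} [PseudoMetricSpace Z] {A B : ℝ} {f g : Z → ℝ} (hf : F1LB A f) (hg : F1LB B g)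
    (hA : 0 ≤ A) (hB : 0 ≤ B) : F1LB (2 * A * B) (fun x => f x * g x) := by
  constructor
  · intro x
    rw [abs_mul]
    have := mul_le_mul (hf.1 x) (hg.1 x) (abs_nonneg _) hA
    nlinarith [mul_nonneg hA hB]
  · intro x y
    have e : f x * g x - f y * g y = f x * (g x - g y) + g y * (f x - f y) := by ring
    rw [e]
    refine (abs_add_le _ _).trans ?_
    rw [abs_mul, abs_mul]
    have h1 := mul_le_mul (hf.1 x) (hg.2 x y) (abs_nonneg _) hA
    have h2 := mul_le_mul (hg.1 y) (hf.2 x y) (abs_nonneg _) hB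
    nlinarith

lemma F1LB.comp {Z W : Type*} [PseudoMetricSpace Z] [PseudoMetricSpace W] {A : ℝ} {f : Z → ℝ}
    (hf : F1LB A f) (hA : 0 ≤ A) {φ : W → Z} (hφ : ∀ x y, dist (φ x) (φ y) ≤ dist x y) :
    F1LB A (fun x => f (φ x)) :=
  ⟨fun x => hf.1 _, fun x y => (hf.2 _ _).trans (mul_le_mul_of_nonneg_left (hφ x y) hA)⟩

/-- clamping -/
noncomputable def F1cl (r u : ℝ) : ℝ := max (r / 2) (min u (3 * r / 2))

lemma F1cl_mem {r : ℝ} (hr : 0 < r) (u : ℝ) : F1cl r u ∈ Icc (r / 2) (3 * r / 2) :=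
  ⟨le_max_left _ _, max_le (by linarith) (min_le_right _ _)⟩

lemma F1cl_eq {r u : ℝ} (h1 : r / 2 ≤ u) (h2 : u ≤ 3 * r / 2) : F1cl r u = u := by
  unfold F1cl; rw [min_eq_left h2, max_eq_right h1]

lemma F1cl_lip (r u v : ℝ) : |F1cl r u - F1cl r v| ≤ |u - v| := by
  unfold F1cl
  calc |max (r / 2) (min u (3 * r / 2)) - max (r / 2) (min v (3 * r / 2))|
      ≤ |min u (3 * r / 2) - min v (3 * r / 2)| := by
        simpa using abs_max_sub_max_le_max (r / 2) (min u (3 * r / 2)) (r / 2) (min v (3 * r / 2))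
    _ ≤ |u - v| := by
        simpa using abs_min_sub_min_le_max u (3 * r / 2) v (3 * r / 2)

/-- the correction factor -/
noncomputable def F1m (r u : ℝ) : ℝ :=
  (Real.sinh r / Real.sinh (F1cl r u)) * (Real.sinh r / Real.sinh (2 * r - F1cl r u))

lemma F1_aux_LB {r : ℝ} (hr : 0 < r) (φ : ℝ → ℝ) (hφ : ∀ u, φ u ∈ Icc (r / 2) (3 * r / 2))
    (hφl : ∀ u v, |φ u - φ v| ≤ |u - v|) : ∃ A, 0 ≤ A ∧ F1LB A (fun u => Real.sinh r / Real.sinh (φ u)) := by
  set a := Real.sinh (r / 2) with ha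
  have ha0 : 0 < a := Real.sinh_pos_iff.2 (by linarith)
  have hs0 : 0 < Real.sinh r := Real.sinh_pos_iff.2 hr
  have hφa : ∀ u, a ≤ Real.sinh (φ u) := fun u => Real.sinh_le_sinh.2 (hφ u).1
  set b := Real.cosh (3 * r / 2) with hb
  have hb0 : 0 < b := Real.cosh_pos _
  refine ⟨Real.sinh r / a + Real.sinh r * b / (a * a), by positivity, ?_, ?_⟩
  · intro u
    have h1 : 0 < Real.sinh (φ u) := ha0.trans_le (hφa u)
    rw [abs_of_pos (div_pos hs0 h1)]
    have : Real.sinh r / Real.sinh (φ u) ≤ Real.sinh r / a :=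
      div_le_div_of_nonneg_left hs0.le ha0 (hφa u)
    have : 0 ≤ Real.sinh r * b / (a * a) := by positivity
    linarith
  · intro u v
    have h1 : 0 < Real.sinh (φ u) := ha0.trans_le (hφa u)
    have h2 : 0 < Real.sinh (φ v) := ha0.trans_le (hφa v)
    have e : Real.sinh r / Real.sinh (φ u) - Real.sinh r / Real.sinh (φ v) =
        Real.sinh r * (Real.sinh (φ v) - Real.sinh (φ u)) / (Real.sinh (φ u) * Real.sinh (φ v)) := by
      field_simp
    have hl : |Real.sinh (φ v) - Real.sinh (φ u)| ≤ b * |u - v| := by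
      have := Convex.norm_image_sub_le_of_norm_hasDerivWithin_le (f := Real.sinh) (f' := Real.cosh)
        (C := b) (s := Icc (r / 2) (3 * r / 2)) (x := φ u) (y := φ v)
        (fun x _ => (Real.hasDerivAt_sinh x).hasDerivWithinAt)
        (fun x hx => by
          rw [Real.norm_eq_abs, abs_of_pos (Real.cosh_pos _), hb, Real.cosh_le_cosh,
            abs_of_nonneg (by linarith [hx.1]), abs_of_nonneg (by linarith)]
          exact hx.2)
        (convex_Icc _ _) (hφ u) (hφ v)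
      rw [Real.norm_eq_abs, Real.norm_eq_abs] at this
      refine this.trans (mul_le_mul_of_nonneg_left ?_ hb0.le)
      rw [abs_sub_comm]
      exact hφl u v
    rw [e, abs_div, abs_mul, abs_of_pos hs0, abs_of_pos (mul_pos h1 h2), Real.dist_eq]
    have h3 : a * a ≤ Real.sinh (φ u) * Real.sinh (φ v) := mul_le_mul (hφa u) (hφa v) ha0.le h1.le
    calc Real.sinh r * |Real.sinh (φ v) - Real.sinh (φ u)| / (Real.sinh (φ u) * Real.sinh (φ v))
        ≤ Real.sinh r * |Real.sinh (φ v) - Real.sinh (φ u)| / (a * a) :=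
          div_le_div_of_nonneg_left (by positivity) (by positivity) h3
      _ ≤ Real.sinh r * (b * |u - v|) / (a * a) := by gcongr
      _ = Real.sinh r * b / (a * a) * |u - v| := by ring
      _ ≤ _ := by
          have : 0 ≤ Real.sinh r / a := by positivity
          have := mul_nonneg this (abs_nonneg (u - v))
          nlinarith

lemma F1m_LB {r : ℝ} (hr : 0 < r) : ∃ A, 0 ≤ A ∧ F1LB A (F1m r) := by
  obtain ⟨A, hA, h1⟩ := F1_aux_LB hr (F1cl r) (F1cl_mem hr) (F1cl_lip r)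
  obtain ⟨B, hB, h2⟩ := F1_aux_LB hr (fun u => 2 * r - F1cl r u)
    (fun u => ⟨by linarith [(F1cl_mem hr u).2], by linarith [(F1cl_mem hr u).1]⟩)
    (fun u v => by
      have : 2 * r - F1cl r u - (2 * r - F1cl r v) = -(F1cl r u - F1cl r v) := by ring
      rw [this, abs_neg]
      exact F1cl_lip r u v)
  exact ⟨2 * A * B, by positivity, h1.mul h2 hA hB⟩

lemma F1k_LB {r : ℝ} (hr : 0 < r) {k : ℝ → ℝ} (hk : ∃ K, LipschitzWith K k)
    (hke : ∀ s, r / 16 < |s| → k s = 0) : ∃ A, 0 ≤ A ∧ F1LB A k := by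
  obtain ⟨K, hK⟩ := hk
  refine ⟨K * (1 + r), by positivity, ?_, ?_⟩
  · intro s
    by_cases hs : |s| ≤ r / 16
    · have h1 : k (r / 8) = 0 := hke _ (by rw [abs_of_pos (by linarith)]; linarith)
      have h2 := hK.dist_le_mul s (r / 8)
      rw [Real.dist_eq, Real.dist_eq, h1, sub_zero] at h2
      refine h2.trans (mul_le_mul_of_nonneg_left ?_ K.2)
      rw [abs_le] at hs
      rw [abs_le]
      constructor <;> linarith [hs.1, hs.2]
    · rw [hke s (not_le.1 hs), abs_zero]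
      positivity
  · intro s t
    have h2 := hK.dist_le_mul s t
    rw [Real.dist_eq, Real.dist_eq] at h2
    rw [Real.dist_eq]
    refine h2.trans ?_
    have : 0 ≤ (K : ℝ) * r * |s - t| := by positivity
    nlinarith


theorem gate_obs (hs : IsSetup n L ε D S q σ π) (hB : IsBusemannConvex Y) {r : ℝ} (hr : 0 < r)
    (hr1 : 64 * r ≤ ε) (hr2 : 64 * r ≤ L) (hr3 : 64 * r ≤ 1)
    (k : ℝ → ℝ) (hk : ∃ K, LipschitzWith K k) (hk0 : ∀ s, 0 ≤ k s)
    (hke : ∀ s, r / 16 < |s| → k s = 0) :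
    ∃ (Φ : GeodSpace X → ℝ) (B : ℝ), IsHolderWith 1 B B Φ ∧
      IsGateObs (σ 0) r (r / 16) (wt (S true) (σ 0) (σ r) r) (wt (S false) (σ 0) (σ r) r) k Φ := by
  classical
  have hcomp := hs.compact
  have hG := hs.cover.geodesic
  obtain ⟨M, hM⟩ := Metric.isBounded_iff.1 (isCompact_univ (X := X)).isBounded
  have hM' : ∀ x y : X, dist x y ≤ M := fun x y => hM (mem_univ x) (mem_univ y)
  have hwt := fun i x => wt_mem (S i) (σ 0) (σ r) r x
  obtain ⟨K1, hK1⟩ := wt_lipschitz hs hr hr2 true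
  obtain ⟨K2, hK2⟩ := wt_lipschitz hs hr hr2 false
  have hdir := fun (i : Bool) (c : ℝ → Y) (a u v : ℝ) hc h0 hu hv hu4 hv4 =>
    wt_dir hs hr hr1 hr2 hr3 i (c := c) (a := a) (u := u) (v := v) hc h0 hu hv hu4 hv4
  have hconc := fun (o x y : Y) ho hx hy hx0 hy0 =>
    wt_concat hs hr hr1 hr2 hr3 (o := o) (x := x) (y := y) ho hx hy hx0 hy0
  set α := wt (S true) (σ 0) (σ r) r with hα
  set β := wt (S false) (σ 0) (σ r) r with hβ
  set p := σ 0 with hp
  have hαm : ∀ x, α x ∈ Icc (0 : ℝ) 1 := fun x => hwt true x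
  have hβm : ∀ x, β x ∈ Icc (0 : ℝ) 1 := fun x => hwt false x
  have hαLB : F1LB (1 + K1) α := by
    refine ⟨fun x => ?_, fun x y => ?_⟩
    · rw [abs_of_nonneg (hαm x).1]
      have := (hαm x).2
      have := K1.2
      linarith [K1.coe_nonneg]
    · have := hK1.dist_le_mul x y
      rw [Real.dist_eq] at this
      have h0 := dist_nonneg (x := x) (y := y)
      linarith
  have hβLB : F1LB (1 + K2) β := by
    refine ⟨fun x => ?_, fun x y => ?_⟩
    · rw [abs_of_nonneg (hβm x).1]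
      have := (hβm x).2
      linarith [K2.coe_nonneg]
    · have := hK2.dist_le_mul x y
      rw [Real.dist_eq] at this
      have h0 := dist_nonneg (x := x) (y := y)
      linarith
  obtain ⟨Ak, hAk, hkLB⟩ := F1k_LB hr hk hke
  obtain ⟨Am, hAm, hmLB⟩ := F1m_LB hr
  have hK1' : (0 : ℝ) ≤ 1 + K1 := by positivity
  have hK2' : (0 : ℝ) ≤ 1 + K2 := by positivity
  set J : ℝ → X → ℝ := fun s x => (k (s + dist x p - r) * F1m r (dist x p)) * α x with hJdef
  set A1 : ℝ := 2 * (2 * Ak * Am) * (1 + K1) with hA1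
  have hA1' : 0 ≤ A1 := by positivity
  have hJ : ∀ s, F1LB A1 (J s) := by
    intro s
    refine F1LB.mul (F1LB.mul (F1LB.comp hkLB hAk (φ := fun x => s + dist x p - r) ?_)
      (F1LB.comp hmLB hAm (φ := fun x => dist x p) ?_) hAk hAm) hαLB (by positivity) hK1'
    · intro x y
      rw [Real.dist_eq]
      have : s + dist x p - r - (s + dist y p - r) = dist x p - dist y p := by ring
      rw [this]
      exact abs_dist_sub_le x y p
    · intro x y
      rw [Real.dist_eq]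
      exact abs_dist_sub_le x y p
  set F : ℝ → GeodSpace X → ℝ := fun s c => J s (c.1 (s - r)) * β (c.1 (s + r)) with hF
  set A : ℝ := A1 * (1 + K2) with hA
  have hA' : 0 ≤ A := by positivity
  have hFb : ∀ s c, |F s c| ≤ A := by
    intro s c
    simp only [hF]
    rw [abs_mul]
    exact mul_le_mul ((hJ s).1 _) (hβLB.1 _) (abs_nonneg _) hA1'
  have hFl : ∀ s c c', |F s c - F s c'| ≤
      A * (dist (c.1 (s - r)) (c'.1 (s - r)) + dist (c.1 (s + r)) (c'.1 (s + r))) := by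
    intro s c c'
    simp only [hF]
    have e : J s (c.1 (s - r)) * β (c.1 (s + r)) - J s (c'.1 (s - r)) * β (c'.1 (s + r)) =
        J s (c.1 (s - r)) * (β (c.1 (s + r)) - β (c'.1 (s + r))) +
        β (c'.1 (s + r)) * (J s (c.1 (s - r)) - J s (c'.1 (s - r))) := by ring
    rw [e]
    refine (abs_add_le _ _).trans ?_
    rw [abs_mul (J s (c.1 (s - r))), abs_mul (β (c'.1 (s + r)))]
    have h1 := mul_le_mul ((hJ s).1 (c.1 (s - r))) (hβLB.2 (c.1 (s + r)) (c'.1 (s + r)))
      (abs_nonneg _) hA1'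
    have h2 := mul_le_mul (hβLB.1 (c'.1 (s + r))) ((hJ s).2 (c.1 (s - r)) (c'.1 (s - r)))
      (abs_nonneg _) hK2'
    rw [hA]
    nlinarith
  have hkc : Continuous k := hk.choose_spec.continuous
  have hmc : Continuous (F1m r) := by
    have : LipschitzWith Am.toNNReal (F1m r) := LipschitzWith.of_dist_le_mul fun x y => by
      rw [Real.coe_toNNReal _ hAm, Real.dist_eq]; exact hmLB.2 x y
    exact this.continuous
  have hJc : Continuous (fun z : ℝ × X => J z.1 z.2) := by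
    simp only [hJdef]
    have h1 : Continuous (fun z : ℝ × X => k (z.1 + dist z.2 p - r)) := hkc.comp (by fun_prop)
    have h2 : Continuous (fun z : ℝ × X => F1m r (dist z.2 p)) := hmc.comp (by fun_prop)
    exact (h1.mul h2).mul (hK1.continuous.comp continuous_snd)
  have hFc : ∀ c, Continuous (fun s => F s c) := by
    intro c
    have hc := F1_continuous c.2
    simp only [hF]
    have h1 : Continuous (fun s : ℝ => J s (c.1 (s - r))) :=
      hJc.comp (continuous_id.prodMk (hc.comp (continuous_id.sub continuous_const)))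
    exact h1.mul (hK2.continuous.comp (hc.comp (continuous_id.add continuous_const)))
  have hFm : ∀ s, Measurable (F s) := by
    intro s
    simp only [hF]
    have h1 : Continuous (J s) := hJc.comp (continuous_const.prodMk continuous_id)
    exact (measurable_eval h1 (s - r)).mul (measurable_eval hK2.continuous (s + r))
  set Φ : GeodSpace X → ℝ := fun c => (8 / r) * ∫ s in Ioc (-(r / 16)) (r / 16), F s c with hΦ
  have hvol : volume.real (Ioc (-(r / 16)) (r / 16)) = r / 8 := by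
    rw [measureReal_def, Real.volume_Ioc, ENNReal.toReal_ofReal (by linarith)]; ring
  have hfin : volume (Ioc (-(r / 16)) (r / 16)) < ⊤ := by
    rw [Real.volume_Ioc]; exact ENNReal.ofReal_lt_top
  -- measurability
  have hΦm : Measurable Φ := by
    have h1 : Measurable (Function.uncurry F) :=
      measurable_uncurry_of_continuous_of_measurable hFc hFm
    have h2 : Measurable (Function.uncurry fun (c : GeodSpace X) (s : ℝ) => F s c) :=
      h1.comp measurable_swap
    have h3 := (h2.stronglyMeasurable.integral_prod_right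
      (ν := volume.restrict (Ioc (-(r / 16)) (r / 16)))).measurable
    exact h3.const_mul _
  have hFint : ∀ c, IntegrableOn (fun s => F s c) (Ioc (-(r / 16)) (r / 16)) := by
    intro c
    exact ((hFc c).continuousOn.integrableOn_Icc).mono_set Ioc_subset_Icc_self
  -- nonnegativity
  have hF0 : ∀ s c, 0 ≤ F s c := by
    intro s c
    simp only [hF, hJdef]
    have h1 : 0 ≤ F1m r (dist (c.1 (s - r)) p) := by
      unfold F1m
      have hm := F1cl_mem hr (dist (c.1 (s - r)) p)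
      have h1 : 0 < Real.sinh r := Real.sinh_pos_iff.2 hr
      have h2 : 0 < Real.sinh (F1cl r (dist (c.1 (s - r)) p)) :=
        Real.sinh_pos_iff.2 (by linarith [hm.1])
      have h3 : 0 < Real.sinh (2 * r - F1cl r (dist (c.1 (s - r)) p)) :=
        Real.sinh_pos_iff.2 (by linarith [hm.2])
      positivity
    exact mul_nonneg (mul_nonneg (mul_nonneg (hk0 _) h1) (hαm _).1) (hβm _).1
  have hΦ0 : ∀ c, 0 ≤ Φ c := by
    intro c
    simp only [hΦ]
    exact mul_nonneg (by positivity) (integral_nonneg fun s => hF0 s c)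
  -- the metric of `GX`
  set g : GeodSpace X → GeodSpace X → ℝ → ℝ :=
    fun c c' v => dist (c.1 v) (c'.1 v) * Real.exp (-2 * |v|) with hg
  have hgint : ∀ c c', Integrable (g c c') := by
    intro c c'
    refine (F1_exp_integrable.const_mul M).mono' ?_ ?_
    · have hc := F1_continuous c.2
      have hc' := F1_continuous c'.2
      have : Continuous (g c c') := by
        simp only [hg]
        exact (hc.dist hc').mul (by fun_prop)
      exact this.aestronglyMeasurable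
    · refine Eventually.of_forall fun v => ?_
      simp only [hg]
      rw [Real.norm_eq_abs, abs_of_nonneg (by positivity)]
      exact mul_le_mul_of_nonneg_right (hM' _ _) (Real.exp_pos _).le
  have hg0 : ∀ c c' v, 0 ≤ g c c' v := by
    intro c c' v
    simp only [hg]
    positivity
  have hgd : ∀ c c', ∫ v, g c c' v = GeodSpace.gdist c c' := fun c c' => rfl
  set E : ℝ := Real.exp (2 * (r + r / 16)) with hE
  have hE0 : 0 < E := Real.exp_pos _
  have hDg : ∀ c c' v, |v| ≤ r + r / 16 → dist (c.1 v) (c'.1 v) ≤ E * g c c' v := by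
    intro c c' v hv
    simp only [hg]
    have h1 : 1 ≤ E * Real.exp (-2 * |v|) := by
      rw [hE, ← Real.exp_add]
      exact Real.one_le_exp (by linarith)
    have h0 : 0 ≤ dist (c.1 v) (c'.1 v) := dist_nonneg
    nlinarith
  have hshift : ∀ c c' (w : ℝ), ∫ s in Ioc (-(r / 16)) (r / 16), g c c' (s + w) ≤
      GeodSpace.gdist c c' := by
    intro c c' w
    rw [← hgd, ← integral_add_right_eq_self (g c c') w]
    exact setIntegral_le_integral ((hgint c c').comp_add_right w)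
      (Eventually.of_forall fun s => hg0 c c' _)
  have hshint : ∀ c c' (w : ℝ), IntegrableOn (fun s => g c c' (s + w)) (Ioc (-(r / 16)) (r / 16)) :=
    fun c c' w => ((hgint c c').comp_add_right w).integrableOn
  refine ⟨Φ, A + (16 / r) * A * E, ⟨?_, ?_⟩, hΦ0, hΦm, ?_, ?_⟩
  · -- bound
    intro c
    simp only [hΦ]
    rw [abs_mul, abs_of_pos (by positivity : 0 < 8 / r)]
    have h1 : ‖∫ s in Ioc (-(r / 16)) (r / 16), F s c‖ ≤ A * volume.real (Ioc (-(r / 16)) (r / 16)) :=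
      norm_setIntegral_le_of_norm_le_const hfin (fun s _ => hFb s c)
    rw [hvol, Real.norm_eq_abs] at h1
    have h2 : 8 / r * |∫ s in Ioc (-(r / 16)) (r / 16), F s c| ≤ 8 / r * (A * (r / 8)) :=
      mul_le_mul_of_nonneg_left h1 (by positivity)
    have h3 : 8 / r * (A * (r / 8)) = A := by field_simp
    have h4 : 0 ≤ (16 / r) * A * E := by positivity
    linarith
  · -- Lipschitz
    intro c c'
    rw [Real.rpow_one]
    simp only [hΦ]
    rw [← mul_sub, ← integral_sub (hFint c) (hFint c'), abs_mul, abs_of_pos (by positivity : 0 < 8 / r)]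
    have h1 : |∫ s in Ioc (-(r / 16)) (r / 16), (F s c - F s c')| ≤
        ∫ s in Ioc (-(r / 16)) (r / 16), A * E * (g c c' (s + (-r)) + g c c' (s + r)) := by
      rw [← Real.norm_eq_abs]
      refine (norm_integral_le_integral_norm _).trans ?_
      refine setIntegral_mono_on ((hFint c).sub (hFint c')).norm
        (((hshint c c' (-r)).add (hshint c c' r)).const_mul _) measurableSet_Ioc fun s hs1 => ?_
      rw [Real.norm_eq_abs]
      refine (hFl s c c').trans ?_
      have e1 : A * E * (g c c' (s + -r) + g c c' (s + r)) =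
          A * (E * g c c' (s + -r) + E * g c c' (s + r)) := by ring
      rw [e1]
      refine mul_le_mul_of_nonneg_left ?_ hA'
      have a1 : |s + -r| ≤ r + r / 16 := by
        rw [abs_le]; constructor <;> linarith [hs1.1, hs1.2]
      have a2 : |s + r| ≤ r + r / 16 := by
        rw [abs_le]; constructor <;> linarith [hs1.1, hs1.2]
      exact add_le_add (hDg c c' (s + -r) a1) (hDg c c' (s + r) a2)
    rw [integral_const_mul, integral_add (hshint c c' (-r)) (hshint c c' r)] at h1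
    have h2 := hshift c c' (-r)
    have h3 := hshift c c' r
    have h4 : 0 ≤ GeodSpace.gdist c c' := by
      rw [← hgd]; exact integral_nonneg fun v => hg0 c c' v
    have h5 : |∫ s in Ioc (-(r / 16)) (r / 16), (F s c - F s c')| ≤
        A * E * (2 * GeodSpace.gdist c c') :=
      h1.trans (mul_le_mul_of_nonneg_left (by linarith) (by positivity))
    have h6 : 8 / r * |∫ s in Ioc (-(r / 16)) (r / 16), (F s c - F s c')| ≤
        8 / r * (A * E * (2 * GeodSpace.gdist c c')) := mul_le_mul_of_nonneg_left h5 (by positivity)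
    have h7 : 8 / r * (A * E * (2 * GeodSpace.gdist c c')) =
        (16 / r) * A * E * GeodSpace.gdist c c' := by ring
    have h8 := mul_nonneg hA' h4
    rw [add_mul]
    linarith
  · -- value at a geodesic through `p`
    intro c t ht hct
    obtain ⟨o, ho⟩ := hs.cover.surjective p
    obtain ⟨c', hc't, hc'⟩ := hs.cover.exists_geodLift c t (y := o) (by rw [ho, hct])
    have hiso := IsBusemannConvex.isometry hG hB c'
    have hdd : ∀ u v : ℝ, dist (c'.1 u) (c'.1 v) = |u - v| := fun u v => by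
      rw [hiso.dist_eq, Real.dist_eq]
    -- the two rays
    have hplus : IsGeodesicOn (fun v => c'.1 (t + v)) 0 (4 * r) := fun u _ v _ => by
      rw [hdd]; congr 1; ring
    have hminus : IsGeodesicOn (fun v => c'.1 (t - v)) 0 (4 * r) := fun u _ v _ => by
      rw [hdd, abs_sub_comm]; congr 1; ring
    have hrr : r ∈ Ioc 0 (4 * r) := ⟨hr, by linarith⟩
    have hsr : 0 < Real.sinh r := Real.sinh_pos_iff.2 hr
    rw [abs_le] at ht
    have key : ∀ s ∈ Ioc (-(r / 16)) (r / 16), F s c = k t * α (c.1 (t - r)) * β (c.1 (t + r)) := by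
      intro s hs1
      set u : ℝ := r + t - s with hu
      have hu1 : 7 * r / 8 ≤ u := by linarith [hs1.2, ht.1]
      have hu2 : u ≤ 9 * r / 8 := by linarith [hs1.1, ht.2]
      have hum : u ∈ Ioc 0 (4 * r) := ⟨by linarith, by linarith⟩
      have hwm : 2 * r - u ∈ Ioc 0 (4 * r) := ⟨by linarith, by linarith⟩
      have hdist : dist (c.1 (s - r)) p = u := by
        have h1 := (hs.uniform (c'.1 t)).1 (c'.1 (s - r)) (by
          rw [mem_ball, hdd]
          have : |s - r - t| = u := by rw [abs_of_nonpos (by linarith)]; ring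
          rw [this]; linarith) (c'.1 t) (mem_ball_self (by linarith))
        rw [hc', hc', hct, hdd] at h1
        rw [h1, abs_of_nonpos (by linarith)]
        ring
      have d1 := hdir true (fun v => c'.1 (t - v)) (4 * r) u r hminus (by
        simp only [sub_zero]; rw [hc't, ho]) hum hrr (by linarith) (by linarith)
      have d2 := hdir false (fun v => c'.1 (t + v)) (4 * r) (2 * r - u) r hplus (by
        simp only [add_zero]; rw [hc't, ho]) hwm hrr (by linarith) (by linarith)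
      simp only [hc'] at d1 d2
      have e1 : t - u = s - r := by rw [hu]; ring
      have e2 : t + (2 * r - u) = s + r := by rw [hu]; ring
      rw [e1] at d1
      rw [e2] at d2
      simp only [hF, hJdef]
      rw [hdist]
      have e3 : s + u - r = t := by rw [hu]; ring
      rw [e3]
      unfold F1m
      rw [F1cl_eq (by linarith) (by linarith)]
      have hsu : 0 < Real.sinh u := Real.sinh_pos_iff.2 hum.1
      have hsw : 0 < Real.sinh (2 * r - u) := Real.sinh_pos_iff.2 hwm.1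
      have g1 : Real.sinh r / Real.sinh u * α (c.1 (s - r)) = α (c.1 (t - r)) := by
        rw [div_mul_eq_mul_div, div_eq_iff hsu.ne', mul_comm]
        exact d1
      have g2 : Real.sinh r / Real.sinh (2 * r - u) * β (c.1 (s + r)) = β (c.1 (t + r)) := by
        rw [div_mul_eq_mul_div, div_eq_iff hsw.ne', mul_comm]
        exact d2
      rw [← g1, ← g2]
      ring
    simp only [hΦ]
    rw [setIntegral_congr_fun measurableSet_Ioc key, setIntegral_const, hvol, smul_eq_mul]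
    field_simp
  · -- support
    intro c hc
    have hex : ∃ s ∈ Ioc (-(r / 16)) (r / 16), F s c ≠ 0 := by
      by_contra hcon
      push Not at hcon
      apply hc
      simp only [hΦ]
      rw [setIntegral_congr_fun measurableSet_Ioc (g := fun _ => (0 : ℝ)) hcon]
      simp
    obtain ⟨s, hs1, hs2⟩ := hex
    simp only [hF, hJdef] at hs2
    have hk1 : k (s + dist (c.1 (s - r)) p - r) ≠ 0 := fun h => hs2 (by rw [h]; ring)
    have hα1 : 0 < α (c.1 (s - r)) :=
      lt_of_le_of_ne (hαm _).1 (fun h => hs2 (by rw [← h]; ring))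
    have hβ1 : 0 < β (c.1 (s + r)) :=
      lt_of_le_of_ne (hβm _).1 (fun h => hs2 (by rw [← h]; ring))
    set u : ℝ := dist (c.1 (s - r)) p with hu
    have hku : |s + u - r| ≤ r / 16 := by
      by_contra hcon
      exact hk1 (hke _ (not_le.1 hcon))
    have hku' := abs_le.1 hku
    have hu1 : 7 * r / 8 ≤ u := by linarith [hs1.2, hku'.1]
    have hu2 : u ≤ 9 * r / 8 := by linarith [hs1.1, hku'.2]
    obtain ⟨y0, hy0⟩ := hs.cover.surjective (c.1 (s - r))
    obtain ⟨c', hc't, hc'⟩ := hs.cover.exists_geodLift c (s - r) (y := y0) hy0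
    have hiso := IsBusemannConvex.isometry hG hB c'
    have hdd : ∀ u v : ℝ, dist (c'.1 u) (c'.1 v) = |u - v| := fun u v => by
      rw [hiso.dist_eq, Real.dist_eq]
    obtain ⟨o, ho1, ho2⟩ := (hs.uniform y0).2 p (by
      rw [hy0, mem_ball, dist_comm, ← hu]; linarith)
    have hdo : dist y0 o = u := by
      have h1 := (hs.uniform y0).1 y0 (mem_ball_self (by linarith)) o ho1
      rw [hy0, ho2] at h1
      rw [← h1]
    have hxy : dist (c'.1 (s - r)) (c'.1 (s + r)) = 2 * r := by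
      rw [hdd, abs_of_nonpos (by linarith)]; ring
    have hoy : dist o (c'.1 (s + r)) ≤ u + 2 * r := by
      calc dist o (c'.1 (s + r)) ≤ dist o (c'.1 (s - r)) + dist (c'.1 (s - r)) (c'.1 (s + r)) :=
            dist_triangle _ _ _
        _ = u + 2 * r := by rw [hxy, hc't, dist_comm, hdo]
    have h3 := hconc o (c'.1 (s - r)) (c'.1 (s + r)) ho2 (by rw [hc't, dist_comm, hdo]; linarith)
      (by linarith) (by rw [hc']; exact hα1) (by rw [hc']; exact hβ1)
    -- `c'` passes through `o`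
    have hgeo : IsGeodesicOn (fun v => c'.1 (s - r + v)) 0 (2 * r) := fun a _ b _ => by
      rw [hdd]; congr 1; ring
    have h4 := (IsBusemannConvex.geo_between hG hB h3.symm).1
    have h5 := IsBusemannConvex.geo_eq hG hB (by linarith : 0 ≤ 2 * r) hgeo u ⟨by linarith, by linarith⟩
    simp only [add_zero] at h5
    have e1 : s - r + 2 * r = s + r := by ring
    rw [e1] at h5
    have e2 : dist (c'.1 (s - r)) o = u := by rw [hc't, hdo]
    rw [e2, h5] at h4
    have hct : c'.1 (s - r + u) = o := h4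
    set t : ℝ := s - r + u with ht
    have ht1 : |t| ≤ r / 16 := by
      have : t = s + u - r := by rw [ht]; ring
      rw [this]; exact hku
    have hplus : IsGeodesicOn (fun v => c'.1 (t + v)) 0 (4 * r) := fun u _ v _ => by
      rw [hdd]; congr 1; ring
    have hminus : IsGeodesicOn (fun v => c'.1 (t - v)) 0 (4 * r) := fun u _ v _ => by
      rw [hdd, abs_sub_comm]; congr 1; ring
    have hrr : r ∈ Ioc 0 (4 * r) := ⟨hr, by linarith⟩
    have hum : u ∈ Ioc 0 (4 * r) := ⟨by linarith, by linarith⟩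
    have hwm : 2 * r - u ∈ Ioc 0 (4 * r) := ⟨by linarith, by linarith⟩
    have d1 := hdir true (fun v => c'.1 (t - v)) (4 * r) u r hminus (by
      simp only [sub_zero]; rw [hct, ho2]) hum hrr (by linarith) (by linarith)
    have d2 := hdir false (fun v => c'.1 (t + v)) (4 * r) (2 * r - u) r hplus (by
      simp only [add_zero]; rw [hct, ho2]) hwm hrr (by linarith) (by linarith)
    simp only [hc'] at d1 d2
    have e3 : t - u = s - r := by rw [ht]; ring
    have e4 : t + (2 * r - u) = s + r := by rw [ht]; ring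
    rw [e3] at d1
    rw [e4] at d2
    have hsr : 0 < Real.sinh r := Real.sinh_pos_iff.2 hr
    have hsu : 0 < Real.sinh u := Real.sinh_pos_iff.2 hum.1
    have hsw : 0 < Real.sinh (2 * r - u) := Real.sinh_pos_iff.2 hwm.1
    refine ⟨t, ht1, by rw [← hc', hct, ho2], ?_, ?_⟩
    · have : 0 < α (c.1 (t - r)) * Real.sinh u := by rw [← d1]; exact mul_pos hα1 hsr
      exact pos_of_mul_pos_left this hsu.le
    · have : 0 < β (c.1 (t + r)) * Real.sinh (2 * r - u) := by rw [← d2]; exact mul_pos hβ1 hsr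
      exact pos_of_mul_pos_left this hsw.le

theorem isGate (hs : IsSetup n L ε D S q σ π) (hB : IsBusemannConvex Y) {r : ℝ} (hr : 0 < r)
    (hr1 : 64 * r ≤ ε) (hr2 : 64 * r ≤ L) (hr3 : 64 * r ≤ 1) :
    IsGate π (σ 0) r (r / 16) (wt (S true) (σ 0) (σ r) r) (wt (S false) (σ 0) (σ r) r) := by
  obtain ⟨K₁, hK₁⟩ := wt_lipschitz hs hr hr2 true
  obtain ⟨K₂, hK₂⟩ := wt_lipschitz hs hr hr2 false
  refine ⟨by positivity, by linarith, wt_mem _ _ _ _, wt_mem _ _ _ _, hK₁.continuous,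
    hK₂.continuous, hs.uniform.mono (by positivity) (by linarith), ?_,
    fun k hk hk0 hke => gate_obs hs hB hr hr1 hr2 hr3 k hk hk0 hke⟩
  intro c c' a b hc hc' h0 hp hra hrb hα hβ
  have h1 : dist (c 0) (c r) = r := by
    rw [hc 0 ⟨le_rfl, by linarith⟩ r ⟨hr.le, hra⟩, zero_sub, abs_neg, abs_of_pos hr]
  have h2 : dist (c 0) (c' r) = r := by
    rw [h0, hc' 0 ⟨le_rfl, by linarith⟩ r ⟨hr.le, hrb⟩, zero_sub, abs_neg, abs_of_pos hr]
  have h3 := wt_concat hs hr hr1 hr2 hr3 hp (x := c r) (y := c' r) (by rw [h1]; linarith)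
    (by rw [h2]; linarith) hα hβ
  refine IsBusemannConvex.concat hs.cover.geodesic hB hr hra hrb hc hc' h0 ?_
  rw [h3, dist_comm (c r) (c 0), h1, h2]
  ring

end MP4a77c6
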