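import Pool.Agent.Lib.MP_4a77c6_an.F1

open Set Metric MeasureTheory Filter Topology
open scoped ENNReal NNReal

namespace MP4a77c6

/-! Task F2: every boundary point is seen through some gate. -/

variable {Y X : Type*} [MetricSpace Y] [MetricSpace X] {n : Bool → ℕ} {L ε D : ℝ}
    {S : Bool → Set X} {q : ∀ i, Hyp (n i) → X} {σ : ℝ → X} {π : Y → X}

/-- a geodesic of `Y` inside a sheet is (the image of) a line of `Hyp` -/
private lemma F2_line {Y : Type*} [MetricSpace Y] {H : Type*} [MetricSpace H] (hH : HypLike H)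
    {Λ : H → Y} (hΛ : Isometry Λ) {c : ℝ → Y} {a b : ℝ} (hab : a < b) (hc : IsGeodesicOn c a b)
    (hr : ∀ t ∈ Icc a b, c t ∈ range Λ) :
    ∃ g : ℝ → H, Isometry g ∧ ∀ t ∈ Icc a b, Λ (g t) = c t := by
  classical
  have hr' : ∀ t : ℝ, ∃ u : H, t ∈ Icc a b → Λ u = c t := by
    intro t
    by_cases ht : t ∈ Icc a b
    · obtain ⟨u, hu⟩ := hr t ht
      exact ⟨u, fun _ => hu⟩
    · obtain ⟨u, _⟩ := hr a ⟨le_rfl, hab.le⟩
      exact ⟨u, fun h => absurd h ht⟩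
  choose g0 hg0 using hr'
  have hgeo : IsGeodesicOn g0 a b := by
    intro s hs t ht
    rw [← hΛ.dist_eq, hg0 s hs, hg0 t ht]
    exact hc s hs t ht
  obtain ⟨g, hg, hgg⟩ := hH.exists_line hab hgeo
  exact ⟨g, hg, fun t ht => by rw [hgg t ht, hg0 t ht]⟩

/-- points in the cone of a gate are seen through this gate -/
private lemma F2_cone (hs : IsSetup n L ε D S q σ π) {r : ℝ} (hr : 0 < r) (hr1 : 64 * r ≤ ε)
    (hr2 : 64 * r ≤ L) (i : Bool) {τ : ℝ → Y} (hτ : τ ∈ wallLifts π σ L) {Λ : Hyp (n i) → Y}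
    (hΛ : Λ ∈ lifts π (q i)) (hW : τ '' Icc 0 L ⊆ range Λ) {c : ℝ → Y} {d : ℝ} (hd : r ≤ d)
    (hc : IsGeodesicOn c 0 d) (h0 : c 0 = τ 0) (h1 : c d ∈ range Λ)
    (hcone : Real.cosh (dist (c d) (τ 0)) * Real.cosh r < Real.cosh (dist (c d) (τ r))) :
    0 < wt (S i) (σ 0) (σ r) r (π (c r)) := by
  have h := hs.tree
  have hΛi : Isometry Λ := h.sheet_isometry i Λ hΛ
  have hH : HypLike (Hyp (n i)) := hyp_hypLike (h.n_pos i)
  have hL : (0 : ℝ) < L := h.L_pos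
  have hd0 : 0 < d := hr.trans_le hd
  have h0L : (0 : ℝ) ∈ Icc 0 L := ⟨le_rfl, hL.le⟩
  have hrL : r ∈ Icc 0 L := ⟨hr.le, by linarith⟩
  have hc0 : c 0 ∈ range Λ := by rw [h0]; exact hW (mem_image_of_mem τ h0L)
  have hstay := h.geod_stay hΛ hc hc0 h1
  obtain ⟨g, hg, hgc⟩ := F2_line hH hΛi hd0 hc hstay
  obtain ⟨A, hA⟩ := hW (mem_image_of_mem τ hrL)
  obtain ⟨C, hC⟩ := hH.hl g hg A
  have hd00 : (0 : ℝ) ∈ Icc 0 d := ⟨le_rfl, hd0.le⟩
  have hdd : d ∈ Icc 0 d := ⟨hd0.le, le_rfl⟩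
  have hrd : r ∈ Icc 0 d := ⟨hr.le, hd⟩
  have hwg := h.wall_geod τ hτ
  have hτr : dist (τ r) (τ 0) = r := by
    rw [hwg r hrL 0 h0L, sub_zero, abs_of_pos hr]
  have e0 : dist A (g 0) = r := by
    rw [← hΛi.dist_eq, hA, hgc 0 hd00, h0, hτr]
  have ed : dist A (g d) = dist (c d) (τ r) := by
    rw [← hΛi.dist_eq, hA, hgc d hdd, dist_comm]
  have er : dist A (g r) = dist (c r) (τ r) := by
    rw [← hΛi.dist_eq, hA, hgc r hrd, dist_comm]
  have ecd : dist (c d) (τ 0) = d := by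
    rw [← h0, hc d hdd 0 hd00, sub_zero, abs_of_pos hd0]
  have ecr : dist (c r) (τ 0) = r := by
    rw [← h0, hc r hrd 0 hd00, sub_zero, abs_of_pos hr]
  have hCd := hC d
  have hCr := hC r
  rw [e0, ed] at hCd
  rw [e0, er] at hCr
  rw [ecd] at hcone
  have hsd : 0 < Real.sinh d := Real.sinh_pos_iff.2 hd0
  have hsr : 0 < Real.sinh r := Real.sinh_pos_iff.2 hr
  have hCneg : C < 0 := by
    by_contra hC0
    push Not at hC0
    have : 0 ≤ C * Real.sinh d := mul_nonneg hC0 hsd.le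
    nlinarith
  have hgt : Real.cosh r * Real.cosh r < Real.cosh (dist (c r) (τ r)) := by
    rw [hCr]
    have : C * Real.sinh r < 0 := mul_neg_of_neg_of_pos hCneg hsr
    linarith
  have hε : 0 < ε := h.eps_pos
  have hb1 : c r ∈ ball (τ 0) ε := by rw [mem_ball, ecr]; linarith
  have hb2 : τ r ∈ ball (τ 0) ε := by rw [mem_ball, hτr]; linarith
  have hb3 : τ 0 ∈ ball (τ 0) ε := mem_ball_self hε
  have f1 : dist (π (c r)) (σ r) = dist (c r) (τ r) := by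
    rw [← hτ.2 r hrL]
    exact (hs.uniform (τ 0)).1 _ hb1 _ hb2
  have f2 : dist (π (c r)) (σ 0) = r := by
    rw [← hτ.2 0 h0L, (hs.uniform (τ 0)).1 _ hb1 _ hb3, ecr]
  have f3 : π (c r) ∈ S i := h.sheet_reg i Λ hΛ (hstay r hrd)
  unfold wt
  rw [if_pos f3, f1, f2]
  refine lt_min zero_lt_one (lt_max_of_lt_right ?_)
  linarith

/-- the extension of a wall to a line of a sheet, and walls of the sheet in its cone -/
private lemma F2_far (hs : IsSetup n L ε D S q σ π) {r : ℝ} (hr : 0 < r)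
    (hr2 : 64 * r ≤ L) (hr3 : 64 * r ≤ 1) (i : Bool) {τ : ℝ → Y} (hτ : τ ∈ wallLifts π σ L)
    {Λ : Hyp (n i) → Y} (hΛ : Λ ∈ lifts π (q i)) (hW : τ '' Icc 0 L ⊆ range Λ) :
    ∃ τ' ∈ wallLifts π σ L, τ' '' Icc 0 L ⊆ range Λ ∧ ∀ s ∈ Icc 0 L,
      (∀ s' ∈ Icc 0 L, r ≤ dist (τ s') (τ' s)) ∧
      Real.cosh (dist (τ' s) (τ 0)) * Real.cosh r < Real.cosh (dist (τ' s) (τ r)) := by
  have h := hs.tree
  have hΛi : Isometry Λ := h.sheet_isometry i Λ hΛ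
  have hH : HypLike (Hyp (n i)) := hyp_hypLike (h.n_pos i)
  have hL : (0 : ℝ) < L := h.L_pos
  have h0L : (0 : ℝ) ∈ Icc 0 L := ⟨le_rfl, hL.le⟩
  have hrL : r ∈ Icc 0 L := ⟨hr.le, by linarith⟩
  have hwg := h.wall_geod τ hτ
  obtain ⟨g, hg, hgτ⟩ := F2_line hH hΛi hL hwg (fun t ht => hW (mem_image_of_mem τ ht))
  set R : ℝ := |D| + L + 1 with hR
  have hRpos : 0 < R := by have := abs_nonneg D; linarith
  obtain ⟨τ', hτ', hτ'0, hD⟩ := hs.dense i Λ hΛ (g (-R))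
  have hW' : τ' '' Icc 0 L ⊆ range Λ :=
    h.wall_subset hΛ hτ' ⟨τ' 0, mem_image_of_mem τ' h0L, hτ'0⟩
  have hwg' := h.wall_geod τ' hτ'
  refine ⟨τ', hτ', hW', fun s hs' => ?_⟩
  obtain ⟨A, hA⟩ := hW' (mem_image_of_mem τ' hs')
  have hAR : dist A (g (-R)) ≤ |D| + L := by
    rw [← hΛi.dist_eq, hA]
    calc dist (τ' s) (Λ (g (-R))) ≤ dist (τ' s) (τ' 0) + dist (τ' 0) (Λ (g (-R))) :=
          dist_triangle _ _ _
      _ ≤ L + |D| := by
          refine add_le_add ?_ ?_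
          · rw [hwg' s hs' 0 h0L, sub_zero, abs_of_nonneg hs'.1]; exact hs'.2
          · rw [dist_comm]; exact hD.trans (le_abs_self D)
      _ = |D| + L := by ring
  constructor
  · intro s' hs''
    have h1 : dist (g s') (g (-R)) = s' + R := by
      rw [hg.dist_eq, Real.dist_eq, sub_neg_eq_add, abs_of_nonneg]
      have := hs''.1; linarith
    have h2 : dist (τ s') (τ' s) = dist (g s') A := by
      rw [← hA, ← hgτ s' hs'', hΛi.dist_eq]
    rw [h2]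
    have h3 := dist_triangle (g s') A (g (-R))
    have := hs''.1
    linarith
  · obtain ⟨C, hC⟩ := hH.hl g hg A
    have hCR := hC (-R)
    rw [Real.cosh_neg, Real.sinh_neg] at hCR
    have h1 : Real.cosh (dist A (g (-R))) < Real.cosh R := by
      rw [Real.cosh_lt_cosh, abs_of_nonneg dist_nonneg, abs_of_pos hRpos]
      linarith
    have hsR : 0 < Real.sinh R := Real.sinh_pos_iff.2 hRpos
    have hsr : 0 < Real.sinh r := Real.sinh_pos_iff.2 hr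
    have hK : 1 ≤ Real.cosh (dist A (g 0)) := Real.one_le_cosh _
    have hCneg : C < 0 := by
      by_contra hC0
      push Not at hC0
      have h2 : 0 ≤ C * Real.sinh R := mul_nonneg hC0 hsR.le
      have h3 : Real.cosh R ≤ Real.cosh (dist A (g 0)) * Real.cosh R :=
        le_mul_of_one_le_left (Real.cosh_pos R).le hK
      linarith
    have hCr := hC r
    have e0 : dist A (g 0) = dist (τ' s) (τ 0) := by
      rw [← hΛi.dist_eq, hA, hgτ 0 h0L]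
    have er : dist A (g r) = dist (τ' s) (τ r) := by
      rw [← hΛi.dist_eq, hA, hgτ r hrL]
    rw [e0, er] at hCr
    rw [hCr]
    have : C * Real.sinh r < 0 := mul_neg_of_neg_of_pos hCneg hsr
    linarith

/-- every wall of a sheet is in the cone of another gate of this sheet -/
private lemma F2_gate (hs : IsSetup n L ε D S q σ π) {r : ℝ} (hr : 0 < r)
    (hr2 : 64 * r ≤ L) (hr3 : 64 * r ≤ 1) (i : Bool) {τ₀ : ℝ → Y} (hτ₀ : τ₀ ∈ wallLifts π σ L)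
    {Λ : Hyp (n i) → Y} (hΛ : Λ ∈ lifts π (q i)) (hW : τ₀ '' Icc 0 L ⊆ range Λ) :
    ∃ τ ∈ wallLifts π σ L, τ '' Icc 0 L ⊆ range Λ ∧ ∀ s ∈ Icc 0 L,
      r ≤ dist (τ 0) (τ₀ s) ∧
      Real.cosh (dist (τ₀ s) (τ 0)) * Real.cosh r < Real.cosh (dist (τ₀ s) (τ r)) := by
  have h := hs.tree
  have hL : (0 : ℝ) < L := h.L_pos
  have h0L : (0 : ℝ) ∈ Icc 0 L := ⟨le_rfl, hL.le⟩
  have hrL : r ∈ Icc 0 L := ⟨hr.le, by linarith⟩
  obtain ⟨τ', hτ', hW', hcone⟩ := F2_far hs hr hr2 hr3 i hτ₀ hΛ hW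
  -- move `τ'` to `τ₀`
  obtain ⟨γ, hγ, hγ0⟩ := hs.cover.exists_deck (y := τ' 0) (y' := τ₀ 0) (by
    rw [hτ'.2 0 h0L, hτ₀.2 0 h0L])
  have hγτ : ∀ τ : ℝ → Y, τ ∈ wallLifts π σ L → (fun s => γ (τ s)) ∈ wallLifts π σ L := by
    intro τ hτ
    refine ⟨γ.continuous.comp_continuousOn hτ.1, fun s hs => ?_⟩
    rw [hγ (τ s)]; exact hτ.2 s hs
  have hγΛ : (fun x => γ (Λ x)) ∈ lifts π (q i) := by
    refine ⟨γ.continuous.comp hΛ.1, fun x => ?_⟩
    rw [hγ (Λ x)]; exact hΛ.2 x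
  have heq := wallLifts_unique hs.cover.covering (hγτ τ' hτ') hτ₀ h0L hγ0
  have hrange : range (fun x => γ (Λ x)) = range Λ := by
    refine h.range_eq hγΛ hΛ ⟨τ₀ 0, ?_, hW (mem_image_of_mem τ₀ h0L)⟩
    obtain ⟨x, hx⟩ := hW' (mem_image_of_mem τ' h0L)
    exact ⟨x, by simp only [hx]; exact hγ0⟩
  refine ⟨fun s => γ (τ₀ s), hγτ τ₀ hτ₀, ?_, fun s hs' => ?_⟩
  · rintro _ ⟨s, hs', rfl⟩
    rw [← hrange]
    obtain ⟨x, hx⟩ := hW (mem_image_of_mem τ₀ hs')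
    exact ⟨x, by simp only [hx]⟩
  · have h1 : τ₀ s = γ (τ' s) := (heq s hs').symm
    obtain ⟨h2, h3⟩ := hcone s hs'
    refine ⟨?_, ?_⟩
    · rw [h1]
      simp only [γ.isometry.dist_eq]
      exact h2 0 h0L
    · rw [h1]
      simp only [γ.isometry.dist_eq]
      exact h3

/-- if the gates do not see `ξ`, then rays to `ξ` stay in the sheets of type `i` -/
private lemma F2_stay (hs : IsSetup n L ε D S q σ π) (hB : IsBusemannConvex Y) {r : ℝ}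
    (hr : 0 < r) (hr1 : 64 * r ≤ ε) (hr2 : 64 * r ≤ L) (hr3 : 64 * r ≤ 1) (i : Bool)
    (ξ : Bd Y) (hcon : ∀ o, π o = σ 0 →
      ¬ 0 < wt (S i) (σ 0) (σ r) r (π (rayFrom o ξ r.toNNReal)))
    {Λ : Hyp (n i) → Y} (hΛ : Λ ∈ lifts π (q i)) {y : Y} (hy : y ∈ range Λ) (t : ℝ≥0) :
    rayFrom y ξ t ∈ range Λ := by
  have := hs.compact
  have h := hs.tree
  have : ProperSpace Y := hs.cover.properSpace h.eps_pos hs.uniform
  have hG : IsGeodesicSpace Y := hs.cover.geodesic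
  have hL : (0 : ℝ) < L := h.L_pos
  have h0L : (0 : ℝ) ∈ Icc 0 L := ⟨le_rfl, hL.le⟩
  by_contra hout
  set ρ := rayFrom y ξ with hρ
  have hρi : Isometry ρ := rayFrom_isometry hG hB y ξ
  have hρ0 : ρ 0 = y := (rayFrom_spec hG hB y ξ).1
  have hρd : ∀ a b : ℝ, 0 ≤ a → 0 ≤ b → dist (ρ a.toNNReal) (ρ b.toNNReal) = |a - b| := by
    intro a b ha hb
    rw [hρi.dist_eq, NNReal.dist_eq, Real.coe_toNNReal a ha, Real.coe_toNNReal b hb]
  -- the reversed geodesic from `ρ t` to `y`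
  have hrev : IsGeodesicOn (fun s => ρ ((t : ℝ) - s).toNNReal) 0 t := by
    intro a ha b hb
    simp only
    rw [hρd _ _ (by linarith [ha.2]) (by linarith [hb.2])]
    rw [show (t : ℝ) - a - (t - b) = -(a - b) by ring, abs_neg]
  obtain ⟨τ₀, hτ₀, Λ', t', hW, hΛ', hW', ht', hct', hbefore, _⟩ :=
    h.entrance hΛ t.2 hrev (by simpa using hout) (by
      simp only [NNReal.val_eq_coe, sub_self, Real.toNNReal_zero]
      rw [hρ0]; exact hy)
  simp only [NNReal.val_eq_coe] at ht' hct' hbefore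
  have hwg₀ := h.wall_geod τ₀ hτ₀
  have hPc : Continuous (fun u : ℝ => ρ u.toNNReal) :=
    hρi.continuous.comp continuous_real_toNNReal
  have hPg : ∀ u : ℝ, IsGeodesicOn (fun u : ℝ => ρ u.toNNReal) 0 u := by
    intro u a ha b hb
    exact hρd a b ha.1 hb.1
  -- (1)
  have h1 : ρ (t : ℝ).toNNReal ∈ h.V hτ₀ (!i) := by
    have := hbefore 0 ⟨le_rfl, ht'.1⟩
    simpa using this
  -- (2)
  have h2 : ∀ u : ℝ, (t : ℝ) ≤ u → ∀ w ∈ τ₀ '' Icc 0 L, u - t - L ≤ dist (ρ u.toNNReal) w := by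
    rintro u hu _ ⟨s, hs', rfl⟩
    obtain ⟨s', hs'', hs'e⟩ := hct'
    have d1 : dist (ρ u.toNNReal) (ρ ((t : ℝ) - t').toNNReal) = u - (t - t') := by
      rw [hρd u (t - t') (by linarith [t.2, NNReal.coe_nonneg t]) (by linarith [ht'.2]),
        abs_of_nonneg]
      linarith [ht'.1]
    have d2 : dist (τ₀ s) (ρ ((t : ℝ) - t').toNNReal) ≤ L := by
      rw [← hs'e, hwg₀ s hs' s' hs'', abs_le]
      constructor <;> linarith [hs'.1, hs'.2, hs''.1, hs''.2]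
    have d3 := dist_triangle (ρ u.toNNReal) (τ₀ s) (ρ ((t : ℝ) - t').toNNReal)
    linarith [ht'.1]
  -- (3)
  have h3 : ∀ u : ℝ, (t : ℝ) ≤ u → ρ u.toNNReal ∈ h.V hτ₀ (!i) := by
    intro u hu
    by_contra hnot
    have hmem : ρ u.toNNReal ∈ h.V hτ₀ (!!i) ∪ τ₀ '' Icc 0 L := by
      by_cases hw : ρ u.toNNReal ∈ τ₀ '' Icc 0 L
      · exact Or.inr hw
      · rcases h.mem_V_or hτ₀ (!i) hw with h' | h'
        · exact absurd h' hnot
        · exact Or.inl h'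
    obtain ⟨t2, ht2, hct2⟩ := h.crossing (i := !i) hτ₀ hu hPc.continuousOn
      (Or.inl h1) hmem
    have h4 := h.geod_stay hΛ (hPg t2) (by
      simp only [Real.toNNReal_zero]; rw [hρ0]; exact hy) (hW hct2) t
      ⟨NNReal.coe_nonneg t, ht2.1⟩
    simp only [Real.toNNReal_coe] at h4
    exact hout h4
  -- (4)
  obtain ⟨τ, hτ, hWτ, hcone⟩ := F2_gate hs hr hr2 hr3 i hτ₀ hΛ hW
  have hoΛ : τ 0 ∈ range Λ := hWτ (mem_image_of_mem τ h0L)
  set ρ' := rayFrom (τ 0) ξ with hρ'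
  have hρi' : Isometry ρ' := rayFrom_isometry hG hB (τ 0) ξ
  have hρ0' : ρ' 0 = τ 0 := (rayFrom_spec hG hB (τ 0) ξ).1
  have hρd' : ∀ a b : ℝ, 0 ≤ a → 0 ≤ b → dist (ρ' a.toNNReal) (ρ' b.toNNReal) = |a - b| := by
    intro a b ha hb
    rw [hρi'.dist_eq, NNReal.dist_eq, Real.coe_toNNReal a ha, Real.coe_toNNReal b hb]
  have hQc : Continuous (fun u : ℝ => ρ' u.toNNReal) :=
    hρi'.continuous.comp continuous_real_toNNReal
  set C := dist y (τ 0) with hC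
  set u : ℝ := t + L + C + 1 with hu
  have hC0 : 0 ≤ C := dist_nonneg
  have ht0 : 0 ≤ (t : ℝ) := NNReal.coe_nonneg t
  have hut : (t : ℝ) ≤ u := by rw [hu]; linarith
  have hu0 : 0 ≤ u := by linarith
  have hQu : ρ' u.toNNReal ∈ h.V hτ₀ (!i) := by
    by_contra hnot
    have hmem : ρ' u.toNNReal ∈ h.V hτ₀ (!!i) ∪ τ₀ '' Icc 0 L := by
      by_cases hw : ρ' u.toNNReal ∈ τ₀ '' Icc 0 L
      · exact Or.inr hw
      · rcases h.mem_V_or hτ₀ (!i) hw with h' | h'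
        · exact absurd h' hnot
        · exact Or.inl h'
    obtain ⟨s, hs', hsd⟩ := h.crossing_dist hτ₀ (Or.inl (h3 u hut)) hmem
    have d1 := h2 u hut (τ₀ s) (mem_image_of_mem τ₀ hs')
    have d2 : dist (ρ u.toNNReal) (ρ' u.toNNReal) ≤ C := rayFrom_dist_le hG hB y (τ 0) ξ _
    have d3 : 0 ≤ dist (τ₀ s) (ρ' u.toNNReal) := dist_nonneg
    rw [hsd] at d2
    rw [hu] at d1
    linarith
  obtain ⟨t2, ht2, hct2⟩ := h.crossing (i := i) hτ₀ hu0 hQc.continuousOn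
    (by
      simp only [Real.toNNReal_zero]
      rw [hρ0']
      exact h.range_subset_V hτ₀ hΛ hW hoΛ) (Or.inl hQu)
  obtain ⟨s, hs', hse⟩ := hct2
  obtain ⟨c1, c2⟩ := hcone s hs'
  have hdt : dist (τ 0) (τ₀ s) = t2 := by
    rw [hse, ← hρ0']
    have := hρd' 0 t2 le_rfl ht2.1
    rw [Real.toNNReal_zero] at this
    rw [this, zero_sub, abs_neg, abs_of_nonneg ht2.1]
  rw [hdt] at c1
  have hfin := F2_cone hs hr hr1 hr2 i hτ hΛ hWτ (c := fun u : ℝ => ρ' u.toNNReal) c1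
    (fun a ha b hb => hρd' a b ha.1 hb.1)
    (by simp only [Real.toNNReal_zero]; exact hρ0')
    (by rw [← hse]; exact hW (mem_image_of_mem τ₀ hs'))
    (by rw [← hse]; exact c2)
  exact hcon (τ 0) (hτ.2 0 h0L) hfin

theorem exists_gate_toward (hs : IsSetup n L ε D S q σ π) (hB : IsBusemannConvex Y) {r : ℝ}
    (hr : 0 < r) (hr1 : 64 * r ≤ ε) (hr2 : 64 * r ≤ L) (hr3 : 64 * r ≤ 1) (i : Bool)
    (ξ : Bd Y) : ∃ o, π o = σ 0 ∧
      0 < wt (S i) (σ 0) (σ r) r (π (rayFrom o ξ r.toNNReal)) := by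
  by_contra hcon'
  have hcon : ∀ o, π o = σ 0 →
      ¬ 0 < wt (S i) (σ 0) (σ r) r (π (rayFrom o ξ r.toNNReal)) := by
    intro o ho hpos
    exact hcon' ⟨o, ho, hpos⟩
  have := hs.compact
  have h := hs.tree
  have : ProperSpace Y := hs.cover.properSpace h.eps_pos hs.uniform
  have hG : IsGeodesicSpace Y := hs.cover.geodesic
  have hL : (0 : ℝ) < L := h.L_pos
  have h0L : (0 : ℝ) ∈ Icc 0 L := ⟨le_rfl, hL.le⟩
  have hσ : ContinuousOn σ (Icc 0 L) := by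
    have := hs.geod
    refine (LipschitzOnWith.of_dist_le_mul (K := 1) (fun s hs t ht => ?_)).continuousOn
    rw [this s hs t ht, NNReal.coe_one, one_mul, Real.dist_eq]
  -- a wall `τ₀`, its sheets `Λ` (type `i`) and `Λ₂` (type `!i`)
  obtain ⟨y₀, hy₀⟩ := hs.cover.surjective (σ 0)
  obtain ⟨τ₀, hτ₀, _⟩ := wallLifts_exists hs.cover.covering hσ h0L hy₀
  obtain ⟨Λ, hΛ, hW⟩ := h.exists_sheet_of_wall hτ₀ i
  obtain ⟨Λ₂, hΛ₂, hW₂⟩ := h.exists_sheet_of_wall hτ₀ (!i)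
  -- another wall of `Λ₂`
  obtain ⟨τ₁, hτ₁, hW₁, hfar⟩ := F2_far hs hr hr2 hr3 (!i) hτ₀ hΛ₂ hW₂
  have hτ₁V : τ₁ 0 ∈ h.V hτ₀ (!i) := by
    rcases h.range_subset_V hτ₀ hΛ₂ hW₂ (hW₁ (mem_image_of_mem τ₁ h0L)) with h' | h'
    · exact h'
    · obtain ⟨s', hs', e⟩ := h'
      have := (hfar 0 h0L).1 s' hs'
      rw [e, dist_self] at this
      linarith
  obtain ⟨Λ', hΛ', hW'⟩ := h.exists_sheet_of_wall hτ₁ i
  have hy' : τ₁ 0 ∈ range Λ' := hW' (mem_image_of_mem τ₁ h0L)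
  have hside : range Λ' ⊆ h.V hτ₀ (!i) ∪ τ₀ '' Icc 0 L := by
    obtain ⟨k, hk⟩ := h.sheet_side hτ₀ hΛ'
    have hk' : k = !i := by
      by_contra hne
      have hki : k = i := by cases k <;> cases i <;> simp_all
      rw [hki] at hk
      have h5 := h.not_mem_V hτ₀ (!i) hτ₁V
      rcases hk hy' with h' | h'
      · rw [Bool.not_not] at h5
        exact h5.1 h'
      · exact h5.2 h'
    rw [← hk']; exact hk
  -- the rays
  set y := τ₀ 0 with hy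
  set y' := τ₁ 0 with hy'def
  have hyΛ : y ∈ range Λ := hW (mem_image_of_mem τ₀ h0L)
  set ρ := rayFrom y ξ with hρ
  have hρi : Isometry ρ := rayFrom_isometry hG hB y ξ
  have hρ0 : ρ 0 = y := (rayFrom_spec hG hB y ξ).1
  set t : ℝ := L + dist y y' + 1 with ht
  have ht0 : 0 ≤ t := by have := dist_nonneg (x := y) (y := y'); linarith
  have m1 : ρ t.toNNReal ∈ h.V hτ₀ i ∪ τ₀ '' Icc 0 L :=
    h.range_subset_V hτ₀ hΛ hW (F2_stay hs hB hr hr1 hr2 hr3 i ξ hcon hΛ hyΛ _)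
  have m2 : rayFrom y' ξ t.toNNReal ∈ h.V hτ₀ (!i) ∪ τ₀ '' Icc 0 L :=
    hside (F2_stay hs hB hr hr1 hr2 hr3 i ξ hcon hΛ' hy' _)
  obtain ⟨s, hs', hsd⟩ := h.crossing_dist hτ₀ m1 m2
  have d1 : dist (ρ t.toNNReal) (rayFrom y' ξ t.toNNReal) ≤ dist y y' :=
    rayFrom_dist_le hG hB y y' ξ _
  have d2 : dist (ρ t.toNNReal) y = t := by
    rw [← hρ0, hρi.dist_eq, NNReal.dist_eq, Real.coe_toNNReal t ht0, NNReal.coe_zero, sub_zero,
      abs_of_nonneg ht0]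
  have d3 : dist (τ₀ s) y ≤ L := by
    rw [hy, h.wall_geod τ₀ hτ₀ s hs' 0 h0L, sub_zero, abs_of_nonneg hs'.1]
    exact hs'.2
  have d4 := dist_triangle (ρ t.toNNReal) (τ₀ s) y
  have d5 : 0 ≤ dist (τ₀ s) (rayFrom y' ξ t.toNNReal) := dist_nonneg
  rw [hsd] at d1
  linarith

end MP4a77c6
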