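import Pool.Agent.Lib.MP_4a77c6_an.C1
import Pool.Agent.Lib.MP_4a77c6_an.E1

open Set Metric MeasureTheory Filter Topology
open scoped ENNReal NNReal

namespace MP4a77c6

/-! Task F3: positivity of the gate integrals. -/

theorem lintegral_ne_zero_of_gate {Y X : Type*} [MetricSpace Y] [MetricSpace X] {π : Y → X}
    [CompactSpace X] [ProperSpace Y] (hπ : IsUniversalCover π) (hB : IsBusemannConvex Y)
    {ε : ℝ} (hε : 0 < ε) (hu : IsUniformCover π ε)
    {h : ℝ} {μ : Y → Measure (Bd Y)} (hμ : IsConformalDensity π h μ) {α : X → ℝ}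
    (hα : Continuous α) (hα0 : ∀ x, 0 ≤ α x) {r : ℝ≥0} {p : X}
    (hmin : ∀ ξ : Bd Y, ∃ o, π o = p ∧ 0 < α (π (rayFrom o ξ r))) {o : Y} (ho : π o = p) :
    ∫⁻ ξ, ENNReal.ofReal (α (π (rayFrom o ξ r))) ∂(μ o) ≠ 0 := by
  intro hint
  have hG := hπ.geodesic
  have hFc : Continuous (fun y : Y => α (π y)) := hα.comp hπ.lipschitz.continuous
  -- the weight seen from a point
  have hmeas : ∀ y : Y, Measurable
      (fun ξ : Bd Y => ENNReal.ofReal (α (π (rayFrom y ξ r)))) := fun y =>
    (measurable_rayFrom (F := fun y : Y => α (π y)) hFc y r).ennreal_ofReal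
  have hset : ∀ y : Y, MeasurableSet {ξ : Bd Y | 0 < α (π (rayFrom y ξ r))} := fun y =>
    measurableSet_lt measurable_const (measurable_rayFrom (F := fun y : Y => α (π y)) hFc y r)
  have hzero : μ o {ξ : Bd Y | 0 < α (π (rayFrom o ξ r))} = 0 := by
    have h1 := (lintegral_eq_zero_iff (hmeas o)).1 hint
    have h2 : ∀ᵐ ξ ∂(μ o), ¬ 0 < α (π (rayFrom o ξ r)) := by
      filter_upwards [h1] with ξ hξ
      have : ENNReal.ofReal (α (π (rayFrom o ξ r))) = 0 := hξ
      rw [ENNReal.ofReal_eq_zero] at this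
      exact not_lt.2 this
    rw [ae_iff] at h2
    simpa only [not_not] using h2
  -- all base points over `p`
  have hall : ∀ o' : Y, π o' = p → μ o {ξ : Bd Y | 0 < α (π (rayFrom o' ξ r))} = 0 := by
    intro o' ho'
    obtain ⟨γ, hγ, rfl⟩ := hπ.exists_deck (ho.trans ho'.symm)
    have hγm : ∀ y, π (γ y) = π y := hγ
    have h1 : μ (γ o) {ξ : Bd Y | 0 < α (π (rayFrom (γ o) ξ r))} = 0 := by
      rw [← hμ.equivariant γ hγ o,
        Measure.map_apply (measurable_bdMap hG hB γ) (hset (γ o))]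
      have h3 : Bd.map γ ⁻¹' {ξ : Bd Y | 0 < α (π (rayFrom (γ o) ξ r))} =
          {ξ : Bd Y | 0 < α (π (rayFrom o ξ r))} := by
        ext ξ
        change 0 < α (π (rayFrom (γ o) (Bd.map γ ξ) r)) ↔ 0 < α (π (rayFrom o ξ r))
        rw [rayFrom_map hG hB γ o ξ r, hγm]
      rw [h3, hzero]
    have h2 : μ o ≪ μ (γ o) := by
      rw [hμ.conformal o (γ o)]
      exact withDensity_absolutelyContinuous _ _
    exact h2 h1
  -- the fibre is countable
  have hcount : {y : Y | π y = p}.Countable := by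
    have h1 : {y : Y | π y = p} = ⋃ n : ℕ, {y | π y = p ∧ dist o y ≤ n} := by
      ext y
      simp only [mem_iUnion]
      constructor
      · intro hy
        obtain ⟨n, hn⟩ := exists_nat_ge (dist o y)
        exact ⟨n, hy, hn⟩
      · rintro ⟨n, hy, -⟩
        exact hy
    rw [h1]
    exact countable_iUnion fun n => (hπ.fiber_finite hε hu p o n).countable
  have huniv : (univ : Set (Bd Y)) ⊆
      ⋃ o' ∈ {y : Y | π y = p}, {ξ : Bd Y | 0 < α (π (rayFrom o' ξ r))} := by
    intro ξ _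
    obtain ⟨o', h1, h2⟩ := hmin ξ
    exact mem_iUnion₂.2 ⟨o', h1, h2⟩
  have hnull : μ o univ = 0 := by
    refine measure_mono_null huniv ?_
    rw [measure_biUnion_null_iff hcount]
    exact fun o' ho' => hall o' ho'
  exact hμ.ne_zero o (Measure.measure_univ_eq_zero.1 hnull)

end MP4a77c6
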