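import Mathlib

open Set Metric MeasureTheory Filter Topology
open scoped ENNReal NNReal

namespace MP4a77c6

private theorem G1_prod_one_sub {ι : Type*} [DecidableEq ι] (s : Finset ι) (w l : ι → ℝ)
    (hinj : ∀ i ∈ s, ∀ j ∈ s, l i = l j → i = j) :
    ∏ i ∈ s, (1 - w i) = 1 - ∑ i ∈ s, w i * ∏ j ∈ s with l j < l i, (1 - w j) := by
  classical
  revert hinj
  refine Finset.induction_on_max_value l s (by simp) ?_
  intro a s ha hmax ih hinj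
  have ih' := ih fun i hi j hj => hinj i (Finset.mem_insert_of_mem hi) j (Finset.mem_insert_of_mem hj)
  have hlt : ∀ x ∈ s, l x < l a := by
    intro x hx
    refine lt_of_le_of_ne (hmax x hx) fun h => ha ?_
    have := hinj x (Finset.mem_insert_of_mem hx) a (Finset.mem_insert_self a s) h
    rwa [← this]
  rw [Finset.prod_insert ha, Finset.sum_insert ha]
  have h1 : (insert a s).filter (fun j => l j < l a) = s := by
    ext x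
    simp only [Finset.mem_filter, Finset.mem_insert]
    constructor
    · rintro ⟨rfl | hx, h⟩
      · exact absurd h (lt_irrefl _)
      · exact hx
    · intro hx
      exact ⟨Or.inr hx, hlt x hx⟩
  have h2 : ∀ i ∈ s, (insert a s).filter (fun j => l j < l i) = s.filter (fun j => l j < l i) := by
    intro i hi
    ext x
    simp only [Finset.mem_filter, Finset.mem_insert]
    constructor
    · rintro ⟨rfl | hx, h⟩
      · exact absurd h (not_lt.2 (hlt i hi).le)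
      · exact ⟨hx, h⟩
    · rintro ⟨hx, h⟩
      exact ⟨Or.inr hx, h⟩
  rw [h1]
  have h3 : ∑ i ∈ s, w i * ∏ j ∈ insert a s with l j < l i, (1 - w j) =
      ∑ i ∈ s, w i * ∏ j ∈ s with l j < l i, (1 - w j) := by
    refine Finset.sum_congr rfl fun i hi => ?_
    rw [h2 i hi]
  rw [h3]
  linear_combination ih'

/-- Task G1: the random renewal structure on a group with a tree-like length. -/
theorem group_renewal {G : Type*} [Group G] [DecidableEq G] (ℓ a b : G → ℝ) (h : ℝ)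
    (hℓ1 : ℓ 1 = 0) (hℓ : ∀ γ, γ ≠ 1 → 0 < ℓ γ) (hfin : ∀ R : ℝ, {γ | ℓ γ ≤ R}.Finite)
    (ha : ∀ γ, a γ ∈ Icc (0 : ℝ) 1) (hb : ∀ γ, b γ ∈ Icc (0 : ℝ) 1)
    (htri : ∀ γ₁ γ₂, ℓ (γ₁ * γ₂) ≤ ℓ γ₁ + ℓ γ₂)
    (hlin : ∀ γ₁ γ₂ γ, ℓ γ₁ + ℓ (γ₁⁻¹ * γ) = ℓ γ → ℓ γ₂ + ℓ (γ₂⁻¹ * γ) = ℓ γ → ℓ γ₁ ≤ ℓ γ₂ →
      ℓ γ₁ + ℓ (γ₁⁻¹ * γ₂) = ℓ γ₂)
    (hgate : ∀ γ₁ γ₂, γ₁ ≠ 1 → γ₂ ≠ 1 → 0 < a γ₁ → 0 < b γ₂ → ℓ (γ₁ * γ₂) = ℓ γ₁ + ℓ γ₂)
    (hab : ∀ γ₁ γ₂, γ₁ ≠ 1 → γ₂ ≠ 1 → ℓ (γ₁ * γ₂) = ℓ γ₁ + ℓ γ₂ →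
      b (γ₁ * γ₂) = b γ₁ ∧ a (γ₁ * γ₂) = a γ₂)
    (g : G → ℝ) (hg : ∀ γ, g γ = if γ = 1 then 0 else b γ * a γ * Real.exp (-h * ℓ γ)) :
    ∃ f : G → ℝ, (∀ γ, 0 ≤ f γ) ∧ (∀ γ, f γ ≤ g γ) ∧ ∀ φ : ℝ → ℝ≥0∞,
      ∑' γ, ENNReal.ofReal (g γ) * φ (ℓ γ) = ∑' γ, ENNReal.ofReal (f γ) * φ (ℓ γ) +
        ∑' p : G × G, ENNReal.ofReal (f p.1) * ENNReal.ofReal (g p.2) * φ (ℓ p.1 + ℓ p.2) := by
  classical
  have hℓ0 : ∀ γ, 0 ≤ ℓ γ := by
    intro γ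
    by_cases h1 : γ = 1
    · rw [h1, hℓ1]
    · exact (hℓ γ h1).le
  have hg0 : ∀ γ, 0 ≤ g γ := by
    intro γ
    rw [hg]
    split_ifs
    · exact le_rfl
    · exact mul_nonneg (mul_nonneg (hb γ).1 (ha γ).1) (Real.exp_pos _).le
  -- the intermediate points
  have hNfin : ∀ γ, {γ' : G | γ' ≠ 1 ∧ γ' ≠ γ ∧ ℓ γ' + ℓ (γ'⁻¹ * γ) = ℓ γ}.Finite := by
    intro γ
    refine (hfin (ℓ γ)).subset ?_
    rintro γ' ⟨-, -, h3⟩
    have := hℓ0 (γ'⁻¹ * γ)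
    show ℓ γ' ≤ ℓ γ
    linarith
  set N : G → Finset G := fun γ => (hNfin γ).toFinset with hN
  have hmem : ∀ γ γ', γ' ∈ N γ ↔ γ' ≠ 1 ∧ γ' ≠ γ ∧ ℓ γ' + ℓ (γ'⁻¹ * γ) = ℓ γ := by
    intro γ γ'
    rw [hN]
    exact Set.Finite.mem_toFinset _
  set w : G → G → ℝ := fun γ γ' => a γ' * b (γ'⁻¹ * γ) with hw
  have hw01 : ∀ γ γ', 0 ≤ w γ γ' ∧ w γ γ' ≤ 1 := fun γ γ' =>
    ⟨mul_nonneg (ha _).1 (hb _).1, mul_le_one₀ (ha _).2 (hb _).1 (hb _).2⟩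
  set f : G → ℝ := fun γ => g γ * ∏ γ' ∈ N γ, (1 - w γ γ') with hf
  have hprod01 : ∀ (s : Finset G) (γ : G), 0 ≤ ∏ γ' ∈ s, (1 - w γ γ') ∧
      ∏ γ' ∈ s, (1 - w γ γ') ≤ 1 := fun s γ =>
    ⟨Finset.prod_nonneg fun i _ => by linarith [(hw01 γ i).2],
      Finset.prod_le_one (fun i _ => by linarith [(hw01 γ i).2])
        fun i _ => by linarith [(hw01 γ i).1]⟩
  have hf0 : ∀ γ, 0 ≤ f γ := fun γ => mul_nonneg (hg0 γ) (hprod01 _ _).1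
  have hfg : ∀ γ, f γ ≤ g γ := fun γ => by
    have := mul_le_mul_of_nonneg_left (hprod01 (N γ) γ).2 (hg0 γ)
    rw [mul_one] at this
    exact this
  -- the key identity for an intermediate point
  have hkey : ∀ γ, ∀ γ' ∈ N γ, f γ' * g (γ'⁻¹ * γ) =
      g γ * (w γ γ' * ∏ γ₂ ∈ N γ with ℓ γ₂ < ℓ γ', (1 - w γ γ₂)) := by
    intro γ γ' hγ'
    obtain ⟨h1, h2, h3⟩ := (hmem γ γ').1 hγ'
    have h4 : γ'⁻¹ * γ ≠ 1 := by
      intro h4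
      exact h2 (by rw [inv_mul_eq_one] at h4; exact h4)
    have h5 : γ ≠ 1 := by
      rintro rfl
      have := hℓ γ' h1
      have := hℓ0 (γ'⁻¹ * 1)
      rw [hℓ1] at h3
      linarith
    have h6 : ℓ (γ' * (γ'⁻¹ * γ)) = ℓ γ' + ℓ (γ'⁻¹ * γ) := by
      rw [mul_inv_cancel_left, h3]
    obtain ⟨h7, h8⟩ := hab γ' (γ'⁻¹ * γ) h1 h4 h6
    rw [mul_inv_cancel_left] at h7 h8
    have hgg : g γ' * g (γ'⁻¹ * γ) = g γ * w γ γ' := by
      rw [hg γ', hg (γ'⁻¹ * γ), hg γ, if_neg h1, if_neg h4, if_neg h5, ← h3, h7, h8]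
      have : Real.exp (-h * (ℓ γ' + ℓ (γ'⁻¹ * γ))) =
          Real.exp (-h * ℓ γ') * Real.exp (-h * ℓ (γ'⁻¹ * γ)) := by
        rw [← Real.exp_add]; ring_nf
      rw [this]
      simp only [hw]
      ring
    have hNN : (N γ).filter (fun γ₂ => ℓ γ₂ < ℓ γ') = N γ' := by
      ext γ₂
      rw [Finset.mem_filter, hmem, hmem]
      constructor
      · rintro ⟨⟨k1, k2, k3⟩, k4⟩
        refine ⟨k1, ?_, ?_⟩
        · rintro rfl
          exact lt_irrefl _ k4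
        · exact hlin γ₂ γ' γ k3 h3 k4.le
      · rintro ⟨k1, k2, k3⟩
        have k4 : γ₂⁻¹ * γ' ≠ 1 := by
          intro k4
          rw [inv_mul_eq_one] at k4
          exact k2 k4
        have k5 := hℓ _ k4
        have k6 := hℓ _ h4
        refine ⟨⟨k1, ?_, ?_⟩, by linarith⟩
        · rintro rfl
          linarith
        · have t1 := htri (γ₂⁻¹ * γ') (γ'⁻¹ * γ)
          have t2 := htri γ₂ (γ₂⁻¹ * γ)
          rw [mul_assoc, mul_inv_cancel_left] at t1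
          rw [mul_inv_cancel_left] at t2
          linarith
    have hprod : ∏ γ₂ ∈ N γ', (1 - w γ' γ₂) = ∏ γ₂ ∈ N γ', (1 - w γ γ₂) := by
      refine Finset.prod_congr rfl fun γ₂ hγ₂ => ?_
      obtain ⟨k1, k2, k3⟩ := (hmem γ' γ₂).1 hγ₂
      have k4 : γ₂⁻¹ * γ' ≠ 1 := by
        intro k4
        rw [inv_mul_eq_one] at k4
        exact k2 k4
      have hm : γ₂ ∈ (N γ).filter (fun γ₂ => ℓ γ₂ < ℓ γ') := by rw [hNN]; exact hγ₂
      rw [Finset.mem_filter, hmem] at hm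
      have k5 : ℓ ((γ₂⁻¹ * γ') * (γ'⁻¹ * γ)) = ℓ (γ₂⁻¹ * γ') + ℓ (γ'⁻¹ * γ) := by
        rw [mul_assoc, mul_inv_cancel_left]
        linarith [hm.1.2.2]
      have k6 := (hab _ _ k4 h4 k5).1
      rw [mul_assoc, mul_inv_cancel_left] at k6
      simp only [hw]
      rw [k6]
    rw [hNN, ← hprod]
    simp only [hf]
    linear_combination (∏ γ₂ ∈ N γ', (1 - w γ' γ₂)) * hgg
  have hsum : ∀ γ, g γ = f γ + ∑ γ' ∈ N γ, f γ' * g (γ'⁻¹ * γ) := by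
    intro γ
    have hinj : ∀ i ∈ N γ, ∀ j ∈ N γ, ℓ i = ℓ j → i = j := by
      intro i hi j hj hij
      have k := hlin i j γ ((hmem γ i).1 hi).2.2 ((hmem γ j).1 hj).2.2 hij.le
      by_contra hne
      have : i⁻¹ * j ≠ 1 := by
        intro h4
        rw [inv_mul_eq_one] at h4
        exact hne h4
      have := hℓ _ this
      linarith
    have hP := G1_prod_one_sub (N γ) (w γ) ℓ hinj
    rw [Finset.sum_congr rfl (hkey γ), ← Finset.mul_sum]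
    simp only [hf]
    linear_combination (-g γ) * hP
  have hzero : ∀ γ γ', γ' ∉ N γ → f γ' * g (γ'⁻¹ * γ) = 0 := by
    intro γ γ' hn
    by_contra hne
    have hfne : f γ' ≠ 0 := left_ne_zero_of_mul hne
    have hgne : g (γ'⁻¹ * γ) ≠ 0 := right_ne_zero_of_mul hne
    have hgne' : g γ' ≠ 0 := left_ne_zero_of_mul hfne
    have h1 : γ' ≠ 1 := by
      rintro rfl
      rw [hg, if_pos rfl] at hgne'
      exact hgne' rfl
    have h4 : γ'⁻¹ * γ ≠ 1 := by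
      intro h4
      rw [hg, if_pos h4] at hgne
      exact hgne rfl
    rw [hg, if_neg h1] at hgne'
    rw [hg, if_neg h4] at hgne
    have ha' : a γ' ≠ 0 := fun h0 => hgne' (by rw [h0]; ring)
    have hb' : b (γ'⁻¹ * γ) ≠ 0 := fun h0 => hgne (by rw [h0]; ring)
    have h6 := hgate γ' (γ'⁻¹ * γ) h1 h4 (lt_of_le_of_ne (ha _).1 (Ne.symm ha'))
      (lt_of_le_of_ne (hb _).1 (Ne.symm hb'))
    rw [mul_inv_cancel_left] at h6
    refine hn ((hmem γ γ').2 ⟨h1, ?_, h6.symm⟩)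
    rintro rfl
    exact h4 (by simp)
  refine ⟨f, hf0, hfg, fun φ => ?_⟩
  -- the double sum
  have hdouble : ∑' p : G × G, ENNReal.ofReal (f p.1) * ENNReal.ofReal (g p.2) * φ (ℓ p.1 + ℓ p.2) =
      ∑' γ, (∑ γ' ∈ N γ, ENNReal.ofReal (f γ' * g (γ'⁻¹ * γ))) * φ (ℓ γ) := by
    let e : G × G ≃ G × G :=
      { toFun := fun p => (p.2, p.2⁻¹ * p.1)
        invFun := fun q => (q.1 * q.2, q.1)
        left_inv := fun p => by simp
        right_inv := fun q => by simp }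
    rw [← Equiv.tsum_eq e]
    refine (ENNReal.tsum_prod (f := fun γ γ' : G => ENNReal.ofReal (f γ') *
      ENNReal.ofReal (g (γ'⁻¹ * γ)) * φ (ℓ γ' + ℓ (γ'⁻¹ * γ)))).trans ?_
    refine tsum_congr fun γ => ?_
    rw [tsum_eq_sum (s := N γ), Finset.sum_mul]
    · refine Finset.sum_congr rfl fun γ' hγ' => ?_
      show ENNReal.ofReal (f γ') * ENNReal.ofReal (g (γ'⁻¹ * γ)) * φ (ℓ γ' + ℓ (γ'⁻¹ * γ)) = _
      rw [((hmem γ γ').1 hγ').2.2, ENNReal.ofReal_mul (hf0 _)]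
    · intro γ' hγ'
      show ENNReal.ofReal (f γ') * ENNReal.ofReal (g (γ'⁻¹ * γ)) * φ (ℓ γ' + ℓ (γ'⁻¹ * γ)) = 0
      rw [← ENNReal.ofReal_mul (hf0 _), hzero γ γ' hγ', ENNReal.ofReal_zero, zero_mul]
  rw [hdouble, ← ENNReal.tsum_add]
  refine tsum_congr fun γ => ?_
  rw [← add_mul, ← ENNReal.ofReal_sum_of_nonneg (fun i _ => mul_nonneg (hf0 _) (hg0 _)),
    ← ENNReal.ofReal_add (hf0 _) (Finset.sum_nonneg fun i _ => mul_nonneg (hf0 _) (hg0 _)), ← hsum γ]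

end MP4a77c6
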