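import Pool.Agent.Lib.MP_4a77c6_an.C1
import Pool.Agent.Lib.MP_4a77c6_an.E1
import Pool.Agent.Lib.MP_4a77c6_an.GateDef

open Set Metric MeasureTheory Filter Topology
open scoped ENNReal NNReal

namespace MP4a77c6

/-! Task G2: the correlation functions of gate observables. -/

variable {Y X : Type*} [MetricSpace Y] [MetricSpace X]

/-- incoming weight at `o` of a geodesic arriving from `γ⁻¹ o` -/
noncomputable def gA (π : Y → X) (α : X → ℝ) (r : ℝ) (o : Y) (γ : Deck π) : ℝ :=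
  α (π (geo o ((γ.1)⁻¹ o) r))

/-- outgoing weight at `o` of a geodesic going to `γ o` -/
noncomputable def gB (π : Y → X) (β : X → ℝ) (r : ℝ) (o : Y) (γ : Deck π) : ℝ :=
  β (π (geo o (γ.1 o) r))

noncomputable def gL (π : Y → X) (o : Y) (γ : Deck π) : ℝ := dist o (γ.1 o)

open Classical in
noncomputable def gG (π : Y → X) (α β : X → ℝ) (r h : ℝ) (o : Y) (γ : Deck π) : ℝ :=
  if γ = 1 then 0 else gB π β r o γ * gA π α r o γ * Real.exp (-h * gL π o γ)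

variable {π : Y → X} {p : X} {r e : ℝ} {α β : X → ℝ}

/-! G2a: axioms of `group_renewal` -/

private theorem G2_gL_inv_mul (o : Y) (γ₁ γ₂ : Deck π) :
    gL π o (γ₁⁻¹ * γ₂) = dist (γ₁.1 o) (γ₂.1 o) := by
  show dist o (γ₁.1.symm (γ₂.1 o)) = _
  rw [← γ₁.1.isometry.dist_eq o, IsometryEquiv.apply_symm_apply]

private theorem G2_dist_inv (o : Y) (γ : Deck π) : dist o ((γ.1)⁻¹ o) = gL π o γ := by
  show dist o (γ.1.symm o) = dist o (γ.1 o)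
  rw [← γ.1.isometry.dist_eq o, IsometryEquiv.apply_symm_apply, dist_comm]

private theorem G2_dist_mul (o : Y) (γ₁ γ₂ : Deck π) :
    dist (γ₁.1 o) ((γ₁ * γ₂).1 o) = gL π o γ₂ := by
  show dist (γ₁.1 o) (γ₁.1 (γ₂.1 o)) = dist o (γ₂.1 o)
  rw [γ₁.1.isometry.dist_eq]

theorem gL_one (o : Y) : gL π o 1 = 0 := by
  show dist o o = 0
  exact dist_self o

theorem gL_ge (hπ : IsUniversalCover π) (hu : IsUniformCover π (16 * r)) (hr : 0 < r) (o : Y)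
    (γ : Deck π) (hγ : γ ≠ 1) : 16 * r ≤ gL π o γ := by
  by_contra hlt
  push Not at hlt
  have h1 : o = γ.1 o := hu.eq_of_dist_lt (γ.2 o).symm hlt
  have h2 : γ.1 = 1 := hπ.deck_unique γ.2 (one_mem (Deck π)) (y := o) (by
    rw [← h1]; rfl)
  exact hγ (Subtype.ext h2)

theorem gL_finite [CompactSpace X] (hπ : IsUniversalCover π) (hu : IsUniformCover π (16 * r))
    (hr : 0 < r) (o : Y) (R : ℝ) : {γ | gL π o γ ≤ R}.Finite := by
  have h1 := hπ.fiber_finite (by linarith : 0 < 16 * r) hu (π o) o R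
  refine Set.Finite.of_finite_image (f := fun γ : Deck π => γ.1 o) (h1.subset ?_) ?_
  · rintro _ ⟨γ, hγ, rfl⟩
    exact ⟨γ.2 o, hγ⟩
  · intro γ _ γ' _ hγγ'
    exact Subtype.ext (hπ.deck_unique γ.2 γ'.2 hγγ')

theorem gL_mul_le (o : Y) (γ₁ γ₂ : Deck π) : gL π o (γ₁ * γ₂) ≤ gL π o γ₁ + gL π o γ₂ := by
  rw [← G2_dist_mul o γ₁ γ₂]
  exact dist_triangle _ _ _

theorem gL_linear (hπ : IsUniversalCover π) (hB : IsBusemannConvex Y) (o : Y)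
    (γ₁ γ₂ γ : Deck π) (h1 : gL π o γ₁ + gL π o (γ₁⁻¹ * γ) = gL π o γ)
    (h2 : gL π o γ₂ + gL π o (γ₂⁻¹ * γ) = gL π o γ) (h12 : gL π o γ₁ ≤ gL π o γ₂) :
    gL π o γ₁ + gL π o (γ₁⁻¹ * γ₂) = gL π o γ₂ := by
  rw [G2_gL_inv_mul] at h1 h2 ⊢
  have e1 := (hB.geo_between hπ.geodesic h1).1
  have e2 := (hB.geo_between hπ.geodesic h2).1
  have hgeo := (geo_spec hπ.geodesic o (γ.1 o)).1
  have hn1 : 0 ≤ dist (γ₁.1 o) (γ.1 o) := dist_nonneg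
  have hn2 : 0 ≤ dist (γ₂.1 o) (γ.1 o) := dist_nonneg
  unfold gL at h1 h2 h12 ⊢
  have h3 := hgeo (dist o (γ₁.1 o)) ⟨dist_nonneg, by linarith⟩ (dist o (γ₂.1 o))
    ⟨dist_nonneg, by linarith⟩
  rw [e1, e2, abs_sub_comm, abs_of_nonneg (by linarith)] at h3
  linarith

theorem gL_gate (hπ : IsUniversalCover π) (hB : IsBusemannConvex Y)
    (hg : IsGate π p r e α β) {o : Y} (ho : π o = p) (γ₁ γ₂ : Deck π) (h1 : γ₁ ≠ 1)
    (h2 : γ₂ ≠ 1) (ha : 0 < gA π α r o γ₁) (hb : 0 < gB π β r o γ₂) :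
    gL π o (γ₁ * γ₂) = gL π o γ₁ + gL π o γ₂ := by
  have he := hg.e_pos
  have he16 := hg.e_le
  have hr : 0 < r := by linarith
  have hr1 := gL_ge hπ hg.uniform hr o γ₁ h1
  have hr2 := gL_ge hπ hg.uniform hr o γ₂ h2
  obtain ⟨g1, g2, g3⟩ := geo_spec hπ.geodesic o ((γ₁.1)⁻¹ o)
  obtain ⟨k1, k2, k3⟩ := geo_spec hπ.geodesic o (γ₂.1 o)
  have hd1 : dist o ((γ₁.1)⁻¹ o) = gL π o γ₁ := G2_dist_inv o γ₁
  have hd2 : dist o (γ₂.1 o) = gL π o γ₂ := rfl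
  have key := hg.concat (geo o ((γ₁.1)⁻¹ o)) (geo o (γ₂.1 o)) (dist o ((γ₁.1)⁻¹ o))
    (dist o (γ₂.1 o)) g1 k1 (by rw [g2, k2]) (by rw [g2, ho]) (by linarith) (by linarith) ha hb
  rw [g3, k3, hd1, hd2] at key
  rw [← key]
  show dist o (γ₁.1 (γ₂.1 o)) = dist (γ₁.1.symm o) (γ₂.1 o)
  rw [← γ₁.1.isometry.dist_eq (γ₁.1.symm o), IsometryEquiv.apply_symm_apply]

theorem gAB_mul (hπ : IsUniversalCover π) (hB : IsBusemannConvex Y)
    (hg : IsGate π p r e α β) {o : Y} (ho : π o = p) (γ₁ γ₂ : Deck π) (h1 : γ₁ ≠ 1)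
    (h2 : γ₂ ≠ 1) (h : gL π o (γ₁ * γ₂) = gL π o γ₁ + gL π o γ₂) :
    gB π β r o (γ₁ * γ₂) = gB π β r o γ₁ ∧ gA π α r o (γ₁ * γ₂) = gA π α r o γ₂ := by
  have he := hg.e_pos
  have he16 := hg.e_le
  have hr : 0 < r := by linarith
  have hr1 := gL_ge hπ hg.uniform hr o γ₁ h1
  have hr2 := gL_ge hπ hg.uniform hr o γ₂ h2
  constructor
  · have hbt : dist o (γ₁.1 o) + dist (γ₁.1 o) ((γ₁ * γ₂).1 o) = dist o ((γ₁ * γ₂).1 o) := by
      rw [G2_dist_mul]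
      exact h.symm
    have e1 := (hB.geo_between hπ.geodesic hbt).2 r ⟨hr.le, by
      show r ≤ gL π o γ₁
      linarith⟩
    unfold gB
    rw [e1]
  · have e2 : dist ((γ₂.1)⁻¹ o) (((γ₁ * γ₂).1)⁻¹ o) = gL π o γ₁ := by
      show dist (γ₂.1.symm o) (γ₂.1.symm (γ₁.1.symm o)) = _
      rw [γ₂.1.symm.isometry.dist_eq]
      exact G2_dist_inv o γ₁
    have hbt : dist o ((γ₂.1)⁻¹ o) + dist ((γ₂.1)⁻¹ o) (((γ₁ * γ₂).1)⁻¹ o) =
        dist o (((γ₁ * γ₂).1)⁻¹ o) := by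
      rw [e2, G2_dist_inv, G2_dist_inv, h, add_comm]
    have e1 := (hB.geo_between hπ.geodesic hbt).2 r ⟨hr.le, by
      rw [G2_dist_inv]
      linarith⟩
    unfold gA
    rw [e1]

end MP4a77c6
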