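import Pool.Agent.Lib.MP_4a77c6_an.G3b

open Set Metric MeasureTheory Filter Topology
open scoped ENNReal NNReal

namespace MP4a77c6

/-! Task G3: the formula for the correlations. -/

variable {Y X : Type*} [MetricSpace Y] [MetricSpace X] {π : Y → X} {p : X} {r e : ℝ}
  {α β : X → ℝ}

namespace G3

theorem r_pos (hg : IsGate π p r e α β) : 0 < r := by
  have := hg.e_pos
  have := hg.e_le
  linarith

theorem countable_deck [CompactSpace X] (hπ : IsUniversalCover π) (hg : IsGate π p r e α β)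
    (o : Y) : Countable (Deck π) := by
  rw [← Set.countable_univ_iff]
  have : (univ : Set (Deck π)) = ⋃ n : ℕ, {γ | gL π o γ ≤ n} := by
    ext γ
    simp only [mem_univ, mem_iUnion, mem_ofPred_eq, true_iff]
    exact exists_nat_ge _
  rw [this]
  exact countable_iUnion fun n => (gL_finite hπ hg.uniform (r_pos hg) o n).countable

/-- the two weights cannot be positive at the same boundary point -/
theorem ne_of_pos [ProperSpace Y] (hπ : IsUniversalCover π) (hB : IsBusemannConvex Y)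
    (hg : IsGate π p r e α β) {o : Y} (ho : π o = p) {ξ η : Bd Y}
    (ha : 0 < α (π (rayFrom o ξ r.toNNReal))) (hb : 0 < β (π (rayFrom o η r.toNNReal))) :
    ξ ≠ η := by
  rintro rfl
  have hr := r_pos hg
  have hiso := rayFrom_isometry hπ.geodesic hB o ξ
  have h0 := (rayFrom_spec hπ.geodesic hB o ξ).1
  have hgeo : IsGeodesicOn (fun t : ℝ => rayFrom o ξ t.toNNReal) 0 r := by
    intro s hs t ht
    show dist (rayFrom o ξ s.toNNReal) (rayFrom o ξ t.toNNReal) = _
    rw [hiso.dist_eq, NNReal.dist_eq, Real.coe_toNNReal s hs.1, Real.coe_toNNReal t ht.1]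
  have := hg.concat (fun t : ℝ => rayFrom o ξ t.toNNReal) (fun t : ℝ => rayFrom o ξ t.toNNReal)
    r r hgeo hgeo rfl (by simp [h0, ho]) le_rfl le_rfl ha hb
  rw [dist_self] at this
  linarith

/-- the function on `GY` whose integral is computed -/
noncomputable def Psi (hπ : IsUniversalCover π) (o : Y) (r : ℝ) (F : GeodSpace X → ℝ≥0∞) :
    GeodSpace Y → ℝ≥0∞ :=
  {c'' : GeodSpace Y | dist (c''.1 0) o < 8 * r}.indicator (fun c'' => F (projGeod hπ c''))

theorem measurable_Psi (hπ : IsUniversalCover π) (o : Y) (r : ℝ) {F : GeodSpace X → ℝ≥0∞}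
    (hF : Measurable F) : Measurable (Psi hπ o r F) := by
  apply Measurable.indicator (hF.comp (measurable_projGeod hπ))
  have : Measurable (fun c : GeodSpace Y => dist (c.1 0) o) :=
    measurable_eval (F := fun y => dist y o) (by fun_prop) 0
  exact measurableSet_lt this measurable_const

open Classical in
/-- unfolding of an integral over `GX` -/
theorem unfold_integral [CompactSpace X] [ProperSpace Y] (hπ : IsUniversalCover π)
    (hB : IsBusemannConvex Y) (hg : IsGate π p r e α β) {o : Y} (ho : π o = p)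
    {h : ℝ} {μ : Y → Measure (Bd Y)} (hμ : IsConformalDensity π h μ) {x₀ : Y}
    {m : Measure (GeodSpace X)} {line : Bd Y → Bd Y → GeodSpace Y} {Z : ℝ≥0∞}
    (hform : ∀ Ψ : GeodSpace Y → ℝ≥0∞, Measurable Ψ →
      ∫⁻ c, (∑' c' : {c' : GeodSpace Y // ∀ t, π (c'.1 t) = c.1 t}, Ψ c'.1) ∂m =
      Z⁻¹ * ∫⁻ ξ, ∫⁻ η, (if ξ = η then 0 else
        ENNReal.ofReal (Real.exp (2 * h * gromovProd x₀ (line ξ η))) *
          ∫⁻ t : ℝ, Ψ ((line ξ η).flow t)) ∂(μ x₀) ∂(μ x₀))
    {F : GeodSpace X → ℝ≥0∞} (hF : Measurable F) (hF0 : ∀ c, F c ≠ 0 → dist (c.1 0) p < 8 * r) :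
    ∫⁻ c, F c ∂m = Z⁻¹ * ∫⁻ ξ, ∫⁻ η,
      ENNReal.ofReal (Real.exp (-h * (busemann ξ x₀ o + busemann η x₀ o))) *
      (if ξ = η then 0 else
        ENNReal.ofReal (Real.exp (2 * h * gromovProd x₀ (line ξ η))) *
          ∫⁻ t : ℝ, Psi hπ o r F ((line ξ η).flow t)) ∂(μ o) ∂(μ o) := by
  rw [← lintegral_change_base hπ hB hμ x₀ o, ← hform _ (measurable_Psi hπ o r hF)]
  refine lintegral_congr fun c => ?_
  by_cases hc : dist (c.1 0) p < 8 * r
  · exact (tsum_lifts hπ hg ho c hc F).symm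
  · have hFc : F c = 0 := by
      by_contra hne
      exact hc (hF0 c hne)
    rw [hFc, eq_comm, ENNReal.tsum_eq_zero]
    rintro ⟨c', hc'⟩
    apply indicator_of_notMem
    intro hmem
    apply hc
    have hmem' : dist (c'.1 0) o < 8 * r := hmem
    calc dist (c.1 0) p = dist (π (c'.1 0)) (π o) := by rw [hc' 0, ho]
      _ ≤ dist (c'.1 0) o := by
        have := hπ.lipschitz.dist_le_mul (c'.1 0) o
        simpa using this
      _ < 8 * r := hmem'

open Classical in
theorem pointwise [CompactSpace X] [ProperSpace Y] (hπ : IsUniversalCover π)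
    (hB : IsBusemannConvex Y) (hg : IsGate π p r e α β) {o : Y} (ho : π o = p)
    {h : ℝ} {x₀ : Y} {line : Bd Y → Bd Y → GeodSpace Y}
    (hline : ∀ ξ η, ξ ≠ η → (line ξ η).EndsAt ξ η) {F : GeodSpace X → ℝ≥0∞}
    (hsupp : ∀ c : GeodSpace X, F c ≠ 0 → ∃ t : ℝ, |t| ≤ e ∧ c.1 t = p ∧
      0 < α (c.1 (t - r)) ∧ 0 < β (c.1 (t + r))) {ξ η : Bd Y} {I : ℝ≥0∞}
    (hI : ∀ (c : GeodSpace Y) (t₀ : ℝ), c.EndsAt ξ η → c.1 t₀ = o →
      ∫⁻ t : ℝ, Psi hπ o r F (c.flow t) =
        ENNReal.ofReal (α (π (rayFrom o ξ r.toNNReal))) *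
          (ENNReal.ofReal (β (π (rayFrom o η r.toNNReal))) * I)) :
    ENNReal.ofReal (Real.exp (-h * (busemann ξ x₀ o + busemann η x₀ o))) *
      (if ξ = η then 0 else
        ENNReal.ofReal (Real.exp (2 * h * gromovProd x₀ (line ξ η))) *
          ∫⁻ t : ℝ, Psi hπ o r F ((line ξ η).flow t)) =
      ENNReal.ofReal (α (π (rayFrom o ξ r.toNNReal))) *
          (ENNReal.ofReal (β (π (rayFrom o η r.toNNReal))) * I) := by
  have hr := r_pos hg
  have he := hg.e_pos
  have her := hg.e_le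
  by_cases hpos : 0 < α (π (rayFrom o ξ r.toNNReal)) ∧ 0 < β (π (rayFrom o η r.toNNReal))
  · have hne : ξ ≠ η := ne_of_pos hπ hB hg ho hpos.1 hpos.2
    have hend := hline ξ η hne
    obtain ⟨t₀, h0⟩ := line_meets hπ hB hg ho hend hpos.1 hpos.2
    rw [if_neg hne, hI _ t₀ hend h0, ← mul_assoc, ← ENNReal.ofReal_mul (Real.exp_pos _).le,
      ← Real.exp_add]
    have hgp := gromovProd_eq hπ hB hend h0 x₀
    have : -h * (busemann ξ x₀ o + busemann η x₀ o) + 2 * h * gromovProd x₀ (line ξ η) = 0 := by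
      have : 2 * h * gromovProd x₀ (line ξ η) = h * (2 * gromovProd x₀ (line ξ η)) := by ring
      rw [this, hgp]; ring
    rw [this, Real.exp_zero, ENNReal.ofReal_one, one_mul]
  · have hzero : ENNReal.ofReal (α (π (rayFrom o ξ r.toNNReal))) *
          (ENNReal.ofReal (β (π (rayFrom o η r.toNNReal))) * I) = 0 := by
      rw [not_and_or] at hpos
      rcases hpos with h1 | h1
      · rw [ENNReal.ofReal_eq_zero.2 (not_lt.1 h1), zero_mul]
      · rw [ENNReal.ofReal_eq_zero.2 (not_lt.1 h1), zero_mul, mul_zero]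
    rw [hzero]
    by_cases hne : ξ = η
    · rw [if_pos hne, mul_zero]
    · rw [if_neg hne]
      have hend := hline ξ η hne
      have hP : ∀ t : ℝ, Psi hπ o r F ((line ξ η).flow t) = 0 := by
        intro t
        by_contra hcon
        have hmem : (line ξ η).flow t ∈ {c'' : GeodSpace Y | dist (c''.1 0) o < 8 * r} := by
          by_contra hnm
          exact hcon (indicator_of_notMem hnm _)
        have hFne : F (projGeod hπ ((line ξ η).flow t)) ≠ 0 := by
          intro h0
          apply hcon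
          rw [Psi, indicator_of_mem hmem, h0]
        obtain ⟨t', ht', hp, hα, hβ⟩ := hsupp _ hFne
        have hmem' : dist ((line ξ η).1 (0 + t)) o < 8 * r := hmem
        have hp' : π ((line ξ η).1 (t' + t)) = p := hp
        have hα' : 0 < α (π ((line ξ η).1 (t' - r + t))) := hα
        have hβ' : 0 < β (π ((line ξ η).1 (t' + r + t))) := hβ
        have hiso := hB.isometry hπ.geodesic (line ξ η)
        have hd : dist ((line ξ η).1 (t' + t)) o < 16 * r := by
          calc dist ((line ξ η).1 (t' + t)) o ≤ dist ((line ξ η).1 (t' + t)) ((line ξ η).1 (0 + t))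
                + dist ((line ξ η).1 (0 + t)) o := dist_triangle _ _ _
            _ < e + 8 * r := by
              rw [hiso.dist_eq, Real.dist_eq]
              have : t' + t - (0 + t) = t' := by ring
              rw [this]
              exact add_lt_add_of_le_of_lt ht' hmem'
            _ ≤ 16 * r := by linarith
        have h0 : (line ξ η).1 (t' + t) = o := hg.uniform.eq_of_dist_lt (by rw [hp', ho]) hd
        have hrays := line_rays hπ hB hend h0 r.toNNReal
        rw [Real.coe_toNNReal r hr.le] at hrays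
        apply hpos
        rw [← hrays.1, ← hrays.2]
        refine ⟨?_, ?_⟩
        · have : t' + t - r = t' - r + t := by ring
          rw [this]; exact hα'
        · have : t' + t + r = t' + r + t := by ring
          rw [this]; exact hβ'
      simp only [hP, lintegral_zero, mul_zero]

/-- `Psi` along a line through `o` -/
theorem Psi_flow [ProperSpace Y] (hπ : IsUniversalCover π) (hB : IsBusemannConvex Y)
    {o : Y} (F : GeodSpace X → ℝ≥0∞)
    {c : GeodSpace Y} {t₀ : ℝ} (h0 : c.1 t₀ = o) (t : ℝ) :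
    (|t - t₀| < 8 * r → Psi hπ o r F (c.flow t) = F (projGeod hπ (c.flow t))) ∧
    (¬ |t - t₀| < 8 * r → Psi hπ o r F (c.flow t) = 0) := by
  have hiso := hB.isometry hπ.geodesic c
  have hd : dist ((c.flow t).1 0) o = |t - t₀| := by
    show dist (c.1 (0 + t)) o = _
    rw [← h0, hiso.dist_eq, Real.dist_eq]
    congr 1; ring
  constructor
  · intro h
    have hmem : c.flow t ∈ {c'' : GeodSpace Y | dist (c''.1 0) o < 8 * r} := by
      show dist ((c.flow t).1 0) o < 8 * r
      rw [hd]; exact h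
    rw [Psi, indicator_of_mem hmem]
  · intro h
    have hmem : c.flow t ∉ {c'' : GeodSpace Y | dist (c''.1 0) o < 8 * r} := by
      show ¬ dist ((c.flow t).1 0) o < 8 * r
      rw [hd]; exact h
    rw [Psi, indicator_of_notMem hmem]

theorem ofReal_obs_near [CompactSpace X] [ProperSpace Y] (hπ : IsUniversalCover π)
    (hB : IsBusemannConvex Y)
    (hg : IsGate π p r e α β) {o : Y} (ho : π o = p) {k : ℝ → ℝ} (hk : ∀ s, e < |s| → k s = 0)
    (hk0 : ∀ s, 0 ≤ k s)
    {Φ : GeodSpace X → ℝ} (hΦ : IsGateObs p r e α β k Φ) {c : GeodSpace Y} {ξ η : Bd Y}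
    (hc : c.EndsAt ξ η) {t₀ : ℝ} (h0 : c.1 t₀ = o) {t : ℝ} (ht : |t - t₀| < 8 * r) :
    ENNReal.ofReal (Φ (projGeod hπ (c.flow t))) = ENNReal.ofReal (k (t₀ - t)) *
      (ENNReal.ofReal (α (π (rayFrom o ξ r.toNNReal))) *
      ENNReal.ofReal (β (π (rayFrom o η r.toNNReal)))) := by
  rw [obs_near hπ hB hg ho hk hΦ hc h0 ht, mul_assoc, ENNReal.ofReal_mul (hk0 _),
    ENNReal.ofReal_mul (hg.α_mem _).1]

theorem dist_of_supp (hπ : IsUniversalCover π) (hB : IsBusemannConvex Y)
    (hg : IsGate π p r e α β) {F : GeodSpace X → ℝ≥0∞}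
    (hsupp : ∀ c : GeodSpace X, F c ≠ 0 → ∃ t : ℝ, |t| ≤ e ∧ c.1 t = p ∧
      0 < α (c.1 (t - r)) ∧ 0 < β (c.1 (t + r))) (c : GeodSpace X) (hc : F c ≠ 0) :
    dist (c.1 0) p < 8 * r := by
  have hr := r_pos hg
  have he := hg.e_pos
  have her := hg.e_le
  obtain ⟨t, ht, hp, -, -⟩ := hsupp c hc
  obtain ⟨y, hy⟩ := hπ.surjective (c.1 0)
  obtain ⟨c', -, hc'⟩ := hπ.exists_geodLift c 0 hy
  have hiso := hB.isometry hπ.geodesic c'
  rw [← hp, ← hc' 0, ← hc' t]
  calc dist (π (c'.1 0)) (π (c'.1 t)) ≤ dist (c'.1 0) (c'.1 t) := by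
        have := hπ.lipschitz.dist_le_mul (c'.1 0) (c'.1 t)
        simpa using this
    _ = |t| := by rw [hiso.dist_eq, Real.dist_eq, zero_sub, abs_neg]
    _ ≤ e := ht
    _ < 8 * r := by linarith

end G3

open G3

theorem correlation_formula [CompactSpace X] [ProperSpace Y] (hπ : IsUniversalCover π)
    (hB : IsBusemannConvex Y) (hg : IsGate π p r e α β) {o : Y} (ho : π o = p)
    {h : ℝ} {μ : Y → Measure (Bd Y)} (hμ : IsConformalDensity π h μ) {x₀ : Y}
    {m : Measure (GeodSpace X)} (hm : IsBowenMargulis π h μ x₀ m)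
    (hα : ∫⁻ ξ, ENNReal.ofReal (α (π (rayFrom o ξ r.toNNReal))) ∂(μ o) ≠ 0)
    (hβ : ∫⁻ ξ, ENNReal.ofReal (β (π (rayFrom o ξ r.toNNReal))) ∂(μ o) ≠ 0) :
    ∃ K : ℝ≥0∞, K ≠ 0 ∧ K ≠ ⊤ ∧
      (∀ (k : ℝ → ℝ) (Φ : GeodSpace X → ℝ), Continuous k → (∀ s, 0 ≤ k s) →
        (∀ s, e < |s| → k s = 0) → IsGateObs p r e α β k Φ →
        ∫⁻ c, ENNReal.ofReal (Φ c) ∂m = K * ∫⁻ s, ENNReal.ofReal (k s)) ∧
      (∀ (k₁ k₂ : ℝ → ℝ) (Φ₁ Φ₂ : GeodSpace X → ℝ), Continuous k₁ → Continuous k₂ →
        (∀ s, 0 ≤ k₁ s) → (∀ s, 0 ≤ k₂ s) →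
        (∀ s, e < |s| → k₁ s = 0) → (∀ s, e < |s| → k₂ s = 0) →
        IsGateObs p r e α β k₁ Φ₁ → IsGateObs p r e α β k₂ Φ₂ → ∀ T ≥ 2 * r,
        ∫⁻ c, ENNReal.ofReal (Φ₁ (c.flow T)) * ENNReal.ofReal (Φ₂ c) ∂m =
          K * ∑' γ : Deck π, ENNReal.ofReal (gG π α β r h o γ) *
            ∫⁻ s, ENNReal.ofReal (k₂ s) * ENNReal.ofReal (k₁ (s + gL π o γ - T))) := by
  classical
  have hr := r_pos hg
  have he := hg.e_pos
  have her := hg.e_le
  obtain ⟨line, Z, hZ0, hZt, hline, hform⟩ := hm.formula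
  have hcount : Countable (Deck π) := countable_deck hπ hg o
  have hπc : Continuous π := hπ.covering.continuous
  have := hμ.finite o
  set a : Bd Y → ℝ≥0∞ := fun ξ => ENNReal.ofReal (α (π (rayFrom o ξ r.toNNReal))) with ha
  set b : Bd Y → ℝ≥0∞ := fun ξ => ENNReal.ofReal (β (π (rayFrom o ξ r.toNNReal))) with hb
  have ha_meas : Measurable a := by
    have : Measurable (fun ξ : Bd Y => (fun y => α (π y)) (rayFrom o ξ r.toNNReal)) :=
      measurable_rayFrom (hg.α_cont.comp hπc) o _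
    exact ENNReal.measurable_ofReal.comp this
  have hb_meas : Measurable b := by
    have : Measurable (fun ξ : Bd Y => (fun y => β (π y)) (rayFrom o ξ r.toNNReal)) :=
      measurable_rayFrom (hg.β_cont.comp hπc) o _
    exact ENNReal.measurable_ofReal.comp this
  have hAt : ∫⁻ ξ, a ξ ∂(μ o) ≠ ⊤ := by
    refine ne_top_of_le_ne_top (measure_ne_top (μ o) univ) ?_
    calc ∫⁻ ξ, a ξ ∂(μ o) ≤ ∫⁻ ξ, 1 ∂(μ o) := lintegral_mono fun ξ => by
          rw [← ENNReal.ofReal_one]
          exact ENNReal.ofReal_le_ofReal (hg.α_mem _).2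
      _ = μ o univ := by simp
  have hBt : ∫⁻ ξ, b ξ ∂(μ o) ≠ ⊤ := by
    refine ne_top_of_le_ne_top (measure_ne_top (μ o) univ) ?_
    calc ∫⁻ ξ, b ξ ∂(μ o) ≤ ∫⁻ ξ, 1 ∂(μ o) := lintegral_mono fun ξ => by
          rw [← ENNReal.ofReal_one]
          exact ENNReal.ofReal_le_ofReal (hg.β_mem _).2
      _ = μ o univ := by simp
  refine ⟨Z⁻¹ * ((∫⁻ ξ, a ξ ∂(μ o)) * ∫⁻ ξ, b ξ ∂(μ o)), ?_, ?_, ?_, ?_⟩
  · exact mul_ne_zero (ENNReal.inv_ne_zero.2 hZt) (mul_ne_zero hα hβ)
  · exact ENNReal.mul_ne_top (ENNReal.inv_ne_top.2 hZ0) (ENNReal.mul_ne_top hAt hBt)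
  · intro k Φ hkc hk0 hk hΦ
    have hF : Measurable (fun c : GeodSpace X => ENNReal.ofReal (Φ c)) :=
      ENNReal.measurable_ofReal.comp hΦ.meas
    have hsupp : ∀ c : GeodSpace X, ENNReal.ofReal (Φ c) ≠ 0 → ∃ t : ℝ, |t| ≤ e ∧ c.1 t = p ∧
        0 < α (c.1 (t - r)) ∧ 0 < β (c.1 (t + r)) := by
      intro c hc
      apply hΦ.supp
      intro h0
      rw [h0, ENNReal.ofReal_zero] at hc
      exact hc rfl
    have hI : ∀ (ξ η : Bd Y) (c : GeodSpace Y) (t₀ : ℝ), c.EndsAt ξ η → c.1 t₀ = o →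
        ∫⁻ t : ℝ, Psi hπ o r (fun c : GeodSpace X => ENNReal.ofReal (Φ c)) (c.flow t) =
          a ξ * (b η * ∫⁻ s, ENNReal.ofReal (k s)) := by
      intro ξ η c t₀ hc h0
      have hP : ∀ t : ℝ, Psi hπ o r (fun c : GeodSpace X => ENNReal.ofReal (Φ c)) (c.flow t) =
          (a ξ * b η) * ENNReal.ofReal (k (t₀ - t)) := by
        intro t
        by_cases ht : |t - t₀| < 8 * r
        · rw [(Psi_flow hπ hB _ h0 t).1 ht, ofReal_obs_near hπ hB hg ho hk hk0 hΦ hc h0 ht, mul_comm]
        · rw [(Psi_flow hπ hB _ h0 t).2 ht, hk, ENNReal.ofReal_zero, mul_zero]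
          rw [abs_sub_comm]
          linarith
      simp only [hP]
      rw [lintegral_const_mul _ (by fun_prop), mul_assoc,
        lintegral_sub_left_eq_self (fun s => ENNReal.ofReal (k s)) t₀]
    rw [unfold_integral hπ hB hg ho hμ hform hF (dist_of_supp hπ hB hg hsupp)]
    have h1 : ∀ ξ : Bd Y, ∫⁻ η, a ξ * (b η * ∫⁻ s, ENNReal.ofReal (k s)) ∂(μ o) =
        a ξ * ((∫⁻ η, b η ∂(μ o)) * ∫⁻ s, ENNReal.ofReal (k s)) := by
      intro ξ
      rw [lintegral_const_mul _ (by fun_prop), lintegral_mul_const _ hb_meas]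
    refine (congrArg (fun z => Z⁻¹ * z) ((lintegral_congr fun ξ => lintegral_congr fun η =>
        pointwise hπ hB hg ho hline hsupp (hI ξ η)).trans
          ((lintegral_congr h1).trans (lintegral_mul_const _ ha_meas)))).trans ?_
    ring
  · intro k₁ k₂ Φ₁ Φ₂ hk₁c hk₂c hk₁0 hk₂0 hk₁ hk₂ hΦ₁ hΦ₂ T hT
    have hF : Measurable (fun c : GeodSpace X =>
        ENNReal.ofReal (Φ₁ (c.flow T)) * ENNReal.ofReal (Φ₂ c)) :=
      (ENNReal.measurable_ofReal.comp (hΦ₁.meas.comp (measurable_flow T))).mul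
        (ENNReal.measurable_ofReal.comp hΦ₂.meas)
    have hsupp : ∀ c : GeodSpace X,
        ENNReal.ofReal (Φ₁ (c.flow T)) * ENNReal.ofReal (Φ₂ c) ≠ 0 →
        ∃ t : ℝ, |t| ≤ e ∧ c.1 t = p ∧ 0 < α (c.1 (t - r)) ∧ 0 < β (c.1 (t + r)) := by
      intro c hc
      apply hΦ₂.supp
      intro h0
      rw [h0, ENNReal.ofReal_zero, mul_zero] at hc
      exact hc rfl
    set I : Deck π → ℝ≥0∞ := fun γ =>
      ∫⁻ s, ENNReal.ofReal (k₂ s) * ENNReal.ofReal (k₁ (s + gL π o γ - T)) with hIdef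
    -- the weight seen at `γ o`
    set w : Deck π → Bd Y → ℝ≥0∞ := fun γ η =>
      if rayFrom o η (nndist o (γ.1 o)) = γ.1 o then
        ENNReal.ofReal (β (π (rayFrom (γ.1 o) η r.toNNReal))) else 0 with hw
    have hw_meas : ∀ γ, Measurable (w γ) := by
      intro γ
      apply Measurable.ite (measurableSet_rayFrom_eq _ _ _) _ measurable_const
      have : Measurable (fun ξ : Bd Y => (fun y => β (π y)) (rayFrom (γ.1 o) ξ r.toNNReal)) :=
        measurable_rayFrom (hg.β_cont.comp hπc) _ _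
      exact ENNReal.measurable_ofReal.comp this
    set G : Bd Y → ℝ≥0∞ := fun η => ∑' γ : Deck π,
      (if γ = 1 then 0 else ENNReal.ofReal (gA π α r o γ) * I γ) * w γ η with hG
    have hI : ∀ (ξ η : Bd Y) (c : GeodSpace Y) (t₀ : ℝ), c.EndsAt ξ η → c.1 t₀ = o →
        ∫⁻ t : ℝ, Psi hπ o r (fun c : GeodSpace X =>
          ENNReal.ofReal (Φ₁ (c.flow T)) * ENNReal.ofReal (Φ₂ c)) (c.flow t) =
          a ξ * (b η * G η) := by
      intro ξ η c t₀ hc h0
      have hP : ∀ t : ℝ, Psi hπ o r (fun c : GeodSpace X =>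
          ENNReal.ofReal (Φ₁ (c.flow T)) * ENNReal.ofReal (Φ₂ c)) (c.flow t) =
          (a ξ * b η) * ∑' γ : Deck π,
            (if γ = 1 then 0 else ENNReal.ofReal (gA π α r o γ)) * w γ η *
            (ENNReal.ofReal (k₂ (t₀ - t)) *
              ENNReal.ofReal (k₁ ((t₀ - t) + gL π o γ - T))) := by
        intro t
        by_cases ht : |t - t₀| < 8 * r
        · rw [(Psi_flow hπ hB _ h0 t).1 ht,
            ofReal_obs_near hπ hB hg ho hk₂ hk₂0 hΦ₂ hc h0 ht]
          by_cases hte : e < |t₀ - t|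
          · simp [hk₂ _ hte]
          · have hte' : t₀ + r ≤ T + t := by
              have := (abs_le.1 (not_lt.1 hte)).2
              linarith
            have hflow : (projGeod hπ (c.flow t)).flow T = projGeod hπ (c.flow (T + t)) := by
              apply Subtype.ext
              funext s
              show π (c.1 (s + T + t)) = π (c.1 (s + (T + t)))
              rw [add_assoc]
            rw [hflow, obs_far hπ hB hg ho hk₁ hk₁0 hΦ₁ hc h0 hte']
            rw [← ENNReal.tsum_mul_right, ← ENNReal.tsum_mul_left]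
            refine tsum_congr fun γ => ?_
            by_cases hγ : γ = 1
            · simp [hγ]
            · by_cases hthr : rayFrom o η (nndist o (γ.1 o)) = γ.1 o
              · simp only [hw, hγ, hthr, ne_eq, not_false_eq_true, and_self, if_true, if_false]
                have : gL π o γ - (T + t - t₀) = t₀ - t + gL π o γ - T := by ring
                rw [this]
                ring
              · simp [hw, hγ, hthr]
        · rw [(Psi_flow hπ hB _ h0 t).2 ht]
          have : k₂ (t₀ - t) = 0 := by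
            apply hk₂
            rw [abs_sub_comm]
            linarith
          simp [this]
      simp only [hP]
      rw [lintegral_const_mul' _ _ (ENNReal.mul_ne_top ENNReal.ofReal_ne_top ENNReal.ofReal_ne_top),
        lintegral_sub_left_eq_self (fun s => ∑' γ : Deck π,
            (if γ = 1 then 0 else ENNReal.ofReal (gA π α r o γ)) * w γ η *
            (ENNReal.ofReal (k₂ s) *
              ENNReal.ofReal (k₁ (s + gL π o γ - T)))) t₀,
        lintegral_tsum (fun γ => by fun_prop), mul_assoc]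
      congr 2
      refine tsum_congr fun γ => ?_
      rw [lintegral_const_mul _ (by fun_prop)]
      by_cases hγ : γ = 1
      · simp [hγ]
      · simp only [hγ, if_false, hIdef]
        ring
    rw [unfold_integral hπ hB hg ho hμ hform hF (dist_of_supp hπ hB hg hsupp)]
    have h2 : ∀ η, b η * G η = ∑' γ : Deck π,
        (if γ = 1 then 0 else ENNReal.ofReal (gB π β r o γ) * (ENNReal.ofReal (gA π α r o γ) * I γ))
          * w γ η := by
      intro η
      rw [hG]
      simp only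
      rw [← ENNReal.tsum_mul_left]
      refine tsum_congr fun γ => ?_
      by_cases hγ : γ = 1
      · simp [hγ]
      · by_cases hthr : rayFrom o η (nndist o (γ.1 o)) = γ.1 o
        · have := (ray_weights hπ hB hg ho hγ hthr).1
          simp only [hγ, if_false, hb, this]
          ring
        · simp [hw, hthr]
    have h3 : ∀ ξ : Bd Y, ∫⁻ η, a ξ * (b η * G η) ∂(μ o) =
        a ξ * ((∫⁻ η, b η ∂(μ o)) * ∑' γ : Deck π, ENNReal.ofReal (gG π α β r h o γ) * I γ) := by
      intro ξ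
      rw [lintegral_const_mul' _ _ ENNReal.ofReal_ne_top]
      congr 1
      simp only [h2]
      rw [lintegral_tsum (fun γ => ((hw_meas γ).const_mul _).aemeasurable),
        ← ENNReal.tsum_mul_left]
      refine tsum_congr fun γ => ?_
      rw [lintegral_const_mul _ (hw_meas γ)]
      by_cases hγ : γ = 1
      · simp [hγ, gG]
      · simp only [hγ, if_false]
        rcases (hg.α_mem (π (geo o ((γ.1)⁻¹ o) r))).1.eq_or_lt with hA0 | hA0
        · have hA0' : gA π α r o γ = 0 := hA0.symm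
          simp [hA0', gG]
        · have hA0' : 0 < gA π α r o γ := hA0
          rw [lintegral_through_gate hπ hB hg ho hμ hγ hA0']
          have : gG π α β r h o γ = gB π β r o γ * gA π α r o γ * Real.exp (-h * gL π o γ) := by
            simp [gG, hγ]
          have hB0 : 0 ≤ gB π β r o γ := (hg.β_mem _).1
          rw [this, ENNReal.ofReal_mul (mul_nonneg hB0 hA0'.le), ENNReal.ofReal_mul hB0]
          show _ = (∫⁻ η, ENNReal.ofReal (β (π (rayFrom o η r.toNNReal))) ∂(μ o)) * _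
          ring
    refine (congrArg (fun z => Z⁻¹ * z) ((lintegral_congr fun ξ => lintegral_congr fun η =>
        pointwise hπ hB hg ho hline hsupp (hI ξ η)).trans
          ((lintegral_congr h3).trans (lintegral_mul_const _ ha_meas)))).trans ?_
    ring

end MP4a77c6
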