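import Pool.Agent.Lib.MP_4a77c6_an.G2

open Set Metric MeasureTheory Filter Topology
open scoped ENNReal NNReal

namespace MP4a77c6

/-! Task G3a: geodesic lines through gates. -/

/-! ### auxiliary lemmas -/

section G3a_aux

variable {Y X : Type*} [MetricSpace Y] [MetricSpace X]

private lemma G3a_r_pos {π : Y → X} {p : X} {r e : ℝ}
    {α β : X → ℝ} (hg : IsGate π p r e α β) : 0 < r := by
  have h1 := hg.e_pos
  have h2 := hg.e_le
  linarith

private lemma G3a_nn_isGeodesicOn {ρ : ℝ≥0 → Y} (hρ : Isometry ρ) (a : ℝ) :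
    IsGeodesicOn (fun s : ℝ => ρ s.toNNReal) 0 a := by
  intro s hs t ht
  show dist (ρ s.toNNReal) (ρ t.toNNReal) = |s - t|
  rw [hρ.dist_eq, NNReal.dist_eq, Real.coe_toNNReal _ hs.1, Real.coe_toNNReal _ ht.1]

private lemma G3a_geo_isGeodesicOn (hG : IsGeodesicSpace Y) {x y : Y} {a : ℝ}
    (h : a ≤ dist x y) : IsGeodesicOn (geo x y) 0 a := by
  intro s hs t ht
  exact (geo_spec hG x y).1 s ⟨hs.1, hs.2.trans h⟩ t ⟨ht.1, ht.2.trans h⟩

/-- a point between two points of a line is on the line -/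
private lemma G3a_mem_line (hG : IsGeodesicSpace Y) (hB : IsBusemannConvex Y) {c : ℝ → Y}
    (hc : Isometry c) {a b : ℝ} (hab : a ≤ b) {z : Y}
    (h : dist (c a) z + dist z (c b) = dist (c a) (c b)) : ∃ t, c t = z := by
  have hd : dist (c a) (c b) = b - a := by
    rw [hc.dist_eq, Real.dist_eq, abs_sub_comm, abs_of_nonneg (by linarith)]
  obtain ⟨h1, -⟩ := hB.geo_between hG h
  have h2 : IsGeodesicOn (fun s => c (a + s)) 0 (b - a) := by
    intro s hs t ht
    show dist (c (a + s)) (c (a + t)) = |s - t|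
    rw [hc.dist_eq, Real.dist_eq]
    congr 1; ring
  have h3 := hB.geo_eq hG (by linarith : 0 ≤ b - a) h2 (dist (c a) z)
    ⟨dist_nonneg, by rw [← hd, ← h]; linarith [dist_nonneg (x := z) (y := c b)]⟩
  simp only [add_zero, add_sub_cancel] at h3
  exact ⟨_, h3.symm.trans h1⟩

private lemma G3a_ray_eq (hG : IsGeodesicSpace Y) (hB : IsBusemannConvex Y)
    {c : GeodSpace Y} {η : Bd Y} {ρ : Ray Y} (hρ : ρ.bd = η) (hρc : ∀ t : ℝ≥0, ρ.1 t = c.1 t)
    (t₀ : ℝ) (s : ℝ≥0) : c.1 (t₀ + s) = rayFrom (c.1 t₀) η s := by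
  have hc := hB.isometry hG c
  let ρ' : Ray Y := ⟨fun s => c.1 (t₀ + s), fun s t => by
    rw [hc.edist_eq, edist_dist, edist_dist, NNReal.dist_eq, Real.dist_eq]
    congr 2; ring⟩
  have h1 : ρ'.bd = η := by
    rw [← hρ]
    refine Quotient.sound ⟨|t₀|, fun t => ?_⟩
    rw [hρc t]
    show dist (c.1 (t₀ + t)) (c.1 t) ≤ |t₀|
    rw [hc.dist_eq, Real.dist_eq]
    apply le_of_eq; congr 1; ring
  have h2 := rayFrom_eq hB ρ'
  have h3 : ρ'.1 0 = c.1 t₀ := by
    show c.1 (t₀ + ((0 : ℝ≥0) : ℝ)) = c.1 t₀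
    simp
  rw [h1, h3] at h2
  rw [h2]

/-- time reversal -/
private def G3a_rev (c : GeodSpace Y) : GeodSpace Y :=
  ⟨fun t => c.1 (-t), fun t => by
    obtain ⟨ε, hε, h⟩ := c.2 (-t)
    refine ⟨ε, hε, fun u hu v hv => ?_⟩
    show dist (c.1 (-u)) (c.1 (-v)) = |u - v|
    rw [h (-u) ⟨by linarith [hu.2], by linarith [hu.1]⟩ (-v)
      ⟨by linarith [hv.2], by linarith [hv.1]⟩, abs_sub_comm u v]
    congr 1; ring⟩

/-- the concatenation of a geodesic with a ray through a gate -/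
private lemma G3a_dist_ray {π : Y → X} {p : X} {r e : ℝ}
    {α β : X → ℝ} [ProperSpace Y] (hG : IsGeodesicSpace Y)
    (hB : IsBusemannConvex Y)
    (hg : IsGate π p r e α β) {o : Y} (ho : π o = p) {c : ℝ → Y} {a : ℝ}
    (hc : IsGeodesicOn c 0 a) (hc0 : c 0 = o) (hra : r ≤ a) (ha : 0 < α (π (c r))) {η : Bd Y}
    (hb : 0 < β (π (rayFrom o η r.toNNReal))) (t : ℝ≥0) :
    dist (c a) (rayFrom o η t) = a + t := by
  have hr := G3a_r_pos hg
  have hiso := rayFrom_isometry hG hB o η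
  have h0 := (rayFrom_spec hG hB o η).1
  have hda : dist (c a) o = a := by
    rw [← hc0, hc a ⟨by linarith, le_rfl⟩ 0 ⟨le_rfl, by linarith⟩, sub_zero,
      abs_of_nonneg (by linarith)]
  have key : ∀ b : ℝ, r ≤ b → dist (c a) (rayFrom o η b.toNNReal) = a + b := by
    intro b hb'
    exact hg.concat c (fun s => rayFrom o η s.toNNReal) a b hc (G3a_nn_isGeodesicOn hiso b)
      (by simp [hc0, h0]) (by rw [hc0, ho]) hra hb' ha hb
  rcases le_total r t with h | h
  · have := key t h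
    rwa [Real.toNNReal_coe] at this
  · apply le_antisymm
    · have hot : dist o (rayFrom o η t) = t := by
        have := hiso.dist_eq 0 t
        rw [h0, NNReal.dist_eq] at this
        simpa using this
      calc dist (c a) (rayFrom o η t) ≤ dist (c a) o + dist o (rayFrom o η t) :=
          dist_triangle _ _ _
        _ = a + t := by rw [hda, hot]
    · have h1 := key r le_rfl
      have h2 : dist (rayFrom o η t) (rayFrom o η r.toNNReal) = r - t := by
        rw [hiso.dist_eq, NNReal.dist_eq, Real.coe_toNNReal _ hr.le, abs_sub_comm,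
          abs_of_nonneg (by linarith)]
      have h3 := dist_triangle (c a) (rayFrom o η t) (rayFrom o η r.toNNReal)
      linarith

end G3a_aux

variable {Y X : Type*} [MetricSpace Y] [MetricSpace X] {π : Y → X} {p : X} {r e : ℝ}
  {α β : X → ℝ} [CompactSpace X] [ProperSpace Y]

/-- a line whose ends are seen through the two sides of the gate at `o` passes through `o` -/
theorem line_meets (hπ : IsUniversalCover π) (hB : IsBusemannConvex Y)
    (hg : IsGate π p r e α β) {o : Y} (ho : π o = p) {c : GeodSpace Y} {ξ η : Bd Y}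
    (hc : c.EndsAt ξ η) (ha : 0 < α (π (rayFrom o ξ r.toNNReal)))
    (hb : 0 < β (π (rayFrom o η r.toNNReal))) : ∃ t₀ : ℝ, c.1 t₀ = o := by
  have hG := hπ.geodesic
  have hr := G3a_r_pos hg
  have hiso := hB.isometry hG c
  have hπc : Continuous π := hπ.lipschitz.continuous
  obtain ⟨⟨ρ₁, hρ₁, hρ₁c⟩, ρ₂, hρ₂, hρ₂c⟩ := hc
  have h1 : Tendsto (fun t : ℝ≥0 => α (π (geo o (ρ₁.1 t) (r.toNNReal : ℝ)))) atTop
      (𝓝 (α (π (rayFrom o ξ r.toNNReal)))) := by
    rw [← hρ₁]
    exact ((hg.α_cont.comp hπc).tendsto _).comp (geo_tendsto hG hB o ρ₁ r.toNNReal)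
  have h2 : Tendsto (fun t : ℝ≥0 => β (π (geo o (ρ₂.1 t) (r.toNNReal : ℝ)))) atTop
      (𝓝 (β (π (rayFrom o η r.toNNReal)))) := by
    rw [← hρ₂]
    exact ((hg.β_cont.comp hπc).tendsto _).comp (geo_tendsto hG hB o ρ₂ r.toNNReal)
  obtain ⟨t, ht1, ht2, ht3⟩ := (((tendsto_order.1 h1).1 0 ha).and (((tendsto_order.1 h2).1 0 hb).and
    (eventually_ge_atTop (r + dist o (c.1 0)).toNNReal))).exists
  have ht4 : r + dist o (c.1 0) ≤ t := by
    have := Real.le_coe_toNNReal (r + dist o (c.1 0))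
    exact this.trans (by exact_mod_cast ht3)
  rw [Real.coe_toNNReal _ hr.le] at ht1 ht2
  rw [hρ₁c t] at ht1
  rw [hρ₂c t] at ht2
  have hd1 : r ≤ dist o (c.1 (-t)) := by
    have := dist_triangle (c.1 0) o (c.1 (-t))
    rw [hiso.dist_eq, Real.dist_eq, sub_neg_eq_add, zero_add, NNReal.abs_eq,
      dist_comm (c.1 0) o] at this
    linarith
  have hd2 : r ≤ dist o (c.1 t) := by
    have := dist_triangle (c.1 0) o (c.1 t)
    rw [hiso.dist_eq, Real.dist_eq, zero_sub, abs_neg, NNReal.abs_eq,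
      dist_comm (c.1 0) o] at this
    linarith
  obtain ⟨g1, g2, g3⟩ := geo_spec hG o (c.1 (-t))
  obtain ⟨g4, g5, g6⟩ := geo_spec hG o (c.1 t)
  have h3 := hg.concat (geo o (c.1 (-t))) (geo o (c.1 t)) _ _ g1 g4 (by rw [g2, g5])
    (by rw [g2, ho]) hd1 hd2 ht1 ht2
  rw [g3, g6] at h3
  refine G3a_mem_line hG hB hiso (a := -t) (b := t) (by linarith [t.2]) ?_
  rw [h3, dist_comm _ o]

theorem line_rays (hπ : IsUniversalCover π) (hB : IsBusemannConvex Y) {o : Y}
    {c : GeodSpace Y} {ξ η : Bd Y} (hc : c.EndsAt ξ η) {t₀ : ℝ} (h0 : c.1 t₀ = o) (s : ℝ≥0) :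
    c.1 (t₀ + s) = rayFrom o η s ∧ c.1 (t₀ - s) = rayFrom o ξ s := by
  obtain ⟨⟨ρ₁, hρ₁, hρ₁c⟩, ρ₂, hρ₂, hρ₂c⟩ := hc
  have hG := hπ.geodesic
  constructor
  · rw [← h0]
    exact G3a_ray_eq hG hB hρ₂ hρ₂c t₀ s
  · have := G3a_ray_eq hG hB (c := G3a_rev c) hρ₁ hρ₁c (-t₀) s
    have h1 : (G3a_rev c).1 (-t₀ + s) = c.1 (t₀ - s) := by
      show c.1 (-(-t₀ + s)) = c.1 (t₀ - s)
      rw [show -(-t₀ + (s : ℝ)) = t₀ - s by ring]
    have h2 : (G3a_rev c).1 (-t₀) = o := by
      show c.1 (-(-t₀)) = o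
      rw [neg_neg, h0]
    rwa [h1, h2] at this

theorem gromovProd_eq (hπ : IsUniversalCover π) (hB : IsBusemannConvex Y) {o : Y}
    {c : GeodSpace Y} {ξ η : Bd Y} (hc : c.EndsAt ξ η) {t₀ : ℝ} (h0 : c.1 t₀ = o) (x₀ : Y) :
    2 * gromovProd x₀ c = busemann ξ x₀ o + busemann η x₀ o := by
  have hG := hπ.geodesic
  have h1 := busemann_tendsto hG hB ξ x₀ o
  have h2 := busemann_tendsto hG hB η x₀ o
  have e1 : Tendsto (fun t : ℝ => (t₀ + t).toNNReal) atTop atTop :=
    tendsto_real_toNNReal_atTop.comp (tendsto_atTop_add_const_left _ _ tendsto_id)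
  have e2 : Tendsto (fun t : ℝ => (t - t₀).toNNReal) atTop atTop :=
    tendsto_real_toNNReal_atTop.comp (tendsto_atTop_add_const_right _ _ tendsto_id)
  have h3 := ((h1.comp e1).add (h2.comp e2)).div_const 2
  have h4 : Tendsto (fun t : ℝ => (dist x₀ (c.1 (-t)) + dist x₀ (c.1 t) - 2 * t) / 2) atTop
      (𝓝 ((busemann ξ x₀ o + busemann η x₀ o) / 2)) := by
    refine h3.congr' ?_
    filter_upwards [eventually_ge_atTop |t₀|] with t ht
    have hp : 0 ≤ t₀ + t := by linarith [neg_abs_le t₀]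
    have hm : 0 ≤ t - t₀ := by linarith [le_abs_self t₀]
    have l1 := (line_rays hπ hB hc h0 (t₀ + t).toNNReal).2
    have l2 := (line_rays hπ hB hc h0 (t - t₀).toNNReal).1
    rw [Real.coe_toNNReal _ hp] at l1
    rw [Real.coe_toNNReal _ hm] at l2
    simp only [Function.comp_apply]
    rw [← l1, ← l2, Real.coe_toNNReal _ hp, Real.coe_toNNReal _ hm]
    rw [show t₀ - (t₀ + t) = -t by ring, show t₀ + (t - t₀) = t by ring]
    ring
  rw [gromovProd, h4.limUnder_eq]
  ring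

/-- the ray from `o` to `η` passes through the gate `γ o`, if `o` and `η` are on opposite sides
of this gate -/
theorem ray_through_gate (hπ : IsUniversalCover π) (hB : IsBusemannConvex Y)
    (hg : IsGate π p r e α β) {o : Y} (ho : π o = p) {γ : Deck π} (hγ : γ ≠ 1) {η : Bd Y}
    (ha : 0 < gA π α r o γ) (hb : 0 < β (π (rayFrom (γ.1 o) η r.toNNReal))) :
    rayFrom o η (nndist o (γ.1 o)) = γ.1 o ∧ busemann η o (γ.1 o) = gL π o γ := by
  have hG := hπ.geodesic
  have hr := G3a_r_pos hg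
  have hL : 16 * r ≤ dist o (γ.1 o) := gL_ge hπ hg.uniform hr o γ hγ
  have hγo : π (γ.1 o) = p := by rw [γ.2 o, ho]
  obtain ⟨g1, g2, g3⟩ := geo_spec hG (γ.1 o) o
  have hmap : geo (γ.1 o) o r = γ.1 (geo o ((γ.1)⁻¹ o) r) := by
    have h := hB.geo_map hG γ.1 o ((γ.1)⁻¹ o) r ⟨hr.le, by
      have h1 : dist o ((γ.1)⁻¹ o) = dist (γ.1 o) (γ.1 ((γ.1)⁻¹ o)) := (γ.1.dist_eq _ _).symm
      rw [h1, show γ.1 ((γ.1)⁻¹ o) = o from γ.1.apply_symm_apply o, dist_comm]
      linarith⟩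
    rwa [show γ.1 ((γ.1)⁻¹ o) = o from γ.1.apply_symm_apply o] at h
  have ha' : 0 < α (π (geo (γ.1 o) o r)) := by
    rw [hmap, γ.2]
    exact ha
  have key : ∀ t : ℝ≥0, dist o (rayFrom (γ.1 o) η t) = dist o (γ.1 o) + t := by
    intro t
    have := G3a_dist_ray hG hB hg hγo g1 g2 (by rw [dist_comm]; linarith) ha' hb t
    rwa [g3, dist_comm (γ.1 o) o] at this
  refine ⟨(rayFrom_through hG hB o (γ.1 o) η key).1, ?_⟩
  have h1 := busemann_tendsto hG hB η o (γ.1 o)
  have h2 : Tendsto (fun t : ℝ≥0 => dist o (rayFrom (γ.1 o) η t) - t) atTop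
      (𝓝 (dist o (γ.1 o))) := by
    refine tendsto_const_nhds.congr fun t => ?_
    rw [key t]; ring
  exact tendsto_nhds_unique h1 h2

/-- weights along a ray from `o` to `η` passing through `γ o` -/
theorem ray_weights (hπ : IsUniversalCover π) (hB : IsBusemannConvex Y)
    (hg : IsGate π p r e α β) {o : Y} (ho : π o = p) {γ : Deck π} (hγ : γ ≠ 1) {η : Bd Y}
    (h : rayFrom o η (nndist o (γ.1 o)) = γ.1 o) :
    β (π (rayFrom o η r.toNNReal)) = gB π β r o γ ∧
      (∀ s : ℝ≥0, (s : ℝ) = gL π o γ - r → α (π (rayFrom o η s)) = gA π α r o γ) ∧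
      ∀ s : ℝ≥0, rayFrom o η (nndist o (γ.1 o) + s) = rayFrom (γ.1 o) η s := by
  have hG := hπ.geodesic
  have hr := G3a_r_pos hg
  have hL : 16 * r ≤ dist o (γ.1 o) := gL_ge hπ hg.uniform hr o γ hγ
  have hiso := rayFrom_isometry hG hB o η
  have h0 := (rayFrom_spec hG hB o η).1
  have hend : rayFrom o η (dist o (γ.1 o)).toNNReal = γ.1 o := by
    rw [show (dist o (γ.1 o)).toNNReal = nndist o (γ.1 o) by
      rw [dist_nndist, Real.toNNReal_coe]]
    exact h
  refine ⟨?_, ?_, ?_⟩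
  · have h1 := hB.geo_eq hG dist_nonneg (G3a_nn_isGeodesicOn hiso (dist o (γ.1 o))) r
      ⟨hr.le, by linarith⟩
    simp only [Real.toNNReal_zero, h0, hend] at h1
    rw [← h1]; rfl
  · intro s hs
    have hs' : (s : ℝ) = dist o (γ.1 o) - r := hs
    have h2 : IsGeodesicOn (fun u : ℝ => rayFrom o η (dist o (γ.1 o) - u).toNNReal) 0
        (dist o (γ.1 o)) := by
      intro u hu v hv
      show dist (rayFrom o η (dist o (γ.1 o) - u).toNNReal)
        (rayFrom o η (dist o (γ.1 o) - v).toNNReal) = |u - v|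
      rw [hiso.dist_eq, NNReal.dist_eq, Real.coe_toNNReal _ (by linarith [hu.2]),
        Real.coe_toNNReal _ (by linarith [hv.2]), abs_sub_comm u v]
      congr 1; ring
    have h1 := hB.geo_eq hG dist_nonneg h2 r ⟨hr.le, by linarith⟩
    simp only [sub_zero, sub_self, Real.toNNReal_zero, h0, hend] at h1
    have hmap : geo (γ.1 o) o r = γ.1 (geo o ((γ.1)⁻¹ o) r) := by
      have h := hB.geo_map hG γ.1 o ((γ.1)⁻¹ o) r ⟨hr.le, by
        have h1 : dist o ((γ.1)⁻¹ o) = dist (γ.1 o) (γ.1 ((γ.1)⁻¹ o)) := (γ.1.dist_eq _ _).symm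
        rw [h1, show γ.1 ((γ.1)⁻¹ o) = o from γ.1.apply_symm_apply o, dist_comm]
        linarith⟩
      rwa [show γ.1 ((γ.1)⁻¹ o) = o from γ.1.apply_symm_apply o] at h
    have h3 : (dist o (γ.1 o) - r).toNNReal = s := by
      rw [← hs', Real.toNNReal_coe]
    rw [h3, hmap] at h1
    rw [← h1, γ.2]
    rfl
  · intro s
    have := rayFrom_add hG hB o η (nndist o (γ.1 o)) s
    rw [h] at this
    exact this.symm

/-- value of a gate observable along a line through `o`, near `o` -/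
theorem obs_near (hπ : IsUniversalCover π) (hB : IsBusemannConvex Y)
    (hg : IsGate π p r e α β) {o : Y} (ho : π o = p) {k : ℝ → ℝ} (hk : ∀ s, e < |s| → k s = 0)
    {Φ : GeodSpace X → ℝ} (hΦ : IsGateObs p r e α β k Φ) {c : GeodSpace Y} {ξ η : Bd Y}
    (hc : c.EndsAt ξ η) {t₀ : ℝ} (h0 : c.1 t₀ = o) {t : ℝ} (ht : |t - t₀| < 8 * r) :
    Φ (projGeod hπ (c.flow t)) = k (t₀ - t) * α (π (rayFrom o ξ r.toNNReal)) *
      β (π (rayFrom o η r.toNNReal)) := by
  have hG := hπ.geodesic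
  have hr := G3a_r_pos hg
  have hiso := hB.isometry hG c
  have hev : ∀ s, (projGeod hπ (c.flow t)).1 s = π (c.1 (s + t)) := fun s => rfl
  by_cases h : |t₀ - t| ≤ e
  · have h1 := hΦ.eq (projGeod hπ (c.flow t)) (t₀ - t) h (by rw [hev, sub_add_cancel, h0, ho])
    have l := line_rays hπ hB hc h0 r.toNNReal
    rw [Real.coe_toNNReal _ hr.le] at l
    rw [h1, hev, hev, show t₀ - t - r + t = t₀ - r by ring,
      show t₀ - t + r + t = t₀ + r by ring, l.1, l.2]
  · rw [hk _ (not_le.1 h), zero_mul, zero_mul]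
    by_contra hne
    obtain ⟨t', ht', hp, -⟩ := hΦ.supp _ hne
    rw [hev] at hp
    have h2 : c.1 (t' + t) = o := by
      apply hg.uniform.eq_of_dist_lt (by rw [hp, ho])
      rw [← h0, hiso.dist_eq, Real.dist_eq]
      have := abs_add_le t' (t - t₀)
      rw [show t' + t - t₀ = t' + (t - t₀) by ring]
      have := hg.e_le
      have := hg.e_pos
      linarith
    have h3 : t' + t = t₀ := hiso.injective (h2.trans h0.symm)
    apply h
    rw [← h3, add_sub_cancel_right]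
    exact ht'

open Classical in
/-- value of a gate observable along a line through `o`, far in the future -/
theorem obs_far (hπ : IsUniversalCover π) (hB : IsBusemannConvex Y)
    (hg : IsGate π p r e α β) {o : Y} (ho : π o = p) {k : ℝ → ℝ} (hk : ∀ s, e < |s| → k s = 0)
    (hk0 : ∀ s, 0 ≤ k s)
    {Φ : GeodSpace X → ℝ} (hΦ : IsGateObs p r e α β k Φ) {c : GeodSpace Y} {ξ η : Bd Y}
    (hc : c.EndsAt ξ η) {t₀ : ℝ} (h0 : c.1 t₀ = o) {t : ℝ} (ht : t₀ + r ≤ t) :
    ENNReal.ofReal (Φ (projGeod hπ (c.flow t))) =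
      ∑' γ : Deck π, if γ ≠ 1 ∧ rayFrom o η (nndist o (γ.1 o)) = γ.1 o then
        ENNReal.ofReal (k (gL π o γ - (t - t₀))) * ENNReal.ofReal (gA π α r o γ) *
          ENNReal.ofReal (β (π (rayFrom (γ.1 o) η r.toNNReal))) else 0 := by
  have hG := hπ.geodesic
  have hr := G3a_r_pos hg
  have hiso := hB.isometry hG c
  have hev : ∀ s, (projGeod hπ (c.flow t)).1 s = π (c.1 (s + t)) := fun s => rfl
  have hepos := hg.e_pos
  have hele := hg.e_le
  have hray : ∀ s : ℝ≥0, c.1 (t₀ + s) = rayFrom o η s := fun s => (line_rays hπ hB hc h0 s).1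
  -- points of the line corresponding to `γ`
  have hpt : ∀ γ : Deck π, rayFrom o η (nndist o (γ.1 o)) = γ.1 o →
      c.1 (t₀ + gL π o γ) = γ.1 o := by
    intro γ h
    have := hray (nndist o (γ.1 o))
    rw [h] at this
    exact this
  by_cases hex : ∃ γ : Deck π, γ ≠ 1 ∧ rayFrom o η (nndist o (γ.1 o)) = γ.1 o ∧
      |gL π o γ - (t - t₀)| ≤ e
  · obtain ⟨γ, hγ1, hγo, hγe⟩ := hex
    rw [tsum_eq_single γ]
    · rw [if_pos ⟨hγ1, hγo⟩]
      obtain ⟨w1, w2, w3⟩ := ray_weights hπ hB hg ho hγ1 hγo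
      have hL : 16 * r ≤ gL π o γ := gL_ge hπ hg.uniform hr o γ hγ1
      have h1 := hΦ.eq (projGeod hπ (c.flow t)) (gL π o γ - (t - t₀)) hγe (by
        rw [hev, show gL π o γ - (t - t₀) + t = t₀ + gL π o γ by ring, hpt γ hγo, γ.2, ho])
      have h2 : c.1 (t₀ + (gL π o γ - r)) = rayFrom o η (gL π o γ - r).toNNReal := by
        have := hray (gL π o γ - r).toNNReal
        rwa [Real.coe_toNNReal _ (by linarith)] at this
      have h3 : c.1 (t₀ + (gL π o γ + r)) = rayFrom (γ.1 o) η r.toNNReal := by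
        have := hray (nndist o (γ.1 o) + r.toNNReal)
        rw [w3] at this
        rw [← this]
        congr 1
        rw [NNReal.coe_add, Real.coe_toNNReal _ hr.le]
        rfl
      have h4 := w2 (gL π o γ - r).toNNReal (Real.coe_toNNReal _ (by linarith))
      rw [hev, hev, show gL π o γ - (t - t₀) - r + t = t₀ + (gL π o γ - r) by ring,
        show gL π o γ - (t - t₀) + r + t = t₀ + (gL π o γ + r) by ring, h2, h3, h4] at h1
      have hgA : 0 ≤ gA π α r o γ := (hg.α_mem _).1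
      rw [h1, ENNReal.ofReal_mul (mul_nonneg (hk0 _) hgA), ENNReal.ofReal_mul (hk0 _)]
    · intro γ' hne
      split_ifs with hγ'
      · rw [hk, ENNReal.ofReal_zero, zero_mul, zero_mul]
        by_contra hle
        rw [not_lt] at hle
        apply hne
        have h1 := hpt γ hγo
        have h2 := hpt γ' hγ'.2
        have h3 : γ'.1 o = γ.1 o := by
          apply hg.uniform.eq_of_dist_lt (by rw [γ.2, γ'.2])
          rw [← h1, ← h2, hiso.dist_eq, Real.dist_eq]
          have := abs_sub_le (gL π o γ') (t - t₀) (gL π o γ)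
          rw [abs_sub_comm (t - t₀)] at this
          rw [show t₀ + gL π o γ' - (t₀ + gL π o γ) = gL π o γ' - gL π o γ by ring]
          linarith
        exact Subtype.ext (hπ.deck_unique γ'.2 γ.2 h3)
      · rfl
  · have h1 : ∀ γ : Deck π, (if γ ≠ 1 ∧ rayFrom o η (nndist o (γ.1 o)) = γ.1 o then
        ENNReal.ofReal (k (gL π o γ - (t - t₀))) * ENNReal.ofReal (gA π α r o γ) *
          ENNReal.ofReal (β (π (rayFrom (γ.1 o) η r.toNNReal))) else 0) = 0 := by
      intro γ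
      split_ifs with hγ
      · rw [hk, ENNReal.ofReal_zero, zero_mul, zero_mul]
        by_contra hle
        exact hex ⟨γ, hγ.1, hγ.2, not_lt.1 hle⟩
      · rfl
    rw [tsum_congr h1, tsum_zero]
    rw [ENNReal.ofReal_eq_zero]
    by_contra hpos
    obtain ⟨t', ht', hp, -⟩ := hΦ.supp _ (not_le.1 hpos).ne'
    rw [hev] at hp
    apply hex
    obtain ⟨γ, hγ, hγo⟩ := hπ.exists_deck (y := o) (y' := c.1 (t' + t)) (by rw [hp, ho])
    have ht'' := abs_le.1 ht'
    have hd : dist o (γ o) = t' + t - t₀ := by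
      rw [hγo, ← h0, hiso.dist_eq, Real.dist_eq, abs_sub_comm, abs_of_nonneg (by linarith)]
    have hnn : (nndist o (γ o) : ℝ) = t' + t - t₀ := hd
    refine ⟨⟨γ, hγ⟩, ?_, ?_, ?_⟩
    · intro h
      have h2 : γ = 1 := congrArg Subtype.val h
      rw [h2] at hd
      have : dist o ((1 : Y ≃ᵢ Y) o) = 0 := dist_self o
      rw [this] at hd
      linarith
    · show rayFrom o η (nndist o (γ o)) = γ o
      rw [← hray, hnn, hγo, show t₀ + (t' + t - t₀) = t' + t by ring]
    · show |dist o (γ o) - (t - t₀)| ≤ e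
      rw [hd, show t' + t - t₀ - (t - t₀) = t' by ring]
      exact ht'

end MP4a77c6
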