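import Pool.Agent.Lib.MP_4a77c6_an.G3a

open Set Metric MeasureTheory Filter Topology
open scoped ENNReal NNReal

namespace MP4a77c6

/-! Task G3b: conformal measures and gates. -/

variable {Y X : Type*} [MetricSpace Y] [MetricSpace X] {π : Y → X} {p : X} {r e : ℝ}
  {α β : X → ℝ} [CompactSpace X] [ProperSpace Y]

open Classical in
/-- mass seen through the gate `γ o` -/
theorem lintegral_through_gate (hπ : IsUniversalCover π) (hB : IsBusemannConvex Y)
    (hg : IsGate π p r e α β) {o : Y} (ho : π o = p)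
    {h : ℝ} {μ : Y → Measure (Bd Y)} (hμ : IsConformalDensity π h μ) {γ : Deck π} (hγ : γ ≠ 1)
    (ha : 0 < gA π α r o γ) :
    ∫⁻ η, (if rayFrom o η (nndist o (γ.1 o)) = γ.1 o then
        ENNReal.ofReal (β (π (rayFrom (γ.1 o) η r.toNNReal))) else 0) ∂(μ o) =
      ENNReal.ofReal (Real.exp (-h * gL π o γ)) *
        ∫⁻ η, ENNReal.ofReal (β (π (rayFrom o η r.toNNReal))) ∂(μ o) := by
  have hG := hπ.geodesic
  have hβc : Continuous (fun y : Y => β (π y)) := hg.β_cont.comp hπ.lipschitz.continuous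
  have hγm : ∀ y, π (γ.1 y) = π y := γ.2
  have hmeas : ∀ y : Y, Measurable
      (fun ξ : Bd Y => ENNReal.ofReal (β (π (rayFrom y ξ r.toNNReal)))) := fun y =>
    (measurable_rayFrom (F := fun y : Y => β (π y)) hβc y r.toNNReal).ennreal_ofReal
  have hdens : Measurable
      (fun ξ : Bd Y => ENNReal.ofReal (Real.exp (-h * busemann ξ o (γ.1 o)))) :=
    (((measurable_busemann hG hB o (γ.1 o)).const_mul (-h)).exp).ennreal_ofReal
  have h1 : ∀ η : Bd Y, (if rayFrom o η (nndist o (γ.1 o)) = γ.1 o then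
        ENNReal.ofReal (β (π (rayFrom (γ.1 o) η r.toNNReal))) else 0) =
      ENNReal.ofReal (β (π (rayFrom (γ.1 o) η r.toNNReal))) := by
    intro η
    rcases (hg.β_mem (π (rayFrom (γ.1 o) η r.toNNReal))).1.eq_or_lt with h0 | h0
    · rw [← h0]; simp
    · rw [if_pos (ray_through_gate hπ hB hg ho hγ ha h0).1]
  simp_rw [h1]
  have e1 : ∫⁻ η, ENNReal.ofReal (β (π (rayFrom (γ.1 o) η r.toNNReal))) ∂(μ o) =
      ∫⁻ η, ((fun ξ : Bd Y => ENNReal.ofReal (Real.exp (-h * busemann ξ o (γ.1 o)))) *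
        (fun ξ : Bd Y => ENNReal.ofReal (β (π (rayFrom (γ.1 o) ξ r.toNNReal))))) η
          ∂(μ (γ.1 o)) := by
    conv_lhs => rw [hμ.conformal o (γ.1 o)]
    exact lintegral_withDensity_eq_lintegral_mul _ hdens (hmeas _)
  rw [e1]
  have h2 : ∀ η : Bd Y, ((fun ξ : Bd Y => ENNReal.ofReal
        (Real.exp (-h * busemann ξ o (γ.1 o)))) *
      (fun ξ : Bd Y => ENNReal.ofReal (β (π (rayFrom (γ.1 o) ξ r.toNNReal))))) η =
      ENNReal.ofReal (Real.exp (-h * gL π o γ)) *
        ENNReal.ofReal (β (π (rayFrom (γ.1 o) η r.toNNReal))) := by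
    intro η
    change ENNReal.ofReal (Real.exp (-h * busemann η o (γ.1 o))) *
      ENNReal.ofReal (β (π (rayFrom (γ.1 o) η r.toNNReal))) = _
    rcases (hg.β_mem (π (rayFrom (γ.1 o) η r.toNNReal))).1.eq_or_lt with h0 | h0
    · rw [← h0]; simp
    · rw [(ray_through_gate hπ hB hg ho hγ ha h0).2]
  simp_rw [h2]
  rw [lintegral_const_mul' _ _ ENNReal.ofReal_ne_top]
  congr 1
  rw [← hμ.equivariant γ.1 γ.2 o, lintegral_map (hmeas _) (measurable_bdMap hG hB γ.1)]
  refine lintegral_congr fun η => ?_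
  rw [rayFrom_map hG hB γ.1 o η, hγm]

/-- change of base point in a double integral against the conformal density -/
theorem lintegral_change_base (hπ : IsUniversalCover π) (hB : IsBusemannConvex Y)
    {h : ℝ} {μ : Y → Measure (Bd Y)} (hμ : IsConformalDensity π h μ) (x₀ o : Y)
    (J : Bd Y → Bd Y → ℝ≥0∞) :
    ∫⁻ ξ, ∫⁻ η, J ξ η ∂(μ x₀) ∂(μ x₀) =
      ∫⁻ ξ, ∫⁻ η, ENNReal.ofReal (Real.exp (-h * (busemann ξ x₀ o + busemann η x₀ o))) * J ξ η
        ∂(μ o) ∂(μ o) := by
  have hG := hπ.geodesic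
  have hdens : Measurable
      (fun ξ : Bd Y => ENNReal.ofReal (Real.exp (-h * busemann ξ x₀ o))) :=
    (((measurable_busemann hG hB x₀ o).const_mul (-h)).exp).ennreal_ofReal
  have key : ∀ f : Bd Y → ℝ≥0∞, ∫⁻ ξ, f ξ ∂(μ x₀) =
      ∫⁻ ξ, ENNReal.ofReal (Real.exp (-h * busemann ξ x₀ o)) * f ξ ∂(μ o) := by
    intro f
    rw [hμ.conformal x₀ o, lintegral_withDensity_eq_lintegral_mul_non_measurable _ hdens
      (Eventually.of_forall fun _ => ENNReal.ofReal_lt_top)]
    rfl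
  rw [key]
  refine lintegral_congr fun ξ => ?_
  rw [key, ← lintegral_const_mul' _ _ ENNReal.ofReal_ne_top]
  refine lintegral_congr fun η => ?_
  rw [← mul_assoc, ← ENNReal.ofReal_mul (Real.exp_pos _).le, ← Real.exp_add, mul_add]

/-- sum over the lifts of a geodesic: exactly one lift is near `o` -/
theorem tsum_lifts (hπ : IsUniversalCover π) (hg : IsGate π p r e α β) {o : Y} (ho : π o = p)
    (c : GeodSpace X) (hc : dist (c.1 0) p < 8 * r) (F : GeodSpace X → ℝ≥0∞) :
    ∑' c' : {c' : GeodSpace Y // ∀ t, π (c'.1 t) = c.1 t},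
      {c'' : GeodSpace Y | dist (c''.1 0) o < 8 * r}.indicator
        (fun c'' => F (projGeod hπ c'')) c'.1 = F c := by
  have hr : 0 < r := by have := hg.e_pos; have := hg.e_le; linarith
  have hu8 : IsUniformCover π (8 * r) := hg.uniform.mono (by positivity) (by linarith)
  obtain ⟨a, ha, hac⟩ := (hu8 o).2 (c.1 0) (by rw [ho]; exact hc)
  obtain ⟨c', hc'0, hc'⟩ := hπ.exists_geodLift c 0 hac
  have hproj : ∀ c'' : {c' : GeodSpace Y // ∀ t, π (c'.1 t) = c.1 t}, projGeod hπ c''.1 = c := by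
    intro c''
    exact Subtype.ext (funext fun t => c''.2 t)
  rw [tsum_eq_single (⟨c', hc'⟩ : {c' : GeodSpace Y // ∀ t, π (c'.1 t) = c.1 t})]
  · rw [indicator_of_mem]
    · exact congrArg F (hproj ⟨c', hc'⟩)
    · change dist (c'.1 0) o < 8 * r
      rw [hc'0]; exact ha
  · intro c'' hne
    apply indicator_of_notMem
    intro hmem
    apply hne
    have h1 : dist (c''.1.1 0) o < 8 * r := hmem
    have h2 : dist (c'.1 0) o < 8 * r := by rw [hc'0]; exact ha
    have h3 : c''.1.1 0 = c'.1 0 := by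
      apply hg.uniform.eq_of_dist_lt ((c''.2 0).trans (hc' 0).symm)
      have := dist_triangle_right (c''.1.1 0) (c'.1 0) o
      linarith
    exact Subtype.ext (hπ.geodLift_unique c''.1 c' (fun t => (c''.2 t).trans (hc' t).symm) h3)

end MP4a77c6
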