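import Pool.Agent.Lib.MP_4a77c6_an.A1
import Pool.Agent.Lib.MP_4a77c6_an.C4
import Pool.Agent.Lib.MP_4a77c6_an.F2
import Pool.Agent.Lib.MP_4a77c6_an.F3
import Pool.Agent.Lib.MP_4a77c6_an.G1
import Pool.Agent.Lib.MP_4a77c6_an.G3

open Set Metric MeasureTheory Filter Topology
open scoped ENNReal NNReal

namespace MP4a77c6

/-! Task H1: assembly. -/

universe u

private theorem H1_integrable_exp : Integrable (fun s : ℝ => Real.exp (-2 * |s|)) := by
  rw [← integrableOn_univ, ← Iic_union_Ioi (a := (0 : ℝ))]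
  refine IntegrableOn.union ?_ ?_
  · refine (integrableOn_exp_mul_Iic (a := 2) (by norm_num) 0).congr_fun (fun x hx => ?_)
      measurableSet_Iic
    show Real.exp (2 * x) = Real.exp (-2 * |x|)
    rw [abs_of_nonpos hx]; ring_nf
  · refine (integrableOn_exp_mul_Ioi (a := -2) (by norm_num) 0).congr_fun (fun x hx => ?_)
      measurableSet_Ioi
    show Real.exp (-2 * x) = Real.exp (-2 * |x|)
    rw [abs_of_pos hx]

private theorem H1_gdist_le {X : Type*} [MetricSpace X] [CompactSpace X] :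
    ∃ D : ℝ, 1 ≤ D ∧ ∀ c c' : GeodSpace X, 0 ≤ GeodSpace.gdist c c' ∧
      GeodSpace.gdist c c' ≤ D := by
  set J : ℝ := ∫ s : ℝ, Real.exp (-2 * |s|) with hJ
  have hJ0 : 0 ≤ J := integral_nonneg fun s => (Real.exp_pos _).le
  have hb : Bornology.IsBounded (univ : Set X) := isBounded_of_compactSpace
  set d : ℝ := diam (univ : Set X) with hd
  have hd0 : 0 ≤ d := diam_nonneg
  refine ⟨max 1 (d * J), le_max_left _ _, fun c c' => ⟨?_, ?_⟩⟩
  · exact integral_nonneg fun s => mul_nonneg dist_nonneg (Real.exp_pos _).le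
  · refine le_trans ?_ (le_max_right _ _)
    rw [hJ, ← integral_const_mul]
    refine integral_mono_of_nonneg ?_ (H1_integrable_exp.const_mul d) ?_
    · exact Eventually.of_forall fun s => mul_nonneg dist_nonneg (Real.exp_pos _).le
    · refine Eventually.of_forall fun s => ?_
      exact mul_le_mul_of_nonneg_right (dist_le_diam_of_mem hb (mem_univ _) (mem_univ _))
        (Real.exp_pos _).le

private theorem H1_holder {X : Type*} [MetricSpace X] [CompactSpace X] {a : ℝ} (ha0 : 0 < a)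
    (ha1 : a ≤ 1) {Φ : GeodSpace X → ℝ} {B : ℝ} (h : IsHolderWith 1 B B Φ) :
    ∃ B', IsHolderWith a B B' Φ := by
  obtain ⟨D, hD1, hD⟩ := H1_gdist_le (X := X)
  refine ⟨B * D ^ (1 - a), h.1, fun c c' => ?_⟩
  have hB : 0 ≤ B := (abs_nonneg _).trans (h.1 c)
  obtain ⟨h0, h1⟩ := hD c c'
  have h2 := h.2 c c'
  rw [Real.rpow_one] at h2
  refine h2.trans ?_
  rw [mul_assoc]
  refine mul_le_mul_of_nonneg_left ?_ hB
  calc GeodSpace.gdist c c' = GeodSpace.gdist c c' ^ ((1 - a) + a) := by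
        rw [sub_add_cancel, Real.rpow_one]
    _ = GeodSpace.gdist c c' ^ (1 - a) * GeodSpace.gdist c c' ^ a := by
        rw [Real.rpow_add' h0 (by simp)]
    _ ≤ D ^ (1 - a) * GeodSpace.gdist c c' ^ a := by
        refine mul_le_mul_of_nonneg_right ?_ (Real.rpow_nonneg h0 _)
        exact Real.rpow_le_rpow h0 h1 (by linarith)

private theorem H1_compact {k : ℝ → ℝ} {e : ℝ} (he : ∀ s, e < |s| → k s = 0) :
    HasCompactSupport k := by
  refine HasCompactSupport.intro (K := Icc (-e) e) isCompact_Icc fun x hx => he x ?_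
  rw [lt_abs]
  by_contra hcon
  push Not at hcon
  exact hx ⟨by linarith, hcon.1⟩

theorem not_hasExpDecay_of_gate {Y X : Type*} [MetricSpace Y] [MetricSpace X] {π : Y → X}
    {p : X} {r e : ℝ} {α β : X → ℝ} [CompactSpace X] [ProperSpace Y] (hπ : IsUniversalCover π)
    (hB : IsBusemannConvex Y) (hg : IsGate π p r e α β) {o : Y} (ho : π o = p)
    {h : ℝ} {μ : Y → Measure (Bd Y)} (hμ : IsConformalDensity π h μ) {x₀ : Y}
    {m : Measure (GeodSpace X)} (hm : IsBowenMargulis π h μ x₀ m)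
    (hα : ∫⁻ ξ, ENNReal.ofReal (α (π (rayFrom o ξ r.toNNReal))) ∂(μ o) ≠ 0)
    (hβ : ∫⁻ ξ, ENNReal.ofReal (β (π (rayFrom o ξ r.toNNReal))) ∂(μ o) ≠ 0) :
    ¬ HasExpDecay m := by
  classical
  rintro ⟨a, ha0, ha1, C, hC, κ, hκ, hdec⟩
  obtain ⟨K, hK0, hKtop, hK1, hK2⟩ := correlation_formula hπ hB hg ho hμ hm hα hβ
  have he := hg.e_pos
  have he16 := hg.e_le
  have hr : 0 < r := by linarith
  have hK : 0 < K.toReal := ENNReal.toReal_pos hK0 hKtop
  haveI := hm.prob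
  -- the renewal structure
  obtain ⟨f, hf0, hfg, hren⟩ := group_renewal (gL π o) (gA π α r o) (gB π β r o) h
    (gL_one o) (fun γ hγ => lt_of_lt_of_le (by linarith) (gL_ge hπ hg.uniform hr o γ hγ))
    (fun R => gL_finite hπ hg.uniform hr o R) (fun γ => hg.α_mem _) (fun γ => hg.β_mem _)
    (gL_mul_le o) (gL_linear hπ hB o) (gL_gate hπ hB hg ho) (gAB_mul hπ hB hg ho)
    (gG π α β r h o) (fun γ => by unfold gG; congr)
  have hg0 : ∀ γ, 0 ≤ gG π α β r h o γ := fun γ => (hf0 γ).trans (hfg γ)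
  have hne : ∀ γ, gG π α β r h o γ ≠ 0 → γ ≠ 1 := by
    rintro γ hγ rfl
    exact hγ (by unfold gG; rw [if_pos rfl])
  refine renewal_contradiction (gG π α β r h o) f (gL π o) e (16 * r) K.toReal κ (2 * r) he
    (by linarith) hK hκ hf0 hfg (fun γ hγ => gL_ge hπ hg.uniform hr o γ (hne γ hγ))
    (fun R => (gL_finite hπ hg.uniform hr o R).subset fun γ hγ => hγ.2) hren ?_
  intro k₁ k₂ hk₁ hk₂ hp₁ hp₂ hs₁ hs₂
  obtain ⟨Φ₁, B₁, hH₁, hO₁⟩ := hg.obs k₁ hk₁ hp₁ hs₁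
  obtain ⟨Φ₂, B₂, hH₂, hO₂⟩ := hg.obs k₂ hk₂ hp₂ hs₂
  obtain ⟨B₁', hH₁'⟩ := H1_holder ha0 ha1 hH₁
  obtain ⟨B₂', hH₂'⟩ := H1_holder ha0 ha1 hH₂
  have hc₁ : Continuous k₁ := hk₁.choose_spec.continuous
  have hc₂ : Continuous k₂ := hk₂.choose_spec.continuous
  -- the mean values
  have hmean : ∀ (k : ℝ → ℝ) (Φ : GeodSpace X → ℝ), Continuous k → (∀ s, 0 ≤ k s) →
      (∀ s, e < |s| → k s = 0) → IsGateObs p r e α β k Φ →
      ∫ c, Φ c ∂m = K.toReal * ∫ s, k s := by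
    intro k Φ hk hp hs hO
    rw [integral_eq_lintegral_of_nonneg_ae (Eventually.of_forall hO.nonneg)
      hO.meas.aestronglyMeasurable, hK1 k Φ hk hp hs hO, ENNReal.toReal_mul,
      integral_eq_lintegral_of_nonneg_ae (Eventually.of_forall hp) hk.aestronglyMeasurable]
  -- the correlations
  have hcorr : ∀ T ≥ 2 * r, ∫ c, Φ₁ (c.flow T) * Φ₂ c ∂m =
      K.toReal * ∑' s, gG π α β r h o s * (∫ u, k₂ u * k₁ (u + gL π o s - T)) := by
    intro T hT
    have hmeas : Measurable fun c : GeodSpace X => Φ₁ (c.flow T) * Φ₂ c :=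
      (hO₁.meas.comp (measurable_flow T)).mul hO₂.meas
    rw [integral_eq_lintegral_of_nonneg_ae
      (Eventually.of_forall fun c => mul_nonneg (hO₁.nonneg _) (hO₂.nonneg _))
      hmeas.aestronglyMeasurable]
    simp_rw [ENNReal.ofReal_mul (hO₁.nonneg _)]
    rw [hK2 k₁ k₂ Φ₁ Φ₂ hc₁ hc₂ hp₁ hp₂ hs₁ hs₂ hO₁ hO₂ T hT, ENNReal.toReal_mul]
    congr 1
    have hint : ∀ s : Deck π, ∫⁻ u, ENNReal.ofReal (k₂ u) * ENNReal.ofReal (k₁ (u + gL π o s - T)) =
        ENNReal.ofReal (∫ u, k₂ u * k₁ (u + gL π o s - T)) := by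
      intro s
      rw [ofReal_integral_eq_lintegral_ofReal]
      · simp_rw [ENNReal.ofReal_mul (hp₂ _)]
      · refine Continuous.integrable_of_hasCompactSupport ?_ ?_
        · exact hc₂.mul (hc₁.comp (by fun_prop))
        · exact (H1_compact hs₂).mul_right
      · exact Eventually.of_forall fun u => mul_nonneg (hp₂ _) (hp₁ _)
    rw [ENNReal.tsum_toReal_eq]
    · refine tsum_congr fun s => ?_
      rw [hint s, ENNReal.toReal_mul, ENNReal.toReal_ofReal (hg0 s), ENNReal.toReal_ofReal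
        (integral_nonneg fun u => mul_nonneg (hp₂ _) (hp₁ _))]
    · intro s
      rw [hint s]
      exact ENNReal.mul_ne_top ENNReal.ofReal_ne_top ENNReal.ofReal_ne_top
  refine ⟨C * (B₁ + B₁') * (B₂ + B₂') / K.toReal, fun T hT => ?_⟩
  have h1 := hdec Φ₁ Φ₂ B₁ B₁' B₂ B₂' hH₁' hH₂' T (by linarith)
  rw [hcorr T hT, hmean k₁ Φ₁ hc₁ hp₁ hs₁ hO₁, hmean k₂ Φ₂ hc₂ hp₂ hs₂ hO₂] at h1
  have h2 : K.toReal * ∑' s, gG π α β r h o s * (∫ u, k₂ u * k₁ (u + gL π o s - T)) -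
      (K.toReal * ∫ s, k₁ s) * (K.toReal * ∫ s, k₂ s) =
      K.toReal * (∑' s, gG π α β r h o s * (∫ u, k₂ u * k₁ (u + gL π o s - T)) -
        K.toReal * (∫ u, k₁ u) * (∫ u, k₂ u)) := by ring
  rw [h2, abs_mul, abs_of_pos hK] at h1
  rw [div_mul_eq_mul_div, le_div_iff₀ hK]
  linarith [h1]

theorem main {n₁ n₂ : ℕ} (hn₁ : 1 ≤ n₁) (hn₂ : 1 ≤ n₂)
    {M₁ M₂ X Y : Type*} [MetricSpace M₁] [MetricSpace M₂] [MetricSpace X] [MetricSpace Y]
    (hM₁ : IsHyperbolicManifold n₁ M₁) (hM₂ : IsHyperbolicManifold n₂ M₂)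
    {L : ℝ} (hL : 0 < L) {σ₁ : ℝ → M₁} {σ₂ : ℝ → M₂} (hσ₁ : IsGeodesicOn σ₁ 0 L)
    (hσ₂ : IsGeodesicOn σ₂ 0 L) {j₁ : M₁ → X} {j₂ : M₂ → X} (hX : IsGluing L σ₁ σ₂ j₁ j₂)
    {π : Y → X} (hπ : IsUniversalCover π) {h : ℝ} {μ : Y → Measure (Bd Y)}
    (hμ : IsConformalDensity π h μ) {x₀ : Y} {m : Measure (GeodSpace X)}
    (hm : IsBowenMargulis π h μ x₀ m) : ¬ HasExpDecay m := by
  obtain ⟨ε, D, S, q, hs⟩ := exists_setup hn₁ hn₂ hM₁ hM₂ hL hσ₁ hσ₂ hX hπ
  have hB : IsBusemannConvex Y := hs.tree.busemannConvex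
  haveI := hs.compact
  have hε := hs.tree.eps_pos
  haveI : ProperSpace Y := hπ.properSpace hε hs.uniform
  set r : ℝ := min (min ε L) 1 / 64 with hr
  have hr0 : 0 < r := by positivity
  have h1 : 64 * r ≤ ε := by
    have := (min_le_left (min ε L) 1).trans (min_le_left ε L); linarith
  have h2 : 64 * r ≤ L := by
    have := (min_le_left (min ε L) 1).trans (min_le_right ε L); linarith
  have h3 : 64 * r ≤ 1 := by
    have := (min_le_right (min ε L) 1); linarith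
  have hg := isGate hs hB hr0 h1 h2 h3
  obtain ⟨o, ho⟩ := hπ.surjective (j₁ (σ₁ 0))
  refine not_hasExpDecay_of_gate hπ hB hg ho hμ hm ?_ ?_
  · exact lintegral_ne_zero_of_gate hπ hB hε hs.uniform hμ hg.α_cont (fun x => (hg.α_mem x).1)
      (fun ξ => exists_gate_toward hs hB hr0 h1 h2 h3 true ξ) ho
  · exact lintegral_ne_zero_of_gate hπ hB hε hs.uniform hμ hg.β_cont (fun x => (hg.β_mem x).1)
      (fun ξ => exists_gate_toward hs hB hr0 h1 h2 h3 false ξ) ho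

end MP4a77c6
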