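import Mathlib

open Real

namespace MP4a77c6

/-- The point of hyperbolic space `H^n` given by the horizontal coordinates `vec` of a point
`(√(1+‖vec‖²), vec)` of the upper sheet of the hyperboloid in `ℝ^{1,n}`. -/
structure Hyp (n : ℕ) where
  /-- the horizontal coordinates in the hyperboloid model -/
  vec : EuclideanSpace ℝ (Fin n)

/-- The Lorentz pairing `√(1+‖x‖²) √(1+‖y‖²) - ⟪x,y⟫` of two points of the hyperboloid. -/
noncomputable def Hyp.form {n : ℕ} (x y : Hyp n) : ℝ :=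
  √(1 + ‖x.vec‖ ^ 2) * √(1 + ‖y.vec‖ ^ 2) - inner ℝ x.vec y.vec

section form

variable {E : Type*} [NormedAddCommGroup E] [InnerProductSpace ℝ E]

lemma one_le_form_aux (x y : E) :
    1 ≤ √(1 + ‖x‖ ^ 2) * √(1 + ‖y‖ ^ 2) - inner ℝ x y := by
  have h1 : inner ℝ x y ≤ ‖x‖ * ‖y‖ := real_inner_le_norm x y
  have h2 : 1 + ‖x‖ * ‖y‖ ≤ √(1 + ‖x‖ ^ 2) * √(1 + ‖y‖ ^ 2) := by
    rw [← Real.sqrt_mul (by positivity)]
    apply Real.le_sqrt_of_sq_le
    nlinarith [sq_nonneg (‖x‖ - ‖y‖)]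
  linarith

lemma eq_of_form_aux (x y : E)
    (h : √(1 + ‖x‖ ^ 2) * √(1 + ‖y‖ ^ 2) - inner ℝ x y = 1) : x = y := by
  have h1 : inner ℝ x y ≤ ‖x‖ * ‖y‖ := real_inner_le_norm x y
  have h2 : 1 + ‖x‖ * ‖y‖ ≤ √(1 + ‖x‖ ^ 2) * √(1 + ‖y‖ ^ 2) := by
    rw [← Real.sqrt_mul (by positivity)]
    apply Real.le_sqrt_of_sq_le
    nlinarith [sq_nonneg (‖x‖ - ‖y‖)]
  have h3 : √(1 + ‖x‖ ^ 2) * √(1 + ‖y‖ ^ 2) = 1 + ‖x‖ * ‖y‖ := by linarith
  have h4 : inner ℝ x y = ‖x‖ * ‖y‖ := by linarith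
  have h5 : (1 + ‖x‖ ^ 2) * (1 + ‖y‖ ^ 2) = (1 + ‖x‖ * ‖y‖) ^ 2 := by
    rw [← h3, ← Real.sqrt_mul (by positivity), Real.sq_sqrt (by positivity)]
  have h6 : ‖x‖ = ‖y‖ := by
    have : (‖x‖ - ‖y‖) ^ 2 = 0 := by nlinarith
    have := pow_eq_zero_iff (two_ne_zero) |>.1 this
    linarith
  have h7 : ‖x - y‖ ^ 2 = 0 := by
    rw [norm_sub_sq_real, h4, h6]; ring
  have h8 : ‖x - y‖ = 0 := by
    exact pow_eq_zero_iff (two_ne_zero) |>.1 h7
  exact sub_eq_zero.1 (norm_eq_zero.1 h8)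

/-- Semi-definiteness of the Lorentz form on the orthogonal complement of a time-like vector. -/
lemma lorentz_nonneg (y w : E) (y0 w0 : ℝ) (hy : y0 ^ 2 = 1 + ‖y‖ ^ 2)
    (h : inner ℝ w y = w0 * y0) : w0 ^ 2 ≤ ‖w‖ ^ 2 := by
  have h1 : (w0 * y0) ^ 2 ≤ (‖w‖ * ‖y‖) ^ 2 := by
    rw [← h]
    have := abs_real_inner_le_norm w y
    calc (inner ℝ w y) ^ 2 = |inner ℝ w y| ^ 2 := (sq_abs _).symm
      _ ≤ _ := by gcongr
  have h2 : w0 ^ 2 * (1 + ‖y‖ ^ 2) ≤ ‖w‖ ^ 2 * (1 + ‖y‖ ^ 2) := by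
    rw [← hy]
    nlinarith [sq_nonneg ‖w‖, sq_nonneg ‖y‖]
  have h3 : 0 < 1 + ‖y‖ ^ 2 := by positivity
  exact le_of_mul_le_mul_right h2 h3

lemma form_triangle_aux (x y z : E) (x0 y0 z0 : ℝ) (hx : x0 ^ 2 = 1 + ‖x‖ ^ 2)
    (hy : y0 ^ 2 = 1 + ‖y‖ ^ 2) (hz : z0 ^ 2 = 1 + ‖z‖ ^ 2)
    (hu : 1 ≤ x0 * y0 - inner ℝ x y) (hv : 1 ≤ y0 * z0 - inner ℝ y z) :
    x0 * z0 - inner ℝ x z ≤ (x0 * y0 - inner ℝ x y) * (y0 * z0 - inner ℝ y z) +
      √((x0 * y0 - inner ℝ x y) ^ 2 - 1) * √((y0 * z0 - inner ℝ y z) ^ 2 - 1) := by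
  set u := x0 * y0 - inner ℝ x y with hu'
  set v := y0 * z0 - inner ℝ y z with hv'
  -- orthogonal projections
  have key : ∀ t : ℝ, 0 ≤ (u ^ 2 - 1) + 2 * t * (u * v - (x0 * z0 - inner ℝ x z)) +
      t ^ 2 * (v ^ 2 - 1) := by
    intro t
    have hw := lorentz_nonneg y ((x - u • y) + t • (z - v • y)) y0
      ((x0 - u * y0) + t * (z0 - v * y0)) hy (by
        simp only [inner_add_left, inner_sub_left, inner_smul_left, real_inner_self_eq_norm_sq,
          RCLike.conj_to_real]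
        have e1 : inner ℝ x y = x0 * y0 - u := by rw [hu']; ring
        have e2 : inner ℝ z y = y0 * z0 - v := by rw [hv', real_inner_comm]; ring
        rw [e1, e2]
        have : ‖y‖ ^ 2 = y0 ^ 2 - 1 := by linarith
        rw [this]; ring)
    have hn : ‖(x - u • y) + t • (z - v • y)‖ ^ 2 =
        inner ℝ ((x - u • y) + t • (z - v • y)) ((x - u • y) + t • (z - v • y)) :=
      (real_inner_self_eq_norm_sq _).symm
    rw [hn] at hw
    simp only [inner_add_left, inner_sub_left, inner_smul_left, inner_add_right, inner_sub_right,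
      inner_smul_right, real_inner_self_eq_norm_sq, RCLike.conj_to_real] at hw
    have e1 : inner ℝ x y = x0 * y0 - u := by rw [hu']; ring
    have e1' : inner ℝ y x = x0 * y0 - u := by rw [real_inner_comm]; exact e1
    have e2 : inner ℝ y z = y0 * z0 - v := by rw [hv']; ring
    have e2' : inner ℝ z y = y0 * z0 - v := by rw [real_inner_comm]; exact e2
    have e3 : inner ℝ z x = inner ℝ x z := real_inner_comm _ _
    have e4 : ‖y‖ ^ 2 = y0 ^ 2 - 1 := by linarith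
    have e5 : ‖x‖ ^ 2 = x0 ^ 2 - 1 := by linarith
    have e6 : ‖z‖ ^ 2 = z0 ^ 2 - 1 := by linarith
    rw [e1, e1', e2, e2', e3, e4, e5, e6] at hw
    nlinarith [hw]
  have hu1 : 0 ≤ u ^ 2 - 1 := by nlinarith
  have hv1 : 0 ≤ v ^ 2 - 1 := by nlinarith
  set w := x0 * z0 - inner ℝ x z with hw
  by_contra hcon
  push Not at hcon
  set p := √(u ^ 2 - 1) with hp
  set q := √(v ^ 2 - 1) with hq
  have hp2 : p ^ 2 = u ^ 2 - 1 := Real.sq_sqrt hu1
  have hq2 : q ^ 2 = v ^ 2 - 1 := Real.sq_sqrt hv1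
  have hp0 : 0 ≤ p := Real.sqrt_nonneg _
  have hq0 : 0 ≤ q := Real.sqrt_nonneg _
  have hd : 0 < w - u * v - p * q := by linarith
  rcases eq_or_lt_of_le hq0 with hq1 | hq1
  · -- q = 0
    have hv0 : v ^ 2 - 1 = 0 := by rw [← hq2, ← hq1]; ring
    have hd' : 0 < w - u * v := by rw [← hq1] at hd; linarith
    have := key ((u ^ 2 - 1 + 1) / (w - u * v))
    rw [hv0] at this
    have h3 : 2 * ((u ^ 2 - 1 + 1) / (w - u * v)) * (u * v - w) = - 2 * (u ^ 2 - 1 + 1) := by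
      field_simp
      ring
    rw [h3] at this
    nlinarith
  · have := key (p / q)
    have h3 : (p / q) ^ 2 * (v ^ 2 - 1) = p ^ 2 := by
      rw [← hq2]; field_simp
    rw [h3, ← hp2] at this
    have h4 : 0 ≤ p / q := by positivity
    rcases eq_or_lt_of_le hp0 with hp1 | hp1
    · -- p = 0
      have hd' : 0 < w - u * v := by rw [← hp1] at hd; linarith
      have hu0 : u ^ 2 - 1 = 0 := by rw [← hp2, ← hp1]; ring
      have := key ((w - u * v) / (v ^ 2 - 1))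
      rw [hu0] at this
      have hv2 : 0 < v ^ 2 - 1 := by rw [← hq2]; positivity
      have h5 : 2 * ((w - u * v) / (v ^ 2 - 1)) * (u * v - w) +
          ((w - u * v) / (v ^ 2 - 1)) ^ 2 * (v ^ 2 - 1) = - ((w - u * v) ^ 2 / (v ^ 2 - 1)) := by
        field_simp
        ring
      have h6 : 0 < (w - u * v) ^ 2 / (v ^ 2 - 1) := by positivity
      linarith
    · have h5 : p ^ 2 + 2 * (p / q) * (u * v - w) + p ^ 2 = 2 * (p / q) * (p * q + u * v - w) := by
        field_simp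
        ring
      rw [h5] at this
      have h6 : 0 < 2 * (p / q) := by positivity
      nlinarith

end form

lemma Hyp.one_le_form {n : ℕ} (x y : Hyp n) : 1 ≤ Hyp.form x y := one_le_form_aux _ _

/-- Hyperbolic space `H^n` with its metric of curvature `-1`: `cosh d(x,y) = form x y`. -/
noncomputable instance Hyp.instMetricSpace (n : ℕ) : MetricSpace (Hyp n) where
  dist x y := arcosh (Hyp.form x y)
  dist_self x := by
    have : Hyp.form x x = 1 := by
      unfold Hyp.form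
      rw [Real.mul_self_sqrt (by positivity), real_inner_self_eq_norm_sq]; ring
    rw [this]; exact arcosh_zero
  dist_comm x y := by
    have : Hyp.form x y = Hyp.form y x := by
      unfold Hyp.form
      rw [real_inner_comm, mul_comm]
    rw [this]
  dist_triangle x y z := by
    have hx := Hyp.one_le_form x y
    have hy := Hyp.one_le_form y z
    have hz := Hyp.one_le_form x z
    rw [← arcosh_cosh (add_nonneg (arcosh_nonneg hx) (arcosh_nonneg hy)),
      arcosh_le_arcosh (by linarith) (by positivity), cosh_add, cosh_arcosh hx, cosh_arcosh hy,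
      sinh_arcosh hx, sinh_arcosh hy]
    exact form_triangle_aux x.vec y.vec z.vec _ _ _ (Real.sq_sqrt (by positivity))
      (Real.sq_sqrt (by positivity)) (Real.sq_sqrt (by positivity)) hx hy
  eq_of_dist_eq_zero := by
    intro x y h
    have h1 := (arcosh_eq_zero_iff (Hyp.one_le_form x y)).1 h
    have h2 := eq_of_form_aux x.vec y.vec h1
    cases x; cases y; simp_all

lemma Hyp.cosh_dist {n : ℕ} (x y : Hyp n) : cosh (dist x y) = Hyp.form x y :=
  cosh_arcosh (Hyp.one_le_form x y)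

end MP4a77c6
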