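import Pool.Agent.Lib.MP_4a77c6_an.Defs

/-! Internal interfaces of the proof (not part of the final statement). -/

open Set Metric MeasureTheory Filter Topology
open scoped ENNReal NNReal

namespace MP4a77c6

/-- The properties of hyperbolic space used in the geometric part. -/
structure HypLike (H : Type*) [MetricSpace H] : Prop where
  /-- any two points lie on a complete geodesic line -/
  line : ∀ x y : H, ∃ g : ℝ → H, Isometry g ∧ g 0 = x ∧ g (dist x y) = y
  /-- hyperbolic law of cosines in the form: `t ↦ cosh d(A, g t)` is a combination of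
  `cosh t` and `sinh t` for every geodesic line `g` -/
  hl : ∀ g : ℝ → H, Isometry g → ∀ A : H, ∃ C : ℝ, ∀ t : ℝ,
    Real.cosh (dist A (g t)) = Real.cosh (dist A (g 0)) * Real.cosh t - C * Real.sinh t

/-- `m` is a midpoint of `x` and `y`. -/
def IsMid {Y : Type*} [MetricSpace Y] (m x y : Y) : Prop :=
  dist x m = dist x y / 2 ∧ dist m y = dist x y / 2

/-- `c` restricted to `[a,b]` is a local geodesic. -/
def IsLocalGeodesicOn {Y : Type*} [MetricSpace Y] (c : ℝ → Y) (a b : ℝ) : Prop :=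
  ∀ t ∈ Icc a b, ∃ ε > 0, ∀ s ∈ Icc a b, ∀ s' ∈ Icc a b, |s - t| ≤ ε → |s' - t| ≤ ε →
    dist (c s) (c s') = |s - s'|

/-- Busemann convexity, for local geodesics. -/
def IsBusemannConvex (Y : Type*) [MetricSpace Y] : Prop :=
  ∀ (c c' : ℝ → Y) (a b : ℝ), 0 ≤ a → 0 ≤ b → IsLocalGeodesicOn c 0 a →
    IsLocalGeodesicOn c' 0 b → ∀ l ∈ Icc (0 : ℝ) 1,
      dist (c (l * a)) (c' (l * b)) ≤ (1 - l) * dist (c 0) (c' 0) + l * dist (c a) (c' b)

open Classical in
/-- A geodesic from `x` to `y` (defined on `[0, dist x y]`). -/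
noncomputable def geo {Y : Type*} [MetricSpace Y] (x y : Y) : ℝ → Y :=
  if h : ∃ c : ℝ → Y, IsGeodesicOn c 0 (dist x y) ∧ c 0 = x ∧ c (dist x y) = y
  then Classical.choose h else fun _ => x

/-- `π` is an isometry from the `ε`-ball about `y` onto the `ε`-ball about `π y`, for all `y`. -/
def IsUniformCover {Y X : Type*} [MetricSpace Y] [MetricSpace X] (π : Y → X) (ε : ℝ) : Prop :=
  ∀ y, (∀ a ∈ ball y ε, ∀ b ∈ ball y ε, dist (π a) (π b) = dist a b) ∧
    ∀ x ∈ ball (π y) ε, ∃ a ∈ ball y ε, π a = x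

/-- The lifts to `Y` of the map `q : H → X`. -/
def lifts {Y X H : Type*} [TopologicalSpace Y] [TopologicalSpace H] (π : Y → X) (q : H → X) :
    Set (H → Y) := {Λ | Continuous Λ ∧ ∀ x, π (Λ x) = q x}

/-- The lifts to `Y` of the path `σ : [0,L] → X`. -/
def wallLifts {Y X : Type*} [TopologicalSpace Y] (π : Y → X) (σ : ℝ → X) (L : ℝ) :
    Set (ℝ → Y) := {τ | ContinuousOn τ (Icc 0 L) ∧ ∀ s ∈ Icc 0 L, π (τ s) = σ s}

/-- The tree-like decomposition of `Y` into isometric copies (sheets) of `H^{n true}` and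
`H^{n false}`, glued along geodesic segments of length `L` (walls). -/
structure IsSheetTree {Y : Type*} [MetricSpace Y] (n : Bool → ℕ) (L ε : ℝ)
    (reg : Bool → Set Y) (sheets : ∀ i, Set (Hyp (n i) → Y)) (walls : Set (ℝ → Y)) : Prop where
  n_pos : ∀ i, 1 ≤ n i
  L_pos : 0 < L
  eps_pos : 0 < ε
  geodesic : IsGeodesicSpace Y
  reg_closed : ∀ i, IsClosed (reg i)
  reg_cover : ∀ y, y ∈ reg true ∨ y ∈ reg false
  sheet_isometry : ∀ i, ∀ Λ ∈ sheets i, Isometry Λ
  sheet_reg : ∀ i, ∀ Λ ∈ sheets i, range Λ ⊆ reg i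
  sheet_exists : ∀ i, ∀ y ∈ reg i, ∃ Λ ∈ sheets i, y ∈ range Λ
  sheet_near : ∀ i, ∀ Λ ∈ sheets i, ∀ y ∈ range Λ, reg i ∩ ball y ε ⊆ range Λ
  retraction : ∀ i, ∀ Λ ∈ sheets i, ∃ R : Y → Hyp (n i), LipschitzWith 1 R ∧ ∀ x, R (Λ x) = x
  wall_geod : ∀ τ ∈ walls, IsGeodesicOn τ 0 L
  wall_reg : ∀ τ ∈ walls, ∀ s ∈ Icc 0 L, ∀ i, τ s ∈ reg i
  wall_exists : ∀ y, y ∈ reg true → y ∈ reg false → ∃ τ ∈ walls, y ∈ τ '' Icc 0 L
  separation : ∀ τ ∈ walls, ∃ V : Bool → Set Y, (∀ i, IsOpen (V i)) ∧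
    Disjoint (V true) (V false) ∧ V true ∪ V false = (τ '' Icc 0 L)ᶜ ∧
    ∀ i, ∀ Λ ∈ sheets i, τ '' Icc 0 L ⊆ range Λ → range Λ ⊆ V i ∪ τ '' Icc 0 L

/-- All the geometric data: `X = S true ∪ S false` glued along `σ`, `π : Y → X` its universal
covering, `q i : H^{n i} → X` the locally isometric maps onto `S i`. -/
structure IsSetup {Y X : Type*} [MetricSpace Y] [MetricSpace X] (n : Bool → ℕ) (L ε D : ℝ)
    (S : Bool → Set X) (q : ∀ i, Hyp (n i) → X) (σ : ℝ → X) (π : Y → X) : Prop where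
  compact : CompactSpace X
  geodesicX : IsGeodesicSpace X
  cover : IsUniversalCover π
  uniform : IsUniformCover π ε
  closed : ∀ i, IsClosed (S i)
  inter : S true ∩ S false = σ '' Icc 0 L
  union : S true ∪ S false = univ
  geod : IsGeodesicOn σ 0 L
  tree : IsSheetTree n L ε (fun i => π ⁻¹' (S i)) (fun i => lifts π (q i)) (wallLifts π σ L)
  dense : ∀ i, ∀ Λ ∈ lifts π (q i), ∀ x, ∃ τ ∈ wallLifts π σ L,
    τ 0 ∈ range Λ ∧ dist (Λ x) (τ 0) ≤ D

open Classical in
/-- The weight functions defining the gates: on the side `S`, near `p`, this is positive exactly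
in the directions making an angle `> π/2` with the segment from `p` to `q`. -/
noncomputable def wt {X : Type*} [MetricSpace X] (S : Set X) (p q : X) (s : ℝ) (x : X) : ℝ :=
  if x ∈ S then
    min 1 (max 0 (Real.cosh (dist x q) - Real.cosh (dist x p) * Real.cosh s)) else 0

end MP4a77c6
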